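import Pool.Agent.P.MP_b01859_ag.SD.Base

/-!
The statements of the steps.
-/

namespace Pool.Agent.P.MP_b01859_ag.SD

open MvPolynomial Filter

-- deps:
def S_POLY : Prop :=
  (∀ (r : ℕ) (f : ℤ → ℤ), Ev0 r f → ∃ P : Polynomial ℂ, P.degree < r ∧ EvP f P) ∧
  (∀ (r : ℕ) (f : ℤ → ℤ) (P : Polynomial ℂ), EvP f P → (Ev0 r f ↔ P.degree < r)) ∧
  (∀ (r : ℕ) (f : ℤ → ℤ) (P : Polynomial ℂ), EvP f P → P.natDegree ≤ r →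
    ∀ᶠ t in atTop, (dl^[r] f t : ℂ) = r.factorial * P.coeff r) ∧
  (∀ (f : ℤ → ℤ) (P Q : Polynomial ℂ), EvP f P → EvP f Q → P = Q) ∧
  ∀ (r : ℕ) (f : ℤ → ℤ) (P : Polynomial ℂ), EvP f P →
    EvP (dl^[r] f) ((fun Q => Q - sh (-1) Q)^[r] P)

-- deps:
def S_GROW : Prop :=
  (∀ (r : ℕ) (f : ℤ → ℤ), (∀ᶠ t in atTop, 0 ≤ f t) → Ev0 (r + 1) f →
    ∀ᶠ t in atTop, 0 ≤ dl^[r] f t) ∧
  (∀ (N r : ℕ) (f g : ℤ → ℤ), (∀ᶠ t in atTop, 0 ≤ f t ∧ f t ≤ g t) → Ev0 N f → Ev0 r g →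
    Ev0 r f) ∧
  (∀ (r : ℕ) (f : ℤ → ℤ), (∀ᶠ t in atTop, 0 < dl^[r] f t) → ∀ᶠ t in atTop, 0 < f t) ∧
  ∀ (r : ℕ) (f : ℤ → ℤ), Ev0 (r + 1) f → ∃ δ : ℤ, ∀ᶠ t in atTop, dl^[r] f t = δ

-- deps:
def S_BN : Prop :=
  (∀ n, dl (bn (n + 1)) = bn n) ∧ (∀ n t, dl^[n + 1] (bn n) t = if t = 0 then 1 else 0) ∧
  (∀ n, EvP (bn n) (bp n)) ∧
  (∀ n, (bp n).natDegree = n ∧ (bp n).coeff n = (n.factorial : ℂ)⁻¹) ∧ (∀ n, Monotone (bn n)) ∧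
  (∀ n, ∀ᶠ t in atTop, dl^[n] (bn n) t = 1) ∧
  ∀ (σ : Type) [Fintype σ] (n : ℕ), Fintype.card σ = n + 1 →
    hd (SS σ) = bn n ∧ hq (⊥ : Ideal (Pol σ)) = bn n

-- deps:
def S_GF : Prop := ∀ (r : ℕ) (f g : ℤ → ℤ), Bdd f → Bdd g →
  dl^[r] (conv f g) = conv (dl^[r] f) g

-- deps: BN GF
-- imports: Pool.Agent.P.MP_b01859_ag.SD.Mom
def S_RRN : Prop := ∀ (n : ℕ) (h : ℤ → ℤ) (g : ℤ), 2 ≤ n → Bdd h → Ev0 (n + 1) h →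
  (∀ᶠ t in atTop, 0 ≤ dl^[n] h t) →
  (∀ᶠ t in atTop, dl^[n + 1] (conv h h) t - pl^[n + 1] (dbl h) t = 2 * bn n (t - g)) →
  ∃ c₂ : ℤ, ∀ a b : ℂ, a + b = -g → a * b = c₂ → ∀ P : Polynomial ℂ, P.natDegree ≤ n → ∀ x : ℂ,
    ∑ᶠ i : ℤ, (dl^[n + 1] h i : ℂ) * P.eval (x - i) = P.eval (x + a) + P.eval (x + b)

-- deps:
-- imports: Pool.Agent.P.MP_b01859_ag.SD.NT
def S_DISC : Prop := ∀ (n : ℕ) (c₁ c₂ : ℤ) (a b : ℂ), 5 ≤ n → a + b = c₁ → a * b = c₂ →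
  c₁ ^ 2 < 4 * c₂ → (∀ j : ℕ, j ≤ n → ∀ t : ℤ, ∃ z : ℤ,
    ∏ i ∈ Finset.range j, (a + t - i) + ∏ i ∈ Finset.range j, (b + t - i) = j.factorial * z) →
  (n : ℤ) ^ 2 ≤ 6 * (4 * c₂ - c₁ ^ 2)

-- deps:
-- imports: Pool.Agent.P.MP_b01859_ag.SD.Ar
def S_FINB : Prop := ∀ (n : ℕ) (c₁ c₂ : ℤ), 5 ≤ n →
  (c₁ ^ 2 < 4 * c₂ → (n : ℤ) ^ 2 ≤ 6 * (4 * c₂ - c₁ ^ 2) →
    (∀ j, j + 1 ≤ n - 2 → 0 ≤ hs c₁ c₂ (j + 1)) → (n : ℤ) ^ 2 * c₁ < 50 * c₂) ∧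
  (∀ k κ : ℤ, 4 * c₂ ≤ c₁ ^ 2 → c₁ ≤ 2 * k → 0 < k ^ 2 - c₁ * k + c₂ →
    k + ((n - 1) / 4 : ℕ) ≤ κ →
    (∀ j, j + 1 ≤ n - 2 - 2 * ((n - 1) / 4) → κ * hs c₁ c₂ j ≤ hs c₁ c₂ (j + 1)) →
    (n : ℤ) ^ 2 * c₁ < 50 * c₂) ∧
  ∀ k : ℤ, (n : ℤ) ^ 2 * c₁ < 50 * c₂ → 0 ≤ hs c₁ c₂ 1 → 0 ≤ hs c₁ c₂ 2 →
    (k < 0 ∨ ∃ κ, k ≤ κ ∧ κ * hs c₁ c₂ 1 ≤ hs c₁ c₂ 2) → (n : ℤ) ^ 2 < 50 * (c₁ - k)

-- deps: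
-- imports: Pool.Agent.P.MP_b01859_ag.SD.Pos
def S_C1 : Prop := ∀ (τ R V : Type) [Fintype τ] [CommRing R] [Algebra ℂ R]
  [AddCommGroup V] [Module ℂ V] [Module R V] [IsScalarTower ℂ R V] (x : τ → R)
  (K : ℤ → Submodule ℂ V), Sub x (w1 τ) K → Cl x (w1 τ) K →
  (Ev0 (Fintype.card τ) (hd K) ∧ Pos (hd K)) ∧
  ∀ K' : ℤ → Submodule ℂ V, Cl x (w1 τ) K' → (∀ t, K' t ≤ K t) →
    (Ev0 (Fintype.card τ) (fun t => hd K t - hd K' t) ∧ Pos fun t => hd K t - hd K' t) ∧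
    (∀ A : Finset τ, (∀ i, i ∉ A → ∀ t, ∀ v ∈ K t, ∃ k : ℕ, x i ^ k • v ∈ K' (t + k)) →
      Ev0 A.card fun t => hd K t - hd K' t) ∧
    ((∀ i t, ∀ v ∈ K t, ∃ k : ℕ, x i ^ k • v ∈ K' (t + k)) → ∀ᶠ t in atTop, K' t = K t)

-- deps:
-- imports: Pool.Agent.P.MP_b01859_ag.SD.Pos
def S_C2 : Prop := ∀ (σ Λ R V : Type) [Fintype σ] [Fintype Λ] [CommRing R] [Algebra ℂ R]
  [AddCommGroup V] [Module ℂ V] [Module R V] [IsScalarTower ℂ R V] (x : σ ⊕ Λ → R)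
  (K : ℤ × ℤ → Submodule ℂ V), Sub x (wb σ Λ) K → Cl x (wb σ Λ) K → Pos2 (hd K) ∧
  ∀ K' : ℤ × ℤ → Submodule ℂ V, Cl x (wb σ Λ) K' → (∀ g, K' g ≤ K g) →
    Pos2 fun g => hd K g - hd K' g

-- deps:
def S_NULL : Prop := ∀ (σ Λ : Type) [Fintype σ] [Fintype Λ] (p : Ideal (Pol σ)) (f : Λ → Pol σ)
  (d : Λ → ℤ), HomI p → (∀ l, Hom (f l) (d l)) →
  (∀ y : σ → ℂ, y ≠ 0 → (∀ h ∈ p, eval y h = 0) → ∃ l, eval y (f l) ≠ 0) →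
  ∀ᶠ t in atTop, ∀ h, Hom h t →
    ∃ u : Λ → Pol σ, (∀ l, Hom (u l) (t - d l)) ∧ h - ∑ l, u l * f l ∈ p

-- deps:
def S_TEN : Prop := ∀ (V W Z : Type) [AddCommGroup V] [Module ℂ V] [AddCommGroup W] [Module ℂ W]
  [AddCommGroup Z] [Module ℂ Z] (β : V →ₗ[ℂ] W →ₗ[ℂ] Z),
  Function.Injective (TensorProduct.lift β) →
  ∀ (A : ℤ → Submodule ℂ V) (B : ℤ → Submodule ℂ W), iSupIndep A →
  (∀ t, FiniteDimensional ℂ (A t)) → (∀ t, FiniteDimensional ℂ (B t)) →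
  (∃ b, ∀ t, t < b → A t = ⊥ ∧ B t = ⊥) →
  hd (fun t => ⨆ i, Submodule.map₂ β (A i) (B (t - i))) = conv (hd A) (hd B)

-- deps: TEN
def S_TEN2 : Prop := ∀ (V Z : Type) [AddCommGroup V] [Module ℂ V]
  [AddCommGroup Z] [Module ℂ Z] (β : V →ₗ[ℂ] V →ₗ[ℂ] Z),
  Function.Injective (TensorProduct.lift β) → ∀ s : Module.End ℂ Z, (∀ v w, s (β v w) = β w v) →
  ∀ A : ℤ → Submodule ℂ V, iSupIndep A → (∀ t, FiniteDimensional ℂ (A t)) →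
  (∃ b, ∀ t, t < b → A t = ⊥) → ∀ t,
    hd (fun t => (⨆ i, Submodule.map₂ β (A i) (A (t - i))) ⊓ s.eigenspace 1) t +
      hd (fun t => (⨆ i, Submodule.map₂ β (A i) (A (t - i))) ⊓ s.eigenspace (-1)) t =
        conv (hd A) (hd A) t ∧
    hd (fun t => (⨆ i, Submodule.map₂ β (A i) (A (t - i))) ⊓ s.eigenspace 1) t -
      hd (fun t => (⨆ i, Submodule.map₂ β (A i) (A (t - i))) ⊓ s.eigenspace (-1)) t =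
        dbl (hd A) t

-- deps: TEN
def S_TENS : Prop := ∀ (σ ι R : Type) [Fintype σ] [DecidableEq σ] [Fintype ι] [CommRing R]
  [Algebra ℂ R] (T : VB σ ι) (γ : ι → ℤ) (g : ℤ) (x : σ → R) (N : ℤ → Submodule ℂ R),
  Gr (w1 σ) γ g T.ω → Sub x (w1 σ) N → hd (U1 T γ x N ∅) = conv (hM T γ) (hd N)

-- deps:
def S_D1E : Prop := ∀ (σ ι R : Type) [Fintype σ] [DecidableEq σ] [Fintype ι] [CommRing R]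
  [Algebra ℂ R] (T : VB σ ι) (γ : ι → ℤ) (x : σ → R) (N : ℤ → Submodule ℂ R),
  hd (U1 T γ x N Finset.univ) = hd (EN T γ x N)

-- deps:
def S_D1F : Prop := ∀ (σ R : Type) [Fintype σ] [DecidableEq σ] [CommRing R]
  [Algebra ℂ R] (x : σ → R) (N : ℤ → Submodule ℂ R) (J : Finset σ),
  Cl x (w1 σ) N → Sub x (w1 σ) N →
  Cl (Sum.elim (xJ x J) fun i => C (x i)) (w1 (σ ⊕ σ)) (FJ N J) ∧
  Sub (Sum.elim (xJ x J) fun i => C (x i)) (w1 (σ ⊕ σ)) (FJ N J) ∧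
  ∀ j, j ∉ J → ∀ t, (∀ f ∈ FJ N J t, aeval (xJ x {j}) f ∈ FJ N (insert j J) t) ∧
    (∀ f ∈ FJ N (insert j J) t, f ∈ FJ N J t ∧ aeval (xJ x {j}) f = f) ∧
    ∀ f ∈ FJ N J t, aeval (xJ x {j}) f = 0 → ∃ f' ∈ FJ N J (t - 1), f = (X j - C (x j)) * f'

-- deps: C1 NULL D1F
def S_D1S : Prop := ∀ (σ ι R : Type) [Fintype σ] [DecidableEq σ] [Fintype ι] [CommRing R]
  [Algebra ℂ R] (T : VB σ ι) (γ : ι → ℤ) (g : ℤ) (x : σ → R) (N : ℤ → Submodule ℂ R),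
  Gr (w1 σ) γ g T.ω → Cl x (w1 σ) N → Sub x (w1 σ) N → ∀ (J : Finset σ) (j : σ), j ∉ J →
  Ev0 (Fintype.card σ - (J.card + 1)) fun t =>
    dl (hd (U1 T γ x N J)) t - hd (U1 T γ x N (insert j J)) t

-- deps: TENS D1E D1S
def S_DIAG1 : Prop := ∀ (σ ι R : Type) [Fintype σ] [Fintype ι] [CommRing R]
  [Algebra ℂ R] (T : VB σ ι) (γ : ι → ℤ) (g : ℤ) (x : σ → R) (N : ℤ → Submodule ℂ R),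
  Gr (w1 σ) γ g T.ω → Cl x (w1 σ) N → Sub x (w1 σ) N →
  ∀ᶠ t in atTop, hd (EN T γ x N) t = dl^[Fintype.card σ] (conv (hM T γ) (hd N)) t

-- deps: TEN2
def S_TENS2 : Prop := ∀ (σ ι : Type) [Fintype σ] [DecidableEq σ] [Fintype ι] (T : VB σ ι)
  (γ : ι → ℤ) (g : ℤ), Gr (w1 σ) γ g T.ω → ∀ t,
  hd (U2e T γ ∅ 1) t + hd (U2e T γ ∅ (-1)) t = conv (hM T γ) (hM T γ) t ∧
  hd (U2e T γ ∅ 1) t - hd (U2e T γ ∅ (-1)) t = dbl (hM T γ) t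

-- deps: NULL
def S_D2N : Prop := ∀ (σ ι : Type) [Fintype σ] [DecidableEq σ] [Fintype ι] (T : VB σ ι)
  (γ : ι → ℤ) (g : ℤ), Gr (w1 σ) γ g T.ω → ∀ (J : Finset σ) (j : σ), j ∉ J →
  ∀ (u : σ ⊕ σ) (t : ℤ), ∀ ψ ∈ U2 T γ J t, (∀ a, aeval (zJ {j}) (ψ a) = 0) →
  ∃ k : ℕ, ∃ ψ' ∈ U2 T γ J (t + k - 1),
    zJ J u ^ k • ψ = (X (Sum.inl j) - X (Sum.inr j) : Pol (σ ⊕ σ)) • ψ'

-- deps: C1 D2N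
def S_D2K : Prop := ∀ (σ ι : Type) [Fintype σ] [DecidableEq σ] [Fintype ι] (T : VB σ ι)
  (γ : ι → ℤ) (g : ℤ), Gr (w1 σ) γ g T.ω → ∀ (J : Finset σ) (j : σ), j ∉ J →
  (∀ t, FiniteDimensional ℂ (U2 T γ J t)) ∧
  ∀ᶠ t in atTop, ∀ ψ ∈ U2 T γ J t, (∀ a, aeval (zJ {j}) (ψ a) = 0) →
    ∃ ψ' ∈ U2 T γ J (t - 1), ψ = (X (Sum.inl j) - X (Sum.inr j) : Pol (σ ⊕ σ)) • ψ'

-- deps: D2K
def S_D2S : Prop := ∀ (σ ι : Type) [Fintype σ] [DecidableEq σ] [Fintype ι] (T : VB σ ι)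
  (γ : ι → ℤ) (g : ℤ), Gr (w1 σ) γ g T.ω → ∀ (J : Finset σ) (j : σ), j ∉ J →
  ∀ ε : ℂ, ε = 1 ∨ ε = -1 → ∀ᶠ t in atTop,
    hd (U2e T γ (insert j J) ε) t = hd (U2e T γ J ε) t - hd (U2e T γ J (-ε)) (t - 1)

-- deps: NULL BN
def S_D2E : Prop := ∀ (σ ι : Type) [Fintype σ] [DecidableEq σ] [Fintype ι] (T : VB σ ι)
  (γ : ι → ℤ) (g : ℤ) (n : ℕ), Fintype.card σ = n + 1 → 1 ≤ n → Gr (w1 σ) γ g T.ω →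
  ∀ᶠ t in atTop, hd (U2e T γ Finset.univ (-1)) t = bn n (t - g)

-- deps: TENS2 D2S D2E
def S_DIAG2 : Prop := ∀ (σ ι : Type) [Fintype σ] [Fintype ι] (T : VB σ ι)
  (γ : ι → ℤ) (g : ℤ) (n : ℕ), Fintype.card σ = n + 1 → 1 ≤ n → Gr (w1 σ) γ g T.ω →
  ∀ᶠ t in atTop, dl^[n + 1] (conv (hM T γ) (hM T γ)) t - pl^[n + 1] (dbl (hM T γ)) t =
    2 * bn n (t - g)

-- deps: DIAG1 DIAG2 RRN GF C1 POLY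
-- imports: Pool.Agent.P.MP_b01859_ag.SD.Mom
def S_CHERN : Prop := ∀ (σ ι : Type) [Fintype σ] [Fintype ι] (T : VB σ ι)
  (γ : ι → ℤ) (g : ℤ) (n : ℕ), Fintype.card σ = n + 1 → 5 ≤ n → Gr (w1 σ) γ g T.ω →
  ∃ (c₂ : ℤ) (a b : ℂ), Ch n T γ g c₂ a b ∧ ∀ j : ℕ, j ≤ n → ∀ t : ℤ, ∃ z : ℤ,
    ∏ i ∈ Finset.range j, (a + t - i) + ∏ i ∈ Finset.range j, (b + t - i) = j.factorial * z

-- deps: C1 GROW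
def S_HQ : Prop := ∀ (σ : Type) [Fintype σ],
  (∀ I : Ideal (Pol σ), Ev0 (Fintype.card σ) (hq I) ∧ Pos (hq I)) ∧ HomI (⊥ : Ideal (Pol σ)) ∧
  (∀ (Λ : Type) (p : Ideal (Pol σ)) (f : Λ → Pol σ) (d : Λ → ℤ), HomI p →
    (∀ l, Hom (f l) (d l)) → HomI (p ⊔ Ideal.span (Set.range f))) ∧
  (∀ (p : Ideal (Pol σ)) (r : ℕ), DimGe p r → ∃ i, X i ∉ p) ∧
  (∀ (p : Ideal (Pol σ)) (r r' : ℕ), r' ≤ r → Var p r → Var p r') ∧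
  ∀ (p : Ideal (Pol σ)) (r : ℕ), DimGe p r → ∃ (w : ℕ) (δ : ℤ), r ≤ w ∧ 0 < δ ∧
    Ev0 (w + 1) (hq p) ∧ ∀ᶠ t in atTop, dl^[w] (hq p) t = δ

-- deps: NULL
def S_PT : Prop := ∀ (σ : Type) [Fintype σ] (p : Ideal (Pol σ)), HomI p → DimGe p 0 →
  ∃ y : σ → ℂ, y ≠ 0 ∧ ∀ h ∈ p, eval y h = 0

-- deps: HQ
def S_PRIME : Prop := ∀ (σ : Type) [Fintype σ] (I : Ideal (Pol σ)) (r : ℕ), HomI I → DimGe I r →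
  ∃ p, I ≤ p ∧ Var p r

-- deps: C1 NULL
def S_WD : Prop := ∀ (σ ι R : Type) [Fintype σ] [Fintype ι] [CommRing R]
  [Algebra ℂ R] (T : VB σ ι) (γ : ι → ℤ) (g : ℤ) (x : σ → R) (N : ℤ → Submodule ℂ R),
  Gr (w1 σ) γ g T.ω → Cl x (w1 σ) N → Sub x (w1 σ) N →
  ∀ᶠ t in atTop, EN T γ x N t = WN T γ g x N t

-- deps:
def S_ALGB : Prop := ∀ (σ ι Λ : Type) [Fintype σ] [Fintype ι] [Fintype Λ] (p : Ideal (Pol σ))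
  (v : Λ → ι → Pol σ),
  (∀ m : ℤ, Cl (xb ι p) (w1 σ) (Al p v m) ∧ Sub (xb ι p) (w1 σ) (Al p v m)) ∧
  hd (Al p v 0) = hq p ∧ (∀ m t : ℤ, m < 0 ∨ t < 0 → Al p v m t = ⊥) ∧
  (∀ (m : ℕ) (t : ℤ), Al p v m t = Submodule.span ℂ {z | ∃ (f : Pol σ) (e : Fin m → Λ),
    Hom f t ∧ z = C (Ideal.Quotient.mk p f) * ∏ i, lf p (v (e i))}) ∧
  (∀ m t l, ∀ z ∈ Al p v m t, lf p (v l) * z ∈ Al p v (m + 1) t) ∧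
  ∀ m t d f, Hom f d → ∀ z ∈ Al p v m t, C (Ideal.Quotient.mk p f) * z ∈ Al p v m (t + d)

-- deps: ALGB
def S_ALGD : Prop := ∀ (σ ι Λ : Type) [Fintype σ] [Fintype ι] [Fintype Λ] (T : VB σ ι)
  (γ : ι → ℤ) (p : Ideal (Pol σ)) (v : Λ → ι → Pol σ) (α : ℤ), (∀ l, SecW T γ p (v l) α) →
  ∀ m t : ℤ, ∀ z ∈ Al p v m t, (∀ a, pderiv a z ∈ Al p v (m - 1) (t + γ a + α)) ∧
    (∀ i j k, aeval (xb ι p) (T.ω i j) * pderiv k z - aeval (xb ι p) (T.ω i k) * pderiv j z +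
      aeval (xb ι p) (T.ω j k) * pderiv i z = 0) ∧
    ∑ a, X a * pderiv a z = (m : ℂ) • z

-- deps: WD ALGB ALGD HQ
def S_SYM0 : Prop := ∀ (σ ι Λ : Type) [Fintype σ] [Fintype ι] [Fintype Λ] (T : VB σ ι)
  (γ : ι → ℤ) (g : ℤ) (p : Ideal (Pol σ)) (v : Λ → ι → Pol σ) (α : ℤ), Gr (w1 σ) γ g T.ω →
  Var p 0 → (∀ l, SecW T γ p (v l) α) → ∀ m : ℤ, ∀ᶠ t in atTop,
    hd (EN T γ (xb ι p) (Al p v m)) t = hd (ZN T γ g p (Al p v m)) t + hd (DN γ p (Al p v m)) t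

-- deps: C1 ALGB ALGD
def S_SYP1 : Prop := ∀ (σ ι Λ : Type) [Fintype σ] [Fintype ι] [Fintype Λ] (T : VB σ ι)
  (γ : ι → ℤ) (g : ℤ) (p : Ideal (Pol σ)) (v : Λ → ι → Pol σ) (α : ℤ),
  (∀ l, SecW T γ p (v l) α) → ∀ m : ℤ, 0 ≤ m →
    Pos fun t => hd (ZN T γ g p (Al p v m)) t - hd (Al p v (m + 1)) (t - g - α)

-- deps: C1 ALGB ALGD GROW
def S_SYP2 : Prop := ∀ (σ ι Λ : Type) [Fintype σ] [Fintype ι] [Fintype Λ] (T : VB σ ι)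
  (γ : ι → ℤ) (p : Ideal (Pol σ)) (v : Λ → ι → Pol σ) (α : ℤ) (r : ℕ), HomI p →
  (∀ l, SecW T γ p (v l) α) → PropW p v → Ev0 r (hq (ZI p v)) → ∀ m : ℤ, 1 ≤ m →
    Ev0 r fun t => hd (Al p v (m - 1)) (t + α) - hd (DN γ p (Al p v m)) t

-- deps: C1 NULL ALGB ALGD HQ
def S_SYG1 : Prop := ∀ (σ ι Λ : Type) [Fintype σ] [Fintype ι] [Fintype Λ] (T : VB σ ι)
  (γ : ι → ℤ) (g : ℤ) (p : Ideal (Pol σ)) (v : Λ → ι → Pol σ) (α : ℤ),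
  Var p 0 → (∀ l, SecW T γ p (v l) α) → GenW p v → ∀ m : ℤ, 0 ≤ m → ∀ᶠ t in atTop,
    hd (ZN T γ g p (Al p v m)) t = hd (Al p v (m + 1)) (t - g - α)

-- deps: C1 NULL ALGB ALGD HQ
def S_SYG2 : Prop := ∀ (σ ι Λ : Type) [Fintype σ] [Fintype ι] [Fintype Λ] (T : VB σ ι)
  (γ : ι → ℤ) (p : Ideal (Pol σ)) (v : Λ → ι → Pol σ) (α : ℤ),
  Var p 0 → (∀ l, SecW T γ p (v l) α) → GenW p v → ∀ m : ℤ, 0 ≤ m → ∀ᶠ t in atTop,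
    hd (DN γ p (Al p v m)) t = hd (Al p v (m - 1)) (t + α)

-- deps: ALGB
def S_SAND : Prop := ∀ (σ ι Λ : Type) [Fintype σ] [Fintype ι] [Fintype Λ]
  (γ : ι → ℤ) (p : Ideal (Pol σ)) (v : Λ → ι → Pol σ) (α : ℤ), p.IsPrime →
  (∀ l a, Hom (v l a) (γ a + α)) → PropW p v → (∃ l a, v l a ∉ p) → ∀ m : ℤ, 0 ≤ m →
    ∃ e : ℤ, ∀ t, hq p t ≤ hd (Al p v m) t ∧ hd (Al p v m) t ≤ hq p (t + e)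

-- deps: POLY
def S_STEPN : Prop := ∀ (h : ℤ × ℤ → ℤ) (e : ℤ → ℤ → ℤ) (P : ℤ → Polynomial ℂ) (r : ℕ)
  (δ g c₂ α : ℤ) (a b : ℂ), a + b = -g → a * b = c₂ → 0 < δ → 2 * α + g ≤ 0 →
  (∀ m, 0 ≤ m → EvP (fun t => h (m, t)) (P m) ∧ EvP (e m) (sh a (P m) + sh b (P m)) ∧
    ∀ᶠ t in atTop, dl^[r + 2] (fun t => h (m, t)) t = δ) → Pos2 h →
  (∀ m, 1 ≤ m → ∀ᶠ t in atTop,
    0 ≤ dl^[r] (fun t => e m t - h (m + 1, t - g - α) - h (m - 1, t + α)) t) →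
  qq g c₂ α ≤ 0

-- deps: HQ ALGB C1 C2 POLY GROW SAND SYM0 SYP1 SYP2 STEPN
def S_STEP : Prop := ∀ (σ ι Λ : Type) [Fintype σ] [Fintype ι] [Fintype Λ] (n : ℕ) (T : VB σ ι)
  (γ : ι → ℤ) (g c₂ : ℤ) (a b : ℂ), Ch n T γ g c₂ a b →
  ∀ (p : Ideal (Pol σ)) (v : Λ → ι → Pol σ) (α : ℤ) (r : ℕ), Var p (r + 2) →
  (∀ l, SecW T γ p (v l) α) → PropW p v → 2 * α + g ≤ 0 → 0 < qq g c₂ α → DimGe (ZI p v) r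

-- deps: POLY
def S_POSN : Prop := ∀ (h h' : ℤ × ℤ → ℤ) (P : ℤ → Polynomial ℂ) (w : ℕ) (δ g c₂ κ : ℤ) (a b : ℂ),
  a + b = -g → a * b = c₂ → 0 < δ → (∀ m, EvP (fun t => h (m, t)) (P m)) → P (-1) = 0 →
  (∀ᶠ t in atTop, dl^[w] (fun t => h (0, t)) t = δ) →
  (∀ m, 0 ≤ m → P (m + 1) + sh (-g) (P (m - 1)) = sh a (P m) + sh b (P m)) → Pos2 h' →
  (∀ m t, 0 ≤ t → h' (m, t) = h (m, t) - h (m - 1, t + κ)) →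
  ∀ j, j + 1 ≤ w → κ * hs (-g) c₂ j ≤ hs (-g) c₂ (j + 1)

-- deps: C2 ALGB
def S_POSK : Prop := ∀ (σ ι Λ : Type) [Fintype σ] [Fintype ι] [Fintype Λ] (p : Ideal (Pol σ))
  (v : Λ → ι → Pol σ) (u : ι → Pol σ) (κ : ℕ), p.IsPrime → (∃ a, u a ∉ p) →
  (∀ d : Fin κ → σ, ∃ l, v l = fun a => (∏ i, X (d i)) * u a) →
  ∃ h' : ℤ × ℤ → ℤ, Pos2 h' ∧
    ∀ m t, 0 ≤ t → h' (m, t) = hd (Alg p v) (m, t) - hd (Alg p v) (m - 1, t + κ)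

-- deps: HQ ALGB C1 POLY SYM0 SYG1 SYG2 POSK POSN
def S_POSW : Prop := ∀ (σ ι Λ : Type) [Fintype σ] [Fintype ι] [Fintype Λ] (n : ℕ) (T : VB σ ι)
  (γ : ι → ℤ) (g c₂ : ℤ) (a b : ℂ), Ch n T γ g c₂ a b →
  ∀ (p : Ideal (Pol σ)) (v : Λ → ι → Pol σ) (w : ℕ), Var p w → (∀ l, SecW T γ p (v l) (-g)) →
  GenW p v → ∀ (κ : ℕ) (u : ι → Pol σ), SecW T γ p u (-g - κ) → (∃ a, u a ∉ p) →
  ∀ j, j + 1 ≤ w → κ * hs (-g) c₂ j ≤ hs (-g) c₂ (j + 1)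

-- deps: NULL HQ
def S_PROP : Prop := ∀ (σ ι : Type) [Fintype σ] [Fintype ι] (T : VB σ ι) (γ : ι → ℤ) (g : ℤ)
  (p : Ideal (Pol σ)) (u v : ι → Pol σ) (α β : ℤ), Gr (w1 σ) γ g T.ω → Var p 1 →
  SecW T γ p u α → SecW T γ p v β → α + β + g < 0 → ∀ a b, u a * v b - u b * v a ∈ p

-- deps:
def S_LEIB : Prop := ∀ (σ ι : Type) [Fintype σ] [Fintype ι] (T : VB σ ι) (γ : ι → ℤ)
  (p : Ideal (Pol σ)) (φ : T.N) (α : ℤ) (L : List σ), VB.HomN (w1 σ) γ φ α →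
  (∀ a, OrdW p L.length (φ.1 a)) → SecW T γ p (fun a => dL L (φ.1 a)) (α - L.length)

-- deps: LEIB
def S_EXO : Prop := ∀ (σ ι : Type) [Fintype σ] [Fintype ι] (T : VB σ ι) (γ : ι → ℤ)
  (p : Ideal (Pol σ)) (φ : T.N) (α : ℤ) (v : ℕ), p ≠ ⊤ → φ ≠ 0 → VB.HomN (w1 σ) γ φ α →
  (∀ a, OrdW p v (φ.1 a)) →
  ∃ (v' : ℕ) (u : ι → Pol σ), v ≤ v' ∧ SecW T γ p u (α - v') ∧ ∃ a, u a ∉ p

-- deps: LEIB PROP STEP PRIME HQ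
def S_TOW : Prop := ∀ (σ ι : Type) [Fintype σ] [Fintype ι] (n : ℕ) (T : VB σ ι)
  (γ : ι → ℤ) (g c₂ : ℤ) (a b : ℂ), Ch n T γ g c₂ a b → ∀ (φ : T.N) (α : ℤ),
  VB.HomN (w1 σ) γ φ α → 2 * α + g ≤ 0 → 0 < qq g c₂ α →
  ∀ (v r : ℕ) (p₀ : Ideal (Pol σ)), Var p₀ (r + 2 * v) →
  ∃ p, p₀ ≤ p ∧ Var p r ∧ ∀ a, OrdW p v (φ.1 a)

-- deps:
def S_ORD0 : Prop := ∀ (σ : Type) [Fintype σ] (y : σ → ℂ) (v : ℕ) (f : Pol σ),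
  f ∈ my y ^ v ↔ ∀ d, coeff d (aeval (fun i => (X i + C (y i) : Pol σ)) f) ≠ 0 → v ≤ d.degree

-- deps: ORD0
def S_TAY : Prop := ∀ (σ : Type) [Fintype σ] (y : σ → ℂ) (v : ℕ) (f : Pol σ),
  (∀ L : List σ, L.length < v → eval y (dL L f) = 0) → f ∈ my y ^ v

-- deps: ORD0
def S_ORDM : Prop := ∀ (σ : Type) [Fintype σ] (y : σ → ℂ),
  (∀ f : Pol σ, f ≠ 0 → ∃ w : ℕ, f ∈ my y ^ w ∧ f ∉ my y ^ (w + 1)) ∧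
  (∀ (f h : Pol σ) (a b : ℕ), f ∉ my y ^ (a + 1) → f * h ∈ my y ^ (a + b) → h ∈ my y ^ b) ∧
  ∀ (f : Pol σ) (d : ℕ), f ≠ 0 → Hom f d → f ∉ my y ^ (d + 1)

-- deps: ORD0
def S_ORDD : Prop := ∀ (σ : Type) [Fintype σ] (y : σ → ℂ) (s : ℕ),
  FiniteDimensional ℂ (Pol σ ⧸ my y ^ s) ∧
  (Module.finrank ℂ (Pol σ ⧸ my y ^ s) : ℤ) = bn (Fintype.card σ) (s - 1)

-- deps: BN
def S_COND : Prop := ∀ (σ : Type) [Fintype σ] [DecidableEq σ] (n : ℕ), Fintype.card σ = n + 1 →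
  ∀ (i : σ) (v : ℕ) (d : ℤ), hq (my (Pi.single i (1 : ℂ) : σ → ℂ) ^ v) d ≤ bn n (v - 1)

-- deps: ORDM ORDD BN
def S_MULA : Prop := ∀ (σ : Type) [Fintype σ] (y : σ → ℂ) (f₁ f₂ : Pol σ) (v₁ v₂ : ℕ),
  f₁ ∈ my y ^ v₁ → f₂ ∈ my y ^ v₂ → ∃ w₁ : ℕ, v₁ ≤ w₁ ∧ ∀ s : ℕ,
  bn (Fintype.card σ) s - bn (Fintype.card σ) (s - w₁) - bn (Fintype.card σ) (s - v₂) +
      bn (Fintype.card σ) (s - w₁ - v₂) ≤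
    (Module.finrank ℂ (Pol σ ⧸ (Ideal.span {f₁, f₂} ⊔ my y ^ (s + 1))) : ℤ)

-- deps: ORD0
def S_MULB : Prop := ∀ (σ : Type) [Fintype σ] (y : σ → ℂ) (I : Ideal (Pol σ)) (s : ℕ),
  (Module.finrank ℂ (Pol σ ⧸ (I ⊔ my y ^ (s + 1))) : ℤ) ≤
    ∑ k ∈ Finset.range (s + 1), hq I k

-- deps: BN GROW POLY
def S_MULN : Prop := ∀ (n w₁ w₂ : ℕ) (f : ℤ → ℤ) (q : ℤ), 2 ≤ n →
  (∀ᶠ t in atTop, dl^[n - 2] f t = q) →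
  (∀ s : ℕ, bn (n + 1) s - bn (n + 1) (s - w₁) - bn (n + 1) (s - w₂) + bn (n + 1) (s - w₁ - w₂) ≤
    ∑ k ∈ Finset.range (s + 1), f k) → (w₁ * w₂ : ℤ) ≤ q

-- deps: WD BN
def S_SEQA : Prop := ∀ (σ ι : Type) [Fintype σ] [Fintype ι] (n : ℕ) (T : VB σ ι)
  (γ : ι → ℤ) (g : ℤ), Fintype.card σ = n + 1 → 1 ≤ n → Gr (w1 σ) γ g T.ω →
  ∀ (φ : T.N) (α : ℤ), VB.HomN (w1 σ) γ φ α → Prim φ.1 → ∀ᶠ t in atTop,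
    hq (Ideal.span (Set.range φ.1)) t = bn n t - hM T γ (t - α) + bn n (t - 2 * α - g)

-- deps: POLY BN
def S_SEQN : Prop := ∀ (n : ℕ) (h f : ℤ → ℤ) (g c₂ α : ℤ) (a b : ℂ), 2 ≤ n → a + b = -g →
  a * b = c₂ → EvP h (sh a (bp n) + sh b (bp n)) →
  (∀ᶠ t in atTop, f t = bn n t - h (t - α) + bn n (t - 2 * α - g)) →
  ∀ᶠ t in atTop, dl^[n - 2] f t = qq g c₂ α

-- deps: MULA MULB MULN SEQA SEQN BN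
def S_MULT : Prop := ∀ (σ ι : Type) [Fintype σ] [Fintype ι] (n : ℕ) (T : VB σ ι)
  (γ : ι → ℤ) (g c₂ : ℤ) (a b : ℂ), Ch n T γ g c₂ a b → ∀ (φ : T.N) (α : ℤ),
  VB.HomN (w1 σ) γ φ α → Prim φ.1 → ∀ (y : σ → ℂ) (i j : ι) (v₁ v₂ : ℕ),
  eval y (T.ω i j) ≠ 0 → φ.1 i ∈ my y ^ v₁ → φ.1 j ∈ my y ^ v₂ → (v₁ * v₂ : ℤ) ≤ qq g c₂ α

-- deps:
-- imports: Pool.Agent.P.MP_b01859_ag.Horr
def S_SPL0 : Prop := ∀ (σ ι : Type) [Fintype σ] [Fintype ι] (T : VB σ ι) (φ : T.N),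
  3 ≤ Fintype.card σ → (∀ y : σ → ℂ, y ≠ 0 → ∃ a, eval y (φ.1 a) ≠ 0) → Sp T.ω

-- deps: MULT SPL0
def S_C2P : Prop := ∀ (σ ι : Type) [Fintype σ] [Fintype ι] (n : ℕ) (T : VB σ ι)
  (γ : ι → ℤ) (g c₂ : ℤ) (a b : ℂ), Ch n T γ g c₂ a b → ¬ Sp T.ω → ∀ (φ : T.N) (α : ℤ),
  VB.HomN (w1 σ) γ φ α → Prim φ.1 → 0 < qq g c₂ α

-- deps: POLY BN GROW
def S_BOGN : Prop := ∀ (n : ℕ) (h : ℤ → ℤ) (r s : ℤ) (a b : ℂ), 1 ≤ n → a + b = r + s + 1 →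
  EvP h (sh a (bp n) + sh b (bp n)) → ∀ᶠ m in atTop, bn n (m + r) + bn n (m + s) < h m

-- deps: BOGN COND ORDM MULT BN
def S_BOG : Prop := ∀ (σ ι : Type) [Fintype σ] [Fintype ι] (n : ℕ) (T : VB σ ι)
  (γ : ι → ℤ) (g c₂ : ℤ) (a b : ℂ), Ch n T γ g c₂ a b → 4 * c₂ ≤ g ^ 2 →
  ∃ (φ : T.N) (α : ℤ), VB.HomN (w1 σ) γ φ α ∧ Prim φ.1 ∧ 2 * α + g ≤ 0

-- deps: BOG C2P TOW PT TAY MULT BN HQ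
def S_MAINA : Prop := ∀ (σ ι : Type) [Fintype σ] [Fintype ι] (n : ℕ) (T : VB σ ι)
  (γ : ι → ℤ) (g c₂ : ℤ) (a b : ℂ), Ch n T γ g c₂ a b → 4 * c₂ ≤ g ^ 2 → ¬ Sp T.ω →
  ∀ (s : T.N) (α : ℤ), VB.HomN (w1 σ) γ s α → Prim s.1 → ((n / 2 : ℕ) : ℤ) ^ 2 ≤ qq g c₂ α

-- deps: BOG C2P TOW EXO POSW PT HQ FINB
def S_MAINB : Prop := ∀ (σ ι : Type) [Fintype σ] [Fintype ι] (n : ℕ) (T : VB σ ι)
  (γ : ι → ℤ) (g c₂ : ℤ) (a b : ℂ), Ch n T γ g c₂ a b →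
  (g ^ 2 < 4 * c₂ → (n : ℤ) ^ 2 ≤ 6 * (4 * c₂ - g ^ 2)) → ¬ Sp T.ω → GW n T γ g →
  (n : ℤ) ^ 2 * (-g) < 50 * c₂ ∧ ∀ (k : ℤ) (s : T.N), s ≠ 0 → VB.HomN (w1 σ) γ s (-k - g) →
    (n : ℤ) ^ 2 < 50 * (-g - k)

-- deps: C2P SEQA SEQN PRIME LEIB HQ BN
def S_SMO : Prop := ∀ (σ ι : Type) [Fintype σ] [Fintype ι] (n : ℕ) (T : VB σ ι)
  (γ : ι → ℤ) (g c₂ : ℤ) (a b : ℂ), Ch n T γ g c₂ a b → ¬ Sp T.ω → ∀ s : T.N,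
  VB.HomN (w1 σ) γ s (-g) → Prim s.1 → Smo s.1 → GW n T γ g

-- deps:
def S_SMP : Prop := ∀ (σ ι : Type) [Fintype σ] [Fintype ι] (s : ι → Pol σ) (d : ι → ℤ),
  2 ≤ Fintype.card σ → (∀ a, Hom (s a) (d a)) → Smo s → Prim s

-- deps:
def S_FRL : Prop := ∀ (σ M : Type) [Fintype σ] [AddCommGroup M] [Module ℂ M] [Module (Pol σ) M]
  [IsScalarTower ℂ (Pol σ) M] [Module.Finite (Pol σ) M] (ℳ : ℤ → Submodule ℂ M),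
  2 ≤ Fintype.card σ → DirectSum.IsInternal ℳ → Cl (X : σ → Pol σ) (w1 σ) ℳ → LF2 σ M →
  ∃ (ι : Type) (_ : Fintype ι) (T : VB σ ι) (γ : ι → ℤ) (g : ℤ) (L : M →ₗ[Pol σ] T.N),
    Lift ℳ T γ g L ∧ (Sp T.ω → SplitM σ ℳ)

-- deps: C1
def S_FRH : Prop := ∀ (σ ι M : Type) [Fintype σ] [Fintype ι] [AddCommGroup M] [Module ℂ M]
  [Module (Pol σ) M] [IsScalarTower ℂ (Pol σ) M] [Module.Finite (Pol σ) M]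
  (ℳ : ℤ → Submodule ℂ M) (T : VB σ ι) (γ : ι → ℤ) (g : ℤ) (L : M →ₗ[Pol σ] T.N),
  DirectSum.IsInternal ℳ → Cl (X : σ → Pol σ) (w1 σ) ℳ → Lift ℳ T γ g L →
  ∀ᶠ t in atTop, hd ℳ t = hM T γ t

-- deps:
def S_FRP : Prop := ∀ (σ ι M : Type) [Fintype σ] [Fintype ι] [AddCommGroup M] [Module ℂ M]
  [Module (Pol σ) M] [IsScalarTower ℂ (Pol σ) M]
  (ℳ : ℤ → Submodule ℂ M) (T : VB σ ι) (γ : ι → ℤ) (g : ℤ) (L : M →ₗ[Pol σ] T.N),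
  2 ≤ Fintype.card σ → Lift ℳ T γ g L → ∀ s : M,
  (∀ (f h : Pol σ) (m : M), Prime f → h • s = f • m → f ∣ h) → Prim (L s).1

-- deps:
def S_FRG : Prop := ∀ (σ ι M : Type) [Fintype σ] [Fintype ι] [AddCommGroup M] [Module ℂ M]
  [Module (Pol σ) M] [IsScalarTower ℂ (Pol σ) M]
  (ℳ : ℤ → Submodule ℂ M) (T : VB σ ι) (γ : ι → ℤ) (g : ℤ) (L : M →ₗ[Pol σ] T.N),
  Lift ℳ T γ g L → FiniteDimensional ℂ (ℳ 0) →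
  (∀ p : PrimeSpectrum (Pol σ), (∃ i, X i ∉ p.asIdeal) → ∀ m : M, ∃ h : Pol σ,
    h ∉ p.asIdeal ∧ h • m ∈ Submodule.span (Pol σ) (ℳ 0 : Set M)) →
  ∃ (Λ : Type) (_ : Fintype Λ) (v : Λ → ι → Pol σ),
    (∀ l, SecW T γ ⊥ (v l) (-g)) ∧ GenW ⊥ v

-- deps: TAY
def S_FRS : Prop := ∀ (σ ι M : Type) [Fintype σ] [Fintype ι] [AddCommGroup M] [Module ℂ M]
  [Module (Pol σ) M] [IsScalarTower ℂ (Pol σ) M]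
  (ℳ : ℤ → Submodule ℂ M) (T : VB σ ι) (γ : ι → ℤ) (g : ℤ) (L : M →ₗ[Pol σ] T.N),
  Lift ℳ T γ g L → ∀ s : M,
  (∀ y : σ → ℂ, y ≠ 0 → ∀ e : M, ∀ f ∈ my y, s - f • e ∉ (my y ^ 2 • ⊤ : Submodule (Pol σ) M)) →
  Smo (L s).1

end Pool.Agent.P.MP_b01859_ag.SD
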