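import Pool.Agent.P.MP_b01859_ag.SD.Defs

/-!
Basic facts on differences and on families of subspaces.
-/

set_option linter.unusedSectionVars false

namespace Pool.Agent.P.MP_b01859_ag.SD

open MvPolynomial Filter

section fn

variable {G : Type} [AddCommGroup G]

lemma dg_iter_add (w : G) (r : ℕ) (f g : G → ℤ) (t : G) :
    (dg w)^[r] (fun t => f t + g t) t = (dg w)^[r] f t + (dg w)^[r] g t := by
  induction r generalizing t with
  | zero => rfl
  | succ r ih => simp only [Function.iterate_succ_apply', dg, ih]; ring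

lemma dg_iter_sub (w : G) (r : ℕ) (f g : G → ℤ) (t : G) :
    (dg w)^[r] (fun t => f t - g t) t = (dg w)^[r] f t - (dg w)^[r] g t := by
  induction r generalizing t with
  | zero => rfl
  | succ r ih => simp only [Function.iterate_succ_apply', dg, ih]; ring

lemma dg_iter_mul (w : G) (r : ℕ) (c : ℤ) (f : G → ℤ) (t : G) :
    (dg w)^[r] (fun t => c * f t) t = c * (dg w)^[r] f t := by
  induction r generalizing t with
  | zero => rfl
  | succ r ih => simp only [Function.iterate_succ_apply', dg, ih]; ring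

lemma dg_iter_shift (w : G) (r : ℕ) (f : G → ℤ) (c t : G) :
    (dg w)^[r] (fun t => f (t + c)) t = (dg w)^[r] f (t + c) := by
  induction r generalizing t with
  | zero => rfl
  | succ r ih => simp only [Function.iterate_succ_apply', dg, ih, sub_add_eq_add_sub]

lemma dg_iter_zero (w : G) (r : ℕ) (t : G) : (dg w)^[r] (fun _ => (0 : ℤ)) t = 0 := by
  induction r generalizing t with
  | zero => rfl
  | succ r ih => simp only [Function.iterate_succ_apply', dg, ih, sub_zero]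

lemma dl_succ (r : ℕ) (f : ℤ → ℤ) (t : ℤ) : dl^[r + 1] f t = dl^[r] f t - dl^[r] f (t - 1) := by
  rw [Function.iterate_succ_apply']; rfl

lemma ev_shift {p : ℤ → Prop} (h : ∀ᶠ t in atTop, p t) (c : ℤ) : ∀ᶠ t in atTop, p (t + c) :=
  (tendsto_atTop_add_const_right atTop c tendsto_id).eventually h

lemma ev_shift' {p : ℤ → Prop} (h : ∀ᶠ t in atTop, p t) (c : ℤ) : ∀ᶠ t in atTop, p (t - c) := by
  simpa only [sub_eq_add_neg] using ev_shift h (-c)

lemma dl_iter_congr (r : ℕ) {f g : ℤ → ℤ} (h : ∀ᶠ t in atTop, f t = g t) :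
    ∀ᶠ t in atTop, dl^[r] f t = dl^[r] g t := by
  induction r with
  | zero => exact h
  | succ r ih =>
    filter_upwards [ih, ev_shift' ih 1] with t h1 h2
    rw [dl_succ, dl_succ, h1, h2]

lemma Ev0.congr {r : ℕ} {f g : ℤ → ℤ} (h : Ev0 r f) (e : ∀ᶠ t in atTop, f t = g t) : Ev0 r g := by
  filter_upwards [h, dl_iter_congr r e] with t h1 h2
  rw [← h2, h1]

lemma Ev0.succ {r : ℕ} {f : ℤ → ℤ} (h : Ev0 r f) : Ev0 (r + 1) f := by
  filter_upwards [h, ev_shift' h 1] with t h1 h2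
  rw [dl_succ, h1, h2, sub_zero]

lemma Ev0.mono {r s : ℕ} {f : ℤ → ℤ} (h : Ev0 r f) (e : r ≤ s) : Ev0 s f := by
  induction s, e using Nat.le_induction with
  | base => exact h
  | succ s _ ih => exact ih.succ

lemma Ev0.add {r : ℕ} {f g : ℤ → ℤ} (h : Ev0 r f) (h' : Ev0 r g) : Ev0 r fun t => f t + g t := by
  filter_upwards [h, h'] with t h1 h2
  rw [dg_iter_add, h1, h2, add_zero]

lemma Ev0.sub {r : ℕ} {f g : ℤ → ℤ} (h : Ev0 r f) (h' : Ev0 r g) : Ev0 r fun t => f t - g t := by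
  filter_upwards [h, h'] with t h1 h2
  rw [dg_iter_sub, h1, h2, sub_zero]

lemma Ev0.mul {r : ℕ} {f : ℤ → ℤ} (h : Ev0 r f) (c : ℤ) : Ev0 r fun t => c * f t := by
  filter_upwards [h] with t h1
  rw [dg_iter_mul, h1, mul_zero]

lemma Ev0.shift {r : ℕ} {f : ℤ → ℤ} (h : Ev0 r f) (c : ℤ) : Ev0 r fun t => f (t + c) := by
  filter_upwards [ev_shift h c] with t h1
  rw [dg_iter_shift, h1]

lemma ev0_dl {r : ℕ} {f : ℤ → ℤ} : Ev0 r (dl f) ↔ Ev0 (r + 1) f := Iff.rfl

lemma ev0_zero {f : ℤ → ℤ} : Ev0 0 f ↔ ∀ᶠ t in atTop, f t = 0 := Iff.rfl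

lemma ev0_of_const {r : ℕ} {f : ℤ → ℤ} {δ : ℤ} (h : ∀ᶠ t in atTop, dl^[r] f t = δ) :
    Ev0 (r + 1) f := by
  filter_upwards [h, ev_shift' h 1] with t h1 h2
  rw [dl_succ, h1, h2, sub_self]

lemma Pos.congr {f g : ℤ → ℤ} (h : Pos f) (e : ∀ᶠ t in atTop, f t = g t) : Pos g := fun j => by
  filter_upwards [h j, dl_iter_congr j e] with t h1 h2
  rwa [← h2]

lemma Pos.shift {f : ℤ → ℤ} (h : Pos f) (c : ℤ) : Pos fun t => f (t + c) := fun j => by
  filter_upwards [ev_shift (h j) c] with t h1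
  rwa [dg_iter_shift]

lemma eval_sh (a : ℂ) (P : Polynomial ℂ) (z : ℂ) : (sh a P).eval z = P.eval (z + a) := by
  simp [sh, Polynomial.eval_comp]

lemma sh_eq_taylor (a : ℂ) (P : Polynomial ℂ) : sh a P = Polynomial.taylor a P :=
  (Polynomial.taylor_apply a P).symm

lemma EvP.congr {f g : ℤ → ℤ} {P : Polynomial ℂ} (h : EvP f P) (e : ∀ᶠ t in atTop, f t = g t) :
    EvP g P := by
  filter_upwards [h, e] with t h1 h2
  rw [← h2, h1]

lemma EvP.add {f g : ℤ → ℤ} {P Q : Polynomial ℂ} (h : EvP f P) (h' : EvP g Q) :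
    EvP (fun t => f t + g t) (P + Q) := by
  filter_upwards [h, h'] with t h1 h2
  rw [Int.cast_add, h1, h2, Polynomial.eval_add]

lemma EvP.sub {f g : ℤ → ℤ} {P Q : Polynomial ℂ} (h : EvP f P) (h' : EvP g Q) :
    EvP (fun t => f t - g t) (P - Q) := by
  filter_upwards [h, h'] with t h1 h2
  rw [Int.cast_sub, h1, h2, Polynomial.eval_sub]

lemma EvP.shift {f : ℤ → ℤ} {P : Polynomial ℂ} (h : EvP f P) (c : ℤ) :
    EvP (fun t => f (t + c)) (sh c P) := by
  filter_upwards [ev_shift h c] with t h1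
  rw [h1, eval_sh, Int.cast_add]

end fn

section fam

variable {τ G R V V' : Type} [AddCommGroup G] [CommRing R] [Algebra ℂ R] [AddCommMonoid V]
  [Module ℂ V] [Module R V] [IsScalarTower ℂ R V] [AddCommMonoid V'] [Module ℂ V'] [Module R V']
  [IsScalarTower ℂ R V'] {x : τ → R} {w : τ → G} {K K' : G → Submodule ℂ V}

lemma hd_nonneg (K : G → Submodule ℂ V) (g : G) : 0 ≤ hd K g := Int.natCast_nonneg _

lemma Cl.pow (h : Cl x w K) (i : τ) (k : ℕ) {g : G} {v : V} (hv : v ∈ K g) :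
    x i ^ k • v ∈ K (g + k • w i) := by
  induction k with
  | zero => simpa using hv
  | succ k ih =>
    rw [pow_succ', mul_smul, succ_nsmul, ← add_assoc]
    exact h _ _ _ ih

lemma Cl.mono (h : Cl x w K) (d : τ →₀ ℕ) (c : ℂ) :
    ∀ g v, v ∈ K g → aeval x (monomial d c) • v ∈ K (g + Finsupp.weight w d) := by
  induction d using Finsupp.induction with
  | zero =>
    intro g v hv
    rw [map_zero, add_zero, monomial_zero', algHom_C, algebraMap_smul]
    exact Submodule.smul_mem _ _ hv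
  | single_add i n f _ _ ih =>
    intro g v hv
    rw [monomial_single_add, map_mul, map_pow, aeval_X, mul_smul, map_add, Finsupp.weight_single,
      add_comm (n • w i), ← add_assoc]
    exact h.pow _ _ (ih g v hv)

lemma Cl.aeval (h : Cl x w K) {f : Pol τ} {d g : G} {v : V} (hf : IsWeightedHomogeneous w f d)
    (hv : v ∈ K g) : aeval x f • v ∈ K (g + d) := by
  rw [as_sum f, map_sum, Finset.sum_smul]
  exact Submodule.sum_mem _ fun e he => hf (mem_support_iff.mp he) ▸ h.mono e _ g v hv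

lemma Cl.inf (h : Cl x w K) (h' : Cl x w K') : Cl x w fun g => K g ⊓ K' g :=
  fun i g v hv => ⟨h i g v hv.1, h' i g v hv.2⟩

lemma Cl.shift (h : Cl x w K) (c : G) : Cl x w fun g => K (g + c) := fun i g v hv => by
  have := h i _ v hv
  rwa [add_right_comm] at this

lemma cl_bot : Cl x w fun _ => (⊥ : Submodule ℂ V) := fun i g v hv => by
  rw [Submodule.mem_bot] at hv ⊢; rw [hv, smul_zero]

lemma Cl.map (h : Cl x w K) (F : V →ₗ[ℂ] V') (hF : ∀ i v, F (x i • v) = x i • F v) :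
    Cl x w fun g => (K g).map F := by
  rintro i g _ ⟨v, hv, rfl⟩
  exact ⟨_, h i g v hv, hF i v⟩

variable {κ : Type} [Fintype κ] {u : κ → V} {e : κ → G}

lemma mem_gen {g : G} {v : V} : v ∈ Gen x w u e g ↔ ∃ f : κ → Pol τ,
    (∀ l, IsWeightedHomogeneous w (f l) (g - e l)) ∧ v = ∑ l, aeval x (f l) • u l := Iff.rfl

lemma gen_cl : Cl x w (Gen x w u e) := by
  rintro i g _ ⟨f, hf, rfl⟩
  exact ⟨fun l => X i * f l, fun l => hom_congr ((isWeightedHomogeneous_X ℂ w i).mul (hf l))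
    (by abel), by simp [Finset.smul_sum, mul_smul]⟩

lemma mem_gen_self (l : κ) : u l ∈ Gen x w u e (e l) := by
  classical
  refine ⟨Pi.single l 1, fun k => ?_, ?_⟩
  · by_cases h : k = l
    · subst h; simpa using isWeightedHomogeneous_one ℂ w
    · simpa [h] using isWeightedHomogeneous_zero ℂ w _
  · rw [Finset.sum_eq_single l] <;> simp +contextual

lemma gen_le (h : Cl x w K) (hu : ∀ l, u l ∈ K (e l)) (g : G) : Gen x w u e g ≤ K g := by
  rintro _ ⟨f, hf, rfl⟩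
  exact Submodule.sum_mem _ fun l _ => by simpa using h.aeval (hf l) (hu l)

lemma gen_sub : Sub x w (Gen x w u e) := ⟨κ, inferInstance, u, e, fun _ => le_rfl⟩

lemma Sub.mono (h : Sub x w K) (hle : ∀ g, K' g ≤ K g) : Sub x w K' := by
  obtain ⟨κ, _, u, e, h⟩ := h
  exact ⟨κ, inferInstance, u, e, fun g => (hle g).trans (h g)⟩

lemma Sub.shift (h : Sub x w K) (c : G) : Sub x w fun g => K (g + c) := by
  obtain ⟨κ, _, u, e, h⟩ := h
  refine ⟨κ, inferInstance, u, fun l => e l - c, fun g v hv => ?_⟩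
  obtain ⟨f, hf, rfl⟩ := h _ hv
  exact ⟨f, fun l => hom_congr (hf l) (by simp only; abel), rfl⟩

lemma aeval_smul_comm (F : V →ₗ[ℂ] V') (hF : ∀ i v, F (x i • v) = x i • F v) (f : Pol τ) (v : V) :
    F (aeval x f • v) = aeval x f • F v := by
  induction f using MvPolynomial.induction_on generalizing v with
  | C c => simp
  | add p q hp hq => simp [add_smul, hp, hq]
  | mul_X p i hp => simp [mul_smul, hp, hF]

lemma Sub.map (h : Sub x w K) (F : V →ₗ[ℂ] V') (hF : ∀ i v, F (x i • v) = x i • F v) :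
    Sub x w fun g => (K g).map F := by
  obtain ⟨κ, _, u, e, h⟩ := h
  refine ⟨κ, inferInstance, fun l => F (u l), e, ?_⟩
  rintro g _ ⟨v, hv, rfl⟩
  obtain ⟨f, hf, rfl⟩ := h _ hv
  exact ⟨f, hf, by simp [aeval_smul_comm F hF]⟩

lemma Sub.pi {ι : Type} [Fintype ι] (h : Sub x w K) (c : ι → G) {L : G → Submodule ℂ (ι → V)}
    (hL : ∀ g, ∀ φ ∈ L g, ∀ a, φ a ∈ K (g + c a)) : Sub x w L := by
  classical
  obtain ⟨κ, _, u, e, h⟩ := h
  refine ⟨ι × κ, inferInstance, fun al => Pi.single al.1 (u al.2), fun al => e al.2 - c al.1,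
    fun g φ hφ => ?_⟩
  choose f hf hf' using fun a => h _ (hL g φ hφ a)
  refine ⟨fun al => f al.1 al.2, fun al => hom_congr (hf al.1 al.2) (by simp only; abel), ?_⟩
  funext a
  rw [hf' a, Finset.sum_apply, Fintype.sum_prod_type, Finset.sum_eq_single a]
  · simp
  · intro b _ hb
    simp [hb.symm]
  · simp

lemma fin_hom [Finite τ] (φ : G →+ ℤ) (hφ : ∀ i, φ (w i) = 1) (g : G) :
    FiniteDimensional ℂ (weightedHomogeneousSubmodule ℂ w g) := by
  refine Submodule.finiteDimensional_of_le (S₂ := restrictTotalDegree τ ℂ (φ g).toNat) ?_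
  intro f hf
  rw [mem_restrictTotalDegree, totalDegree, Finset.sup_le_iff]
  intro d hd
  have h2 := hom_map φ hf (MvPolynomial.mem_support_iff.mp hd)
  rw [← h2]
  simp [hφ, Finsupp.weight_apply, Finsupp.sum, ← Nat.cast_sum]

lemma Sub.fin' [Finite τ] (h : Sub x w K) (φ : G →+ ℤ) (hφ : ∀ i, φ (w i) = 1) (g : G) :
    Module.Finite ℂ (K g) := by
  obtain ⟨κ, _, u, e, h⟩ := h
  have := fun l => fin_hom φ hφ (g - e l)
  let F : (∀ l, weightedHomogeneousSubmodule ℂ w (g - e l)) →ₗ[ℂ] V :=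
    { toFun := fun f => ∑ l, aeval x (f l).1 • u l
      map_add' := fun f f' => by simp [add_smul, Finset.sum_add_distrib]
      map_smul' := fun c f => by simp [Finset.smul_sum] }
  have h1 : K g ≤ LinearMap.range F := fun v hv => by
    obtain ⟨f, hf, rfl⟩ := h g hv
    exact ⟨fun l => ⟨f l, hf l⟩, rfl⟩
  let _ : AddCommGroup V := Module.addCommMonoidToAddCommGroup ℂ
  exact Submodule.finiteDimensional_of_le h1

lemma Sub.fin [Finite τ] {K : ℤ → Submodule ℂ V} (h : Sub x (w1 τ) K) (t : ℤ) :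
    Module.Finite ℂ (K t) := h.fin' (AddMonoidHom.id ℤ) (fun _ => rfl) t

lemma Sub.fin2 {σ Λ : Type} [Finite σ] [Finite Λ] {x : σ ⊕ Λ → R} {K : ℤ × ℤ → Submodule ℂ V}
    (h : Sub x (wb σ Λ) K) (g : ℤ × ℤ) : Module.Finite ℂ (K g) :=
  h.fin' (AddMonoidHom.fst ℤ ℤ + AddMonoidHom.snd ℤ ℤ) (fun i => by cases i <;> rfl) g

lemma Sub.bdd {K : ℤ → Submodule ℂ V} (h : Sub x (w1 τ) K) : ∃ b, ∀ t, t < b → K t = ⊥ := by
  obtain ⟨κ, _, u, e, h⟩ := h
  obtain ⟨b, hb⟩ := (Set.finite_range e).bddBelow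
  refine ⟨b, fun t ht => eq_bot_iff.mpr fun v hv => ?_⟩
  obtain ⟨f, hf, rfl⟩ := h t hv
  refine (Submodule.mem_bot ℂ).mpr (Finset.sum_eq_zero fun l _ => ?_)
  have := hb ⟨l, rfl⟩
  rw [Hom.eq_zero (hf l) (by omega), map_zero, zero_smul]

lemma Sub.bdd_hd {K : ℤ → Submodule ℂ V} (h : Sub x (w1 τ) K) : Bdd (hd K) := by
  obtain ⟨b, hb⟩ := h.bdd
  exact ⟨b, fun t ht => by rw [hd, hb t ht, finrank_bot]; rfl⟩

end fam

section vb

variable {σ ι : Type} [Fintype σ] [Fintype ι] {R : Type} [CommRing R] [Algebra ℂ R]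
  {T : VB σ ι} {γ : ι → ℤ} {g : ℤ} {x : σ → R} {N : ℤ → Submodule ℂ R}

lemma mem_SS {t : ℤ} {f : Pol σ} : f ∈ SS σ t ↔ Hom f t := Iff.rfl

lemma cl_SS : Cl (X : σ → Pol σ) (w1 σ) (SS σ) := fun i _ _ hv =>
  hom_congr ((isWeightedHomogeneous_X ℂ (w1 σ) i).mul hv) (add_comm _ _)

lemma sub_SS : Sub (X : σ → Pol σ) (w1 σ) (SS σ) :=
  ⟨Unit, inferInstance, fun _ => 1, fun _ => 0, fun g f hf =>
    ⟨fun _ => f, fun _ => by simpa using hf, by simp⟩⟩

instance fin_SS (t : ℤ) : FiniteDimensional ℂ (SS σ t) := sub_SS.fin t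

lemma mem_EN {t : ℤ} {φ : ι → R} : φ ∈ EN T γ x N t ↔ ∃ n : ι → R, (∀ s, n s ∈ N (t - γ s)) ∧
    ∀ a, φ a = ∑ s, aeval x (T.ω s a) * n s := Iff.rfl

lemma mem_WN {t : ℤ} {φ : ι → R} : φ ∈ WN T γ g x N t ↔ (∀ a, φ a ∈ N (t + γ a - g)) ∧
    ∀ i j k, aeval x (T.ω i j) * φ k - aeval x (T.ω i k) * φ j + aeval x (T.ω j k) * φ i = 0 :=
  Iff.rfl

lemma cl_EN {τ : Type} {y : τ → R} (h : Cl y (w1 τ) N) : Cl y (w1 τ) (EN T γ x N) := by
  rintro i t φ ⟨n, hn, hφ⟩
  refine ⟨fun s => y i • n s, fun s => ?_, fun a => ?_⟩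
  · have := h i _ _ (hn s)
    rwa [sub_add_eq_add_sub] at this
  · simp only [Pi.smul_apply, hφ, smul_eq_mul, Finset.mul_sum, mul_left_comm]

lemma cl_WN {τ : Type} {y : τ → R} (h : Cl y (w1 τ) N) : Cl y (w1 τ) (WN T γ g x N) := by
  rintro i t φ ⟨h1, h2⟩
  refine ⟨fun a => ?_, fun a b c => ?_⟩
  · have := h i _ _ (h1 a)
    rwa [show t + γ a - g + w1 τ i = t + w1 τ i + γ a - g by ring] at this
  · simp only [Pi.smul_apply, smul_eq_mul]
    linear_combination y i * h2 a b c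

lemma EN_le_WN (hG : Gr (w1 σ) γ g T.ω) (h : Cl x (w1 σ) N) (t : ℤ) :
    EN T γ x N t ≤ WN T γ g x N t := by
  rintro φ ⟨n, hn, hφ⟩
  refine ⟨fun a => ?_, fun i j k => ?_⟩
  · rw [hφ]
    refine Submodule.sum_mem _ fun s _ => ?_
    have := h.aeval (hG s a) (hn s)
    rwa [show t - γ s + (γ s + γ a - g) = t + γ a - g by ring] at this
  · simp only [hφ, Finset.mul_sum, ← Finset.sum_sub_distrib, ← Finset.sum_add_distrib]
    refine Finset.sum_eq_zero fun s _ => ?_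
    have := congrArg (aeval x) (T.pl s i j k)
    simp only [map_add, map_sub, map_mul, map_zero] at this
    linear_combination n s * this

lemma sub_WN {τ : Type} {y : τ → R} (h : Sub y (w1 τ) N) : Sub y (w1 τ) (WN T γ g x N) :=
  h.pi (fun a => γ a - g) fun t φ hφ a => by
    have := hφ.1 a
    rwa [add_sub_assoc] at this

lemma sub_EN {τ : Type} {y : τ → R} (h : Sub y (w1 τ) N) : Sub y (w1 τ) (EN T γ x N) := by
  obtain ⟨κ, _, u, e, h⟩ := h
  refine ⟨ι × κ, inferInstance, fun sl a => aeval x (T.ω sl.1 a) * u sl.2,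
    fun sl => e sl.2 + γ sl.1, ?_⟩
  rintro t φ ⟨n, hn, hφ⟩
  choose f hf hf' using fun s => h _ (hn s)
  refine ⟨fun sl => f sl.1 sl.2, fun sl => hom_congr (hf sl.1 sl.2) (by ring), ?_⟩
  funext a
  simp only [hφ, hf', Finset.sum_apply, Fintype.sum_prod_type, Pi.smul_apply, smul_eq_mul,
    Finset.mul_sum, mul_left_comm]

lemma aeval_xb (p : Ideal (Pol σ)) (f : Pol σ) :
    aeval (xb ι p) f = C (Ideal.Quotient.mk p f) := by
  induction f using MvPolynomial.induction_on with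
  | C c => rw [algHom_C]; rfl
  | add p q hp hq => simp only [map_add, hp, hq]
  | mul_X q i hq => simp only [map_mul, hq, aeval_X, xb]

lemma exists_notMem (T : VB σ ι) {p : Ideal (Pol σ)} (hp : p.IsPrime) (h : ∃ i, X i ∉ p) :
    ∃ i j, T.ω i j ∉ p := h.elim fun i hi => T.LF p hp i hi

/-- Three vectors that satisfy the relations are dependent. -/
lemma rk2 {A : Type} [CommRing A] [IsDomain A] {ω : ι → ι → A} {i j : ι} (h0 : ω i j ≠ 0)
    {φ u v : ι → A} (hφ : ∀ k, ω i j * φ k - ω i k * φ j + ω j k * φ i = 0)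
    (hu : ∀ k, ω i j * u k - ω i k * u j + ω j k * u i = 0)
    (hv : ∀ k, ω i j * v k - ω i k * v j + ω j k * v i = 0) (a b c : ι) :
    (u a * v b - u b * v a) * φ c =
      (φ a * v b - φ b * v a) * u c + (u a * φ b - u b * φ a) * v c := by
  have e : ∀ z : ι → A, (∀ k, ω i j * z k - ω i k * z j + ω j k * z i = 0) →
      ∀ k, ω i j * z k = ω i k * z j - ω j k * z i := fun z h k => by linear_combination h k
  apply mul_left_cancel₀ (pow_ne_zero 3 h0)
  have h1 : ω i j ^ 3 * ((u a * v b - u b * v a) * φ c) =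
      ((ω i j * u a) * (ω i j * v b) - (ω i j * u b) * (ω i j * v a)) * (ω i j * φ c) := by ring
  have h2 : ω i j ^ 3 * ((φ a * v b - φ b * v a) * u c + (u a * φ b - u b * φ a) * v c) =
      ((ω i j * φ a) * (ω i j * v b) - (ω i j * φ b) * (ω i j * v a)) * (ω i j * u c) +
      ((ω i j * u a) * (ω i j * φ b) - (ω i j * u b) * (ω i j * φ a)) * (ω i j * v c) := by ring
  rw [h1, h2]
  simp only [e φ hφ, e u hu, e v hv]
  ring

end vb

end Pool.Agent.P.MP_b01859_ag.SD
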