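import Pool.Agent.P.MP_b01859_ag.SD.NT

/-!
The final arithmetic.
-/

namespace Pool.Agent.P.MP_b01859_ag.SD

theorem arithA_pos (C n c1 c2 j : ℤ) (hC : 0 ≤ C) (h : n ^ 2 < C * (4 * c2 - c1 ^ 2)) :
    n ^ 2 < 4 * C * (j ^ 2 + c1 * j + c2) := by
  nlinarith [mul_nonneg hC (sq_nonneg (2 * j + c1))]

theorem arithA_neg (n : ℕ) (c1 c2 j k : ℤ) (hn : 2 ≤ n) (hk : c1 ≤ 2 * k)
    (hq : ((n / 2 : ℕ) : ℤ) ^ 2 ≤ k ^ 2 - c1 * k + c2) (hj : j = -k ∨ 0 ≤ c1 + j - k) :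
    (n : ℤ) ^ 2 < 10 * (j ^ 2 + c1 * j + c2) := by
  have h1 : (n : ℤ) ≤ 3 * ((n / 2 : ℕ) : ℤ) := by omega
  have h2 : (1 : ℤ) ≤ ((n / 2 : ℕ) : ℤ) := by omega
  have h3 : k ^ 2 - c1 * k + c2 ≤ j ^ 2 + c1 * j + c2 := by
    rcases hj with rfl | hj
    · nlinarith
    · nlinarith [mul_nonneg hj (show 0 ≤ j + k by omega)]
  have h4 : (0 : ℤ) ≤ n := Int.natCast_nonneg n
  nlinarith

theorem quartic_pos (C n : ℕ) (c1 c2 : ℤ) (hn : 2 ≤ n) (h : ℕ → ℝ) (h0 : h 0 = 1) (h1 : h 1 = c1)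
    (hr : ∀ j, h (j + 2) = c1 * h (j + 1) - c2 * h j) (hD : 0 < 4 * c2 - c1 ^ 2)
    (hC : (n : ℤ) ^ 2 < C * (4 * c2 - c1 ^ 2)) (hpos : ∀ j, j + 2 ≤ n → 0 ≤ h j) :
    (n : ℤ) ^ 2 * c1 < (26 * C + 26) * c2 := by
  obtain ⟨w, rfl⟩ : ∃ w, n = w + 2 := ⟨n - 2, by omega⟩
  have hD' : (0 : ℝ) < 4 * c2 - c1 ^ 2 := by exact_mod_cast hD
  have a1 := angle_bound c1 c2 h h0 h1 hr hD' w fun j hj => hpos j (by omega)
  have a2 : (4 * c2 - c1 ^ 2) * ((w : ℤ) + 1) ^ 2 ≤ 40 * c2 := by exact_mod_cast a1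
  push_cast at hC ⊢
  set N : ℤ := (w : ℤ) + 2 with hN
  have hw : (0 : ℤ) ≤ w := Int.natCast_nonneg w
  have hC0 : (0 : ℤ) ≤ C := Int.natCast_nonneg C
  have hc2 : 0 < c2 := by nlinarith [sq_nonneg c1]
  have b1 : N ^ 2 ≤ 4 * ((w : ℤ) + 1) ^ 2 := by rw [hN]; nlinarith
  have b2 : N ^ 2 * N ^ 2 ≤ 160 * C * c2 := by
    calc N ^ 2 * N ^ 2 ≤ (C * (4 * c2 - c1 ^ 2)) * (4 * ((w : ℤ) + 1) ^ 2) :=
          mul_le_mul hC.le b1 (sq_nonneg _) (mul_nonneg hC0 hD.le)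
      _ = 4 * C * ((4 * c2 - c1 ^ 2) * ((w : ℤ) + 1) ^ 2) := by ring
      _ ≤ 4 * C * (40 * c2) := mul_le_mul_of_nonneg_left a2 (by positivity)
      _ = _ := by ring
  refine lt_of_pow_lt_pow_left₀ 2 (by positivity) ?_
  have b3 : (N ^ 2 * c1) ^ 2 ≤ 160 * C * c2 * (4 * c2) := by
    rw [mul_pow, sq (N ^ 2)]
    exact mul_le_mul b2 (by linarith) (sq_nonneg _) (by positivity)
  have b4 : 640 * (C : ℤ) < (26 * C + 26) ^ 2 := by nlinarith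
  calc _ ≤ _ := b3
    _ = 640 * C * c2 ^ 2 := by ring
    _ < (26 * C + 26) ^ 2 * c2 ^ 2 := mul_lt_mul_of_pos_right b4 (by positivity)
    _ = _ := by ring

theorem quartic_neg (n w : ℕ) (c1 c2 k κ : ℤ) (hn : 5 ≤ n) (h : ℕ → ℝ) (h0 : h 0 = 1)
    (h1 : h 1 = c1) (hr : ∀ j, h (j + 2) = c1 * h (j + 1) - c2 * h j) (hD : 4 * c2 - c1 ^ 2 ≤ 0)
    (hk : c1 ≤ 2 * k) (hq : 0 < k ^ 2 - c1 * k + c2) (hw : n ≤ w + 2 + 2 * (n / 4))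
    (hκ : k + (n / 4 : ℕ) ≤ κ) (hpos : ∀ j, j + 1 ≤ w → κ * h j ≤ h (j + 1)) :
    (n : ℤ) ^ 2 * c1 < 51 * c2 := by
  have hD' : (0 : ℝ) ≤ (c1 : ℝ) ^ 2 - 4 * c2 := by
    have : (0 : ℤ) ≤ c1 ^ 2 - 4 * c2 := by omega
    exact_mod_cast this
  set r := Real.sqrt ((c1 : ℝ) ^ 2 - 4 * c2) with hr'
  have r0 : 0 ≤ r := Real.sqrt_nonneg _
  have r2 : r ^ 2 = (c1 : ℝ) ^ 2 - 4 * c2 := Real.sq_sqrt hD'
  set a : ℝ := (c1 - r) / 2 with ha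
  set b : ℝ := (c1 + r) / 2 with hb
  have hs : (c1 : ℝ) = a + b := by rw [ha, hb]; ring
  have hp : (c2 : ℝ) = a * b := by rw [ha, hb]; linarith
  have hab : a ≤ b := by rw [ha, hb]; linarith
  have hk' : (c1 : ℝ) ≤ 2 * k := by exact_mod_cast hk
  have hq' : (0 : ℝ) < k ^ 2 - c1 * k + c2 := by exact_mod_cast hq
  have hbk : b < k := by
    by_contra hle
    push Not at hle
    have : ((k : ℝ) - a) * (b - k) ≥ 0 := mul_nonneg (by linarith) (by linarith)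
    rw [hs, hp] at hq'
    nlinarith
  set v := n / 4 with hv
  have hκ' : (k : ℝ) + v ≤ κ := by exact_mod_cast hκ
  have v0 : (0 : ℝ) ≤ v := Nat.cast_nonneg v
  have main := small_root a b κ h h0 (h1.trans hs) (fun j => by rw [hr, hs, hp]) hab
    (by linarith) w (by omega) hpos
  have hnat : n ^ 2 ≤ 25 * (w * v) := by
    obtain ⟨u, hu⟩ : ∃ u, v = u + 1 := ⟨v - 1, by omega⟩
    obtain ⟨e, he⟩ : ∃ e, n = 4 * u + 4 + e := ⟨n - (4 * u + 4), by omega⟩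
    obtain ⟨f, hf⟩ : ∃ f, w = 2 * u + e + f := ⟨w - (2 * u + e), by omega⟩
    have he3 : e ≤ 3 := by omega
    have he1 : 1 ≤ 4 * u + e := by omega
    rw [hu, hf, he]
    rcases Nat.eq_zero_or_pos u with rfl | hu0
    · interval_cases e <;> omega
    · interval_cases e <;> nlinarith
  have hreal : (n : ℝ) ^ 2 ≤ 25 * (w * v) := by exact_mod_cast hnat
  have w0 : (0 : ℝ) ≤ w := Nat.cast_nonneg w
  have a1 : (w : ℝ) * v ≤ a := (mul_le_mul_of_nonneg_left (by linarith) w0).trans main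
  have n5 : (5 : ℝ) ≤ n := by exact_mod_cast hn
  have a0 : 0 < a := by nlinarith
  have fin : (n : ℝ) ^ 2 * c1 < 51 * c2 := by
    rw [hs, hp]
    have : (n : ℝ) ^ 2 * (a + b) ≤ 25 * a * (2 * b) :=
      mul_le_mul (by linarith) (by linarith) (by linarith) (by linarith)
    nlinarith
  exact_mod_cast fin

theorem arithB_sec (C n c1 c2 k κ : ℤ) (hC : 0 ≤ C) (h : n ^ 2 * c1 < C * c2) (h1 : 0 ≤ c1)
    (hκ : k ≤ κ) (h2 : κ * c1 ≤ c1 * c1 - c2) : n ^ 2 < C * (c1 - k) := by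
  have h3 : c2 ≤ c1 * (c1 - k) := by nlinarith
  have h4 : n ^ 2 * c1 < C * (c1 - k) * c1 := by nlinarith
  exact lt_of_mul_lt_mul_right h4 h1

end Pool.Agent.P.MP_b01859_ag.SD
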