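import Pool.Agent.P.MP_b01859_ag.SD.Iface

/-! Step ALGB. -/

set_option autoImplicit false
set_option linter.unusedSectionVars false

namespace Pool.Agent.P.MP_b01859_ag.SD

open MvPolynomial Filter

namespace ALGBx

variable {σ ι Λ : Type} [Fintype σ] [Fintype ι] [Fintype Λ] (p : Ideal (Pol σ))
  (v : Λ → ι → Pol σ)

theorem mem_Al (m t : ℤ) (z : AP ι p) : z ∈ Al p v m t ↔
    ∃ F : Pol (σ ⊕ Λ), IsWeightedHomogeneous (wb σ Λ) F (m, t) ∧ z = aeval (xa p v) F := by
  constructor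
  · rintro ⟨f, hf, rfl⟩
    exact ⟨f (), by simpa using hf (), by simp⟩
  · rintro ⟨F, hF, rfl⟩
    exact ⟨fun _ => F, fun _ => by simpa using hF, by simp⟩

theorem aeval_xb (f : Pol σ) : aeval (xb ι p) f = (C (Ideal.Quotient.mk p f) : AP ι p) := by
  have : (aeval (xb ι p) : Pol σ →ₐ[ℂ] AP ι p) =
      (IsScalarTower.toAlgHom ℂ (Pol σ ⧸ p) (AP ι p)).comp (Ideal.Quotient.mkₐ ℂ p) :=
    algHom_ext fun i => by simp [xb]
  rw [this]; rfl

theorem aeval_inl (f : Pol σ) :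
    aeval (xa p v) (rename Sum.inl f) = (C (Ideal.Quotient.mk p f) : AP ι p) := by
  rw [aeval_rename, ← aeval_xb]; rfl

theorem hom_inl {f : Pol σ} {t : ℤ} (hf : Hom f t) :
    IsWeightedHomogeneous (wb σ Λ) (rename Sum.inl f) (0, t) := by
  classical
  rw [f.as_sum, map_sum]
  refine IsWeightedHomogeneous.sum _ _ _ fun d hd => ?_
  rw [rename_monomial]
  refine isWeightedHomogeneous_monomial _ _ _ ?_
  rw [← hf (mem_support_iff.1 hd)]
  clear hd
  induction d using Finsupp.induction_linear with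
  | zero => simp; rfl
  | add a b ha hb => rw [Finsupp.mapDomain_add, map_add, map_add, ha, hb]; simp
  | single i n => simp [Finsupp.weight_single, wb]

theorem mono (d : σ ⊕ Λ →₀ ℕ) : ∃ m t : ℕ, Finsupp.weight (wb σ Λ) d = ((m : ℤ), (t : ℤ)) ∧
    ∃ (f : Pol σ) (e : Fin m → Λ), Hom f t ∧ aeval (xa p v) (monomial d (1 : ℂ)) =
      C (Ideal.Quotient.mk p f) * ∏ i, lf p (v (e i)) := by
  induction d using Finsupp.induction_linear with
  | zero =>
    exact ⟨0, 0, by simp; rfl, 1, Fin.elim0, by simpa using isWeightedHomogeneous_one ℂ _, by simp⟩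
  | add a b ha hb =>
    obtain ⟨m, t, h1, f, e, h2, h3⟩ := ha
    obtain ⟨m', t', h1', f', e', h2', h3'⟩ := hb
    refine ⟨m + m', t + t', by rw [map_add, h1, h1']; simp, f * f', Fin.append e e',
      by simpa using h2.mul h2', ?_⟩
    have : (monomial (a + b) (1 : ℂ) : Pol (σ ⊕ Λ)) = monomial a 1 * monomial b 1 := by
      rw [monomial_mul, mul_one]
    rw [this, map_mul, h3, h3', Fin.prod_univ_add]
    simp only [Fin.append_left, Fin.append_right, map_mul]
    ring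
  | single i n =>
    rcases i with i | l
    · refine ⟨0, n, by simp [Finsupp.weight_single, wb], X i ^ n, Fin.elim0, ?_, ?_⟩
      · simpa using (isWeightedHomogeneous_X ℂ (fun _ : σ => (1 : ℤ)) i).pow n
      · rw [← X_pow_eq_monomial]; simp [xa, xb]
    · refine ⟨n, 0, by simp [Finsupp.weight_single, wb], 1, fun _ => l,
        by simpa using isWeightedHomogeneous_one ℂ _, ?_⟩
      rw [← X_pow_eq_monomial]; simp [xa]

theorem c3 (m t : ℤ) (h : m < 0 ∨ t < 0) : Al p v m t = ⊥ := by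
  rw [eq_bot_iff]
  intro z hz
  obtain ⟨F, hF, rfl⟩ := (mem_Al p v m t z).1 hz
  have : F = 0 := by
    ext d
    by_contra hd
    obtain ⟨m', t', h1, -⟩ := mono p v d
    have := hF (by simpa using hd)
    rw [h1, Prod.mk.injEq] at this
    omega
  simp [this]

theorem c4 (m : ℕ) (t : ℤ) : Al p v m t = Submodule.span ℂ {z | ∃ (f : Pol σ) (e : Fin m → Λ),
    Hom f t ∧ z = C (Ideal.Quotient.mk p f) * ∏ i, lf p (v (e i))} := by
  apply le_antisymm
  · intro z hz
    obtain ⟨F, hF, rfl⟩ := (mem_Al p v m t z).1 hz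
    rw [F.as_sum, map_sum]
    refine Submodule.sum_mem _ fun d hd => ?_
    obtain ⟨m', t', h1, f, e, h2, h3⟩ := mono p v d
    have h4 := hF (mem_support_iff.1 hd)
    rw [h1, Prod.mk.injEq] at h4
    obtain ⟨h5, rfl⟩ := h4
    obtain rfl : m' = m := by exact_mod_cast h5
    have : (monomial d (coeff d F) : Pol (σ ⊕ Λ)) = coeff d F • monomial d 1 := by
      rw [smul_monomial, smul_eq_mul, mul_one]
    rw [this, map_smul]
    exact Submodule.smul_mem _ _ (Submodule.subset_span ⟨f, e, h2, h3⟩)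
  · rw [Submodule.span_le]
    rintro _ ⟨f, e, hf, rfl⟩
    refine (mem_Al p v m t _).2 ⟨rename Sum.inl f * ∏ i, X (Sum.inr (e i)), ?_, ?_⟩
    · have h := (hom_inl (Λ := Λ) hf).mul (IsWeightedHomogeneous.prod Finset.univ
        (fun i : Fin m => (X (Sum.inr (e i)) : Pol (σ ⊕ Λ))) (fun _ => ((1, 0) : ℤ × ℤ))
        (fun i _ => isWeightedHomogeneous_X ℂ (wb σ Λ) (Sum.inr (e i))))
      simpa using h
    · rw [map_mul, aeval_inl, map_prod]; simp [xa]

theorem c5 (m t : ℤ) (l : Λ) (z : AP ι p) (hz : z ∈ Al p v m t) :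
    lf p (v l) * z ∈ Al p v (m + 1) t := by
  obtain ⟨F, hF, rfl⟩ := (mem_Al p v m t z).1 hz
  refine (mem_Al p v _ _ _).2 ⟨F * X (Sum.inr l), ?_, by simp [xa, mul_comm]⟩
  simpa [wb] using hF.mul (isWeightedHomogeneous_X ℂ (wb σ Λ) (Sum.inr l))

theorem c6 (m t d : ℤ) (f : Pol σ) (hf : Hom f d) (z : AP ι p) (hz : z ∈ Al p v m t) :
    C (Ideal.Quotient.mk p f) * z ∈ Al p v m (t + d) := by
  obtain ⟨F, hF, rfl⟩ := (mem_Al p v m t z).1 hz
  refine (mem_Al p v _ _ _).2 ⟨F * rename Sum.inl f, ?_, by rw [map_mul, aeval_inl, mul_comm]⟩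
  simpa using hF.mul (hom_inl (Λ := Λ) hf)

theorem c1 (m : ℤ) : Sub (xb ι p) (w1 σ) (Al p v m) := by
  classical
  rcases lt_or_ge m 0 with h | h
  · exact ⟨Unit, inferInstance, fun _ => 0, fun _ => 0, fun t => by
      rw [c3 p v m t (Or.inl h)]; exact bot_le⟩
  · obtain ⟨m, rfl⟩ := Int.eq_ofNat_of_zero_le h
    refine ⟨Fin m → Λ, inferInstance, fun e => ∏ i, lf p (v (e i)), fun _ => 0, fun t => ?_⟩
    rw [c4, Submodule.span_le]
    rintro _ ⟨f, e, hf, rfl⟩
    refine ⟨Pi.single e f, fun l => ?_, ?_⟩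
    · by_cases hl : l = e
      · subst hl; simpa using hf
      · rw [Pi.single_eq_of_ne hl]; exact isWeightedHomogeneous_zero _ _ _
    · rw [Finset.sum_eq_single e]
      · rw [Pi.single_eq_same, aeval_xb, smul_eq_mul]
      · intro l _ hl; rw [Pi.single_eq_of_ne hl]; simp
      · simp

theorem c2 : hd (Al p v 0) = hq p := by
  funext t
  have h : Al p v 0 t = ((SS σ t).map (Ideal.Quotient.mkₐ ℂ p).toLinearMap).map
      (IsScalarTower.toAlgHom ℂ (Pol σ ⧸ p) (AP ι p)).toLinearMap := by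
    apply le_antisymm
    · have := c4 p v 0 t
      rw [Nat.cast_zero] at this
      rw [this, Submodule.span_le]
      rintro _ ⟨f, e, hf, rfl⟩
      exact ⟨_, ⟨f, hf, rfl⟩, by simp⟩
    · rintro _ ⟨_, ⟨f, hf, rfl⟩, rfl⟩
      exact (mem_Al p v _ _ _).2 ⟨rename Sum.inl f, hom_inl hf, by rw [aeval_inl]; rfl⟩
  unfold hq hd
  simp only
  rw [h, ← (Submodule.equivMapOfInjective
    (IsScalarTower.toAlgHom ℂ (Pol σ ⧸ p) (AP ι p)).toLinearMap
    (C_injective ι (Pol σ ⧸ p)) _).finrank_eq]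

end ALGBx

theorem p_ALGB :
    S_ALGB := by
  intro σ ι Λ _ _ _ p v
  refine ⟨fun m => ⟨fun i t z hz => ?_, ALGBx.c1 p v m⟩, ALGBx.c2 p v, ALGBx.c3 p v, ALGBx.c4 p v,
    ALGBx.c5 p v, ALGBx.c6 p v⟩
  exact ALGBx.c6 p v m t 1 (X i) (isWeightedHomogeneous_X ℂ _ i) z hz

end Pool.Agent.P.MP_b01859_ag.SD
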