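import Pool.Agent.P.MP_b01859_ag.SD.Iface

/-! Step ALGD. -/

set_option autoImplicit false
set_option linter.unusedSectionVars false

namespace Pool.Agent.P.MP_b01859_ag.SD

open MvPolynomial Filter

namespace ALGDx

variable {σ ι : Type} [Fintype ι]

lemma pd_lf (p : Ideal (Pol σ)) (v : ι → Pol σ) (a : ι) :
    pderiv a (lf p v) = C (Ideal.Quotient.mk p (v a)) := by
  classical
  unfold lf
  rw [map_sum, Finset.sum_eq_single a]
  · rw [Derivation.leibniz, pderiv_X_self, pderiv_C]; simp
  · intro b _ hb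
    rw [Derivation.leibniz, pderiv_X_of_ne hb, pderiv_C]; simp
  · simp

omit [Fintype ι] in
lemma ae_xb (p : Ideal (Pol σ)) (w : Pol σ) :
    aeval (xb ι p) w = (C (Ideal.Quotient.mk p w) : AP ι p) := by
  induction w using MvPolynomial.induction_on with
  | C c => rw [aeval_C]; rfl
  | add f g hf hg => rw [map_add, hf, hg, map_add, map_add]
  | mul_X f i hf => rw [map_mul, hf, aeval_X, map_mul, map_mul]; rfl

omit [Fintype ι] in
lemma pd_mul (p : Ideal (Pol σ)) (a : ι) (f g : AP ι p) :
    pderiv a (f * g) = pderiv a f * g + f * pderiv a g := by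
  rw [Derivation.leibniz, smul_eq_mul, smul_eq_mul]; ring

end ALGDx

open ALGDx in
theorem p_ALGD (hALGB : S_ALGB) :
    S_ALGD := by
  intro σ ι Λ _ _ _ T γ p v α hv m t z hz
  obtain ⟨-, -, h3, h4, h5, h6⟩ := hALGB σ ι Λ p v
  rcases lt_or_ge m 0 with hm | hm
  · rw [h3 m t (Or.inl hm), Submodule.mem_bot] at hz
    subst hz
    simp
  obtain ⟨m, rfl⟩ := Int.eq_ofNat_of_zero_le hm
  have key : ∀ (m : ℕ) (f : Pol σ) (e : Fin m → Λ), Hom f t →
      ∀ z : AP ι p, z = C (Ideal.Quotient.mk p f) * ∏ i, lf p (v (e i)) →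
      (∀ a, pderiv a z ∈ Al p v ((m : ℤ) - 1) (t + γ a + α)) ∧
      (∀ i j k, aeval (xb ι p) (T.ω i j) * pderiv k z - aeval (xb ι p) (T.ω i k) * pderiv j z +
        aeval (xb ι p) (T.ω j k) * pderiv i z = 0) ∧
      ∑ a, X a * pderiv a z = (((m : ℤ) : ℂ)) • z := by
    intro m
    induction m with
    | zero =>
      intro f e _ z hz
      subst hz
      simp
    | succ m ih =>
      intro f e hf z hz
      obtain ⟨i1, i2, i3⟩ := ih f (fun i => e i.succ) hf _ rfl
      have hmem : C (Ideal.Quotient.mk p f) * ∏ i : Fin m, lf p (v (e i.succ)) ∈ Al p v m t := by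
        rw [h4]; exact Submodule.subset_span ⟨f, fun i => e i.succ, hf, rfl⟩
      have ez : z = lf p (v (e 0)) *
          (C (Ideal.Quotient.mk p f) * ∏ i : Fin m, lf p (v (e i.succ))) := by
        rw [hz, Fin.prod_univ_succ]; ring
      generalize C (Ideal.Quotient.mk p f) * ∏ i : Fin m, lf p (v (e i.succ)) = y at *
      subst ez
      refine ⟨fun a => ?_, fun i j k => ?_, ?_⟩
      · rw [pd_mul, pd_lf]
        have e1 : ((m + 1 : ℕ) : ℤ) - 1 = m := by push_cast; ring
        rw [e1]
        refine add_mem ?_ ?_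
        · rw [add_assoc]; exact h6 _ _ _ _ ((hv (e 0)).1 a) y hmem
        · have := h5 _ _ (e 0) _ (i1 a)
          rwa [sub_add_cancel] at this
      · have h0 : (C (Ideal.Quotient.mk p (T.ω i j * v (e 0) k - T.ω i k * v (e 0) j +
            T.ω j k * v (e 0) i)) : AP ι p) = 0 := by
          rw [Ideal.Quotient.eq_zero_iff_mem.2 ((hv (e 0)).2 i j k), map_zero]
        have h1 := i2 i j k
        simp only [map_add, map_sub, map_mul] at h0
        simp only [pd_mul, pd_lf, ae_xb] at h1 ⊢
        linear_combination y * h0 + lf p (v (e 0)) * h1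
      · have h0 : ∑ a, X a * (C (Ideal.Quotient.mk p (v (e 0) a)) : AP ι p) = lf p (v (e 0)) := by
          unfold lf
          exact Finset.sum_congr rfl fun a _ => mul_comm _ _
        have h1 : ∑ a, X a * pderiv a (lf p (v (e 0)) * y) =
            (∑ a, X a * (C (Ideal.Quotient.mk p (v (e 0) a)) : AP ι p)) * y +
              lf p (v (e 0)) * ∑ a, X a * pderiv a y := by
          rw [Finset.sum_mul, Finset.mul_sum, ← Finset.sum_add_distrib]
          refine Finset.sum_congr rfl fun a _ => ?_
          rw [pd_mul, pd_lf]; ring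
        rw [h1, h0, i3, mul_smul_comm]
        push_cast
        rw [add_smul, one_smul, add_comm]
  rw [h4] at hz
  induction hz using Submodule.span_induction with
  | mem z hz =>
    obtain ⟨f, e, hf, rfl⟩ := hz
    exact key m f e hf _ rfl
  | zero => simp
  | add x y _ _ hx hy =>
    refine ⟨fun a => ?_, fun i j k => ?_, ?_⟩
    · rw [map_add]; exact add_mem (hx.1 a) (hy.1 a)
    · simp only [map_add]; linear_combination hx.2.1 i j k + hy.2.1 i j k
    · simp only [map_add, mul_add, Finset.sum_add_distrib, hx.2.2, hy.2.2, smul_add]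
  | smul c x _ hx =>
    refine ⟨fun a => ?_, fun i j k => ?_, ?_⟩
    · rw [Derivation.map_smul_of_tower]; exact Submodule.smul_mem _ c (hx.1 a)
    · simp only [Derivation.map_smul_of_tower]
      simp only [Algebra.smul_def]
      linear_combination algebraMap ℂ (AP ι p) c * hx.2.1 i j k
    · simp only [Derivation.map_smul_of_tower, mul_smul_comm, ← Finset.smul_sum, hx.2.2]
      rw [smul_comm]

end Pool.Agent.P.MP_b01859_ag.SD
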