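import Pool.Agent.P.MP_b01859_ag.SD.Iface

/-! Step BN. -/

set_option autoImplicit false
set_option linter.unusedSectionVars false

namespace Pool.Agent.P.MP_b01859_ag.SD

open MvPolynomial Filter

namespace BNx

lemma bn_nat (n k : ℕ) : bn n (k : ℤ) = ((k + n).choose n : ℕ) := by
  simp [bn]

lemma bn_neg (n : ℕ) {t : ℤ} (h : t < 0) : bn n t = 0 := by
  simp [bn, not_le.2 h]

lemma dl_bn (n : ℕ) : dl (bn (n + 1)) = bn n := by
  funext t
  show bn (n + 1) t - bn (n + 1) (t - 1) = bn n t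
  rcases lt_or_ge t 0 with h | h
  · rw [bn_neg _ h, bn_neg _ h, bn_neg _ (by omega : t - 1 < 0), sub_zero]
  · obtain ⟨k, rfl⟩ := Int.eq_ofNat_of_zero_le h
    cases k with
    | zero =>
      rw [bn_nat, bn_nat, bn_neg _ (by norm_num)]
      simp
    | succ k =>
      have e : ((k + 1 : ℕ) : ℤ) - 1 = (k : ℤ) := by push_cast; ring
      rw [e, bn_nat, bn_nat, bn_nat]
      have e1 : k + 1 + (n + 1) = (k + (n + 1)) + 1 := by ring
      have e2 : k + 1 + n = k + (n + 1) := by ring
      rw [e1, e2, Nat.choose_succ_succ']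
      push_cast
      ring

lemma iter_bn (n : ℕ) : dl^[n] (bn n) = bn 0 := by
  induction n with
  | zero => rfl
  | succ n ih => rw [Function.iterate_succ_apply, dl_bn, ih]

lemma bn_zero (t : ℤ) : bn 0 t = if 0 ≤ t then 1 else 0 := by
  simp [bn]

lemma monic_prod (n : ℕ) :
    (∏ i ∈ Finset.range n, (Polynomial.X + Polynomial.C ((i : ℂ) + 1))).Monic :=
  Polynomial.monic_prod_of_monic _ _ fun _ _ => Polynomial.monic_X_add_C _

lemma deg_prod (n : ℕ) :
    (∏ i ∈ Finset.range n, (Polynomial.X + Polynomial.C ((i : ℂ) + 1))).natDegree = n := by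
  rw [Polynomial.natDegree_prod_of_monic _ _ fun _ _ => Polynomial.monic_X_add_C _]
  simp only [Polynomial.natDegree_X_add_C, Finset.sum_const, Finset.card_range, smul_eq_mul,
    mul_one]

lemma weight_eq {σ : Type} [Fintype σ] (d : σ →₀ ℕ) :
    Finsupp.weight (w1 σ) d = ((∑ i, d i : ℕ) : ℤ) := by
  rw [Finsupp.weight_apply, Finsupp.sum_fintype _ _ (by simp)]
  simp

lemma hd_SS (σ : Type) [Fintype σ] (n : ℕ) (hc : Fintype.card σ = n + 1) : hd (SS σ) = bn n := by
  classical
  funext t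
  have h1 : Module.finrank ℂ (SS σ t) =
      Nat.card {d : σ →₀ ℕ | Finsupp.weight (w1 σ) d = t} := by
    rw [SS, weightedHomogeneousSubmodule_eq_finsupp_supported]
    exact Module.finrank_eq_nat_card_basis
      (basisRestrictSupport ℂ {d : σ →₀ ℕ | Finsupp.weight (w1 σ) d = t})
  show ((Module.finrank ℂ (SS σ t) : ℕ) : ℤ) = bn n t
  rw [h1]
  rcases lt_or_ge t 0 with h | h
  · have e : {d : σ →₀ ℕ | Finsupp.weight (w1 σ) d = t} = ∅ := by
      refine Set.eq_empty_of_forall_notMem fun d hd' => ?_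
      have h2 : Finsupp.weight (w1 σ) d = t := hd'
      rw [weight_eq] at h2
      omega
    rw [e, bn_neg _ h]
    simp
  · obtain ⟨k, rfl⟩ := Int.eq_ofNat_of_zero_le h
    have e : {d : σ →₀ ℕ | Finsupp.weight (w1 σ) d = (k : ℤ)} =
        ((Finset.univ : Finset σ).finsuppAntidiag k : Finset (σ →₀ ℕ)) := by
      ext d
      simp only [Set.mem_ofPred_eq, weight_eq, Finset.mem_coe, Finset.mem_finsuppAntidiag,
        Finset.subset_univ, and_true, Nat.cast_inj]
    rw [e, bn_nat, Nat.card_coe_set_eq, Set.ncard_coe_finset,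
      Finset.card_finsuppAntidiag_nat_eq_choose, Finset.card_univ, hc]
    have e1 : n + 1 + k - 1 = k + n := by omega
    rw [e1, Nat.choose_symm_add]

end BNx

open BNx in
theorem p_BN :
    S_BN := by
  refine ⟨dl_bn, fun n t => ?_, fun n => ?_, fun n => ⟨?_, ?_⟩, fun n s t hst => ?_, fun n => ?_,
    fun σ _ n hc => ⟨hd_SS σ n hc, ?_⟩⟩
  · rw [Function.iterate_succ_apply', iter_bn]
    show bn 0 t - bn 0 (t - 1) = _
    rw [bn_zero, bn_zero]
    split_ifs <;> omega
  · filter_upwards [eventually_ge_atTop (0 : ℤ)] with t ht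
    obtain ⟨k, rfl⟩ := Int.eq_ofNat_of_zero_le ht
    have h1 := Nat.ascFactorial_eq_factorial_mul_choose k n
    rw [Nat.ascFactorial_eq_prod_range] at h1
    have h2 : (∏ i ∈ Finset.range n, ((k : ℂ) + ((i : ℂ) + 1))) =
        (n.factorial : ℂ) * ((k + n).choose n : ℕ) := by
      rw [← Nat.cast_mul, ← h1, Nat.cast_prod]
      exact Finset.prod_congr rfl fun i _ => by push_cast; ring
    have h3 : (n.factorial : ℂ) ≠ 0 := Nat.cast_ne_zero.2 n.factorial_ne_zero
    rw [bn_nat, bp, Polynomial.eval_mul, Polynomial.eval_C, Polynomial.eval_prod]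
    simp only [Polynomial.eval_add, Polynomial.eval_X, Polynomial.eval_C, Int.cast_natCast]
    rw [h2, inv_mul_cancel_left₀ h3]
  · rw [bp, Polynomial.natDegree_C_mul (inv_ne_zero (Nat.cast_ne_zero.2 n.factorial_ne_zero)),
      deg_prod]
  · have h1 := (monic_prod n).coeff_natDegree
    rw [deg_prod] at h1
    rw [bp, Polynomial.coeff_C_mul, h1, mul_one]
  · rcases lt_or_ge s 0 with h | h
    · rw [bn_neg _ h, bn]
      split_ifs
      · exact Int.natCast_nonneg _
      · exact le_rfl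
    · obtain ⟨k, rfl⟩ := Int.eq_ofNat_of_zero_le h
      obtain ⟨l, rfl⟩ := Int.eq_ofNat_of_zero_le (h.trans hst)
      rw [bn_nat, bn_nat]
      have h1 : k ≤ l := by exact_mod_cast hst
      exact_mod_cast Nat.choose_le_choose n (by omega)
  · filter_upwards [eventually_ge_atTop (0 : ℤ)] with t ht
    rw [iter_bn, bn_zero, if_pos ht]
  · rw [← hd_SS σ n hc]
    funext t
    have hi : Function.Injective (Ideal.Quotient.mkₐ ℂ (⊥ : Ideal (Pol σ))).toLinearMap := by
      intro f g hfg
      have h1 : Ideal.Quotient.mk (⊥ : Ideal (Pol σ)) f = Ideal.Quotient.mk ⊥ g := hfg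
      rw [Ideal.Quotient.eq, Ideal.mem_bot, sub_eq_zero] at h1
      exact h1
    exact congrArg (Nat.cast : ℕ → ℤ)
      (LinearEquiv.finrank_eq (Submodule.equivMapOfInjective _ hi (SS σ t))).symm

end Pool.Agent.P.MP_b01859_ag.SD
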