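import Pool.Agent.P.MP_b01859_ag.SD.Iface

/-! Step BOG. -/

set_option autoImplicit false
set_option linter.unusedSectionVars false

namespace Pool.Agent.P.MP_b01859_ag.SD

open MvPolynomial Filter

namespace BOGx

/-- A subspace of vectors of forms of large dimension has an element with two entries in given
ideals. -/
lemma exists_ker {σ ι : Type} [Fintype σ] (E : Submodule ℂ (ι → Pol σ)) (I J : Ideal (Pol σ))
    (i j : ι) (d e : ℤ) (hi : ∀ φ ∈ E, φ i ∈ SS σ d) (hj : ∀ φ ∈ E, φ j ∈ SS σ e)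
    (h : hq I d + hq J e < (Module.finrank ℂ E : ℕ)) :
    ∃ φ ∈ E, φ ≠ 0 ∧ φ i ∈ I ∧ φ j ∈ J := by
  let A := (SS σ d).map (Ideal.Quotient.mkₐ ℂ I).toLinearMap
  let B := (SS σ e).map (Ideal.Quotient.mkₐ ℂ J).toLinearMap
  let F₁ : E →ₗ[ℂ] A := LinearMap.codRestrict A
    ((Ideal.Quotient.mkₐ ℂ I).toLinearMap ∘ₗ LinearMap.proj i ∘ₗ E.subtype)
    fun φ => Submodule.mem_map_of_mem (hi φ.1 φ.2)
  let F₂ : E →ₗ[ℂ] B := LinearMap.codRestrict B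
    ((Ideal.Quotient.mkₐ ℂ J).toLinearMap ∘ₗ LinearMap.proj j ∘ₗ E.subtype)
    fun φ => Submodule.mem_map_of_mem (hj φ.1 φ.2)
  by_contra hcon
  push Not at hcon
  have hinj : Function.Injective (F₁.prod F₂) := by
    rw [injective_iff_map_eq_zero]
    intro φ hφ
    have h1 : Ideal.Quotient.mk I (φ.1 i) = 0 := congrArg (fun z => z.1.1) hφ
    have h2 : Ideal.Quotient.mk J (φ.1 j) = 0 := congrArg (fun z => z.2.1) hφ
    by_contra h0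
    exact hcon φ.1 φ.2 (fun e => h0 (Subtype.ext e)) (Ideal.Quotient.eq_zero_iff_mem.mp h1)
      (Ideal.Quotient.eq_zero_iff_mem.mp h2)
  have hle := LinearMap.finrank_le_finrank_of_injective hinj
  rw [Module.finrank_prod] at hle
  have e1 : hq I d = (Module.finrank ℂ A : ℕ) := rfl
  have e2 : hq J e = (Module.finrank ℂ B : ℕ) := rfl
  rw [e1, e2] at h
  omega

lemma arith {g c₂ r ε μ : ℤ} (hε : ε = 0 ∨ ε = 1) (hg : -g = 2 * r + ε - 1)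
    (hc : 4 * c₂ ≤ g ^ 2) (h : μ * (μ + ε) ≤ qq g c₂ (μ - r - g)) : μ ≤ 0 := by
  have hg' : g = 1 - 2 * r - ε := by omega
  subst hg'
  unfold qq at h
  rcases hε with rfl | rfl
  · have h1 : 4 * c₂ ≤ 4 * (r ^ 2 - r) + 1 := by nlinarith
    have h2 : c₂ ≤ r ^ 2 - r := by omega
    nlinarith
  · nlinarith

end BOGx

theorem p_BOG (hBOGN : S_BOGN) (hCOND : S_COND) (hORDM : S_ORDM) (hMULT : S_MULT) (hBN : S_BN) :
    S_BOG := by
  classical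
  intro σ ι _ _ n T γ g c₂ a b hC hc
  obtain ⟨r, ε, hε, hg⟩ : ∃ r ε : ℤ, (ε = 0 ∨ ε = 1) ∧ -g = 2 * r + ε - 1 :=
    ⟨(1 - g) / 2, (1 - g) % 2, by omega, by omega⟩
  obtain ⟨i₀⟩ : Nonempty σ := Fintype.card_pos_iff.mp (by rw [hC.card]; omega)
  have hy : (Pi.single i₀ (1 : ℂ) : σ → ℂ) ≠ 0 := fun e => by
    simpa using congrFun e i₀
  obtain ⟨i, j, hij⟩ := T.LF_eval hy
  have hP : EvP (hd (SS σ)) (bp n) := by
    rw [(hBN.2.2.2.2.2.2 σ n hC.card).1]; exact hBN.2.2.1 n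
  have hab : a + b = ((r - 1 : ℤ) : ℂ) + ((r + ε - 1 : ℤ) : ℂ) + 1 := by
    rw [hC.sum, ← Int.cast_neg, hg]; push_cast; ring
  have hev := hBOGN n _ (r - 1) (r + ε - 1) a b (by have := hC.five; omega) hab
    (hC.rr (Pol σ) X (SS σ) cl_SS sub_SS _ hP)
  obtain ⟨m, hm, hm0⟩ := (hev.and (eventually_ge_atTop (-r))).exists
  obtain ⟨v₁, hv₁⟩ : ∃ v : ℕ, (v : ℤ) = m + r := ⟨(m + r).toNat, by omega⟩
  obtain ⟨v₂, hv₂⟩ : ∃ v : ℕ, (v : ℤ) = m + r + ε := ⟨(m + r + ε).toNat, by omega⟩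
  have hW := EN_le_WN (x := X) (N := SS σ) hC.gr cl_SS m
  obtain ⟨φ, hφ, hφ0, hφi, hφj⟩ := BOGx.exists_ker (EN T γ X (SS σ) m)
    (my (Pi.single i₀ (1 : ℂ) : σ → ℂ) ^ v₁) (my (Pi.single i₀ (1 : ℂ) : σ → ℂ) ^ v₂) i j
    (m + γ i - g) (m + γ j - g) (fun φ h => (hW h).1 i) (fun φ h => (hW h).1 j) (by
      have h1 := hCOND σ n hC.card i₀ v₁ (m + γ i - g)
      have h2 := hCOND σ n hC.card i₀ v₂ (m + γ j - g)
      rw [hv₁, show m + r - 1 = m + (r - 1) by ring] at h1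
      rw [hv₂, show m + r + ε - 1 = m + (r + ε - 1) by ring] at h2
      exact (add_le_add h1 h2).trans_lt hm)
  obtain ⟨hφh, hφw⟩ := hW hφ
  obtain ⟨δ, τ, d, hδ, hτ, hp, hδh, hτh⟩ := exists_prim_hom (Γ := ℤ) (w := w1 σ)
    (fun x y h => h (AddMonoidHom.id ℤ)) φ (fun a => m + γ a - g) hφh
    (Function.ne_iff.mp hφ0)
  have hd0 : 0 ≤ d := Hom.nonneg hδh hδ
  have hτw : τ ∈ T.N := fun a b c => mul_left_cancel₀ hδ (by
    have := hφw a b c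
    simp only [aeval_X_left_apply] at this
    rw [hτ, hτ, hτ] at this
    linear_combination this)
  have hH : VB.HomN (w1 σ) γ (⟨τ, hτw⟩ : T.N) (m - d - g) := fun a =>
    hom_congr (hτh a) (by ring)
  refine ⟨⟨τ, hτw⟩, m - d - g, hH, hp, ?_⟩
  by_contra hcon
  lift d to ℕ using hd0
  obtain ⟨μ₁, hμ₁⟩ : ∃ μ : ℕ, v₁ = d + μ := ⟨v₁ - d, by omega⟩
  obtain ⟨μ₂, hμ₂⟩ : ∃ μ : ℕ, v₂ = d + μ := ⟨v₂ - d, by omega⟩
  obtain ⟨-, h2, h3⟩ := hORDM σ (Pi.single i₀ (1 : ℂ))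
  have h4 := h3 δ d hδ hδh
  have h5 := hMULT σ ι n T γ g c₂ a b hC ⟨τ, hτw⟩ _ hH hp _ i j μ₁ μ₂ hij
    (h2 δ (τ i) d μ₁ h4 (by rw [← hτ, ← hμ₁]; exact hφi))
    (h2 δ (τ j) d μ₂ h4 (by rw [← hτ, ← hμ₂]; exact hφj))
  have h6 := BOGx.arith (μ := μ₁) hε hg hc (by
    rw [show (μ₁ : ℤ) + ε = μ₂ by omega, show (μ₁ : ℤ) - r - g = m - d - g by omega]
    exact h5)
  omega

end Pool.Agent.P.MP_b01859_ag.SD
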