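import Pool.Agent.P.MP_b01859_ag.SD.Iface

/-! Step BOGN. -/

set_option autoImplicit false
set_option linter.unusedSectionVars false

namespace Pool.Agent.P.MP_b01859_ag.SD

open MvPolynomial Filter

namespace BOGNx

theorem coeff_sh (a : ℂ) (P : Polynomial ℂ) (j : ℕ) (h : P.natDegree ≤ j + 1) :
    (sh a P).coeff j = P.coeff j + (j + 1) * P.coeff (j + 1) * a := by
  have h1 : (Polynomial.hasseDeriv j P).natDegree < 2 :=
    (Polynomial.natDegree_hasseDeriv_le P j).trans_lt (by omega)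
  rw [sh, ← Polynomial.taylor_apply, Polynomial.taylor_coeff, Polynomial.eval_eq_sum_range' h1]
  simp [Finset.sum_range_succ, Polynomial.hasseDeriv_coeff, add_comm 1 j]

theorem evp_sh {f : ℤ → ℤ} {P : Polynomial ℂ} (h : EvP f P) (r : ℤ) :
    ∀ᶠ t : ℤ in atTop, (f (t + r) : ℂ) = (sh r P).eval (t : ℂ) := by
  filter_upwards [(tendsto_atTop_add_const_right atTop r tendsto_id).eventually h] with t ht
  simpa [sh, Polynomial.eval_comp] using ht

end BOGNx

theorem p_BOGN (hPOLY : S_POLY) (hBN : S_BN) (hGROW : S_GROW) :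
    S_BOGN := by
  intro n h r s a b hn hab hh
  obtain ⟨k, rfl⟩ := Nat.exists_eq_add_of_le' hn
  obtain ⟨hd, hc⟩ := hBN.2.2.2.1 (k + 1)
  have hb := hBN.2.2.1 (k + 1)
  set P := bp (k + 1) with hP
  have hQ : ∀ j, k ≤ j → (sh a P + sh b P - sh r P - sh s P).coeff j =
      (j + 1) * P.coeff (j + 1) := fun j hj => by
    simp only [Polynomial.coeff_sub, Polynomial.coeff_add,
      BOGNx.coeff_sh _ P j (hd.le.trans (by omega))]
    linear_combination ((j + 1) * P.coeff (j + 1)) * hab
  have hE : EvP (fun m => h m - bn (k + 1) (m + r) - bn (k + 1) (m + s))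
      (sh a P + sh b P - sh r P - sh s P) := by
    filter_upwards [hh, BOGNx.evp_sh hb r, BOGNx.evp_sh hb s] with t h1 h2 h3
    rw [Polynomial.eval_sub, Polynomial.eval_sub, ← h1, ← h2, ← h3]
    push_cast
    rfl
  have h1 := hPOLY.2.2.1 k _ _ hE (Polynomial.natDegree_le_iff_coeff_eq_zero.2 fun j hj => by
    rw [hQ j hj.le, Polynomial.coeff_eq_zero_of_natDegree_lt (by omega), mul_zero])
  rw [hQ k le_rfl, hc, ← mul_assoc, show (k.factorial : ℂ) * (k + 1) = (k + 1).factorial by
    rw [Nat.factorial_succ]; push_cast; ring,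
    mul_inv_cancel₀ (Nat.cast_ne_zero.2 (Nat.factorial_ne_zero _))] at h1
  filter_upwards [hGROW.2.2.1 k (fun m => h m - bn (k + 1) (m + r) - bn (k + 1) (m + s))
    (h1.mono fun t ht => one_pos.trans_eq (Int.cast_eq_one.1 ht).symm)] with t ht
  linarith

end Pool.Agent.P.MP_b01859_ag.SD
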