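import Pool.Agent.P.MP_b01859_ag.SD.Ind

/-!
Differences of Hilbert functions: positivity and eventual vanishing.
-/

namespace Pool.Agent.P.MP_b01859_ag.SD.H

open MvPolynomial Module

section fn
variable {Γ : Type} [AddCommGroup Γ]

lemma fd_comm (a b : Γ) : Function.Commute (fwdDiff a : (Γ → ℤ) → Γ → ℤ) (fwdDiff b) := fun f => by
  ext g
  simp only [fwdDiff]
  rw [add_right_comm g a b]; ring

lemma fd_congr (a : Γ) (S : Set Γ) (hS : ∀ g ∈ S, g + a ∈ S) (i : ℕ) :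
    ∀ f f' : Γ → ℤ, (∀ g ∈ S, f g = f' g) → ∀ g ∈ S, (fwdDiff a)^[i] f g = (fwdDiff a)^[i] f' g := by
  induction i with
  | zero => exact fun _ _ h => h
  | succ i ih =>
    intro f f' h
    exact ih _ _ fun g hg => by simp only [fwdDiff]; rw [h g hg, h _ (hS g hg)]

lemma fd_zero (a : Γ) (i : ℕ) : (fwdDiff a)^[i] (0 : Γ → ℤ) = 0 :=
  Function.iterate_fixed (by ext g; simp [fwdDiff]) i

lemma fd_vanish (a : Γ) (S : Set Γ) (hS : ∀ g ∈ S, g + a ∈ S) (i : ℕ) (f : Γ → ℤ)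
    (h : ∀ g ∈ S, f g = 0) : ∀ g ∈ S, (fwdDiff a)^[i] f g = 0 := fun g hg => by
  rw [fd_congr a S hS i f 0 h g hg, fd_zero, Pi.zero_apply]

lemma fd_shift (a c : Γ) (i : ℕ) (h : Γ → ℤ) :
    (fwdDiff a)^[i] (fun g => h (g + c)) = fun g => (fwdDiff a)^[i] h (g + c) := by
  ext g; exact fwdDiff_iter_comp_add a h c i g

end fn

/-- Mixed differences. -/
def D2 (i j : ℕ) (f : ℤ × ℤ → ℤ) : ℤ × ℤ → ℤ := (fwdDiff (1, 0))^[i] ((fwdDiff (0, 1))^[j] f)

lemma fd_swap (a : ℤ × ℤ) (i : ℕ) : ∀ f : ℤ × ℤ → ℤ,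
    (fwdDiff a)^[i] (f ∘ Prod.swap) = ((fwdDiff a.swap)^[i] f) ∘ Prod.swap := by
  induction i with
  | zero => exact fun _ => rfl
  | succ i ih => intro f; exact ih (fwdDiff a.swap f)

/-- The inductive form of positivity. -/
def Good (f : ℤ × ℤ → ℤ) : Prop :=
  (∃ B, ∀ i j g, B ≤ g.1 → B ≤ g.2 → 0 ≤ D2 i j f g) ∧
  (∀ t, ∃ B, ∀ i m, B ≤ m → 0 ≤ (fwdDiff (1, 0))^[i] f (m, t)) ∧
  (∀ m, ∃ B, ∀ j t, B ≤ t → 0 ≤ (fwdDiff (0, 1))^[j] f (m, t))

lemma Good.swap {f : ℤ × ℤ → ℤ} (h : Good f) : Good (f ∘ Prod.swap) := by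
  obtain ⟨⟨B, h1⟩, h2, h3⟩ := h
  refine ⟨⟨B, fun i j g a b => ?_⟩, fun t => ?_, fun m => ?_⟩
  · rw [D2, fd_swap, fd_swap]
    have := h1 j i g.swap b a
    rw [D2, (fd_comm _ _).iterate_iterate] at this
    exact this
  · obtain ⟨B, h⟩ := h3 t
    exact ⟨B, fun i m a => by rw [fd_swap]; exact h i m a⟩
  · obtain ⟨B, h⟩ := h2 m
    exact ⟨B, fun i t a => by rw [fd_swap]; exact h i t a⟩

lemma Good.add {f f' : ℤ × ℤ → ℤ} (h : Good f) (h' : Good f') : Good (f + f') := by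
  obtain ⟨⟨B, h1⟩, h2, h3⟩ := h
  obtain ⟨⟨B', h1'⟩, h2', h3'⟩ := h'
  refine ⟨⟨max B B', fun i j g a b => ?_⟩, fun t => ?_, fun m => ?_⟩
  · rw [D2, fwdDiff_iter_add, fwdDiff_iter_add]
    exact add_nonneg (h1 i j g (by omega) (by omega)) (h1' i j g (by omega) (by omega))
  · obtain ⟨B, h⟩ := h2 t
    obtain ⟨B', h'⟩ := h2' t
    refine ⟨max B B', fun i m a => ?_⟩
    rw [fwdDiff_iter_add]
    exact add_nonneg (h i m (by omega)) (h' i m (by omega))
  · obtain ⟨B, h⟩ := h3 m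
    obtain ⟨B', h'⟩ := h3' m
    refine ⟨max B B', fun i t a => ?_⟩
    rw [fwdDiff_iter_add]
    exact add_nonneg (h i t (by omega)) (h' i t (by omega))

lemma good_single (g0 : ℤ × ℤ) (f : ℤ × ℤ → ℤ) (hf : ∀ x, x ≠ g0 → f x = 0) : Good f := by
  have s1 : ∀ g ∈ {g : ℤ × ℤ | g0.1 + 1 ≤ g.1}, f g = 0 := fun g hg =>
    hf _ (by rintro rfl; simp at hg)
  have s2 : ∀ g ∈ {g : ℤ × ℤ | g0.2 + 1 ≤ g.2}, f g = 0 := fun g hg =>
    hf _ (by rintro rfl; simp at hg)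
  refine ⟨⟨g0.1 + 1, fun i j g a _ => ?_⟩, fun t => ⟨g0.1 + 1, fun i m a => ?_⟩,
    fun m => ⟨g0.2 + 1, fun j t a => ?_⟩⟩
  · exact (fd_vanish _ _ (fun g hg => by simp at hg ⊢; omega) i _
      (fd_vanish _ _ (fun g hg => by simpa using hg) j _ s1) g a).ge
  · exact (fd_vanish _ _ (fun g hg => by simp at hg ⊢; omega) i _ s1 (m, t) a).ge
  · exact (fd_vanish _ _ (fun g hg => by simp at hg ⊢; omega) j _ s2 (m, t) a).ge

lemma good_step {f h : ℤ × ℤ → ℤ} (h0 : 0 ≤ f) (hd : ∀ g, f (g + (0, 1)) - f g = h (g + (0, 1)))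
    (hh : Good h) (hs : ∀ t, Good fun g => if g.2 = t then f g else 0) : Good f := by
  obtain ⟨⟨B, h1⟩, -, h3⟩ := hh
  have hd' : fwdDiff (0, 1) f = fun g => h (g + (0, 1)) := funext hd
  have line : ∀ t, ∃ B, ∀ i m, B ≤ m → 0 ≤ (fwdDiff (1, 0))^[i] f (m, t) := fun t => by
    obtain ⟨B, hB⟩ := (hs t).2.1 t
    refine ⟨B, fun i m a => (hB i m a).trans_eq ?_⟩
    exact fd_congr _ {g : ℤ × ℤ | g.2 = t} (fun g hg => by simpa using hg) i _ _
      (fun g hg => if_pos hg) _ rfl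
  have up : ∀ i j g, B ≤ g.1 → B ≤ g.2 → 0 ≤ D2 i (j + 1) f g := fun i j g a b => by
    rw [D2, Function.iterate_succ_apply, hd', fd_shift, fd_shift]
    exact h1 i j _ (by simpa using a) (by simp; omega)
  refine ⟨?_, line, fun m => ?_⟩
  · obtain ⟨B1, hB1⟩ := line B
    refine ⟨max B B1, fun i j g a b => ?_⟩
    rcases j with _ | j
    swap
    · exact up i j g (by omega) (by omega)
    obtain ⟨m, t⟩ := g
    have b' : B ≤ t := le_trans (le_max_left _ _) b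
    clear b
    induction t, b' using Int.leInduction with
    | base => exact hB1 i m (le_trans (le_max_right _ _) a)
    | succ t ht ih =>
      have := up i 0 (m, t) (le_trans (le_max_left _ _) a) ht
      rw [D2, zero_add, Function.iterate_one, ((fd_comm _ _).iterate_left i).eq] at this
      simp only [fwdDiff, Prod.mk_add_mk, add_zero] at this
      have ih' := ih a
      simp only [D2, Function.iterate_zero, id] at ih' ⊢
      omega
  · obtain ⟨B', hB'⟩ := h3 m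
    refine ⟨B', fun j t a => ?_⟩
    rcases j with _ | j
    · exact h0 _
    · rw [Function.iterate_succ_apply, hd', fd_shift]
      simpa using hB' j (t + 1) (by omega)

variable {σ U : Type} [AddCommGroup U] [Module ℂ U]
  [Module (MvPolynomial σ ℂ) U] [IsScalarTower ℂ (MvPolynomial σ ℂ) U]

theorem good_dd [Fintype σ] [IsNoetherian (MvPolynomial σ ℂ) U] (w : σ → ℤ × ℤ)
    (hw : ∀ i, w i = (1, 0) ∨ w i = (0, 1)) (𝒰 : ℤ × ℤ → Submodule ℂ U) (hind : iSupIndep 𝒰)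
    (hfin : ∀ g, Module.Finite ℂ (𝒰 g)) (K K' : ℤ × ℤ → Submodule ℂ U) (hK : Cl w 𝒰 K)
    (hK' : Cl w 𝒰 K') (hle : K' ≤ K) : Good (dd K K') := by
  classical
  refine hilb_ind w 𝒰 hind hfin (fun _ f => Good f) (fun _ => ?_) (fun _ _ _ => Good.add)
    good_single (fun _ _ _ _ h => h) ?_ Finset.univ K K' hK hK' hle
    fun i hi => absurd (by simp) hi
  · exact good_single 0 0 fun _ _ => rfl
  intro z B f h _ h0 hd hh hs
  rcases hw z with e | e
  · have := good_step (f := f ∘ Prod.swap) (h := h ∘ Prod.swap) (fun g => h0 _)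
      (fun g => by simpa [e] using hd g.swap) hh.swap fun t =>
        (hs (AddMonoidHom.fst ℤ ℤ) (fun i => by rcases hw i with e | e <;> simp [e])
          (by simp [e]) t).swap
    exact this.swap
  · exact good_step h0 (by simpa [e] using hd) hh fun t =>
      hs (AddMonoidHom.snd ℤ ℤ) (fun i => by rcases hw i with e | e <;> simp [e]) (by simp [e]) t

/-- All mixed differences of a bigraded Hilbert function are eventually nonnegative. -/
theorem pos_dd [Fintype σ] [IsNoetherian (MvPolynomial σ ℂ) U] (w : σ → ℤ × ℤ)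
    (hw : ∀ i, w i = (1, 0) ∨ w i = (0, 1)) (𝒰 : ℤ × ℤ → Submodule ℂ U) (hind : iSupIndep 𝒰)
    (hfin : ∀ g, Module.Finite ℂ (𝒰 g)) (K K' : ℤ × ℤ → Submodule ℂ U) (hK : Cl w 𝒰 K)
    (hK' : Cl w 𝒰 K') (hle : K' ≤ K) :
    ∃ B, ∀ i j g, B ≤ g.1 → B ≤ g.2 → 0 ≤ D2 i j (dd K K') g :=
  (good_dd w hw 𝒰 hind hfin K K' hK hK' hle).1

/-- One grading: all differences are eventually nonnegative. -/
theorem pos_one [Fintype σ] [IsNoetherian (MvPolynomial σ ℂ) U]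
    (𝒰 : ℤ → Submodule ℂ U) (hind : iSupIndep 𝒰) (hfin : ∀ g, Module.Finite ℂ (𝒰 g))
    (K K' : ℤ → Submodule ℂ U) (hK : Cl (fun _ : σ => 1) 𝒰 K) (hK' : Cl (fun _ : σ => 1) 𝒰 K')
    (hle : K' ≤ K) : ∃ B, ∀ j t, B ≤ t → 0 ≤ (fwdDiff 1)^[j] (dd K K') t := by
  classical
  refine hilb_ind (fun _ : σ => 1) 𝒰 hind hfin
    (fun _ f => ∃ B, ∀ j t, B ≤ t → 0 ≤ (fwdDiff 1)^[j] f t) (fun _ => ⟨0, fun j t _ => ?_⟩) ?_
    (fun g f hf => ⟨g + 1, fun j t a => ?_⟩) (fun _ _ _ _ h => h) ?_ Finset.univ K K' hK hK' hle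
    fun i hi => absurd (by simp) hi
  · rw [fd_zero]; rfl
  · rintro _ f f' ⟨B, h⟩ ⟨B', h'⟩
    refine ⟨max B B', fun j t a => ?_⟩
    rw [fwdDiff_iter_add]
    exact add_nonneg (h j t (by omega)) (h' j t (by omega))
  · exact (fd_vanish _ {x | g + 1 ≤ x} (fun g hg => by simp at hg ⊢; omega) j _
      (fun x hx => hf _ (by rintro rfl; simp at hx)) t a).ge
  · rintro z B f h _ h0 hd ⟨B', hB'⟩ -
    refine ⟨B', fun j t a => ?_⟩
    rcases j with _ | j
    · exact h0 _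
    · rw [Function.iterate_succ_apply, show fwdDiff 1 f = fun g => h (g + 1) from funext hd,
        fd_shift]
      exact hB' j (t + 1) (by omega)

/-- One grading: if the variables outside `A` act nilpotently, the difference of order `|A|`
vanishes eventually. -/
theorem vanish_one [Fintype σ] [IsNoetherian (MvPolynomial σ ℂ) U]
    (𝒰 : ℤ → Submodule ℂ U) (hind : iSupIndep 𝒰) (hfin : ∀ g, Module.Finite ℂ (𝒰 g))
    (A : Finset σ) (K K' : ℤ → Submodule ℂ U) (hK : Cl (fun _ : σ => 1) 𝒰 K)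
    (hK' : Cl (fun _ : σ => 1) 𝒰 K') (hle : K' ≤ K) (hnil : Nil (fun _ : σ => 1) A K K') :
    ∃ B, ∀ t, B ≤ t → (fwdDiff 1)^[A.card] (dd K K') t = 0 := by
  classical
  refine hilb_ind (fun _ : σ => 1) 𝒰 hind hfin
    (fun A f => ∃ B, ∀ t, B ≤ t → (fwdDiff 1)^[A.card] f t = 0) (fun _ => ⟨0, fun t _ => ?_⟩) ?_
    (fun g f hf => ⟨g + 1, fun t a => ?_⟩) ?_ ?_ A K K' hK hK' hle hnil
  · rw [fd_zero]; rfl
  · rintro _ f f' ⟨B, h⟩ ⟨B', h'⟩
    refine ⟨max B B', fun t a => ?_⟩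
    rw [fwdDiff_iter_add, Pi.add_apply, h t (by omega), h' t (by omega), add_zero]
  · exact hf _ (by omega)
  · rintro z A f hz ⟨B, h⟩
    refine ⟨B, fun t a => ?_⟩
    rw [Finset.card_insert_of_notMem hz, Function.iterate_succ_apply', fwdDiff, h t a,
      h _ (by omega), sub_zero]
  · rintro z A f h hz - hd ⟨B, hB⟩ -
    refine ⟨B, fun t a => ?_⟩
    rw [Finset.card_insert_of_notMem hz, Function.iterate_succ_apply,
      show fwdDiff 1 f = fun g => h (g + 1) from funext hd, fd_shift]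
    exact hB (t + 1) (by omega)

end Pool.Agent.P.MP_b01859_ag.SD.H
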