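import Pool.Agent.P.MP_b01859_ag.SD.Iface
import Pool.Agent.P.MP_b01859_ag.SD.Pos

/-! Step C1. -/

set_option autoImplicit false
set_option linter.unusedSectionVars false

namespace Pool.Agent.P.MP_b01859_ag.SD

open MvPolynomial Filter

namespace C1x

variable {τ G R V κ : Type} [AddCommGroup G] [CommRing R] [Algebra ℂ R] [AddCommGroup V]
  [Module ℂ V] [Module R V] [IsScalarTower ℂ R V] [Fintype κ]

noncomputable def pc (w : τ → G) (e : κ → G) (g : G) : Submodule ℂ (κ → Pol τ) :=
  Submodule.pi Set.univ fun l => weightedHomogeneousSubmodule ℂ w (g - e l)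

lemma mem_pc {w : τ → G} {e : κ → G} {g : G} {f : κ → Pol τ} :
    f ∈ pc w e g ↔ ∀ l, IsWeightedHomogeneous w (f l) (g - e l) := by
  simp [pc, Submodule.mem_pi]

lemma pc_cl (w : τ → G) (e : κ → G) (i : τ) (g : G) (f : κ → Pol τ) (hf : f ∈ pc w e g) :
    (X i : Pol τ) • f ∈ pc w e (g + w i) := by
  rw [mem_pc] at hf ⊢
  intro l
  exact hom_congr ((isWeightedHomogeneous_X ℂ w i).mul (hf l)) (by abel)

lemma pc_ind (w : τ → G) (e : κ → G) : iSupIndep (pc w e) := by
  classical
  intro g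
  rw [Submodule.disjoint_def]
  intro f hf hf'
  let c : (κ → Pol τ) →ₗ[ℂ] (κ → Pol τ) := LinearMap.pi fun l =>
    (weightedHomogeneousComponent w (g - e l)).comp (LinearMap.proj l)
  have h1 : (⨆ (j) (_ : j ≠ g), pc w e j) ≤ LinearMap.ker c := by
    refine iSup₂_le fun j hj φ hφ => ?_
    rw [LinearMap.mem_ker]
    funext l
    exact (mem_pc.mp hφ l).weightedHomogeneousComponent_ne _ fun h => hj (sub_left_injective h).symm
  have h2 := LinearMap.mem_ker.mp (h1 hf')
  funext l
  rw [← congrFun h2 l]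
  exact (mem_pc.mp hf l).weightedHomogeneousComponent_same.symm

noncomputable def pr (x : τ → R) (u : κ → V) : (κ → Pol τ) →ₗ[ℂ] V where
  toFun f := ∑ l, aeval x (f l) • u l
  map_add' f f' := by simp [add_smul, Finset.sum_add_distrib]
  map_smul' c f := by simp [Finset.smul_sum]

lemma pr_X (x : τ → R) (u : κ → V) (i : τ) (k : ℕ) (f : κ → Pol τ) :
    pr x u ((X i : Pol τ) ^ k • f) = x i ^ k • pr x u f := by
  simp [pr, Finset.smul_sum, mul_smul]

/-- The pull-back of a family to the free module. -/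
noncomputable def up (x : τ → R) (w : τ → G) (u : κ → V) (e : κ → G) (K : G → Submodule ℂ V)
    (g : G) : Submodule ℂ (κ → Pol τ) := pc w e g ⊓ (K g).comap (pr x u)

lemma up_cl {x : τ → R} {w : τ → G} (u : κ → V) (e : κ → G) {K : G → Submodule ℂ V}
    (h : Cl x w K) : H.Cl w (pc w e) (up x w u e K) := by
  refine ⟨fun g => inf_le_left, fun i g f hf => ⟨pc_cl w e i g f hf.1, ?_⟩⟩
  have := pr_X x u i 1 f
  rw [pow_one, pow_one] at this
  rw [SetLike.mem_coe, Submodule.mem_comap, this]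
  exact h i g _ hf.2

lemma up_map {x : τ → R} {w : τ → G} {u : κ → V} {e : κ → G} {K : G → Submodule ℂ V} {g : G}
    (h : K g ≤ Gen x w u e g) : (up x w u e K g).map (pr x u) = K g := by
  refine le_antisymm ?_ fun v hv => ?_
  · rintro _ ⟨f, hf, rfl⟩
    exact hf.2
  · obtain ⟨f, hf, rfl⟩ := h hv
    exact ⟨f, ⟨mem_pc.mpr hf, hv⟩, rfl⟩

lemma rk_map {U : Type} [AddCommGroup U] [Module ℂ U] (φ : U →ₗ[ℂ] V) (A : Submodule ℂ U)
    [Module.Finite ℂ A] : Module.finrank ℂ (A.map φ) +
      Module.finrank ℂ (A ⊓ LinearMap.ker φ : Submodule ℂ U) = Module.finrank ℂ A := by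
  have h := LinearMap.finrank_range_add_finrank_ker (φ.domRestrict A)
  rw [LinearMap.range_domRestrict, LinearMap.ker_domRestrict,
    ← Submodule.finrank_map_subtype_eq, Submodule.map_comap_subtype] at h
  exact h

lemma up_dd {x : τ → R} {w : τ → G} {u : κ → V} {e : κ → G} {K K' : G → Submodule ℂ V}
    (hfin : ∀ g, Module.Finite ℂ (pc w e g)) (h : ∀ g, K g ≤ Gen x w u e g)
    (h' : ∀ g, K' g ≤ K g) :
    H.dd (up x w u e K) (up x w u e K') = fun g => hd K g - hd K' g := by
  ext g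
  have key : ∀ L : G → Submodule ℂ V, L g ≤ Gen x w u e g →
      (Module.finrank ℂ (up x w u e L g) : ℤ) = hd L g +
        Module.finrank ℂ (pc w e g ⊓ LinearMap.ker (pr x u) : Submodule ℂ _) := fun L hL => by
    have := hfin g
    have : Module.Finite ℂ (up x w u e L g) := Submodule.finiteDimensional_of_le inf_le_left
    have h1 := rk_map (pr x u) (up x w u e L g)
    rw [up_map hL] at h1
    have h2 : up x w u e L g ⊓ LinearMap.ker (pr x u) = pc w e g ⊓ LinearMap.ker (pr x u) := by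
      rw [up, inf_assoc, inf_eq_right.mpr (LinearMap.ker_le_comap _)]
    rw [h2] at h1
    rw [← h1, hd]
    push_cast
    rfl
  rw [H.dd, key K (h g), key K' ((h' g).trans (h g))]
  ring

lemma up_mono (x : τ → R) (w : τ → G) (u : κ → V) (e : κ → G) {K K' : G → Submodule ℂ V}
    (h' : ∀ g, K' g ≤ K g) : up x w u e K' ≤ up x w u e K :=
  fun g => inf_le_inf_left _ (Submodule.comap_mono (h' g))

lemma dg_iter (a : G) (r : ℕ) : ∀ (f : G → ℤ) (g : G),
    (dg a)^[r] f g = (fwdDiff a)^[r] f (g - r • a) := by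
  induction r with
  | zero => intro f g; simp
  | succ r ih =>
    intro f g
    rw [Function.iterate_succ_apply', Function.iterate_succ_apply', dg, ih, ih, fwdDiff]
    congr 2 <;> rw [succ_nsmul] <;> abel

lemma cl_bot (x : τ → R) (w : τ → G) : Cl x w fun _ => (⊥ : Submodule ℂ V) := fun i g v hv => by
  rw [Submodule.mem_bot] at hv ⊢
  rw [hv, smul_zero]

lemma hd_bot (K : G → Submodule ℂ V) :
    (fun g => hd K g - hd (fun _ => (⊥ : Submodule ℂ V)) g) = hd K := by
  ext g; simp [hd]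

end C1x

open C1x in
theorem p_C1 :
    S_C1 := by
  intro τ R V _ _ _ _ _ _ _ x K ⟨κ, _, u, e, hK⟩ hc
  have hfin : ∀ g, Module.Finite ℂ (pc (w1 τ) e g) :=
    H.fin_piece (w1 τ) (AddMonoidHom.id ℤ) (fun _ => one_pos) _ (pc_ind _ _) (pc_cl _ _)
  have van : ∀ K' : ℤ → Submodule ℂ V, Cl x (w1 τ) K' → (∀ t, K' t ≤ K t) → ∀ A : Finset τ,
      (∀ i, i ∉ A → ∀ t, ∀ v ∈ K t, ∃ k : ℕ, x i ^ k • v ∈ K' (t + k)) →
      Ev0 A.card fun t => hd K t - hd K' t := fun K' hc' hle A hA => by
    obtain ⟨B, hB⟩ := H.vanish_one _ (pc_ind _ _) hfin A _ _ (up_cl u e hc) (up_cl u e hc')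
      (up_mono x _ u e hle) fun i hi g f hf => by
        obtain ⟨k, hk⟩ := hA i (by simpa using hi) g _ hf.2
        refine ⟨k, mem_pc.mpr fun l => ?_, ?_⟩
        · exact hom_congr (((isWeightedHomogeneous_X ℂ (w1 τ) i).pow k).mul (mem_pc.mp hf.1 l))
            (by abel)
        · rw [SetLike.mem_coe, Submodule.mem_comap, pr_X]
          simpa using hk
    rw [up_dd hfin hK hle] at hB
    refine eventually_atTop.mpr ⟨B + A.card, fun t ht => ?_⟩
    rw [dg_iter]
    exact hB _ (by simp; omega)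
  have main : ∀ K' : ℤ → Submodule ℂ V, Cl x (w1 τ) K' → (∀ t, K' t ≤ K t) →
      Ev0 (Fintype.card τ) (fun t => hd K t - hd K' t) ∧ Pos fun t => hd K t - hd K' t :=
    fun K' hc' hle => ⟨van K' hc' hle Finset.univ fun i hi => absurd (Finset.mem_univ i) hi, by
      obtain ⟨B, hB⟩ := H.pos_one _ (pc_ind _ _) hfin _ _ (up_cl u e hc) (up_cl u e hc')
        (up_mono x _ u e hle)
      rw [up_dd hfin hK hle] at hB
      intro j
      refine eventually_atTop.mpr ⟨B + j, fun t ht => ?_⟩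
      rw [dg_iter]
      exact hB _ _ (by simp; omega)⟩
  refine ⟨?_, fun K' hc' hle => ⟨main K' hc' hle, van K' hc' hle, fun h => ?_⟩⟩
  · have := main _ (C1x.cl_bot x _) fun _ => bot_le
    rwa [hd_bot] at this
  · refine Eventually.mono (van K' hc' hle ∅ fun i _ => h i) fun t ht => ?_
    have := hfin t
    have : Module.Finite ℂ (up x (w1 τ) u e K t) := Submodule.finiteDimensional_of_le inf_le_left
    have : Module.Finite ℂ (K t) := by rw [← up_map (hK t)]; infer_instance
    refine Submodule.eq_of_le_of_finrank_eq (hle t) ?_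
    simp only [Finset.card_empty, Function.iterate_zero, id, hd] at ht
    omega

end Pool.Agent.P.MP_b01859_ag.SD
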