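import Pool.Agent.P.MP_b01859_ag.SD.Iface
import Pool.Agent.P.MP_b01859_ag.SD.Pos

/-! Step C2. -/

set_option autoImplicit false
set_option linter.unusedSectionVars false

namespace Pool.Agent.P.MP_b01859_ag.SD

open MvPolynomial Filter

namespace C2x

variable {τ G R V κ : Type} [AddCommGroup G] [CommRing R] [Algebra ℂ R] [AddCommGroup V]
  [Module ℂ V] [Module R V] [IsScalarTower ℂ R V] [Fintype κ]

noncomputable def pc (w : τ → G) (e : κ → G) (g : G) : Submodule ℂ (κ → Pol τ) :=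
  Submodule.pi Set.univ fun l => weightedHomogeneousSubmodule ℂ w (g - e l)

lemma mem_pc {w : τ → G} {e : κ → G} {g : G} {f : κ → Pol τ} :
    f ∈ pc w e g ↔ ∀ l, IsWeightedHomogeneous w (f l) (g - e l) := by
  simp [pc, Submodule.mem_pi]

lemma pc_cl (w : τ → G) (e : κ → G) (i : τ) (g : G) (f : κ → Pol τ) (hf : f ∈ pc w e g) :
    (X i : Pol τ) • f ∈ pc w e (g + w i) := by
  rw [mem_pc] at hf ⊢
  intro l
  exact hom_congr ((isWeightedHomogeneous_X ℂ w i).mul (hf l)) (by abel)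

lemma pc_ind (w : τ → G) (e : κ → G) : iSupIndep (pc w e) := by
  classical
  intro g
  rw [Submodule.disjoint_def]
  intro f hf hf'
  let c : (κ → Pol τ) →ₗ[ℂ] (κ → Pol τ) := LinearMap.pi fun l =>
    (weightedHomogeneousComponent w (g - e l)).comp (LinearMap.proj l)
  have h1 : (⨆ (j) (_ : j ≠ g), pc w e j) ≤ LinearMap.ker c := by
    refine iSup₂_le fun j hj φ hφ => ?_
    rw [LinearMap.mem_ker]
    funext l
    exact (mem_pc.mp hφ l).weightedHomogeneousComponent_ne _ fun h => hj (sub_left_injective h).symm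
  have h2 := LinearMap.mem_ker.mp (h1 hf')
  funext l
  rw [← congrFun h2 l]
  exact (mem_pc.mp hf l).weightedHomogeneousComponent_same.symm

noncomputable def pr (x : τ → R) (u : κ → V) : (κ → Pol τ) →ₗ[ℂ] V where
  toFun f := ∑ l, aeval x (f l) • u l
  map_add' f f' := by simp [add_smul, Finset.sum_add_distrib]
  map_smul' c f := by simp [Finset.smul_sum]

lemma pr_X (x : τ → R) (u : κ → V) (i : τ) (k : ℕ) (f : κ → Pol τ) :
    pr x u ((X i : Pol τ) ^ k • f) = x i ^ k • pr x u f := by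
  simp [pr, Finset.smul_sum, mul_smul]

/-- The pull-back of a family to the free module. -/
noncomputable def up (x : τ → R) (w : τ → G) (u : κ → V) (e : κ → G) (K : G → Submodule ℂ V)
    (g : G) : Submodule ℂ (κ → Pol τ) := pc w e g ⊓ (K g).comap (pr x u)

lemma up_cl {x : τ → R} {w : τ → G} (u : κ → V) (e : κ → G) {K : G → Submodule ℂ V}
    (h : Cl x w K) : H.Cl w (pc w e) (up x w u e K) := by
  refine ⟨fun g => inf_le_left, fun i g f hf => ⟨pc_cl w e i g f hf.1, ?_⟩⟩
  have := pr_X x u i 1 f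
  rw [pow_one, pow_one] at this
  rw [SetLike.mem_coe, Submodule.mem_comap, this]
  exact h i g _ hf.2

lemma up_map {x : τ → R} {w : τ → G} {u : κ → V} {e : κ → G} {K : G → Submodule ℂ V} {g : G}
    (h : K g ≤ Gen x w u e g) : (up x w u e K g).map (pr x u) = K g := by
  refine le_antisymm ?_ fun v hv => ?_
  · rintro _ ⟨f, hf, rfl⟩
    exact hf.2
  · obtain ⟨f, hf, rfl⟩ := h hv
    exact ⟨f, ⟨mem_pc.mpr hf, hv⟩, rfl⟩

lemma rk_map {U : Type} [AddCommGroup U] [Module ℂ U] (φ : U →ₗ[ℂ] V) (A : Submodule ℂ U)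
    [Module.Finite ℂ A] : Module.finrank ℂ (A.map φ) +
      Module.finrank ℂ (A ⊓ LinearMap.ker φ : Submodule ℂ U) = Module.finrank ℂ A := by
  have h := LinearMap.finrank_range_add_finrank_ker (φ.domRestrict A)
  rw [LinearMap.range_domRestrict, LinearMap.ker_domRestrict,
    ← Submodule.finrank_map_subtype_eq, Submodule.map_comap_subtype] at h
  exact h

lemma up_dd {x : τ → R} {w : τ → G} {u : κ → V} {e : κ → G} {K K' : G → Submodule ℂ V}
    (hfin : ∀ g, Module.Finite ℂ (pc w e g)) (h : ∀ g, K g ≤ Gen x w u e g)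
    (h' : ∀ g, K' g ≤ K g) :
    H.dd (up x w u e K) (up x w u e K') = fun g => hd K g - hd K' g := by
  ext g
  have key : ∀ L : G → Submodule ℂ V, L g ≤ Gen x w u e g →
      (Module.finrank ℂ (up x w u e L g) : ℤ) = hd L g +
        Module.finrank ℂ (pc w e g ⊓ LinearMap.ker (pr x u) : Submodule ℂ _) := fun L hL => by
    have := hfin g
    have : Module.Finite ℂ (up x w u e L g) := Submodule.finiteDimensional_of_le inf_le_left
    have h1 := rk_map (pr x u) (up x w u e L g)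
    rw [up_map hL] at h1
    have h2 : up x w u e L g ⊓ LinearMap.ker (pr x u) = pc w e g ⊓ LinearMap.ker (pr x u) := by
      rw [up, inf_assoc, inf_eq_right.mpr (LinearMap.ker_le_comap _)]
    rw [h2] at h1
    rw [← h1, hd]
    push_cast
    rfl
  rw [H.dd, key K (h g), key K' ((h' g).trans (h g))]
  ring

lemma up_mono (x : τ → R) (w : τ → G) (u : κ → V) (e : κ → G) {K K' : G → Submodule ℂ V}
    (h' : ∀ g, K' g ≤ K g) : up x w u e K' ≤ up x w u e K :=
  fun g => inf_le_inf_left _ (Submodule.comap_mono (h' g))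

lemma dg_iter (a : G) (r : ℕ) : ∀ (f : G → ℤ) (g : G),
    (dg a)^[r] f g = (fwdDiff a)^[r] f (g - r • a) := by
  induction r with
  | zero => intro f g; simp
  | succ r ih =>
    intro f g
    rw [Function.iterate_succ_apply', Function.iterate_succ_apply', dg, ih, ih, fwdDiff]
    congr 2 <;> rw [succ_nsmul] <;> abel

lemma cl_bot (x : τ → R) (w : τ → G) : Cl x w fun _ => (⊥ : Submodule ℂ V) := fun i g v hv => by
  rw [Submodule.mem_bot] at hv ⊢
  rw [hv, smul_zero]

lemma hd_bot (K : G → Submodule ℂ V) :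
    (fun g => hd K g - hd (fun _ => (⊥ : Submodule ℂ V)) g) = hd K := by
  ext g; simp [hd]

end C2x

open C2x in
theorem p_C2 :
    S_C2 := by
  intro σ Λ R V _ _ _ _ _ _ _ _ x K ⟨κ, _, u, e, hK⟩ hc
  have hw : ∀ i, wb σ Λ i = (1, 0) ∨ wb σ Λ i = (0, 1) := by
    rintro (i | i)
    exacts [Or.inr rfl, Or.inl rfl]
  have hfin : ∀ g, Module.Finite ℂ (pc (wb σ Λ) e g) :=
    H.fin_piece (wb σ Λ) (AddMonoidHom.fst ℤ ℤ + AddMonoidHom.snd ℤ ℤ)
      (fun i => by rcases hw i with h | h <;> simp [h]) _ (pc_ind _ _) (pc_cl _ _)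
  have main : ∀ K' : ℤ × ℤ → Submodule ℂ V, Cl x (wb σ Λ) K' → (∀ g, K' g ≤ K g) →
      Pos2 fun g => hd K g - hd K' g := fun K' hc' hle i j => by
    obtain ⟨B, hB⟩ := H.pos_dd _ hw _ (pc_ind _ _) hfin _ _ (up_cl u e hc) (up_cl u e hc')
      (up_mono x _ u e hle)
    rw [up_dd hfin hK hle] at hB
    refine ⟨B + i, B + j, fun m t hm ht => ?_⟩
    have e1 : ∀ f : ℤ × ℤ → ℤ, (dg ((0, 1) : ℤ × ℤ))^[j] f =
        fun g => (fwdDiff (0, 1))^[j] f (g + -(j • (0, 1))) := fun f => by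
      ext g; rw [dg_iter, sub_eq_add_neg]
    rw [dd, dg_iter, e1, H.fd_shift]
    exact hB i j _ (by simp; omega) (by simp; omega)
  refine ⟨?_, main⟩
  have := main _ (C2x.cl_bot x _) fun _ => bot_le
  rwa [hd_bot] at this

end Pool.Agent.P.MP_b01859_ag.SD
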