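import Pool.Agent.P.MP_b01859_ag.SD.Iface

/-! Step C2P. -/

namespace Pool.Agent.P.MP_b01859_ag.SD

open MvPolynomial Filter

theorem p_C2P (hMULT : S_MULT) (hSPL0 : S_SPL0) :
    S_C2P := by
  intro σ ι _ _ n T γ g c₂ a b hC hsp φ α hφ hp
  by_contra hq
  refine hsp (hSPL0 σ ι T φ (by have := hC.card; have := hC.five; omega) fun y hy => ?_)
  by_contra h0
  push Not at h0
  obtain ⟨i, j, hij⟩ := T.LF_eval hy
  have := hMULT σ ι n T γ g c₂ a b hC φ α hφ hp y i j 1 1 hij (by rw [pow_one]; exact h0 i)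
    (by rw [pow_one]; exact h0 j)
  simp only [Nat.cast_one, mul_one] at this
  omega

end Pool.Agent.P.MP_b01859_ag.SD
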