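import Mathlib

/-!
The moment recursion that determines the Chern character of a rank two bundle.
-/

namespace Pool.Agent.P.MP_b01859_ag.SD

open Finset Polynomial

lemma pow_sum_rec (a b : ℂ) (r : ℕ) :
    ∑ s ∈ range (r + 1), (r.choose s : ℂ) * ((a ^ s + b ^ s) * (a ^ (r - s) + b ^ (r - s))) =
      2 ^ r * (a ^ r + b ^ r) + 2 * (a + b) ^ r := by
  have h1 := add_pow a a r
  have h2 := add_pow b b r
  have h3 := add_pow a b r
  have h4 := add_pow b a r
  rw [← two_mul, mul_pow] at h1 h2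
  rw [add_comm b a] at h4
  rw [mul_add, h1, h2, two_mul ((a + b) ^ r)]
  nth_rewrite 1 [h3]
  rw [h4, ← sum_add_distrib, ← sum_add_distrib, ← sum_add_distrib]
  exact sum_congr rfl fun s _ => by ring

theorem moments (n : ℕ) (m : ℕ → ℂ) (a b : ℂ) (h0 : m 0 = 2) (h2 : m 2 = a ^ 2 + b ^ 2)
    (hrec : ∀ r, r ≤ n → ∑ s ∈ range (r + 1), (r.choose s : ℂ) * (m s * m (r - s)) =
      2 ^ r * m r + 2 * (a + b) ^ r) : ∀ r, r ≤ n → m r = a ^ r + b ^ r := by
  intro r
  induction r using Nat.strong_induction_on with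
  | _ r ih =>
    intro hr
    rcases Nat.eq_zero_or_pos r with rfl | hpos
    · rw [h0]; norm_num
    by_cases h : r = 2
    · rw [h, h2]
    obtain ⟨k, rfl⟩ : ∃ k, r = k + 1 := ⟨r - 1, by omega⟩
    have e1 := hrec (k + 1) hr
    have e2 := pow_sum_rec a b (k + 1)
    rw [sum_range_succ, sum_range_succ'] at e1 e2
    have e3 : ∑ s ∈ range k, ((k + 1).choose (s + 1) : ℂ) * (m (s + 1) * m (k + 1 - (s + 1))) =
        ∑ s ∈ range k, ((k + 1).choose (s + 1) : ℂ) * ((a ^ (s + 1) + b ^ (s + 1)) *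
          (a ^ (k + 1 - (s + 1)) + b ^ (k + 1 - (s + 1)))) := by
      refine sum_congr rfl fun s hs => ?_
      have := mem_range.mp hs
      rw [ih (s + 1) (by omega) (by omega), ih (k + 1 - (s + 1)) (by omega) (by omega)]
    rw [e3] at e1
    simp only [Nat.choose_zero_right, Nat.cast_one, Nat.sub_zero, Nat.choose_self, Nat.sub_self,
      pow_zero, h0] at e1 e2
    have hne : (4 : ℂ) - 2 ^ (k + 1) ≠ 0 := by
      intro h4
      have h5 : ((2 ^ 2 : ℕ) : ℂ) = ((2 ^ (k + 1) : ℕ) : ℂ) := by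
        push_cast; linear_combination h4
      exact h (Nat.pow_right_injective le_rfl (Nat.cast_injective h5)).symm
    apply mul_left_cancel₀ hne
    linear_combination e1 - e2

/-- A finitely supported weight with the right moments evaluates polynomials at the two roots. -/
theorem sum_eval_eq (n : ℕ) (s : Finset ℤ) (κ : ℤ → ℤ) (a b : ℂ)
    (hm : ∀ r, r ≤ n → ∑ i ∈ s, (κ i : ℂ) * (-(i : ℂ)) ^ r = a ^ r + b ^ r)
    (F : ℂ[X]) (hF : F.natDegree ≤ n) (x : ℂ) :
    ∑ i ∈ s, (κ i : ℂ) * F.eval (x - i) = F.eval (x + a) + F.eval (x + b) := by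
  have key : ∀ y : ℂ, F.eval (x + y) =
      ∑ r ∈ range (n + 1), (taylor x F).coeff r * y ^ r := by
    intro y
    rw [← eval_eq_sum_range' (by rw [natDegree_taylor]; omega), taylor_eval, add_comm]
  simp only [sub_eq_add_neg, key, mul_sum]
  rw [sum_comm, ← sum_add_distrib]
  refine sum_congr rfl fun r hr => ?_
  rw [← mul_add, ← hm r (by have := mem_range.mp hr; omega), mul_sum]
  exact sum_congr rfl fun i _ => by ring

lemma factorial_dvd_prod (x : ℤ) (j : ℕ) : (j.factorial : ℤ) ∣ ∏ i ∈ range j, (x - i) := by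
  have h := Ring.descPochhammer_eq_factorial_smul_choose x j
  rw [← Polynomial.eval_eq_smeval, descPochhammer_eval_eq_prod_range] at h
  exact ⟨Ring.choose x j, by rw [h, nsmul_eq_mul]⟩

/-- The integrality hypothesis of `disc_lb`. -/
theorem integrality (n : ℕ) (s : Finset ℤ) (κ : ℤ → ℤ) (a : ℂ)
    (hm : ∀ r, r ≤ n → ∑ i ∈ s, (κ i : ℂ) * (-(i : ℂ)) ^ r = a ^ r + (starRingEnd ℂ a) ^ r)
    (j : ℕ) (hj : j ≤ n) (t : ℤ) :
    ∃ z : ℤ, 2 * (∏ i ∈ range j, (a + t - i)).re = j.factorial * z := by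
  have hdeg : (∏ i ∈ range j, (X - C (i : ℂ))).natDegree ≤ n := by
    rw [natDegree_prod_of_monic _ _ fun i _ => monic_X_sub_C _]
    simp only [natDegree_X_sub_C, sum_const, card_range, smul_eq_mul, mul_one]
    exact hj
  have h := sum_eval_eq n s κ a _ hm _ hdeg t
  simp only [eval_prod, eval_sub, eval_X, eval_C] at h
  choose z hz using fun i : ℤ => factorial_dvd_prod (t - i) j
  refine ⟨∑ i ∈ s, κ i * z i, ?_⟩
  have e1 : ∑ i ∈ s, (κ i : ℂ) * ∏ l ∈ range j, ((t : ℂ) - i - l) =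
      (((j.factorial : ℤ) * ∑ i ∈ s, κ i * z i : ℤ) : ℂ) := by
    rw [mul_sum]
    push_cast
    refine sum_congr rfl fun i _ => ?_
    have := congrArg (Int.cast : ℤ → ℂ) (hz i)
    push_cast at this
    rw [this]; ring
  have e2 : ∏ l ∈ range j, ((t : ℂ) + starRingEnd ℂ a - l) =
      starRingEnd ℂ (∏ l ∈ range j, ((t : ℂ) + a - l)) := by
    simp [map_prod]
  rw [e1, e2, Complex.add_conj] at h
  simp only [add_comm a]
  exact_mod_cast h.symm

end Pool.Agent.P.MP_b01859_ag.SD
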