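import Pool.Agent.P.MP_b01859_ag.SD.Iface
import Pool.Agent.P.MP_b01859_ag.SD.Mom
import Pool.Agent.P.MP_b01859_ag.SD.Api

/-! Step CHERN. -/

set_option autoImplicit false
set_option linter.unusedSectionVars false

namespace Pool.Agent.P.MP_b01859_ag.SD

open MvPolynomial Filter

namespace CHERNx

lemma low (r : ℕ) {f : ℤ → ℤ} {b : ℤ} (h : ∀ t, t < b → f t = 0) :
    ∀ t, t < b → dl^[r] f t = 0 := by
  induction r with
  | zero => exact h
  | succ r ih => exact fun t ht => by rw [dl_succ, ih t ht, ih (t - 1) (by omega), sub_zero]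

lemma supp {r : ℕ} {f : ℤ → ℤ} (h : Bdd f) (h' : Ev0 r f) :
    ∃ s : Finset ℤ, ∀ i, i ∉ s → dl^[r] f i = 0 := by
  obtain ⟨b, hb⟩ := h
  obtain ⟨c, hc⟩ := eventually_atTop.1 h'
  refine ⟨Finset.Icc b c, fun i hi => ?_⟩
  rw [Finset.mem_Icc] at hi
  by_cases h : i < b
  · exact low r hb i h
  · exact hc i (by omega)

end CHERNx

theorem p_CHERN (hDIAG1 : S_DIAG1) (hDIAG2 : S_DIAG2) (hRRN : S_RRN) (hGF : S_GF) (hC1 : S_C1) (hPOLY : S_POLY) :
    S_CHERN := by
  intro σ ι _ _ T γ g n hc hn hG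
  have sub : Sub X (w1 σ) (EN T γ X (SS σ)) := sub_EN sub_SS
  have hb : Bdd (hM T γ) := sub.bdd_hd
  obtain ⟨⟨h0, hp⟩, -⟩ := hC1 σ (Pol σ) (ι → Pol σ) X _ sub (cl_EN cl_SS)
  rw [hc] at h0
  obtain ⟨c₂, h⟩ := hRRN n (hM T γ) g (by omega) hb h0 (hp n) (hDIAG2 σ ι T γ g n hc (by omega) hG)
  obtain ⟨s, hs⟩ := CHERNx.supp hb h0
  obtain ⟨d, hd'⟩ := IsAlgClosed.exists_eq_mul_self ((g : ℂ) ^ 2 - 4 * c₂)
  obtain ⟨a, b, hab, hmul⟩ : ∃ a b : ℂ, a + b = -g ∧ a * b = c₂ :=
    ⟨(-g + d) / 2, (-g - d) / 2, by ring, by linear_combination hd' / 4⟩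
  have key : ∀ P : Polynomial ℂ, P.natDegree ≤ n → ∀ x : ℂ,
      ∑ i ∈ s, (dl^[n + 1] (hM T γ) i : ℂ) * P.eval (x - i) = P.eval (x + a) + P.eval (x + b) := by
    intro P hP x
    rw [← h a b hab hmul P hP x, finsum_eq_sum_of_support_subset]
    intro i hi
    by_contra e
    exact hi (by simp only [hs i e, Int.cast_zero, zero_mul])
  refine ⟨c₂, a, b, ⟨hc, hn, hG, hab, hmul, ?_⟩, fun j hj t => ?_⟩
  · intro R _ _ x N cl sb P hP
    have e0 := (hC1 σ R R x N sb cl).1.1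
    rw [hc, hPOLY.2.1 _ _ P hP] at e0
    have e1 : P.natDegree ≤ n := by
      by_cases h0 : P = 0
      · simp [h0]
      · exact Nat.lt_succ_iff.1 ((Polynomial.natDegree_lt_iff_degree_lt h0).2 e0)
    filter_upwards [hDIAG1 σ ι R T γ g x N hG cl sb,
      (eventually_all_finset s).2 fun i _ => ev_shift' hP i] with t h1 h2
    rw [h1, hc, hGF _ _ _ hb sb.bdd_hd, conv, finsum_eq_sum_of_support_subset (s := s),
      Polynomial.eval_add, eval_sh, eval_sh, ← key P e1, Int.cast_sum]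
    · exact Finset.sum_congr rfl fun i hi => by rw [Int.cast_mul, h2 i hi, Int.cast_sub]
    · intro i hi
      by_contra e
      exact hi (by simp only [hs i e, zero_mul])
  · have hdeg : (∏ i ∈ Finset.range j, (Polynomial.X - Polynomial.C (i : ℂ))).natDegree ≤ n := by
      rw [Polynomial.natDegree_prod_of_monic _ _ fun i _ => Polynomial.monic_X_sub_C _]
      simp only [Polynomial.natDegree_X_sub_C, Finset.sum_const, Finset.card_range, smul_eq_mul,
        mul_one]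
      exact hj
    have e := key _ hdeg t
    simp only [Polynomial.eval_prod, Polynomial.eval_sub, Polynomial.eval_X, Polynomial.eval_C] at e
    choose z hz using fun i : ℤ => factorial_dvd_prod (t - i) j
    refine ⟨∑ i ∈ s, dl^[n + 1] (hM T γ) i * z i, ?_⟩
    simp only [add_comm a, add_comm b]
    rw [← e, Int.cast_sum, Finset.mul_sum]
    refine Finset.sum_congr rfl fun i _ => ?_
    have := congrArg (Int.cast : ℤ → ℂ) (hz i)
    push_cast at this ⊢
    rw [this]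
    ring

end Pool.Agent.P.MP_b01859_ag.SD
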