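import Pool.Agent.P.MP_b01859_ag.SD.Iface

/-! Step D1E. -/

set_option autoImplicit false
set_option linter.unusedSectionVars false

namespace Pool.Agent.P.MP_b01859_ag.SD

open MvPolynomial Filter

namespace D1Ex

variable {σ ι R : Type} [Fintype σ] [DecidableEq σ] [Fintype ι] [CommRing R] [Algebra ℂ R]

lemma mem_FJ (N : ℤ → Submodule ℂ R) (t : ℤ) (f : MvPolynomial σ R) :
    f ∈ FJ N (Finset.univ : Finset σ) t ↔ ∃ r ∈ N t, f = C r := by
  constructor
  · intro h
    refine ⟨coeff 0 f, by simpa using (h 0).1, ?_⟩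
    ext d
    rw [coeff_C]
    split_ifs with hd
    · rw [hd]
    · refine (h d).2 ?_
      by_contra hc
      push Not at hc
      exact hd (Finsupp.ext fun i => (hc i (Finset.mem_univ i)).symm)
  · rintro ⟨r, hr, rfl⟩ d
    rw [coeff_C]
    split_ifs with hd
    · subst hd
      exact ⟨by simpa using hr, fun ⟨i, _, hi⟩ => (hi rfl).elim⟩
    · exact ⟨zero_mem _, fun _ => rfl⟩

lemma aeval_xJ (x : σ → R) (f : Pol σ) :
    aeval (xJ x Finset.univ) f = C (aeval x f) := by
  induction f using MvPolynomial.induction_on with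
  | C c => rw [algHom_C, algHom_C]; rfl
  | add p q hp hq => rw [map_add, map_add, map_add, hp, hq]
  | mul_X p i hp => rw [map_mul, map_mul, map_mul, hp, aeval_X, aeval_X, xJ, if_pos (Finset.mem_univ i)]

/-- Constants, componentwise. -/
noncomputable def cm (σ ι R : Type) [CommRing R] [Algebra ℂ R] :
    (ι → R) →ₗ[ℂ] (ι → MvPolynomial σ R) where
  toFun φ a := C (φ a)
  map_add' φ ψ := by ext1 a; simp
  map_smul' c φ := by
    ext1 a
    simp only [Pi.smul_apply, RingHom.id_apply]
    rw [Algebra.smul_def, Algebra.smul_def, map_mul]; rfl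

lemma cm_inj : Function.Injective (cm σ ι R) := fun _ _ h =>
  funext fun a => C_injective σ R (congrFun h a)

end D1Ex

theorem p_D1E :
    S_D1E := by
  intro σ ι R _ _ _ _ _ T γ x N
  funext t
  have e : U1 T γ x N Finset.univ t = (EN T γ x N t).map (D1Ex.cm σ ι R) := by
    ext φ
    constructor
    · rintro ⟨n, hn, hφ⟩
      choose r hr hnr using fun s => (D1Ex.mem_FJ N _ _).1 (hn s)
      refine ⟨fun a => ∑ s, aeval x (T.ω s a) * r s, ⟨r, hr, fun a => rfl⟩, funext fun a => ?_⟩
      rw [hφ a]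
      change C (∑ s, aeval x (T.ω s a) * r s) = _
      rw [map_sum]
      exact Finset.sum_congr rfl fun s _ => by rw [map_mul, D1Ex.aeval_xJ, hnr]
    · rintro ⟨ψ, ⟨n, hn, hψ⟩, rfl⟩
      refine ⟨fun s => C (n s), fun s => (D1Ex.mem_FJ N _ _).2 ⟨_, hn s, rfl⟩, fun a => ?_⟩
      change C (ψ a) = _
      rw [hψ a, map_sum]
      exact Finset.sum_congr rfl fun s _ => by rw [map_mul, D1Ex.aeval_xJ]
  unfold hd
  rw [e, (Submodule.equivMapOfInjective _ (D1Ex.cm_inj (σ := σ)) (EN T γ x N t)).finrank_eq]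

end Pool.Agent.P.MP_b01859_ag.SD
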