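import Pool.Agent.P.MP_b01859_ag.SD.Iface

/-! Step D1F. -/

set_option autoImplicit false
set_option linter.unusedSectionVars false

namespace Pool.Agent.P.MP_b01859_ag.SD

open MvPolynomial Filter

namespace D1Fx

variable {σ R : Type} [Fintype σ] [DecidableEq σ] [CommRing R] [Algebra ℂ R]

theorem ren {τ τ' : Type} (e : τ → τ') {f : Pol τ} {n : ℤ}
    (h : IsWeightedHomogeneous (w1 τ) f n) : IsWeightedHomogeneous (w1 τ') (rename e f) n := by
  rw [← f.support_sum_monomial_coeff, map_sum]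
  simp_rw [rename_monomial]
  refine IsWeightedHomogeneous.sum _ _ _ fun d hd => isWeightedHomogeneous_monomial _ _ _ ?_
  rw [← h (mem_support_iff.mp hd), Finsupp.weight_apply, Finsupp.weight_apply]
  exact Finsupp.sum_mapDomain_index (h := fun i c => c • w1 τ' i) (fun _ => zero_smul _ _)
    (fun _ _ _ => add_smul _ _ _)

theorem mono_mem {N : ℤ → Submodule ℂ R} {J : Finset σ} {t : ℤ} {d : σ →₀ ℕ} {c : R}
    (hc : c ∈ N (t - Finsupp.weight (w1 σ) d)) (hd : ∀ i ∈ J, d i = 0) :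
    monomial d c ∈ FJ N J t := by
  intro d'
  rw [coeff_monomial]
  split_ifs with h
  · subst h
    exact ⟨hc, fun ⟨i, hi, hi'⟩ => absurd (hd i hi) hi'⟩
  · exact ⟨zero_mem _, fun _ => rfl⟩

theorem ind {N : ℤ → Submodule ℂ R} {J : Finset σ} {t : ℤ} (P : MvPolynomial σ R → Prop)
    (h0 : P 0) (ha : ∀ f g, P f → P g → P (f + g))
    (hm : ∀ (d : σ →₀ ℕ) (c : R), c ∈ N (t - Finsupp.weight (w1 σ) d) → (∀ i ∈ J, d i = 0) →
      P (monomial d c)) {f : MvPolynomial σ R} (hf : f ∈ FJ N J t) : P f := by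
  rw [← f.support_sum_monomial_coeff]
  refine Finset.sum_induction _ P ha h0 fun d hd => hm d _ (hf d).1 fun i hi => ?_
  by_contra hn
  exact mem_support_iff.mp hd ((hf d).2 ⟨i, hi, hn⟩)

theorem wt_add (d : σ →₀ ℕ) (j : σ) :
    Finsupp.weight (w1 σ) (d + Finsupp.single j 1) = Finsupp.weight (w1 σ) d + 1 := by
  rw [map_add, Finsupp.weight_single]; simp

theorem xm (d : σ →₀ ℕ) (j : σ) (c : R) :
    (X j : MvPolynomial σ R) * monomial d c = monomial (d + Finsupp.single j 1) c := by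
  rw [X, monomial_mul, one_mul, add_comm]

theorem cmul {x : σ → R} {N : ℤ → Submodule ℂ R} (h : Cl x (w1 σ) N) {J : Finset σ} {t : ℤ}
    (i : σ) {f : MvPolynomial σ R} (hf : f ∈ FJ N J t) : C (x i) * f ∈ FJ N J (t + 1) := by
  intro d
  rw [coeff_C_mul]
  refine ⟨?_, fun e => by rw [(hf d).2 e, mul_zero]⟩
  have h1 := h i _ _ (hf d).1
  rw [smul_eq_mul] at h1
  rwa [show t + 1 - Finsupp.weight (w1 σ) d = t - Finsupp.weight (w1 σ) d + 1 by ring]

theorem xmul {N : ℤ → Submodule ℂ R} {J : Finset σ} {t : ℤ}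
    {i : σ} (hi : i ∉ J) {f : MvPolynomial σ R} (hf : f ∈ FJ N J t) :
    X i * f ∈ FJ N J (t + 1) := by
  refine ind (fun f => X i * f ∈ FJ N J (t + 1)) (by simp) (fun f g h1 h2 => by
    rw [mul_add]; exact add_mem h1 h2) (fun d c hc hd => ?_) hf
  rw [xm]
  refine mono_mem ?_ fun k hk => ?_
  · rwa [wt_add, show t + 1 - (Finsupp.weight (w1 σ) d + 1) = t - Finsupp.weight (w1 σ) d by ring]
  · have h1 : i ≠ k := fun e => hi (e ▸ hk)
    simp [hd k hk, h1]

theorem ev_mono (x : σ → R) (J : Finset σ) (d : σ →₀ ℕ) (hd : ∀ i ∈ J, d i = 0) :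
    (d.prod fun i k => xJ x J i ^ k) = monomial d (1 : R) := by
  rw [monomial_eq, C_1, one_mul]
  refine Finsupp.prod_congr fun i hi => ?_
  have h1 : i ∉ J := fun h => Finsupp.mem_support_iff.mp hi (hd i h)
  rw [xJ, if_neg h1]

theorem fix (x : σ → R) {N : ℤ → Submodule ℂ R} {J : Finset σ} {t : ℤ} {j : σ}
    {f : MvPolynomial σ R} (hf : f ∈ FJ N (insert j J) t) : aeval (xJ x {j}) f = f := by
  refine ind (fun f => aeval (xJ x {j}) f = f) (by simp) (fun f g h1 h2 => by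
    rw [map_add, h1, h2]) (fun d c _ hd => ?_) hf
  rw [aeval_monomial, ev_mono x {j} d fun i hi => hd i (by
    rw [Finset.mem_singleton.mp hi]; exact Finset.mem_insert_self j J), algebraMap_eq,
    C_mul_monomial, mul_one]

theorem dv_mono {x : σ → R} {N : ℤ → Submodule ℂ R} (h : Cl x (w1 σ) N) {J : Finset σ} {t : ℤ}
    {j : σ} (k : ℕ) : ∀ (d : σ →₀ ℕ) (c : R), d j = k → c ∈ N (t - Finsupp.weight (w1 σ) d) →
      (∀ i ∈ J, d i = 0) → ∃ f' ∈ FJ N J (t - 1), ∃ r ∈ FJ N (insert j J) t,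
        monomial d c = (X j - C (x j)) * f' + r := by
  induction k with
  | zero =>
    intro d c hk hc hd
    refine ⟨0, zero_mem _, monomial d c, mono_mem hc fun i hi => ?_, by simp⟩
    rcases Finset.mem_insert.mp hi with rfl | hi
    · exact hk
    · exact hd i hi
  | succ k ih =>
    intro d c hk hc hd
    obtain ⟨d', rfl⟩ : ∃ d', d = d' + Finsupp.single j 1 :=
      ⟨d - Finsupp.single j 1, (tsub_add_cancel_of_le (Finsupp.single_le_iff.mpr (by omega))).symm⟩
    have hd' : ∀ i ∈ J, d' i = 0 := fun i hi => by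
      have := hd i hi
      rw [Finsupp.add_apply] at this
      omega
    have hk' : d' j = k := by simpa using hk
    rw [wt_add] at hc
    have h1 : x j * c ∈ N (t - Finsupp.weight (w1 σ) d') := by
      have h2 := h j _ _ hc
      rw [smul_eq_mul] at h2
      rwa [show t - (Finsupp.weight (w1 σ) d' + 1) + 1 = t - Finsupp.weight (w1 σ) d' by ring] at h2
    obtain ⟨f', hf', r, hr, e⟩ := ih d' (x j * c) hk' h1 hd'
    have h3 : monomial d' c ∈ FJ N J (t - 1) := mono_mem (by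
      rwa [show t - 1 - Finsupp.weight (w1 σ) d' = t - (Finsupp.weight (w1 σ) d' + 1) by ring]) hd'
    refine ⟨monomial d' c + f', add_mem h3 hf', r, hr, ?_⟩
    rw [← xm, mul_add, add_assoc, ← e, ← C_mul_monomial]
    ring

theorem dv {x : σ → R} {N : ℤ → Submodule ℂ R} (h : Cl x (w1 σ) N) {J : Finset σ} {t : ℤ}
    (j : σ) {f : MvPolynomial σ R} (hf : f ∈ FJ N J t) :
    ∃ f' ∈ FJ N J (t - 1), ∃ r ∈ FJ N (insert j J) t, f = (X j - C (x j)) * f' + r := by
  refine ind (fun f => ∃ f' ∈ FJ N J (t - 1), ∃ r ∈ FJ N (insert j J) t,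
    f = (X j - C (x j)) * f' + r) ⟨0, zero_mem _, 0, zero_mem _, by simp⟩ ?_
    (fun d c hc hd => dv_mono h (d j) d c rfl hc hd) hf
  rintro _ _ ⟨a, ha, b, hb, rfl⟩ ⟨a', ha', b', hb', rfl⟩
  exact ⟨a + a', add_mem ha ha', b + b', add_mem hb hb', by ring⟩

theorem ev_C (x : σ → R) (p : Pol σ) :
    aeval (fun i => (C (x i) : MvPolynomial σ R)) p = C (aeval x p) := by
  induction p using MvPolynomial.induction_on with
  | C a => rw [aeval_C, aeval_C, MvPolynomial.algebraMap_apply]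
  | add p q h1 h2 => rw [map_add, map_add, map_add, h1, h2]
  | mul_X p i h1 => rw [map_mul, map_mul, map_mul, h1, aeval_X, aeval_X]

theorem sub {x : σ → R} {N : ℤ → Submodule ℂ R} (J : Finset σ) (h : Sub x (w1 σ) N) :
    Sub (Sum.elim (xJ x J) fun i => C (x i)) (w1 (σ ⊕ σ)) (FJ N J) := by
  obtain ⟨κ, _, u, e, hu⟩ := h
  refine ⟨κ, inferInstance, fun l => C (u l), e, fun g f hf => ?_⟩
  refine ind (fun f => f ∈ Gen (Sum.elim (xJ x J) fun i => C (x i)) (w1 (σ ⊕ σ))
    (fun l => (C (u l) : MvPolynomial σ R)) e g) (zero_mem _) (fun _ _ => add_mem)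
    (fun d c hc hd => ?_) hf
  obtain ⟨F, hF, rfl⟩ := hu _ hc
  refine ⟨fun l => rename Sum.inl (monomial d (1 : ℂ)) * rename Sum.inr (F l), fun l => ?_, ?_⟩
  · have h1 := (ren (Sum.inl : σ → σ ⊕ σ)
      (isWeightedHomogeneous_monomial (w1 σ) d (1 : ℂ) rfl)).mul (ren (Sum.inr : σ → σ ⊕ σ) (hF l))
    rwa [show Finsupp.weight (w1 σ) d + (g - Finsupp.weight (w1 σ) d - e l) = g - e l by ring] at h1
  · rw [map_sum]
    refine Finset.sum_congr rfl fun l _ => ?_
    rw [map_mul, aeval_rename, aeval_rename, Sum.elim_comp_inl, Sum.elim_comp_inr, ev_C,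
      aeval_monomial, map_one, one_mul, ev_mono x J d hd, smul_eq_mul, smul_eq_mul, mul_assoc,
      ← C_mul, mul_comm (monomial d (1 : R)), C_mul_monomial, mul_one]

end D1Fx

open D1Fx in
theorem p_D1F :
    S_D1F := by
  intro σ R _ _ _ _ x N J hc hs
  refine ⟨?_, D1Fx.sub J hs, fun j hj t => ?_⟩
  · rintro (i | i) g v hv
    · simp only [Sum.elim_inl, smul_eq_mul, xJ]
      split_ifs with h
      · exact cmul hc i hv
      · exact xmul h hv
    · exact cmul hc i hv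
  · have h0 : ∀ f' r, r ∈ FJ N (insert j J) t →
        aeval (xJ x {j}) ((X j - C (x j)) * f' + r) = r := by
      intro f' r hr
      rw [map_add, map_mul, map_sub, aeval_X, aeval_C, fix x hr, xJ,
        if_pos (Finset.mem_singleton_self j), algebraMap_eq, sub_self, zero_mul, zero_add]
    refine ⟨fun f hf => ?_, fun f hf => ⟨fun d => ⟨(hf d).1, fun ⟨i, hi, hi'⟩ =>
      (hf d).2 ⟨i, Finset.mem_insert_of_mem hi, hi'⟩⟩, fix x hf⟩, fun f hf h1 => ?_⟩
    · obtain ⟨f', _, r, hr, rfl⟩ := D1Fx.dv hc j hf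
      rw [h0 f' r hr]; exact hr
    · obtain ⟨f', hf', r, hr, rfl⟩ := D1Fx.dv hc j hf
      rw [h0 f' r hr] at h1
      exact ⟨f', hf', by rw [h1, add_zero]⟩

end Pool.Agent.P.MP_b01859_ag.SD
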