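import Pool.Agent.P.MP_b01859_ag.SD.Iface

/-! Step D1S. -/

set_option autoImplicit false
set_option linter.unusedSectionVars false

namespace Pool.Agent.P.MP_b01859_ag.SD

open MvPolynomial Filter

namespace D1Sx

section gen

variable {τ R V : Type} [CommRing R] [Algebra ℂ R] [AddCommGroup V] [Module ℂ V] [Module R V]
  [IsScalarTower ℂ R V]

lemma fin_SS [Fintype τ] (t : ℤ) : FiniteDimensional ℂ (SS τ t) := by
  have h : SS τ t ≤ weightedHomogeneousSubmodule ℂ (fun _ : τ => (1 : ℕ)) t.toNat := by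
    intro f hf d hd
    have h1 : Finsupp.weight (w1 τ) d = t := hf hd
    have h2 : Finsupp.weight (w1 τ) d = (Finsupp.weight (fun _ : τ => (1 : ℕ)) d : ℕ) := by
      simp [Finsupp.weight_apply, Finsupp.sum]
    omega
  have : Module.Finite ℂ (weightedHomogeneousSubmodule ℂ (fun _ : τ => (1 : ℕ)) t.toNat) :=
    Module.Finite.iff_fg.mpr (weightedHomogeneousSubmodule_fg ℂ _ (by simp) _)
  exact Submodule.finiteDimensional_of_le h

lemma fin_sub [Fintype τ] {x : τ → R} {K : ℤ → Submodule ℂ V} (h : Sub x (w1 τ) K) (t : ℤ) :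
    FiniteDimensional ℂ (K t) := by
  obtain ⟨κ, _, u, e, h⟩ := h
  have := fun l => fin_SS (τ := τ) (t - e l)
  let Φ : (∀ l, SS τ (t - e l)) →ₗ[ℂ] V :=
    { toFun := fun f => ∑ l, aeval x (f l).1 • u l
      map_add' := fun f f' => by simp [add_smul, Finset.sum_add_distrib]
      map_smul' := fun c f => by simp [Finset.smul_sum] }
  refine Submodule.finiteDimensional_of_le (S₂ := LinearMap.range Φ) ((h t).trans ?_)
  rintro _ ⟨f, hf, rfl⟩
  exact ⟨fun l => ⟨f l, hf l⟩, rfl⟩

lemma cl_pow {x : τ → R} {K : ℤ → Submodule ℂ V} (h : Cl x (w1 τ) K) (i : τ) (k : ℕ) (t : ℤ)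
    (v : V) (hv : v ∈ K t) : x i ^ k • v ∈ K (t + k) := by
  induction k with
  | zero => simpa using hv
  | succ k ih =>
    have := h i _ _ ih
    rw [← mul_smul, ← pow_succ', add_assoc] at this
    exact_mod_cast this

lemma cl_mono {x : τ → R} {K : ℤ → Submodule ℂ V} (h : Cl x (w1 τ) K) (d : τ →₀ ℕ) (c : ℂ) :
    ∀ t v, v ∈ K t → aeval x (monomial d c : Pol τ) • v ∈ K (t + Finsupp.weight (w1 τ) d) := by
  induction d using Finsupp.induction with
  | zero =>
    intro t v hv
    rw [map_zero, add_zero, monomial_zero', aeval_C, algebraMap_smul]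
    exact Submodule.smul_mem _ _ hv
  | single_add i n f _ _ ih =>
    intro t v hv
    rw [monomial_single_add, map_mul, map_pow, aeval_X, mul_smul, map_add, Finsupp.weight_single,
      add_comm (n • w1 τ i), ← add_assoc]
    have := cl_pow h i n _ _ (ih t v hv)
    simpa using this

lemma cl_aeval {x : τ → R} {K : ℤ → Submodule ℂ V} (h : Cl x (w1 τ) K) {f : Pol τ} {d : ℤ}
    (hf : Hom f d) {t : ℤ} {v : V} (hv : v ∈ K t) : aeval x f • v ∈ K (t + d) := by
  rw [f.as_sum, map_sum, Finset.sum_smul]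
  refine Submodule.sum_mem _ fun e he => ?_
  have h1 : Finsupp.weight (w1 τ) e = d := hf (mem_support_iff.mp he)
  rw [← h1]
  exact cl_mono h e _ t v hv

end gen

section en

variable {σ ι τ R : Type} [Fintype σ] [Fintype ι] [CommRing R] [Algebra ℂ R]
  {T : VB σ ι} {γ : ι → ℤ} {g : ℤ} {x : σ → R} {N : ℤ → Submodule ℂ R}

lemma cl_EN {y : τ → R} (h : Cl y (w1 τ) N) : Cl y (w1 τ) (EN T γ x N) := by
  rintro i t φ ⟨n, hn, hφ⟩
  refine ⟨fun s => y i * n s, fun s => ?_, fun a => ?_⟩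
  · have := h i _ _ (hn s)
    rwa [sub_add_eq_add_sub] at this
  · rw [Pi.smul_apply, smul_eq_mul, hφ, Finset.mul_sum]
    exact Finset.sum_congr rfl fun s _ => by ring

lemma sub_EN {y : τ → R} (h : Sub y (w1 τ) N) : Sub y (w1 τ) (EN T γ x N) := by
  obtain ⟨κ, _, u, e, h⟩ := h
  refine ⟨ι × κ, inferInstance, fun p a => aeval x (T.ω p.1 a) * u p.2, fun p => γ p.1 + e p.2,
    fun t => ?_⟩
  rintro φ ⟨n, hn, hφ⟩
  choose f hf1 hf2 using fun s => h _ (hn s)
  refine ⟨fun p => f p.1 p.2, fun p => hom_congr (hf1 p.1 p.2) (by ring), funext fun a => ?_⟩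
  rw [hφ, Finset.sum_apply, Fintype.sum_prod_type]
  refine Finset.sum_congr rfl fun s _ => ?_
  rw [hf2 s, Finset.mul_sum]
  exact Finset.sum_congr rfl fun l _ => by simp only [Pi.smul_apply, smul_eq_mul]; ring

lemma en_coord (hG : Gr (w1 σ) γ g T.ω) (h : Cl x (w1 σ) N) {t : ℤ} {φ : ι → R}
    (hφ : φ ∈ EN T γ x N t) (a : ι) : φ a ∈ N (t + γ a - g) := by
  obtain ⟨n, hn, hφ⟩ := hφ
  rw [hφ]
  refine Submodule.sum_mem _ fun s _ => ?_
  have := cl_aeval h (hG s a) (hn s)
  rwa [show t - γ s + (γ s + γ a - g) = t + γ a - g by ring] at this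

lemma en_wd {t : ℤ} {φ : ι → R} (hφ : φ ∈ EN T γ x N t) (a b c : ι) :
    aeval x (T.ω a b) * φ c = aeval x (T.ω a c) * φ b - aeval x (T.ω b c) * φ a := by
  obtain ⟨n, -, hφ⟩ := hφ
  simp only [hφ, Finset.mul_sum, ← Finset.sum_sub_distrib]
  refine Finset.sum_congr rfl fun s _ => ?_
  have := congrArg (aeval x) (T.pl s a b c)
  simp only [map_add, map_sub, map_mul, map_zero] at this
  linear_combination n s * this

lemma en_two [DecidableEq ι] {t : ℤ} {a b : ι} {u v : R} (hu : u ∈ N (t - γ a))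
    (hv : v ∈ N (t - γ b)) :
    (fun c => aeval x (T.ω a c) * u - aeval x (T.ω b c) * v) ∈ EN T γ x N t := by
  have one : ∀ {a : ι} {u : R}, u ∈ N (t - γ a) →
      (fun c => aeval x (T.ω a c) * u) ∈ EN T γ x N t := fun {a u} hu =>
    ⟨Pi.single a u, fun s => by
      by_cases e : s = a
      · subst e; simpa using hu
      · simp [e], fun c => by
      rw [Finset.sum_eq_single a (fun s _ e => by simp [e]) (by simp), Pi.single_eq_same]⟩
  exact sub_mem (one hu) (one hv)

end en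

lemma reg {σ R : Type} [CommRing R] (j : σ) (r : R) (f : MvPolynomial σ R)
    (h : (X j - C r) * f = 0) : f = 0 := by
  have h1 : ∀ e, coeff e f = r * coeff (Finsupp.single j 1 + e) f := fun e => by
    have := congrArg (coeff (Finsupp.single j 1 + e)) h
    rw [sub_mul, coeff_sub, coeff_X_mul, coeff_C_mul, coeff_zero] at this
    exact sub_eq_zero.mp this
  have h2 : ∀ (k : ℕ) e, coeff e f = r ^ k * coeff (Finsupp.single j k + e) f := fun k => by
    induction k with
    | zero => simp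
    | succ k ih =>
      intro e
      rw [ih e, h1, ← add_assoc, ← Finsupp.single_add, ← mul_assoc, ← pow_succ, add_comm 1 k]
  ext e
  rw [h2 (f.degreeOf j + 1) e, coeff_zero]
  have : coeff (Finsupp.single j (f.degreeOf j + 1) + e) f = 0 := by
    by_contra hne
    have := monomial_le_degreeOf j (mem_support_iff.mpr hne)
    simp at this
    omega
  rw [this, mul_zero]

lemma ev_aeval {σ R : Type} [Fintype σ] [DecidableEq σ] [CommRing R] [Algebra ℂ R] (x : σ → R)
    (J : Finset σ) (j : σ) (f : Pol σ) :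
    aeval (xJ x {j}) (aeval (xJ x J) f : MvPolynomial σ R) = aeval (xJ x (insert j J)) f := by
  have : ((aeval (xJ x {j}) : MvPolynomial σ R →ₐ[R] MvPolynomial σ R).restrictScalars ℂ).comp
      (aeval (xJ x J)) = (aeval (xJ x (insert j J)) : Pol σ →ₐ[ℂ] MvPolynomial σ R) := by
    refine algHom_ext fun i => ?_
    by_cases h2 : i = j
    · subst h2
      by_cases h1 : i ∈ J <;> simp [xJ, h1]
    · by_cases h1 : i ∈ J <;> simp [xJ, h1, h2]
  exact congrArg (fun φ : Pol σ →ₐ[ℂ] MvPolynomial σ R => φ f) this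

end D1Sx

open D1Sx in
theorem p_D1S (hC1 : S_C1) (hNULL : S_NULL) (hD1F : S_D1F) :
    S_D1S := by
  classical
  intro σ ι R _ _ _ _ _ T γ g x N hG hN hS J j hj
  obtain ⟨hcl, hsub, hF⟩ := hD1F σ R x N J hN hS
  have hF := hF j hj
  set y : σ ⊕ σ → MvPolynomial σ R := Sum.elim (xJ x J) fun i => C (x i) with hy
  set d : MvPolynomial σ R := X j - C (x j) with hdd
  have hclx : Cl (xJ x J) (w1 σ) (FJ N J) := fun i => hcl (Sum.inl i)
  let ev : MvPolynomial σ R →ₐ[R] MvPolynomial σ R := aeval (xJ x {j})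
  let Ev : (ι → MvPolynomial σ R) →ₗ[ℂ] (ι → MvPolynomial σ R) :=
    (ev.toLinearMap.restrictScalars ℂ).compLeft ι
  have Ev_apply : ∀ φ a, Ev φ a = ev (φ a) := fun _ _ => rfl
  let D : (ι → MvPolynomial σ R) →ₗ[ℂ] (ι → MvPolynomial σ R) :=
    (LinearMap.mulLeft ℂ d).compLeft ι
  have D_apply : ∀ φ, D φ = d • φ := fun _ => rfl
  have hDinj : Function.Injective D := by
    rw [injective_iff_map_eq_zero]
    exact fun φ h => funext fun a => reg j (x j) _ (congrFun h a)
  have evd : ev d = 0 := by simp [ev, hdd, xJ]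
  have hU : Cl y (w1 (σ ⊕ σ)) (U1 T γ x N J) := cl_EN hcl
  have hUs : Sub y (w1 (σ ⊕ σ)) (U1 T γ x N J) := sub_EN hsub
  have hfin := fin_sub hUs
  have dU : ∀ t, ∀ φ ∈ U1 T γ x N J t, d • φ ∈ U1 T γ x N J (t + 1) := fun t φ hφ => by
    have h1 := hU (Sum.inl j) t φ hφ
    have h2 := hU (Sum.inr j) t φ hφ
    have h3 : y (Sum.inl j) = X j := by simp [hy, xJ, hj]
    rw [h3] at h1
    rw [hdd, sub_smul]
    exact sub_mem h1 h2
  set K : ℤ → Submodule ℂ (ι → MvPolynomial σ R) :=
    fun t => U1 T γ x N J t ⊓ LinearMap.ker Ev with hK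
  set K' : ℤ → Submodule ℂ (ι → MvPolynomial σ R) :=
    fun t => (U1 T γ x N J (t - 1)).map D with hK'
  have hKcl : Cl y (w1 (σ ⊕ σ)) K := fun u t φ hφ => ⟨hU u t φ hφ.1, by
    have h0 : Ev φ = 0 := hφ.2
    refine LinearMap.mem_ker.mpr (funext fun a => ?_)
    have := congrFun h0 a
    rw [Ev_apply] at this ⊢
    rw [Pi.smul_apply, smul_eq_mul, map_mul, this, Pi.zero_apply, mul_zero]⟩
  have hK'cl : Cl y (w1 (σ ⊕ σ)) K' := by
    rintro u t _ ⟨φ, hφ, rfl⟩
    refine ⟨y u • φ, ?_, by rw [D_apply, D_apply, smul_comm]⟩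
    have := hU u _ φ hφ
    rwa [sub_add_eq_add_sub] at this
  have hle : ∀ t, K' t ≤ K t := by
    rintro t _ ⟨φ, hφ, rfl⟩
    refine ⟨?_, LinearMap.mem_ker.mpr (funext fun a => ?_)⟩
    · have := dU _ φ hφ
      rwa [sub_add_cancel] at this
    · rw [Ev_apply, D_apply, Pi.smul_apply, smul_eq_mul, map_mul, evd, zero_mul, Pi.zero_apply]
  have hKs : Sub y (w1 (σ ⊕ σ)) K := by
    obtain ⟨κ, _, u, e, h⟩ := hUs
    exact ⟨κ, inferInstance, u, e, fun t => inf_le_left.trans (h t)⟩
  have himg : ∀ t, (U1 T γ x N J t).map Ev = U1 T γ x N (insert j J) t := fun t => by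
    apply le_antisymm
    · rintro _ ⟨φ, ⟨n, hn, hφ⟩, rfl⟩
      refine ⟨fun s => ev (n s), fun s => (hF _).1 _ (hn s), fun a => ?_⟩
      rw [Ev_apply, hφ, map_sum]
      exact Finset.sum_congr rfl fun s _ => by rw [map_mul, ev_aeval]
    · rintro φ ⟨n, hn, hφ⟩
      refine ⟨fun a => ∑ s, aeval (xJ x J) (T.ω s a) * n s,
        ⟨n, fun s => ((hF _).2.1 _ (hn s)).1, fun _ => rfl⟩, funext fun a => ?_⟩
      rw [Ev_apply, hφ, map_sum]
      exact Finset.sum_congr rfl fun s _ => by
        rw [map_mul, ev_aeval, show ev (n s) = n s from ((hF _).2.1 _ (hn s)).2]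
  have hfun : (fun t => dl (hd (U1 T γ x N J)) t - hd (U1 T γ x N (insert j J)) t) =
      fun t => hd K t - hd K' t := by
    funext t
    have := hfin t
    have h1 := LinearMap.finrank_range_add_finrank_ker (Ev.domRestrict (U1 T γ x N J t))
    rw [LinearMap.range_domRestrict, LinearMap.ker_domRestrict,
      ← Submodule.finrank_map_subtype_eq, Submodule.map_comap_subtype, himg] at h1
    have h2 : Module.finrank ℂ (K' t) = Module.finrank ℂ (U1 T γ x N J (t - 1)) :=
      (Submodule.equivMapOfInjective D hDinj _).finrank_eq.symm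
    simp only [dl, dg, hd]
    rw [h2]
    have h3 : Module.finrank ℂ (K t) =
      Module.finrank ℂ (U1 T γ x N J t ⊓ LinearMap.ker Ev : Submodule ℂ _) := rfl
    omega
  have nil1 : ∀ i t, ∀ φ ∈ K t, ∀ᶠ k : ℕ in atTop, xJ x J i ^ k • φ ∈ K' (t + k) := by
    intro i t φ hφ
    have h0 : Ev φ = 0 := hφ.2
    choose ψ hψ1 hψ2 using fun a => (hF _).2.2 _ (en_coord hG hclx hφ.1 a) (congrFun h0 a)
    have hw : ∀ a b, aeval (xJ x J) (T.ω a b) • ψ ∈
        U1 T γ x N J (t - 1 + (γ a + γ b - g)) := fun a b => by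
      have e : aeval (xJ x J) (T.ω a b) • ψ = fun c =>
          aeval (xJ x J) (T.ω a c) * ψ b - aeval (xJ x J) (T.ω b c) * ψ a := by
        funext c
        have h1 := en_wd hφ.1 a b c
        rw [hψ2 a, hψ2 b, hψ2 c] at h1
        refine sub_eq_zero.mp (reg j (x j) _ ?_)
        rw [Pi.smul_apply, smul_eq_mul]
        linear_combination h1
      rw [e]
      refine en_two ?_ ?_
      · convert hψ1 b using 2; ring
      · convert hψ1 a using 2; ring
    have hn := hNULL σ (ι × ι) ⊥ (fun p => T.ω p.1 p.2) (fun p => γ p.1 + γ p.2 - g)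
      (fun f hf d => by rw [Ideal.mem_bot.mp hf, map_zero]; exact zero_mem _)
      (fun p => hG p.1 p.2) (fun q hq _ => by
        obtain ⟨a, b, h⟩ := T.LF_eval hq
        exact ⟨(a, b), h⟩)
    filter_upwards [tendsto_natCast_atTop_atTop (R := ℤ).eventually hn] with k hk
    obtain ⟨u, hu1, hu2⟩ := hk (X i ^ k) (by
      simpa using (isWeightedHomogeneous_X ℂ (fun _ : σ => (1 : ℤ)) i).pow k)
    have hu3 := congrArg (aeval (xJ x J)) (sub_eq_zero.mp (Ideal.mem_bot.mp hu2))
    rw [map_pow, aeval_X, map_sum] at hu3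
    refine ⟨xJ x J i ^ k • ψ, ?_, funext fun a => ?_⟩
    · rw [hu3, Finset.sum_smul]
      refine Submodule.sum_mem _ fun p _ => ?_
      rw [map_mul, mul_smul]
      have := cl_aeval (cl_EN hclx) (hu1 p) (hw p.1 p.2)
      rwa [show t - 1 + (γ p.1 + γ p.2 - g) + (k - (γ p.1 + γ p.2 - g)) = t + k - 1 by ring]
        at this
    · rw [D_apply]
      simp only [Pi.smul_apply, smul_eq_mul]
      rw [hψ2 a]; ring
  have nil2 : ∀ t, ∀ φ ∈ K t, ∀ k : ℕ,
      (C (x j) : MvPolynomial σ R) ^ k • φ - xJ x J j ^ k • φ ∈ K' (t + k) := by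
    intro t φ hφ k
    induction k with
    | zero => simp
    | succ k ih =>
      have h1 := hK'cl (Sum.inr j) _ _ ih
      have h2 : D (xJ x J j ^ k • φ) ∈ K' (t + k + 1) :=
        ⟨_, by rw [add_sub_cancel_right]; exact cl_pow hU (Sum.inl j) k t φ hφ.1, rfl⟩
      have h3 : xJ x J j = X j := by simp [xJ, hj]
      have h4 := sub_mem h1 h2
      rw [Nat.cast_succ, ← add_assoc]
      convert h4 using 1
      funext a
      simp only [D_apply, hy, h3, hdd, Sum.elim_inr, Pi.sub_apply, Pi.smul_apply, smul_eq_mul]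
      ring
  rw [hfun]
  have key := ((hC1 (σ ⊕ σ) (MvPolynomial σ R) (ι → MvPolynomial σ R) y K hKs hKcl).2 K' hK'cl
    hle).2.1 ((insert j J)ᶜ.map Function.Embedding.inr) (by
      rintro (i | i) hi t φ hφ
      · exact (nil1 i t φ hφ).exists
      · have hi' : i ∈ insert j J := by
          by_contra hne
          exact hi (Finset.mem_map_of_mem _ (Finset.mem_compl.mpr hne))
        rcases Finset.mem_insert.mp hi' with rfl | h
        · obtain ⟨k, hk⟩ := (nil1 i t φ hφ).exists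
          exact ⟨k, by simpa [hy] using add_mem (nil2 t φ hφ k) hk⟩
        · have : y (Sum.inr i) = xJ x J i := by simp [hy, xJ, h]
          rw [this]
          exact (nil1 i t φ hφ).exists)
  rwa [Finset.card_map, Finset.card_compl, Finset.card_insert_of_notMem hj] at key

end Pool.Agent.P.MP_b01859_ag.SD
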