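import Pool.Agent.P.MP_b01859_ag.SD.Iface

/-! Step D2K. -/

set_option autoImplicit false
set_option linter.unusedSectionVars false

namespace Pool.Agent.P.MP_b01859_ag.SD

open MvPolynomial Filter

namespace D2Kx

variable {σ ι : Type} [Fintype σ] [DecidableEq σ] [Fintype ι]

lemma u2_eq (T : VB σ ι) (γ : ι → ℤ) (J : Finset σ) : U2 T γ J = Gen (zJ J) (w1 (σ ⊕ σ))
    (fun (s : ι × ι) (a : ι × ι) => (aeval (zJ J)
      (rename Sum.inl (T.ω s.1 a.1) * rename Sum.inr (T.ω s.2 a.2) : Pol (σ ⊕ σ)) : Pol (σ ⊕ σ)))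
    fun s => γ s.1 + γ s.2 := by
  funext t
  ext ψ
  refine exists_congr fun n => and_congr (forall_congr' fun s => by rw [_root_.sub_sub]) ?_
  rw [_root_.funext_iff]
  refine forall_congr' fun a => ?_
  rw [map_sum, Finset.sum_apply]
  simp only [Pi.smul_apply, smul_eq_mul, map_mul, mul_comm]

end D2Kx

open D2Kx in
theorem p_D2K (hC1 : S_C1) (hD2N : S_D2N) :
    S_D2K := by
  intro σ ι _ _ _ T γ g hG J j hj
  have hU : Cl (zJ J) (w1 (σ ⊕ σ)) (U2 T γ J) := by rw [u2_eq]; exact gen_cl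
  have hUs : Sub (zJ J) (w1 (σ ⊕ σ)) (U2 T γ J) := by rw [u2_eq]; exact gen_sub
  refine ⟨hUs.fin, ?_⟩
  set y : Pol (σ ⊕ σ) := X (Sum.inl j) - X (Sum.inr j) with hy
  let ev : Pol (σ ⊕ σ) →ₐ[ℂ] Pol (σ ⊕ σ) := aeval (zJ {j})
  let Ev : (ι × ι → Pol (σ ⊕ σ)) →ₗ[ℂ] (ι × ι → Pol (σ ⊕ σ)) := ev.toLinearMap.compLeft (ι × ι)
  have Ev_apply : ∀ φ a, Ev φ a = ev (φ a) := fun _ _ => rfl
  let D : (ι × ι → Pol (σ ⊕ σ)) →ₗ[ℂ] (ι × ι → Pol (σ ⊕ σ)) :=
    (LinearMap.mulLeft ℂ y).compLeft (ι × ι)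
  have D_apply : ∀ φ, D φ = y • φ := fun _ => rfl
  have evy : ev y = 0 := by simp [ev, hy, zJ]
  have hker : Cl (zJ J) (w1 (σ ⊕ σ)) fun _ => LinearMap.ker Ev := fun u t φ hφ => by
    refine LinearMap.mem_ker.mpr (funext fun a => ?_)
    have := congrFun (LinearMap.mem_ker.mp hφ) a
    rw [Ev_apply] at this ⊢
    rw [Pi.smul_apply, smul_eq_mul, map_mul, this, Pi.zero_apply, mul_zero]
  have key := ((hC1 (σ ⊕ σ) (Pol (σ ⊕ σ)) (ι × ι → Pol (σ ⊕ σ)) (zJ J)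
    (fun t => U2 T γ J t ⊓ LinearMap.ker Ev) (hUs.mono fun _ => inf_le_left) (hU.inf hker)).2
    (fun t => (U2 T γ J (t + -1)).map D)
    ((hU.shift (-1)).map D fun u φ => by rw [D_apply, D_apply, smul_comm]) (by
      rintro t _ ⟨φ, hφ, rfl⟩
      refine ⟨?_, LinearMap.mem_ker.mpr (funext fun a => ?_)⟩
      · have h1 := hU (Sum.inl j) _ φ hφ
        have h2 := hU (Sum.inr j) _ φ hφ
        have h3 : zJ J (Sum.inl j) = X (Sum.inl j) := by simp [zJ, hj]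
        have h4 : zJ J (Sum.inr j) = X (Sum.inr j) := by simp [zJ, hj]
        rw [h3, neg_add_cancel_right] at h1
        rw [h4, neg_add_cancel_right] at h2
        rw [D_apply, hy, sub_smul]
        exact sub_mem h1 h2
      · rw [Ev_apply, D_apply, Pi.smul_apply, smul_eq_mul, map_mul, evy, zero_mul,
          Pi.zero_apply])).2.2 (fun u t ψ hψ => by
      obtain ⟨k, ψ', h1, h2⟩ := hD2N σ ι T γ g hG J j hj u t ψ hψ.1
        (congrFun (LinearMap.mem_ker.mp hψ.2))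
      exact ⟨k, ψ', h1, h2.symm⟩)
  filter_upwards [key] with t ht ψ hψ h0
  obtain ⟨ψ', h1, h2⟩ := ht.ge ⟨hψ, LinearMap.mem_ker.mpr (funext h0)⟩
  exact ⟨ψ', h1, h2.symm⟩

end Pool.Agent.P.MP_b01859_ag.SD
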