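import Pool.Agent.P.MP_b01859_ag.SD.Iface

/-! Step D2N. -/

set_option autoImplicit false
set_option linter.unusedSectionVars false

namespace Pool.Agent.P.MP_b01859_ag.SD

open MvPolynomial Filter

namespace D2Nx

lemma hom_rename {σ τ : Type} (r : σ → τ) {f : Pol σ} {d : ℤ} (h : Hom f d) :
    Hom (rename r f) d :=
  algHom_hom _ (fun i => by rw [rename_X]; exact isWeightedHomogeneous_X ℂ _ _) h

lemma hom_sum {τ κ : Type} [Fintype κ] {f : κ → Pol τ} {d : ℤ} (h : ∀ l, Hom (f l) d) :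
    Hom (∑ l, f l) d := IsWeightedHomogeneous.sum _ _ _ fun l _ => h l

lemma hom_sub {τ : Type} {f f' : Pol τ} {d : ℤ} (h : Hom f d) (h' : Hom f' d) : Hom (f - f') d :=
  (weightedHomogeneousSubmodule ℂ (w1 τ) d).sub_mem h h'

lemma hom_neg' {τ : Type} {f : Pol τ} {d : ℤ} (h : Hom f d) : Hom (-f) d :=
  (weightedHomogeneousSubmodule ℂ (w1 τ) d).neg_mem h

lemma dvd_sub {τ : Type} [DecidableEq τ] (v w : τ) (f : Pol τ) :
    (X v - X w : Pol τ) ∣ f - rename (Function.update id v w) f := by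
  induction f using MvPolynomial.induction_on with
  | C c => simp
  | add p q hp hq =>
    rw [map_add, add_sub_add_comm]
    exact dvd_add hp hq
  | mul_X p i hp =>
    have h : (X v - X w : Pol τ) ∣ X i - X (Function.update id v w i) := by
      by_cases e : i = v
      · subst e; simp
      · simp [e]
    rw [map_mul, rename_X]
    have := dvd_add (hp.mul_right (X i))
      (h.mul_left (rename (Function.update id v w) p))
    convert this using 1
    ring

lemma div {τ : Type} [DecidableEq τ] {v w : τ} (hvw : v ≠ w) {f : Pol τ} {d : ℤ} (hf : Hom f d) :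
    ∃ f', Hom f' (d - 1) ∧ f - rename (Function.update id v w) f = (X v - X w) * f' := by
  obtain ⟨f', h⟩ := dvd_sub v w f
  refine ⟨f', hom_of_mul' (f := X v - X w) (a := 1)
    (hom_sub (isWeightedHomogeneous_X ℂ _ _) (isWeightedHomogeneous_X ℂ _ _))
    (sub_ne_zero.mpr fun e => hvw (X_injective e)) ?_, h⟩
  rw [← h]
  exact hom_sub hf (hom_rename _ hf)

lemma core {σ ι τ : Type} [Fintype σ] [Fintype ι] (hNULL : S_NULL) (T : VB σ ι) (γ : ι → ℤ)
    (g : ℤ) (hG : Gr (w1 σ) γ g T.ω) (F G : σ → τ) (e ρ : Pol τ →ₐ[ℂ] Pol τ) (y : Pol τ)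
    (hy : e y = y) (hc : ∀ f, ρ (e f) = e (ρ f)) (hGf : ∀ f, ρ (rename G f) = rename G f)
    (hdiv : ∀ f d, Hom f d → ∃ f', Hom f' (d - 1) ∧ f - ρ f = y * f') (i : σ) (t : ℤ)
    (n : ι → ι → Pol τ) (hn : ∀ s s', Hom (n s s') (t - γ s - γ s')) (ψ : ι → ι → Pol τ)
    (hψ : ∀ a b, ψ a b = e (∑ s, ∑ s', rename F (T.ω s a) * rename G (T.ω s' b) * n s s'))
    (h0 : ∀ a b, ρ (ψ a b) = 0) :
    ∃ (k : ℕ) (n' : ι → ι → Pol τ), (∀ s s', Hom (n' s s') (t + k - 1 - γ s - γ s')) ∧
      ∀ a b, e (X (F i)) ^ k * ψ a b =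
        y * e (∑ s, ∑ s', rename F (T.ω s a) * rename G (T.ω s' b) * n' s s') := by
  set m : ι → ι → Pol τ := fun a s' => ∑ s, rename F (T.ω s a) * n s s' with hm
  have hm1 : ∀ a s', Hom (m a s') (t + γ a - γ s' - g) := fun a s' =>
    hom_sum fun s => hom_congr ((hom_rename F (hG s a)).mul (hn s s')) (by ring)
  have hm2 : ∀ a b, ψ a b = e (∑ s', rename G (T.ω s' b) * m a s') := fun a b => by
    rw [hψ, Finset.sum_comm]
    refine congrArg _ ?_
    refine Finset.sum_congr rfl fun s' _ => ?_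
    rw [hm, Finset.mul_sum]
    exact Finset.sum_congr rfl fun s _ => by ring
  choose m' hm'1 hm'2 using fun a s' => hdiv _ _ (hm1 a s')
  set χ : ι → ι → Pol τ := fun a b => ∑ s', rename G (T.ω s' b) * m' a s' with hχ
  have h1 : ∀ a b, ψ a b = y * e (χ a b) := fun a b => by
    have h2 := h0 a b
    rw [hm2, hc] at h2
    rw [hm2, ← sub_zero (e _), ← h2, ← map_sub, map_sum ρ, ← Finset.sum_sub_distrib]
    conv_rhs => rw [← hy, ← map_mul, hχ, Finset.mul_sum]
    refine congrArg _ ?_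
    refine Finset.sum_congr rfl fun s' _ => ?_
    rw [map_mul, hGf, ← mul_sub, hm'2]
    ring
  have hw : ∀ a a' c b, e (rename F (T.ω a a')) * ψ c b =
      y * e (rename F (T.ω a c) * χ a' b - rename F (T.ω a' c) * χ a b) := fun a a' c b => by
    have h2 : e (rename F (T.ω a a')) * ψ c b =
        e (rename F (T.ω a c)) * ψ a' b - e (rename F (T.ω a' c)) * ψ a b := by
      simp only [hψ, ← map_mul, ← map_sub, Finset.mul_sum, ← Finset.sum_sub_distrib]
      refine congrArg _ ?_
      refine Finset.sum_congr rfl fun s _ => Finset.sum_congr rfl fun s' _ => ?_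
      have := congrArg (rename F) (T.pl s a a' c)
      simp only [map_add, map_sub, map_mul, map_zero] at this
      linear_combination (rename G (T.ω s' b) * n s s') * this
    rw [h2, h1 a' b, h1 a b, map_sub, map_mul, map_mul]
    ring
  have hnl := hNULL σ (ι × ι) ⊥ (fun p => T.ω p.1 p.2) (fun p => γ p.1 + γ p.2 - g)
    (fun f hf d => by rw [Ideal.mem_bot.mp hf, map_zero]; exact zero_mem _)
    (fun p => hG p.1 p.2) (fun q hq _ => by
      obtain ⟨a, b, h⟩ := T.LF_eval hq
      exact ⟨(a, b), h⟩)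
  obtain ⟨k, hk⟩ := (tendsto_natCast_atTop_atTop (R := ℤ).eventually hnl).exists
  obtain ⟨u, hu1, hu2⟩ := hk (X i ^ k) (by
    simpa using (isWeightedHomogeneous_X ℂ (fun _ : σ => (1 : ℤ)) i).pow k)
  have hu3 := congrArg (fun f => e (rename F f)) (sub_eq_zero.mp (Ideal.mem_bot.mp hu2))
  simp only [map_pow, rename_X, map_sum, map_mul] at hu3
  refine ⟨k, fun s s' => ∑ a, rename F (u (s, a)) * m' a s' - ∑ a, rename F (u (a, s)) * m' a s',
    fun s s' => hom_sub (hom_sum fun a => ?_) (hom_sum fun a => ?_), fun c b => ?_⟩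
  · exact hom_congr ((hom_rename F (hu1 (s, a))).mul (hm'1 a s')) (by ring)
  · exact hom_congr ((hom_rename F (hu1 (a, s))).mul (hm'1 a s')) (by ring)
  · have h3 : ∑ s, ∑ s', rename F (T.ω s c) * rename G (T.ω s' b) *
        (∑ a, rename F (u (s, a)) * m' a s' - ∑ a, rename F (u (a, s)) * m' a s') =
        ∑ p : ι × ι, rename F (u p) *
          (rename F (T.ω p.1 c) * χ p.2 b - rename F (T.ω p.2 c) * χ p.1 b) := by
      simp only [hχ, mul_sub, Finset.sum_sub_distrib, Finset.mul_sum, Fintype.sum_prod_type]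
      refine congrArg₂ (· - ·) ?_ ?_
      · refine Finset.sum_congr rfl fun s _ => ?_
        rw [Finset.sum_comm]
        exact Finset.sum_congr rfl fun a _ => Finset.sum_congr rfl fun s' _ => by ring
      · conv_rhs => rw [Finset.sum_comm]
        refine Finset.sum_congr rfl fun s _ => ?_
        rw [Finset.sum_comm]
        exact Finset.sum_congr rfl fun a _ => Finset.sum_congr rfl fun s' _ => by ring
    rw [h3, hu3, Finset.sum_mul, map_sum, Finset.mul_sum]
    refine Finset.sum_congr rfl fun p _ => ?_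
    rw [mul_assoc, hw, map_mul e (rename F (u p))]
    ring

variable {σ : Type} [Fintype σ] [DecidableEq σ]

lemma ext_ap {τ : Type} {φ ψ : Pol τ →ₐ[ℂ] Pol τ} (h : ∀ u, φ (X u) = ψ (X u)) (f : Pol τ) :
    φ f = ψ f := by rw [algHom_ext h]

lemma rho_one (j : σ) {v w : σ ⊕ σ} (h : v = Sum.inl j ∧ w = Sum.inr j ∨ v = Sum.inr j ∧ w = Sum.inl j)
    (f : Pol (σ ⊕ σ)) :
    rename (Function.update id v w) (aeval (zJ {j}) f) = rename (Function.update id v w) f := by
  have h2 : ∀ z : Pol (σ ⊕ σ), C (2⁻¹ : ℂ) * (z + z) = z := fun z => by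
    rw [← two_mul, ← mul_assoc, ← map_ofNat C 2, ← map_mul]; simp
  refine ext_ap (φ := (rename _).comp (aeval (zJ {j}))) (fun u => ?_) f
  rcases h with ⟨rfl, rfl⟩ | ⟨rfl, rfl⟩ <;> rcases u with i | i <;> by_cases e : i = j <;>
    simp [zJ, e, h2]

lemma rho_comm {J : Finset σ} {j : σ} (hj : j ∉ J) {v w : σ ⊕ σ}
    (h : v = Sum.inl j ∧ w = Sum.inr j ∨ v = Sum.inr j ∧ w = Sum.inl j) (f : Pol (σ ⊕ σ)) :
    rename (Function.update id v w) (aeval (zJ J) f) =
      aeval (zJ J) (rename (Function.update id v w) f) := by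
  refine ext_ap (φ := (rename (Function.update id v w)).comp (aeval (zJ J)))
    (ψ := (aeval (zJ J)).comp (rename (Function.update id v w))) (fun u => ?_) f
  by_cases e : u.elim id id = j
  · rcases h with ⟨rfl, rfl⟩ | ⟨rfl, rfl⟩ <;> rcases u with i | i <;> obtain rfl : i = j := e <;>
      simp [zJ, hj]
  · rcases h with ⟨rfl, rfl⟩ | ⟨rfl, rfl⟩ <;> rcases u with i | i <;> have e : ¬ i = j := e <;>
      by_cases e' : i ∈ J <;> simp [zJ, e, e']

end D2Nx

open D2Nx in
theorem p_D2N (hNULL : S_NULL) :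
    S_D2N := by
  intro σ ι _ _ _ T γ g hG J j hj u t ψ ⟨n, hn, hψ⟩ h0
  have hy : aeval (zJ J) (X (Sum.inl j) - X (Sum.inr j) : Pol (σ ⊕ σ)) =
      X (Sum.inl j) - X (Sum.inr j) := by simp [zJ, hj]
  rcases u with i | i
  · obtain ⟨k, n', h1, h2⟩ := core hNULL T γ g hG Sum.inl Sum.inr (aeval (zJ J))
      (rename (Function.update id (Sum.inl j) (Sum.inr j))) _ hy
      (rho_comm hj (Or.inl ⟨rfl, rfl⟩))
      (fun f => by
        rw [rename_rename]
        exact congrArg (fun r => rename r f) (funext fun a => by simp))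
      (fun f d hf => div (by simp) hf) i t (fun s s' => n (s, s')) (fun s s' => hn (s, s'))
      (fun a b => ψ (a, b)) (fun a b => by rw [hψ, Fintype.sum_prod_type])
      (fun a b => by rw [← rho_one j (Or.inl ⟨rfl, rfl⟩), h0, map_zero])
    refine ⟨k, _, ⟨fun s => n' s.1 s.2, fun s => h1 s.1 s.2, fun _ => rfl⟩, funext fun a => ?_⟩
    have := h2 a.1 a.2
    rw [aeval_X] at this
    rw [Pi.smul_apply, Pi.smul_apply, smul_eq_mul, smul_eq_mul, this, Fintype.sum_prod_type]
  · obtain ⟨k, n', h1, h2⟩ := core hNULL T γ g hG Sum.inr Sum.inl (aeval (zJ J))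
      (rename (Function.update id (Sum.inr j) (Sum.inl j))) _ hy
      (rho_comm hj (Or.inr ⟨rfl, rfl⟩))
      (fun f => by
        rw [rename_rename]
        exact congrArg (fun r => rename r f) (funext fun a => by simp))
      (fun f d hf => by
        obtain ⟨f', h1, h2⟩ := div (v := Sum.inr j) (w := Sum.inl j) (by simp) hf
        exact ⟨-f', hom_neg' h1, by rw [h2]; ring⟩)
      i t (fun s s' => n (s', s)) (fun s s' => hom_congr (hn (s', s)) (by ring))
      (fun a b => ψ (b, a)) (fun a b => by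
        rw [hψ, Fintype.sum_prod_type, Finset.sum_comm]
        exact congrArg _
          (Finset.sum_congr rfl fun s _ => Finset.sum_congr rfl fun s' _ => by ring))
      (fun a b => by rw [← rho_one j (Or.inr ⟨rfl, rfl⟩), h0, map_zero])
    refine ⟨k, _, ⟨fun s => n' s.2 s.1, fun s => hom_congr (h1 s.2 s.1) (by ring), fun _ => rfl⟩,
      funext fun a => ?_⟩
    have := h2 a.2 a.1
    rw [aeval_X] at this
    rw [Pi.smul_apply, Pi.smul_apply, smul_eq_mul, smul_eq_mul, this, Fintype.sum_prod_type,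
      Finset.sum_comm]
    exact congrArg _ (congrArg _
      (Finset.sum_congr rfl fun s _ => Finset.sum_congr rfl fun s' _ => by ring))

end Pool.Agent.P.MP_b01859_ag.SD
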