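import Pool.Agent.P.MP_b01859_ag.SD.Iface
import Pool.Agent.P.MP_b01859_ag.SD.Api

/-! Step D2S. -/

set_option autoImplicit false
set_option linter.unusedSectionVars false

namespace Pool.Agent.P.MP_b01859_ag.SD

open MvPolynomial Filter

namespace D2Sx

lemma rank_null {U : Type} [AddCommGroup U] [Module ℂ U] (φ : U →ₗ[ℂ] U) (V : Submodule ℂ U)
    [Module.Finite ℂ V] : Module.finrank ℂ (V.map φ) +
      Module.finrank ℂ (V ⊓ LinearMap.ker φ : Submodule ℂ U) = Module.finrank ℂ V := by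
  have h := LinearMap.finrank_range_add_finrank_ker (φ.domRestrict V)
  rw [LinearMap.range_domRestrict, LinearMap.ker_domRestrict,
    ← Submodule.finrank_map_subtype_eq, Submodule.map_comap_subtype] at h
  exact h

variable {σ ι : Type} [Fintype σ] [DecidableEq σ] [Fintype ι] {T : VB σ ι} {γ : ι → ℤ}
  {J : Finset σ} {j : σ} {t : ℤ}

lemma z_comp (hj : j ∉ J) (f : Pol (σ ⊕ σ)) :
    aeval (zJ {j}) (aeval (zJ J) f) = aeval (zJ (insert j J)) f := by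
  have : (aeval (zJ {j}) : Pol (σ ⊕ σ) →ₐ[ℂ] Pol (σ ⊕ σ)).comp (aeval (zJ J)) =
      aeval (zJ (insert j J)) := by
    refine algHom_ext fun u => ?_
    rw [AlgHom.comp_apply, aeval_X, aeval_X]
    by_cases h : u.elim id id ∈ J
    · have h1 : u.elim id id ≠ j := fun e => hj (e ▸ h)
      rw [zJ, if_pos h, zJ, if_pos (Finset.mem_insert_of_mem h)]
      simp [zJ, h1]
    · rw [zJ, if_neg h, aeval_X]
      simp [zJ, h]
  exact AlgHom.congr_fun this f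

lemma z_swap (J : Finset σ) (f : Pol (σ ⊕ σ)) :
    rename Sum.swap (aeval (zJ J) f) = aeval (zJ J) (rename Sum.swap f) := by
  have : (rename Sum.swap : Pol (σ ⊕ σ) →ₐ[ℂ] Pol (σ ⊕ σ)).comp (aeval (zJ J)) =
      (aeval (zJ J)).comp (rename Sum.swap) := by
    refine algHom_ext fun u => ?_
    rw [AlgHom.comp_apply, AlgHom.comp_apply, aeval_X, rename_X, aeval_X]
    rcases u with i | i <;> by_cases h : i ∈ J <;> simp [zJ, h, add_comm]
  exact AlgHom.congr_fun this f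

lemma hom_swap {f : Pol (σ ⊕ σ)} {d : ℤ} (h : Hom f d) : Hom (rename Sum.swap f) d := by
  have c : Cl (fun u : σ ⊕ σ => (X u.swap : Pol (σ ⊕ σ))) (w1 _) (SS (σ ⊕ σ)) :=
    fun u => cl_SS u.swap
  have := c.aeval h (g := 0) (v := 1) (isWeightedHomogeneous_one ℂ _)
  rw [smul_eq_mul, mul_one, zero_add] at this
  rw [rename_eq_aeval]
  exact this

lemma sw_apply (ψ : ι × ι → Pol (σ ⊕ σ)) (a : ι × ι) :
    sw σ ι ψ a = rename Sum.swap (ψ a.swap) := rfl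

lemma sw_sw (ψ : ι × ι → Pol (σ ⊕ σ)) : sw σ ι (sw σ ι ψ) = ψ := by
  funext a
  simp [sw_apply]

lemma sw_mem {ψ : ι × ι → Pol (σ ⊕ σ)} (h : ψ ∈ U2 T γ J t) : sw σ ι ψ ∈ U2 T γ J t := by
  obtain ⟨n, hn, h⟩ := h
  refine ⟨fun s => rename Sum.swap (n s.swap), fun s =>
    hom_congr (hom_swap (hn s.swap)) (by simp only [Prod.fst_swap, Prod.snd_swap]; ring),
    fun a => ?_⟩
  rw [sw_apply, h, z_swap, map_sum, ← Equiv.sum_comp (Equiv.prodComm ι ι)]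
  refine congrArg _ (Finset.sum_congr rfl fun s _ => ?_)
  simp only [map_mul, rename_rename, Equiv.prodComm_apply, Prod.fst_swap, Prod.snd_swap]
  rw [mul_comm (rename _ (T.ω s.2 a.2))]
  rfl

/-- the restriction -/
noncomputable def ev (ι : Type) (j : σ) : Module.End ℂ (ι × ι → Pol (σ ⊕ σ)) :=
  (aeval (zJ {j}) : Pol (σ ⊕ σ) →ₐ[ℂ] Pol (σ ⊕ σ)).toLinearMap.compLeft (ι × ι)

lemma ev_apply (ψ : ι × ι → Pol (σ ⊕ σ)) (a : ι × ι) : ev ι j ψ a = aeval (zJ {j}) (ψ a) := rfl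

lemma sw_ev (ψ : ι × ι → Pol (σ ⊕ σ)) : sw σ ι (ev ι j ψ) = ev ι j (sw σ ι ψ) :=
  funext fun _ => z_swap _ _

/-- multiplication by the equation -/
noncomputable def mu (ι : Type) (j : σ) : Module.End ℂ (ι × ι → Pol (σ ⊕ σ)) :=
  (LinearMap.mulLeft ℂ (X (Sum.inl j) - X (Sum.inr j) : Pol (σ ⊕ σ))).compLeft (ι × ι)

lemma mu_apply (ψ : ι × ι → Pol (σ ⊕ σ)) (a : ι × ι) :
    mu ι j ψ a = (X (Sum.inl j) - X (Sum.inr j)) * ψ a := rfl

lemma mu_inj : Function.Injective (mu ι j) := by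
  intro φ ψ h
  funext a
  have h0 : (X (Sum.inl j) - X (Sum.inr j) : Pol (σ ⊕ σ)) ≠ 0 :=
    sub_ne_zero.2 (X_injective.ne Sum.inl_ne_inr)
  have h1 := congrFun h a
  rw [mu_apply, mu_apply] at h1
  exact mul_left_cancel₀ h0 h1

lemma sw_mu (ψ : ι × ι → Pol (σ ⊕ σ)) : sw σ ι (mu ι j ψ) = -mu ι j (sw σ ι ψ) := by
  funext a
  simp only [sw_apply, mu_apply, Pi.neg_apply, map_mul, map_sub, rename_X, Sum.swap_inl,
    Sum.swap_inr]
  ring

lemma ev_mu (ψ : ι × ι → Pol (σ ⊕ σ)) : ev ι j (mu ι j ψ) = 0 := by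
  funext a
  simp [ev_apply, mu_apply, zJ]

lemma mu_mem (hj : j ∉ J) {ψ : ι × ι → Pol (σ ⊕ σ)} (h : ψ ∈ U2 T γ J (t - 1)) :
    mu ι j ψ ∈ U2 T γ J t := by
  obtain ⟨n, hn, h⟩ := h
  have hy : aeval (zJ J) (X (Sum.inl j) - X (Sum.inr j) : Pol (σ ⊕ σ)) =
      X (Sum.inl j) - X (Sum.inr j) := by simp [zJ, hj]
  have h1 : Hom (X (Sum.inl j) - X (Sum.inr j) : Pol (σ ⊕ σ)) 1 :=
    (isWeightedHomogeneous_X ℂ (w1 _) (Sum.inl j)).sub (isWeightedHomogeneous_X ℂ (w1 _) (Sum.inr j))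
  refine ⟨fun s => (X (Sum.inl j) - X (Sum.inr j)) * n s, fun s => hom_congr (h1.mul (hn s))
    (by ring), fun a => ?_⟩
  rw [mu_apply, h, ← hy, ← map_mul, Finset.mul_sum, hy]
  exact congrArg _ (Finset.sum_congr rfl fun s _ => by ring)

lemma mem_e {ε : ℂ} {ψ : ι × ι → Pol (σ ⊕ σ)} :
    ψ ∈ U2e T γ J ε t ↔ ψ ∈ U2 T γ J t ∧ sw σ ι ψ = ε • ψ := by
  rw [U2e, Submodule.mem_inf, Module.End.mem_eigenspace_iff]

lemma map_ev (hj : j ∉ J) {ε : ℂ} (hε : ε * ε = 1) :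
    (U2e T γ J ε t).map (ev ι j) = U2e T γ (insert j J) ε t := by
  ext φ
  constructor
  · rintro ⟨ψ, hψ, rfl⟩
    obtain ⟨⟨n, hn, h⟩, h2⟩ := mem_e.1 hψ
    exact mem_e.2 ⟨⟨n, hn, fun a => by rw [ev_apply, h, z_comp hj]⟩, by rw [sw_ev, h2, map_smul]⟩
  · intro hφ
    obtain ⟨⟨n, hn, h⟩, h2⟩ := mem_e.1 hφ
    obtain ⟨ψ, h3, h4⟩ : ∃ ψ ∈ U2 T γ J t, ev ι j ψ = φ :=
      ⟨_, ⟨n, hn, fun _ => rfl⟩, funext fun a => by rw [ev_apply, z_comp hj, h]⟩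
    refine ⟨(2⁻¹ : ℂ) • (ψ + ε • sw σ ι ψ), mem_e.2 ⟨Submodule.smul_mem _ _
      (add_mem h3 (Submodule.smul_mem _ _ (sw_mem h3))), ?_⟩, ?_⟩
    · rw [map_smul, map_add, map_smul, sw_sw, smul_comm ε, smul_add ε, smul_smul ε, hε, one_smul,
        add_comm]
    · rw [map_smul, map_add, map_smul, ← sw_ev, h4, h2, smul_smul ε, hε, one_smul, ← two_smul ℂ,
        smul_smul]
      norm_num

end D2Sx

open D2Sx in
theorem p_D2S (hD2K : S_D2K) :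
    S_D2S := by
  intro σ ι _ _ _ T γ g hG J j hj ε hε
  have e2 : ε * ε = 1 := by rcases hε with rfl | rfl <;> norm_num
  obtain ⟨hf, hk⟩ := hD2K σ ι T γ g hG J j hj
  filter_upwards [hk] with t ht
  have := hf t
  have : Module.Finite ℂ (U2e T γ J ε t) := Submodule.finiteDimensional_of_le inf_le_left
  have h1 := rank_null (ev ι j) (U2e T γ J ε t)
  have h2 : U2e T γ J ε t ⊓ LinearMap.ker (ev ι j) = (U2e T γ J (-ε) (t - 1)).map (mu ι j) := by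
    ext ψ
    constructor
    · rintro ⟨h3, h4⟩
      obtain ⟨h5, h6⟩ := mem_e.1 h3
      obtain ⟨φ, h7, h8⟩ := ht ψ h5 fun a => congrFun (LinearMap.mem_ker.1 h4) a
      have h9 : ψ = mu ι j φ := h8
      refine ⟨φ, mem_e.2 ⟨h7, mu_inj (j := j) ?_⟩, h9.symm⟩
      rw [h9, sw_mu] at h6
      rw [map_smul, neg_smul, ← h6, neg_neg]
    · rintro ⟨φ, h3, rfl⟩
      obtain ⟨h5, h6⟩ := mem_e.1 h3
      exact ⟨mem_e.2 ⟨mu_mem hj h5, by rw [sw_mu, h6, map_smul, neg_smul, neg_neg]⟩,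
        LinearMap.mem_ker.2 (ev_mu φ)⟩
  rw [map_ev hj e2, h2, ← (Submodule.equivMapOfInjective _ mu_inj _).finrank_eq] at h1
  simp only [hd]
  omega

end Pool.Agent.P.MP_b01859_ag.SD
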