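import Pool.Agent.P.MP_b01859_ag.SD.Iface

/-! Step DIAG1. -/

set_option autoImplicit false
set_option linter.unusedSectionVars false

namespace Pool.Agent.P.MP_b01859_ag.SD

open MvPolynomial Filter

theorem p_DIAG1 (hTENS : S_TENS) (hD1E : S_D1E) (hD1S : S_D1S) :
    S_DIAG1 := by
  classical
  intro σ ι R _ _ _ _ T γ g x N hG hC hS
  have key : ∀ J : Finset σ, Ev0 (Fintype.card σ - J.card) fun t =>
      dl^[J.card] (hd (U1 T γ x N ∅)) t - hd (U1 T γ x N J) t := by
    intro J
    induction J using Finset.induction_on with
    | empty =>
      refine Eventually.of_forall fun t => ?_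
      simp only [Finset.card_empty, Function.iterate_zero, id, sub_self]
      exact dg_iter_zero _ _ _
    | insert j J hj ih =>
      rw [Finset.card_insert_of_notMem hj]
      have hle : J.card + 1 ≤ Fintype.card σ := by
        rw [← Finset.card_insert_of_notMem hj]
        exact Finset.card_le_univ _
      have h1 : Fintype.card σ - J.card = (Fintype.card σ - (J.card + 1)) + 1 := by omega
      rw [h1, ← ev0_dl] at ih
      refine (ih.add (hD1S σ ι R T γ g x N hG hC hS J j hj)).congr
        (Eventually.of_forall fun t => ?_)
      rw [dl_succ]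
      simp only [dl, dg]
      ring
  have h := key Finset.univ
  rw [Finset.card_univ, Nat.sub_self, ev0_zero, hD1E σ ι R T γ x N,
    hTENS σ ι R T γ g x N hG hS] at h
  filter_upwards [h] with t ht
  linarith

end Pool.Agent.P.MP_b01859_ag.SD
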