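import Pool.Agent.P.MP_b01859_ag.SD.Iface

/-! Step DIAG2. -/

set_option autoImplicit false
set_option linter.unusedSectionVars false

namespace Pool.Agent.P.MP_b01859_ag.SD

open MvPolynomial Filter

theorem p_DIAG2 (hTENS2 : S_TENS2) (hD2S : S_D2S) (hD2E : S_D2E) :
    S_DIAG2 := by
  intro σ ι _ _ T γ g n hc hn hG
  classical
  have key : ∀ J : Finset σ, ∀ᶠ t in atTop,
      hd (U2e T γ J 1) t + hd (U2e T γ J (-1)) t = dl^[J.card] (conv (hM T γ) (hM T γ)) t ∧
      hd (U2e T γ J 1) t - hd (U2e T γ J (-1)) t = pl^[J.card] (dbl (hM T γ)) t := by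
    intro J
    induction J using Finset.induction_on with
    | empty => exact Eventually.of_forall fun t => hTENS2 σ ι T γ g hG t
    | insert j J hj ih =>
      filter_upwards [ih, ev_shift' ih 1, hD2S σ ι T γ g hG J j hj 1 (Or.inl rfl),
        hD2S σ ι T γ g hG J j hj (-1) (Or.inr rfl)] with t h1 h2 h3 h4
      rw [neg_neg] at h4
      rw [Finset.card_insert_of_notMem hj, dl_succ, Function.iterate_succ_apply', pl, h3, h4,
        ← h1.1, ← h1.2, ← h2.1, ← h2.2]
      constructor <;> ring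
  filter_upwards [key Finset.univ, hD2E σ ι T γ g n hc hn hG] with t h1 h2
  rw [Finset.card_univ, hc] at h1
  rw [← h1.1, ← h1.2, ← h2]
  ring

end Pool.Agent.P.MP_b01859_ag.SD
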