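import Mathlib

/-!
Numerical lemmas on the two Chern roots.
-/

namespace Pool.Agent.P.MP_b01859_ag.SD

open Finset

lemma norm_ge_one (g β : ℂ) (T N A B : ℤ) (hT : 2 * g.re = T) (hN : Complex.normSq g = N)
    (hB : 2 * β.re = B) (hA : 2 * (g * β).re = A) (hg : g.im ≠ 0) (hβ : β ≠ 0) :
    1 ≤ 4 * g.im ^ 2 * Complex.normSq β := by
  have key : 4 * g.im ^ 2 * Complex.normSq β = ((A ^ 2 - A * B * T + B ^ 2 * N : ℤ) : ℝ) := by
    push_cast
    rw [← hA, ← hB, ← hT, ← hN]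
    simp only [Complex.normSq_apply, Complex.mul_re]
    ring
  have pos : 0 < 4 * g.im ^ 2 * Complex.normSq β := by
    have := Complex.normSq_pos.mpr hβ
    positivity
  rw [key] at pos ⊢
  have h1 : (0 : ℤ) < A ^ 2 - A * B * T + B ^ 2 * N := by exact_mod_cast pos
  have h2 : (1 : ℤ) ≤ A ^ 2 - A * B * T + B ^ 2 * N := h1
  exact_mod_cast h2

lemma sum_sq_sub (x : ℝ) (j : ℕ) :
    ∑ i ∈ range j, (x - i) ^ 2 = j * ((x - (j - 1) / 2) ^ 2 + (j ^ 2 - 1) / 12) := by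
  induction j with
  | zero => simp
  | succ j ih => rw [sum_range_succ, ih]; push_cast; ring

lemma prod_le_pow_of_sum (u : ℕ → ℝ) (j : ℕ) (A : ℝ) (hA : 0 < A) (hu : ∀ i, 0 ≤ u i)
    (h : ∑ i ∈ range j, u i ≤ j * A) : ∏ i ∈ range j, u i ≤ A ^ j := by
  have h1 : ∏ i ∈ range j, u i ≤ ∏ i ∈ range j, (A * Real.exp (u i / A - 1)) := by
    refine prod_le_prod (fun i _ => hu i) fun i _ => ?_
    have := Real.add_one_le_exp (u i / A - 1)
    have h2 : u i = A * (u i / A) := by field_simp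
    rw [h2]
    have h3 : A * (u i / A) / A = u i / A := by field_simp
    rw [h3]
    exact mul_le_mul_of_nonneg_left (by linarith) hA.le
  rw [prod_mul_distrib, prod_const, card_range, ← Real.exp_sum] at h1
  have h4 : ∑ i ∈ range j, (u i / A - 1) ≤ 0 := by
    rw [sum_sub_distrib, ← sum_div, sum_const, card_range, nsmul_eq_mul, mul_one, sub_nonpos,
      div_le_iff₀ hA]
    exact h
  have h5 : Real.exp (∑ i ∈ range j, (u i / A - 1)) ≤ 1 := Real.exp_le_one_iff.mpr h4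
  calc _ ≤ _ := h1
    _ ≤ A ^ j * 1 := mul_le_mul_of_nonneg_left h5 (by positivity)
    _ = _ := mul_one _

lemma disc_core (j : ℕ) (a : ℂ) (c1 c2 : ℤ) (him : a.im ≠ 0) (h1 : 2 * a.re = c1)
    (h2 : Complex.normSq a = c2)
    (hj : ∀ t : ℤ, ∃ z : ℤ, 2 * (∏ i ∈ range j, (a + t - i)).re = j.factorial * z)
    (hj' : ∀ t : ℤ, ∃ z : ℤ,
      2 * (∏ i ∈ range (j + 1), (a + t - i)).re = (j + 1).factorial * z) :
    (j.factorial : ℝ) ^ 2 ≤ 4 * a.im ^ 2 * ((j : ℝ) ^ 2 / 12 + 1 / 4 + a.im ^ 2) ^ j := by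
  set t : ℤ := ⌊((j : ℝ) - 1) / 2 - a.re + 1 / 2⌋ with ht
  have t1 : (t : ℝ) ≤ ((j : ℝ) - 1) / 2 - a.re + 1 / 2 := Int.floor_le _
  have t2 : ((j : ℝ) - 1) / 2 - a.re + 1 / 2 < t + 1 := Int.lt_floor_add_one _
  obtain ⟨z, hz⟩ := hj t
  obtain ⟨z', hz'⟩ := hj' t
  set g : ℂ := a + t with hg
  set P : ℂ := ∏ i ∈ range j, (g - i) with hP
  have gim : g.im = a.im := by simp [hg]
  have gre : g.re = a.re + t := by simp [hg]
  have hf : (0 : ℝ) < j.factorial := by exact_mod_cast j.factorial_pos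
  have hP0 : P ≠ 0 := by
    refine prod_ne_zero_iff.mpr fun i _ h => him ?_
    have := congrArg Complex.im h
    simpa [gim] using this
  set β : ℂ := P * ((j.factorial : ℝ)⁻¹ : ℝ) with hβ
  have βre : β.re = P.re * (j.factorial : ℝ)⁻¹ := by rw [hβ, Complex.re_mul_ofReal]
  have hB : 2 * β.re = z := by
    rw [βre, ← mul_assoc, hz]; field_simp
  have hA : 2 * (g * β).re = ((j + 1) * z' + j * z : ℤ) := by
    have e1 : g * β = ((∏ i ∈ range (j + 1), (g - i)) + P * (j : ℝ)) *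
        ((j.factorial : ℝ)⁻¹ : ℝ) := by
      rw [prod_range_succ, ← hP, hβ]; push_cast; ring
    rw [e1, Complex.re_mul_ofReal, Complex.add_re, Complex.re_mul_ofReal]
    have e2 : (∏ i ∈ range (j + 1), (g - i)).re = (j + 1).factorial * z' / 2 := by
      rw [← hz']; ring
    have e3 : P.re = j.factorial * z / 2 := by rw [← hz]; ring
    rw [e2, e3, Nat.factorial_succ]
    push_cast
    field_simp
  have hβ0 : β ≠ 0 := mul_ne_zero hP0 (by exact_mod_cast (inv_pos.mpr hf).ne')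
  have hT : 2 * g.re = (c1 + 2 * t : ℤ) := by rw [gre]; push_cast; linarith
  have hN : Complex.normSq g = (c2 + c1 * t + t ^ 2 : ℤ) := by
    push_cast
    rw [← h2, ← h1, Complex.normSq_apply, Complex.normSq_apply, gre, gim]; ring
  have main := norm_ge_one g β _ _ _ _ hT hN hB hA (gim ▸ him) hβ0
  rw [gim, hβ, map_mul, Complex.normSq_ofReal, hP, map_prod] at main
  have hb : ∏ i ∈ range j, Complex.normSq (g - i) ≤ ((j : ℝ) ^ 2 / 12 + 1 / 4 + a.im ^ 2) ^ j := by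
    refine prod_le_pow_of_sum _ _ _ (by positivity) (fun i => Complex.normSq_nonneg _) ?_
    have e : ∀ i : ℕ, Complex.normSq (g - i) = (g.re - i) ^ 2 + a.im ^ 2 := by
      intro i
      rw [Complex.normSq_apply]
      simp only [Complex.sub_re, Complex.natCast_re, Complex.sub_im, Complex.natCast_im, gim]
      ring
    simp only [e]
    rw [sum_add_distrib, sum_sq_sub, sum_const, card_range, nsmul_eq_mul, ← mul_add]
    refine mul_le_mul_of_nonneg_left ?_ (by positivity)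
    have : (g.re - ((j : ℝ) - 1) / 2) ^ 2 ≤ 1 / 4 := by
      rw [gre]; nlinarith
    linarith
  have e : (j.factorial : ℝ) ^ 2 * ((j.factorial : ℝ)⁻¹ * (j.factorial : ℝ)⁻¹) = 1 := by
    field_simp
  calc (j.factorial : ℝ) ^ 2 = (j.factorial : ℝ) ^ 2 * 1 := (mul_one _).symm
    _ ≤ (j.factorial : ℝ) ^ 2 * (4 * a.im ^ 2 * ((∏ i ∈ range j, Complex.normSq (g - i)) *
        ((j.factorial : ℝ)⁻¹ * (j.factorial : ℝ)⁻¹))) :=
      mul_le_mul_of_nonneg_left main (by positivity)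
    _ = 4 * a.im ^ 2 * (∏ i ∈ range j, Complex.normSq (g - i)) := by
      rw [show ∀ u v w x : ℝ, u * (v * (w * x)) = v * w * (u * x) from fun _ _ _ _ => by ring, e,
        mul_one]
    _ ≤ _ := mul_le_mul_of_nonneg_left hb (by positivity)

/-- Integrality of the Euler characteristics bounds a negative discriminant from below. -/
theorem disc_lb : ∃ n0 : ℕ, ∀ n : ℕ, n0 ≤ n → ∀ (a : ℂ) (c1 c2 : ℤ), a.im ≠ 0 → 2 * a.re = c1 →
    Complex.normSq a = c2 →
    (∀ j : ℕ, j ≤ n → ∀ t : ℤ, ∃ z : ℤ,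
      2 * (∏ i ∈ range j, (a + t - i)).re = j.factorial * z) →
    (n : ℝ) ^ 2 / 6 ≤ 4 * a.im ^ 2 := by
  have hlim := tendsto_pow_const_mul_const_pow_of_abs_lt_one 2 (r := (0.9607 : ℝ))
    (by rw [abs_of_pos] <;> norm_num)
  obtain ⟨N, hN⟩ := Filter.eventually_atTop.mp (hlim.eventually (gt_mem_nhds (b := (0 : ℝ))
    (a := 1) one_pos))
  refine ⟨N + 21, fun n hn a c1 c2 him h1 h2 h => ?_⟩
  obtain ⟨j, rfl⟩ : ∃ j, n = j + 1 := ⟨n - 1, by omega⟩
  by_contra hlt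
  push Not at hlt
  push_cast at hlt
  have hj : (20 : ℝ) ≤ j := by exact_mod_cast (by omega : 20 ≤ j)
  have core := disc_core j a c1 c2 him h1 h2 (h j (by omega)) (h (j + 1) le_rfl)
  have hA : (j : ℝ) ^ 2 / 12 + 1 / 4 + a.im ^ 2 ≤ 0.13 * (j : ℝ) ^ 2 := by nlinarith
  have hf : (0 : ℝ) < j.factorial := by exact_mod_cast j.factorial_pos
  have hfac : (j : ℝ) ^ j ≤ Real.exp 1 ^ j * j.factorial := by
    have := Real.pow_div_factorial_le_exp (j : ℝ) (by positivity) j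
    rw [div_le_iff₀ hf] at this
    rwa [← Real.exp_nat_mul, mul_one]
  have he : Real.exp 1 ^ 2 ≤ 7.39 := by
    have := Real.exp_one_lt_d9
    have h0 := Real.exp_pos 1
    nlinarith
  have hjpos : (0 : ℝ) < ((j : ℝ) ^ 2) ^ j := by positivity
  have s1 : ((j : ℝ) ^ 2) ^ j ≤ 7.39 ^ j * (j.factorial : ℝ) ^ 2 := by
    calc ((j : ℝ) ^ 2) ^ j = ((j : ℝ) ^ j) ^ 2 := by ring
      _ ≤ (Real.exp 1 ^ j * j.factorial) ^ 2 := pow_le_pow_left₀ (by positivity) hfac 2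
      _ = (Real.exp 1 ^ 2) ^ j * (j.factorial : ℝ) ^ 2 := by ring
      _ ≤ _ := mul_le_mul_of_nonneg_right (pow_le_pow_left₀ (by positivity) he j) (by positivity)
  have s2 : (j.factorial : ℝ) ^ 2 ≤ (j : ℝ) ^ 2 * (0.13 * (j : ℝ) ^ 2) ^ j := by
    refine core.trans (mul_le_mul (by nlinarith) (pow_le_pow_left₀ (by positivity) hA j)
      (by positivity) (by positivity))
  have s3 := hN j (by omega)
  have s4 : ((j : ℝ) ^ 2) ^ j ≤ ((j : ℝ) ^ 2 * 0.9607 ^ j) * ((j : ℝ) ^ 2) ^ j := by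
    calc _ ≤ _ := s1
      _ ≤ 7.39 ^ j * ((j : ℝ) ^ 2 * (0.13 * (j : ℝ) ^ 2) ^ j) :=
        mul_le_mul_of_nonneg_left s2 (by positivity)
      _ = _ := by
        rw [mul_pow, show (0.9607 : ℝ) = 7.39 * 0.13 by norm_num, mul_pow]; ring
  nlinarith

/-- All `n` at once. -/
theorem disc_lb' : ∃ C : ℕ, ∀ (n : ℕ) (a : ℂ) (c1 c2 : ℤ), a.im ≠ 0 → 2 * a.re = c1 →
    Complex.normSq a = c2 →
    (∀ j : ℕ, j ≤ n → ∀ t : ℤ, ∃ z : ℤ,
      2 * (∏ i ∈ range j, (a + t - i)).re = j.factorial * z) →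
    (n : ℤ) ^ 2 < C * (4 * c2 - c1 ^ 2) := by
  obtain ⟨n0, h0⟩ := disc_lb
  refine ⟨n0 ^ 2 + 7, fun n a c1 c2 him h1 h2 h => ?_⟩
  have hD : ((4 * c2 - c1 ^ 2 : ℤ) : ℝ) = 4 * a.im ^ 2 := by
    push_cast
    rw [← h1, ← h2, Complex.normSq_apply]; ring
  have hpos : (0 : ℤ) < 4 * c2 - c1 ^ 2 := by
    have : (0 : ℝ) < ((4 * c2 - c1 ^ 2 : ℤ) : ℝ) := by rw [hD]; positivity
    exact_mod_cast this
  push_cast
  rcases le_or_gt n0 n with hn | hn
  · have h3 := h0 n hn a c1 c2 him h1 h2 h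
    rw [← hD, div_le_iff₀ (by norm_num)] at h3
    have h4 : (n : ℤ) ^ 2 ≤ (4 * c2 - c1 ^ 2) * 6 := by exact_mod_cast h3
    nlinarith [sq_nonneg (n0 : ℤ)]
  · have h3 : (n : ℤ) < n0 := by exact_mod_cast hn
    have h4 : (0 : ℤ) ≤ n := Int.natCast_nonneg n
    nlinarith

/-- Complex roots: positivity of the Segre numbers bounds the argument. -/
theorem angle_bound (c1 c2 : ℝ) (h : ℕ → ℝ) (h0 : h 0 = 1) (h1 : h 1 = c1)
    (hr : ∀ j, h (j + 2) = c1 * h (j + 1) - c2 * h j) (hD : 0 < 4 * c2 - c1 ^ 2) (w : ℕ)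
    (hpos : ∀ j, j ≤ w → 0 ≤ h j) :
    (4 * c2 - c1 ^ 2) * ((w : ℝ) + 1) ^ 2 ≤ 40 * c2 := by
  have hc2 : 0 < c2 := by nlinarith [sq_nonneg c1]
  set R := Real.sqrt c2 with hR
  have hR0 : 0 < R := Real.sqrt_pos.mpr hc2
  have hR2 : R ^ 2 = c2 := Real.sq_sqrt hc2.le
  have hx : -1 < c1 / (2 * R) ∧ c1 / (2 * R) < 1 := by
    rw [lt_div_iff₀ (by positivity), div_lt_iff₀ (by positivity)]
    constructor <;> nlinarith
  set θ := Real.arccos (c1 / (2 * R)) with hθ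
  have hcos : Real.cos θ = c1 / (2 * R) := Real.cos_arccos hx.1.le hx.2.le
  have hc1 : c1 = 2 * R * Real.cos θ := by rw [hcos]; field_simp
  have hθ0 : 0 < θ := Real.arccos_pos.mpr hx.2
  have hθπ : θ < Real.pi := Real.arccos_lt_pi.mpr hx.1
  have hs : 0 < Real.sin θ := Real.sin_pos_of_pos_of_lt_pi hθ0 hθπ
  have form : ∀ j : ℕ, h j * Real.sin θ = R ^ j * Real.sin ((j + 1) * θ) ∧
      h (j + 1) * Real.sin θ = R ^ (j + 1) * Real.sin ((j + 2) * θ) := by
    intro j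
    induction j with
    | zero =>
      refine ⟨by simp [h0], ?_⟩
      simp only [zero_add, h1, pow_one, Nat.cast_zero, Real.sin_two_mul]
      rw [hc1]; ring
    | succ j ih =>
      refine ⟨by rw [ih.2]; push_cast; ring_nf, ?_⟩
      have e1 : (((j + 1 : ℕ) : ℝ) + 2) * θ = (j + 2) * θ + θ := by push_cast; ring
      have e2 : ((j : ℝ) + 1) * θ = (j + 2) * θ - θ := by ring
      have i1 := ih.1
      rw [e2, Real.sin_sub] at i1
      rw [hr, e1, Real.sin_add, sub_mul, mul_assoc c1, mul_assoc c2, ih.2, i1, ← hR2]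
      nth_rewrite 1 [hc1]
      ring
  have hθw : ((w : ℝ) + 1) * θ ≤ Real.pi := by
    by_contra hlt
    push Not at hlt
    set m := ⌊Real.pi / θ⌋₊ with hm
    have m1 : (m : ℝ) ≤ Real.pi / θ := Nat.floor_le (div_nonneg Real.pi_pos.le hθ0.le)
    have m2 : Real.pi / θ < m + 1 := Nat.lt_floor_add_one _
    rw [le_div_iff₀ hθ0] at m1
    rw [div_lt_iff₀ hθ0] at m2
    have mw : m ≤ w := by
      have : (m : ℝ) < w + 1 := by nlinarith
      have : m < w + 1 := by exact_mod_cast this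
      omega
    have hneg : Real.sin (((m : ℝ) + 1) * θ) < 0 := by
      have := Real.sin_pos_of_pos_of_lt_pi (x := ((m : ℝ) + 1) * θ - Real.pi) (by linarith)
        (by nlinarith)
      rw [Real.sin_sub_pi] at this
      linarith
    have := (form m).1
    have p1 := mul_nonneg (hpos m mw) hs.le
    have p2 := mul_neg_of_pos_of_neg (pow_pos hR0 m) hneg
    linarith
  have hsin : Real.sin θ ≤ θ := Real.sin_le hθ0.le
  have hDs : 4 * c2 - c1 ^ 2 = 4 * c2 * Real.sin θ ^ 2 := by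
    have := Real.sin_sq_add_cos_sq θ
    rw [hc1, ← hR2]
    linear_combination (-4 * R ^ 2) * this
  have hπ : Real.pi ^ 2 ≤ 10 := by
    have := Real.pi_lt_d2
    nlinarith [Real.pi_pos]
  have hw : (0 : ℝ) ≤ (w : ℝ) + 1 := by positivity
  have q1 : ((w : ℝ) + 1) * Real.sin θ ≤ Real.pi := (mul_le_mul_of_nonneg_left hsin hw).trans hθw
  have q2 : (((w : ℝ) + 1) * Real.sin θ) ^ 2 ≤ 10 :=
    (pow_le_pow_left₀ (by positivity) q1 2).trans hπ
  rw [hDs]
  nlinarith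

/-- Real roots: the smaller root is at least `w (κ - b)`. -/
theorem small_root (a b κ : ℝ) (h : ℕ → ℝ) (h0 : h 0 = 1) (h1 : h 1 = a + b)
    (hr : ∀ j, h (j + 2) = (a + b) * h (j + 1) - a * b * h j) (hab : a ≤ b) (hκ : b < κ) (w : ℕ)
    (hw : 1 ≤ w) (hpos : ∀ j, j + 1 ≤ w → κ * h j ≤ h (j + 1)) : w * (κ - b) ≤ a := by
  have step : ∀ j, h (j + 1) = b * h j + a ^ (j + 1) := by
    intro j
    induction j with
    | zero => simp [h0, h1, add_comm]
    | succ j ih => rw [hr, ih]; ring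
  have ha : 0 < a := by
    have := hpos 0 hw
    rw [zero_add, h0, h1] at this
    linarith
  have low : ∀ j : ℕ, ((j : ℝ) + 1) * a ^ j ≤ h j := by
    intro j
    induction j with
    | zero => simp [h0]
    | succ j ih =>
      rw [step]
      have p : 0 ≤ ((j : ℝ) + 1) * a ^ j := by positivity
      have := mul_le_mul hab ih p (by linarith)
      push_cast
      rw [pow_succ] at *
      nlinarith
  obtain ⟨j, rfl⟩ : ∃ j, w = j + 1 := ⟨w - 1, by omega⟩
  have := hpos j le_rfl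
  rw [step] at this
  have l := mul_le_mul_of_nonneg_left (low j) (sub_pos.mpr hκ).le
  have p : 0 < a ^ j := pow_pos ha j
  push_cast
  refine le_of_mul_le_mul_right ?_ p
  rw [pow_succ] at this
  nlinarith

end Pool.Agent.P.MP_b01859_ag.SD
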