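import Pool.Agent.P.MP_b01859_ag.SD.Iface
import Pool.Agent.P.MP_b01859_ag.SD.NT

/-! Step DISC. -/

set_option autoImplicit false
set_option linter.unusedSectionVars false

namespace Pool.Agent.P.MP_b01859_ag.SD

open MvPolynomial Filter

namespace DISCx

lemma small : ∀ j < 120, 4 ≤ j →
    (j + 1) ^ 2 * (2 * j ^ 2 + 6 + (j + 1) ^ 2) ^ j < 6 * 24 ^ j * j.factorial ^ 2 := by
  decide +kernel

lemma geo (j : ℕ) (hj : 120 ≤ j) : ((j : ℝ) + 1) ^ 2 / 6 * 0.93114 ^ j < 1 := by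
  induction j, hj using Nat.le_induction with
  | base => norm_num
  | succ j hj ih =>
    have h : (120 : ℝ) ≤ j := by exact_mod_cast hj
    have p : (0 : ℝ) < 0.93114 ^ j := by positivity
    have q : ((j : ℝ) + 1 + 1) ^ 2 / 6 * 0.93114 ≤ ((j : ℝ) + 1) ^ 2 / 6 := by nlinarith
    push_cast
    rw [pow_succ _ j, mul_comm _ (0.93114 : ℝ), ← mul_assoc]
    exact (mul_le_mul_of_nonneg_right q p.le).trans_lt ih

lemma num (j : ℕ) (hj : 4 ≤ j) : ((j : ℝ) + 1) ^ 2 / 6 *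
    ((j : ℝ) ^ 2 / 12 + 1 / 4 + ((j : ℝ) + 1) ^ 2 / 24) ^ j < (j.factorial : ℝ) ^ 2 := by
  rcases lt_or_ge j 120 with h | h
  · have h1 : (((j + 1) ^ 2 * (2 * j ^ 2 + 6 + (j + 1) ^ 2) ^ j : ℕ) : ℝ) <
        ((6 * 24 ^ j * j.factorial ^ 2 : ℕ) : ℝ) := by exact_mod_cast small j h hj
    push_cast at h1
    have e : (j : ℝ) ^ 2 / 12 + 1 / 4 + ((j : ℝ) + 1) ^ 2 / 24 =
        (2 * j ^ 2 + 6 + (j + 1) ^ 2) / 24 := by ring
    rw [e, div_pow, div_mul_div_comm, div_lt_iff₀ (by positivity)]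
    linarith
  · have hj' : (120 : ℝ) ≤ j := by exact_mod_cast h
    have hA : (j : ℝ) ^ 2 / 12 + 1 / 4 + ((j : ℝ) + 1) ^ 2 / 24 ≤ 0.126 * (j : ℝ) ^ 2 := by
      nlinarith
    have hf : (0 : ℝ) < j.factorial := by exact_mod_cast j.factorial_pos
    have hfac : (j : ℝ) ^ j ≤ Real.exp 1 ^ j * j.factorial := by
      have := Real.pow_div_factorial_le_exp (j : ℝ) (by positivity) j
      rw [div_le_iff₀ hf] at this
      rwa [← Real.exp_nat_mul, mul_one]
    have he : Real.exp 1 ^ 2 ≤ 7.39 := by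
      have := Real.exp_one_lt_d9
      have h0 := Real.exp_pos 1
      nlinarith
    have s1 : ((j : ℝ) ^ 2) ^ j ≤ 7.39 ^ j * (j.factorial : ℝ) ^ 2 := by
      calc ((j : ℝ) ^ 2) ^ j = ((j : ℝ) ^ j) ^ 2 := by ring
        _ ≤ (Real.exp 1 ^ j * j.factorial) ^ 2 := pow_le_pow_left₀ (by positivity) hfac 2
        _ = (Real.exp 1 ^ 2) ^ j * (j.factorial : ℝ) ^ 2 := by ring
        _ ≤ _ := mul_le_mul_of_nonneg_right (pow_le_pow_left₀ (by positivity) he j) (by positivity)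
    calc _ ≤ ((j : ℝ) + 1) ^ 2 / 6 * (0.126 * (j : ℝ) ^ 2) ^ j :=
          mul_le_mul_of_nonneg_left (pow_le_pow_left₀ (by positivity) hA j) (by positivity)
      _ = ((j : ℝ) + 1) ^ 2 / 6 * (0.126 ^ j * ((j : ℝ) ^ 2) ^ j) := by rw [mul_pow]
      _ ≤ ((j : ℝ) + 1) ^ 2 / 6 * (0.126 ^ j * (7.39 ^ j * (j.factorial : ℝ) ^ 2)) :=
          mul_le_mul_of_nonneg_left (mul_le_mul_of_nonneg_left s1 (by positivity)) (by positivity)
      _ = (((j : ℝ) + 1) ^ 2 / 6 * 0.93114 ^ j) * (j.factorial : ℝ) ^ 2 := by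
          rw [show (0.93114 : ℝ) = 0.126 * 7.39 by norm_num, mul_pow]; ring
      _ < 1 * (j.factorial : ℝ) ^ 2 := mul_lt_mul_of_pos_right (geo j h) (by positivity)
      _ = _ := one_mul _

end DISCx

theorem p_DISC :
    S_DISC := by
  intro n c₁ c₂ a b hn h1 h2 hD h
  have hD' : (c₁ : ℝ) ^ 2 < 4 * c₂ := by exact_mod_cast hD
  have hb : b = c₁ - a := by rw [← h1]; ring
  have e1 := congrArg Complex.re h2
  have e2 := congrArg Complex.im h2
  rw [hb] at e1 e2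
  simp only [Complex.mul_re, Complex.mul_im, Complex.sub_re, Complex.sub_im, Complex.intCast_re,
    Complex.intCast_im, zero_sub] at e1 e2
  have him : a.im ≠ 0 := by
    intro h0
    rw [h0] at e1
    nlinarith [sq_nonneg (c₁ - 2 * a.re)]
  have hre : 2 * a.re = c₁ := by
    apply mul_left_cancel₀ him
    linarith
  have hN : Complex.normSq a = c₂ := by
    rw [Complex.normSq_apply, ← e1, ← hre]; ring
  have hbc : b = starRingEnd ℂ a := by
    rw [hb]
    apply Complex.ext <;> simp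
    linarith
  have h' : ∀ j : ℕ, j ≤ n → ∀ t : ℤ, ∃ z : ℤ,
      2 * (∏ i ∈ Finset.range j, (a + t - i)).re = j.factorial * z := fun j hj t => by
    obtain ⟨z, hz⟩ := h j hj t
    have e : ∏ i ∈ Finset.range j, (b + t - i) =
        starRingEnd ℂ (∏ i ∈ Finset.range j, (a + t - i)) := by simp [hbc, map_prod]
    rw [e, Complex.add_conj] at hz
    exact ⟨z, by exact_mod_cast hz⟩
  obtain ⟨j, rfl⟩ : ∃ j, n = j + 1 := ⟨n - 1, by omega⟩
  have core := disc_core j a c₁ c₂ him hre hN (h' j (by omega)) (h' (j + 1) le_rfl)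
  by_contra hlt
  push Not at hlt
  have hlt' : 6 * (4 * (c₂ : ℝ) - c₁ ^ 2) < ((j : ℝ) + 1) ^ 2 := by exact_mod_cast hlt
  have hDi : 4 * (c₂ : ℝ) - c₁ ^ 2 = 4 * a.im ^ 2 := by
    rw [← hN, ← hre, Complex.normSq_apply]; ring
  rw [hDi] at hlt'
  refine absurd (core.trans ?_) (not_le.mpr (DISCx.num j (by omega)))
  exact mul_le_mul (by linarith) (pow_le_pow_left₀ (by positivity) (by linarith) j)
    (by positivity) (by positivity)

end Pool.Agent.P.MP_b01859_ag.SD
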