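import Pool.Agent.P.MP_b01859_ag.SD.Iface

/-! Step FRH. -/

set_option autoImplicit false
set_option linter.unusedSectionVars false

namespace Pool.Agent.P.MP_b01859_ag.SD

open MvPolynomial Filter

theorem p_FRH (hC1 : S_C1) :
    S_FRH := by
  intro σ ι M _ _ _ _ _ _ _ ℳ T γ g L hint hcl hL
  have hind := hint.submodule_iSupIndep
  have htop := hint.submodule_iSup_eq_top
  obtain ⟨κ, _, u, e, hsp, hu⟩ := exists_gens (σ := σ) ℳ htop
  let L' : M →ₗ[ℂ] (ι → Pol σ) := (T.N.subtype.comp L).restrictScalars ℂ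
  let K : ℤ → Submodule ℂ M := fun t => ℳ t ⊓ LinearMap.ker L'
  have hK0 : ∀ t, ∀ v ∈ K t, L v = 0 := fun t v hv => Subtype.ext hv.2
  have hsub : Sub (X : σ → Pol σ) (w1 σ) K := by
    refine ⟨κ, inferInstance, u, e, fun t v hv => ?_⟩
    obtain ⟨f, hf, h⟩ := eq_sum_comp hind hcl hsp hu hv.1
    exact ⟨_, hf, by simpa using h⟩
  have hclK : Cl (X : σ → Pol σ) (w1 σ) K := by
    intro i t v hv
    refine ⟨hcl i t v hv.1, ?_⟩
    change ((L ((X i : Pol σ) • v) : T.N) : ι → Pol σ) = 0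
    rw [map_smul, hK0 t v hv, smul_zero]
    rfl
  have h := ((hC1 σ (Pol σ) M X K hsub hclK).2 (fun _ => ⊥)
    (fun i t v hv => by rw [(Submodule.mem_bot ℂ).mp hv, smul_zero]; exact zero_mem _)
    (fun _ => bot_le)).2.2 (fun i t v hv => by
      obtain ⟨k, hk⟩ := hL.ker v (hK0 t v hv) i
      exact ⟨k, by rw [hk]; exact zero_mem _⟩)
  filter_upwards [h] with t ht
  have hmap : (ℳ t).map L' = EN T γ X (SS σ) t := by
    ext φ
    rw [hL.img t φ]
    rfl
  have hinj : Function.Injective (L'.domRestrict (ℳ t)) := by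
    rw [← LinearMap.ker_eq_bot, eq_bot_iff]
    intro v hv
    have : (v : M) ∈ K t := ⟨v.2, hv⟩
    rw [← ht] at this
    exact Subtype.ext this
  have h2 := LinearMap.finrank_range_of_inj hinj
  rw [LinearMap.range_domRestrict, hmap] at h2
  simp only [hM, hd, h2]

end Pool.Agent.P.MP_b01859_ag.SD
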