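import Pool.Agent.P.MP_b01859_ag.SD.Iface

/-! Step GF. -/

set_option autoImplicit false
set_option linter.unusedSectionVars false

namespace Pool.Agent.P.MP_b01859_ag.SD

open MvPolynomial Filter

namespace GFx

theorem bdd_dl {f : ℤ → ℤ} (h : Bdd f) : Bdd (dl f) := by
  obtain ⟨b, hb⟩ := h
  exact ⟨b, fun t ht => by simp [dg, hb t ht, hb (t - 1) (by omega)]⟩

theorem one {f g : ℤ → ℤ} (hf : Bdd f) (hg : Bdd g) : dl (conv f g) = conv (dl f) g := by
  obtain ⟨a, ha⟩ := hf
  obtain ⟨b, hb⟩ := hg
  funext t
  have fin : ∀ s : ℤ, (Function.support fun i => f (i - s) * g (t - i)).Finite := fun s =>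
    (Set.finite_Icc (a + s) (t - b)).subset fun i hi => by
      by_contra h
      rw [Set.mem_Icc, not_and_or, not_le, not_le] at h
      rcases h with h | h
      · exact hi (by simp [ha (i - s) (by omega)])
      · exact hi (by simp [hb (t - i) (by omega)])
  have e : conv f g (t - 1) = ∑ᶠ i, f (i - 1) * g (t - i) := by
    rw [conv, ← finsum_comp_equiv (Equiv.subRight (1 : ℤ))]
    exact finsum_congr fun i => by simp
  have f0 := fin 0
  simp only [sub_zero] at f0
  simp only [dg]
  rw [e, conv, conv, ← finsum_sub_distrib f0 (fin 1)]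
  exact finsum_congr fun i => by simp only [dg]; ring

end GFx

theorem p_GF :
    S_GF := by
  intro r
  induction r with
  | zero => intro f g _ _; rfl
  | succ r ih =>
    intro f g hf hg
    rw [Function.iterate_succ_apply, Function.iterate_succ_apply, GFx.one hf hg,
      ih _ _ (GFx.bdd_dl hf) hg]

end Pool.Agent.P.MP_b01859_ag.SD
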