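import Pool.Agent.P.MP_b01859_ag.SD.Iface

/-! Step GROW. -/

set_option autoImplicit false
set_option linter.unusedSectionVars false

namespace Pool.Agent.P.MP_b01859_ag.SD

open MvPolynomial Filter

namespace GROWx

lemma dl_apply (f : ℤ → ℤ) (t : ℤ) : dl f t = f t - f (t - 1) := rfl

lemma const {f : ℤ → ℤ} (h : ∀ᶠ t in atTop, dl f t = 0) : ∃ δ : ℤ, ∀ᶠ t in atTop, f t = δ := by
  obtain ⟨T, hT⟩ := eventually_atTop.1 h
  refine ⟨f T, eventually_atTop.2 ⟨T, fun t ht => ?_⟩⟩
  induction t, ht using Int.le_induction with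
  | base => rfl
  | succ n hn ih =>
    have := hT (n + 1) (by omega)
    rw [dl_apply, add_sub_cancel_right] at this
    omega

lemma pos1 {f : ℤ → ℤ} (h : ∀ᶠ t in atTop, 0 < dl f t) : ∀ᶠ t in atTop, 0 < f t := by
  obtain ⟨T, hT⟩ := eventually_atTop.1 h
  have key : ∀ t, T ≤ t → f T + (t - T) ≤ f t := by
    intro t ht
    induction t, ht using Int.le_induction with
    | base => omega
    | succ n hn ih =>
      have := hT (n + 1) (by omega)
      rw [dl_apply, add_sub_cancel_right] at this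
      omega
  refine eventually_atTop.2 ⟨max T (T - f T + 1), fun t ht => ?_⟩
  have h1 := key t ((le_max_left _ _).trans ht)
  have h2 := (le_max_right _ _).trans ht
  omega

lemma pos (r : ℕ) (f : ℤ → ℤ) (h : ∀ᶠ t in atTop, 0 < dl^[r] f t) :
    ∀ᶠ t in atTop, 0 < f t := by
  induction r with
  | zero => exact h
  | succ r ih =>
    rw [Function.iterate_succ_apply'] at h
    exact ih (pos1 h)

lemma it_sub (r : ℕ) (f g : ℤ → ℤ) (t : ℤ) :
    dl^[r] (fun x => g x - f x) t = dl^[r] g t - dl^[r] f t := by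
  induction r generalizing t with
  | zero => rfl
  | succ r ih =>
    simp only [Function.iterate_succ_apply', dl_apply, ih]
    ring

lemma it_neg (r : ℕ) (f : ℤ → ℤ) (t : ℤ) : dl^[r] (fun x => -f x) t = -dl^[r] f t := by
  induction r generalizing t with
  | zero => rfl
  | succ r ih =>
    simp only [Function.iterate_succ_apply', dl_apply, ih]
    ring

lemma succ0 {r : ℕ} {f : ℤ → ℤ} (h : Ev0 r f) : Ev0 (r + 1) f := by
  obtain ⟨T, hT⟩ := eventually_atTop.1 h
  refine eventually_atTop.2 ⟨T + 1, fun t ht => ?_⟩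
  rw [Function.iterate_succ_apply', dl_apply, hT t (by omega), hT (t - 1) (by omega), sub_zero]

lemma mono0 {r N : ℕ} {f : ℤ → ℤ} (hr : r ≤ N) (h : Ev0 r f) : Ev0 N f := by
  induction N, hr using Nat.le_induction with
  | base => exact h
  | succ n _ ih => exact succ0 ih

lemma four (r : ℕ) (f : ℤ → ℤ) (h : Ev0 (r + 1) f) :
    ∃ δ : ℤ, ∀ᶠ t in atTop, dl^[r] f t = δ := by
  unfold Ev0 at h
  rw [Function.iterate_succ_apply'] at h
  exact const h

lemma one (r : ℕ) (f : ℤ → ℤ) (h0 : ∀ᶠ t in atTop, 0 ≤ f t) (h : Ev0 (r + 1) f) :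
    ∀ᶠ t in atTop, 0 ≤ dl^[r] f t := by
  obtain ⟨δ, hδ⟩ := four r f h
  rcases le_or_gt 0 δ with h1 | h1
  · exact hδ.mono fun t ht => ht ▸ h1
  · exfalso
    have h2 := pos r (fun x => -f x) (hδ.mono fun t ht => by rw [it_neg, ht]; omega)
    obtain ⟨t, ht1, ht2⟩ := (h0.and h2).exists
    omega

lemma two (N r : ℕ) (f g : ℤ → ℤ) (h0 : ∀ᶠ t in atTop, 0 ≤ f t ∧ f t ≤ g t) (hf : Ev0 N f)
    (hg : Ev0 r g) : Ev0 r f := by
  induction N with
  | zero => exact mono0 (Nat.zero_le _) hf
  | succ N ih =>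
    rcases le_or_gt (N + 1) r with h | h
    · exact mono0 h hf
    · have hgN : Ev0 N g := mono0 (by omega) hg
      have hs : Ev0 (N + 1) (fun x => g x - f x) := by
        filter_upwards [succ0 hgN, hf] with t h1 h2
        rw [it_sub, h1, h2, sub_zero]
      have a := one N f (h0.mono fun t ht => ht.1) hf
      have b := one N (fun x => g x - f x) (h0.mono fun t ht => sub_nonneg.2 ht.2) hs
      refine ih ?_
      filter_upwards [a, b, hgN] with t h1 h2 h3
      rw [it_sub, h3] at h2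
      omega

end GROWx

theorem p_GROW :
    S_GROW := by
  exact ⟨GROWx.one, GROWx.two, GROWx.pos, GROWx.four⟩

end Pool.Agent.P.MP_b01859_ag.SD
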