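import Pool.Agent.P.MP_b01859_ag.SD.Iface

/-! Step HQ. -/

set_option autoImplicit false
set_option linter.unusedSectionVars false

namespace Pool.Agent.P.MP_b01859_ag.SD

open MvPolynomial Filter

namespace HQx

variable {σ : Type} [Fintype σ]

lemma one (hC1 : S_C1) (I : Ideal (Pol σ)) : Ev0 (Fintype.card σ) (hq I) ∧ Pos (hq I) :=
  (hC1 σ (Pol σ) (Pol σ ⧸ I) X
    (fun t => (SS σ t).map (Ideal.Quotient.mkₐ ℂ I).toLinearMap)
    (sub_SS.map _ fun _ _ => rfl) (cl_SS.map _ fun _ _ => rfl)).1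

lemma span {Λ : Type} (f : Λ → Pol σ) (d : Λ → ℤ) (hf : ∀ l, Hom (f l) (d l)) {z : Pol σ}
    (hz : z ∈ Ideal.span (Set.range f)) (u : Pol σ) (e : ℤ) :
    weightedHomogeneousComponent (w1 σ) e (u * z) ∈ Ideal.span (Set.range f) := by
  induction hz using Submodule.span_induction generalizing u with
  | mem z hz =>
    obtain ⟨l, rfl⟩ := hz
    have h := comp_mul (hf l) (e - d l) u
    rw [add_sub_cancel] at h
    rw [mul_comm, h]
    exact Ideal.mul_mem_right _ _ (Ideal.subset_span ⟨l, rfl⟩)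
  | zero => simp
  | add y z _ _ hy hz =>
    rw [mul_add, map_add]
    exact add_mem (hy u) (hz u)
  | smul a z _ hz =>
    rw [smul_eq_mul, ← mul_assoc]
    exact hz _

lemma four (p : Ideal (Pol σ)) (h : ∀ i, X i ∈ p) : Ev0 0 (hq p) := by
  rw [ev0_zero]
  filter_upwards [eventually_ge_atTop (1 : ℤ)] with t ht
  have e : (SS σ t).map (Ideal.Quotient.mkₐ ℂ p).toLinearMap = ⊥ := by
    refine eq_bot_iff.mpr ?_
    rintro _ ⟨f, hf, rfl⟩
    refine (Submodule.mem_bot ℂ).mpr (Ideal.Quotient.eq_zero_iff_mem.mpr ?_)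
    rw [as_sum f]
    refine Ideal.sum_mem _ fun d hd => ?_
    have h1 : Finsupp.weight (w1 σ) d = t := hf (mem_support_iff.mp hd)
    have h2 : d ≠ 0 := by
      rintro rfl
      rw [map_zero] at h1
      omega
    obtain ⟨i, hi⟩ := Finsupp.ne_iff.mp h2
    exact Ideal.mem_of_dvd _ (X_dvd_monomial.mpr (Or.inr hi)) (h i)
  rw [hq, hd, e, finrank_bot, Nat.cast_zero]

end HQx

theorem p_HQ (hC1 : S_C1) (hGROW : S_GROW) :
    S_HQ := by
  intro σ _
  refine ⟨HQx.one hC1, fun f hf d => ?_, fun Λ p f d hp hf h hh e => ?_, fun p r h => ?_,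
    fun p r r' hr h => ⟨h.prime, h.hom, fun h' => h.dim (h'.mono hr)⟩, fun p r h => ?_⟩
  · rw [Ideal.mem_bot] at hf ⊢
    rw [hf, map_zero]
  · obtain ⟨y, hy, z, hz, rfl⟩ := Submodule.mem_sup.mp hh
    rw [map_add]
    refine add_mem (Ideal.mem_sup_left (hp y hy e)) (Ideal.mem_sup_right ?_)
    simpa using HQx.span f d hf hz 1 e
  · by_contra h'
    push Not at h'
    exact h ((HQx.four p h').mono (Nat.zero_le r))
  · classical
    obtain ⟨h1, h2⟩ := HQx.one hC1 p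
    have ex : ∃ s, Ev0 s (hq p) := ⟨_, h1⟩
    have h3 := Nat.find_spec ex
    have h4 : r < Nat.find ex := lt_of_not_ge fun h' => h (h3.mono h')
    obtain ⟨w, hw⟩ : ∃ w, Nat.find ex = w + 1 := ⟨Nat.find ex - 1, by omega⟩
    have h5 : ¬ Ev0 w (hq p) := Nat.find_min ex (by omega)
    rw [hw] at h3 h4
    obtain ⟨δ, hδ⟩ := hGROW.2.2.2 w _ h3
    refine ⟨w, δ, by omega, ?_, h3, hδ⟩
    obtain ⟨t, ht1, ht2⟩ := (hδ.and (h2 w)).exists
    refine lt_of_le_of_ne (ht1 ▸ ht2) fun h0 => h5 ?_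
    subst h0
    exact hδ

end Pool.Agent.P.MP_b01859_ag.SD
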