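import Pool.Agent.P.MP_b01859_ag.SD.Iface

/-! Step LEIB. -/

set_option autoImplicit false
set_option linter.unusedSectionVars false

namespace Pool.Agent.P.MP_b01859_ag.SD

open MvPolynomial Filter

namespace LEIBx

variable {σ : Type} [Fintype σ]

theorem dL_cons (i : σ) (L : List σ) (f : Pol σ) : dL (i :: L) f = pderiv i (dL L f) := rfl

/-- The ideal of the derivatives of order less than `k`. -/
noncomputable def J (f : Pol σ) (k : ℕ) : Ideal (Pol σ) :=
  Ideal.span {g | ∃ L : List σ, L.length < k ∧ g = dL L f}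

theorem mem_J (f : Pol σ) {k : ℕ} {L : List σ} (h : L.length < k) : dL L f ∈ J f k :=
  Ideal.subset_span ⟨L, h, rfl⟩

theorem J_mono (f : Pol σ) (k : ℕ) : J f k ≤ J f (k + 1) :=
  Ideal.span_mono fun _ ⟨L, h, e⟩ => ⟨L, h.trans (Nat.lt_succ_self k), e⟩

theorem J_der (f : Pol σ) (k : ℕ) (i : σ) {g : Pol σ} (h : g ∈ J f k) :
    pderiv i g ∈ J f (k + 1) := by
  induction h using Submodule.span_induction with
  | mem g hg =>
    obtain ⟨L, h, rfl⟩ := hg
    exact mem_J f (L := i :: L) (Nat.succ_lt_succ h)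
  | zero => rw [map_zero]; exact zero_mem _
  | add a b _ _ ha hb => rw [map_add]; exact add_mem ha hb
  | smul a b hb ih =>
    rw [smul_eq_mul, dr_mul]
    exact add_mem (Ideal.mul_mem_left _ _ (J_mono f k hb)) (Ideal.mul_mem_left _ _ ih)

theorem leib (w f : Pol σ) (L : List σ) : dL L (w * f) - w * dL L f ∈ J f L.length := by
  induction L with
  | nil => simp [dL]
  | cons i L ih =>
    have e : dL (i :: L) (w * f) - w * dL (i :: L) f =
        pderiv i (dL L (w * f) - w * dL L f) + pderiv i w * dL L f := by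
      rw [dL_cons, dL_cons, map_sub, dr_mul]; ring
    rw [e]
    exact add_mem (J_der f _ i ih) (Ideal.mul_mem_left _ _ (mem_J f (Nat.lt_succ_self _)))

theorem dL_rel (L : List σ) {a b c : Pol σ} (h : a - b + c = 0) :
    dL L a - dL L b + dL L c = 0 := by
  induction L with
  | nil => exact h
  | cons i L ih => rw [dL_cons, dL_cons, dL_cons, ← map_sub, ← map_add, ih, map_zero]

theorem dL_hom (L : List σ) {f : Pol σ} {c : ℤ} (hf : Hom f c) : Hom (dL L f) (c - L.length) := by
  induction L with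
  | nil => simpa [dL] using hf
  | cons i L ih =>
    rw [dL_cons]
    exact IsWeightedHomogeneous.pderiv ih (by rw [List.length_cons]; push_cast; ring)

end LEIBx

theorem p_LEIB :
    S_LEIB := by
  intro σ ι _ _ T γ p φ α L hφ hO
  refine ⟨fun a => hom_congr (LEIBx.dL_hom L (hφ a)) (by ring), fun i j k => ?_⟩
  have key : ∀ (w : Pol σ) (a : ι), dL L (w * φ.1 a) - w * dL L (φ.1 a) ∈ p := fun w a =>
    Ideal.span_le.2 (by rintro _ ⟨L', h, rfl⟩; exact hO a L' h) (LEIBx.leib w (φ.1 a) L)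
  have e := LEIBx.dL_rel L (φ.2 i j k)
  have : T.ω i j * dL L (φ.1 k) - T.ω i k * dL L (φ.1 j) + T.ω j k * dL L (φ.1 i) =
      -(dL L (T.ω i j * φ.1 k) - T.ω i j * dL L (φ.1 k)) +
      (dL L (T.ω i k * φ.1 j) - T.ω i k * dL L (φ.1 j)) -
      (dL L (T.ω j k * φ.1 i) - T.ω j k * dL L (φ.1 i)) := by linear_combination e
  rw [this]
  exact sub_mem (add_mem (neg_mem (key _ _)) (key _ _)) (key _ _)

end Pool.Agent.P.MP_b01859_ag.SD
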