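import Pool.Agent.P.MP_b01859_ag.SD.Iface

/-! Step MULA. -/

set_option autoImplicit false
set_option linter.unusedSectionVars false

namespace Pool.Agent.P.MP_b01859_ag.SD

open MvPolynomial Filter

namespace MULAx

variable {R : Type} [CommRing R] [Algebra ℂ R]

/-- Multiplication between quotients by powers of an ideal. -/
noncomputable def mq (m : Ideal R) (f : R) (v a b : ℕ) (hf : f ∈ m ^ v) (h : b ≤ v + a) :
    (R ⧸ m ^ a) →ₗ[ℂ] R ⧸ m ^ b :=
  (Submodule.mapQ (m ^ a) (m ^ b) (LinearMap.mul R R f) fun g hg =>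
    Ideal.pow_le_pow_right h (by
      rw [pow_add]; exact Ideal.mul_mem_mul hf hg)).restrictScalars ℂ

lemma mq_mk (m : Ideal R) (f : R) (v a b : ℕ) (hf : f ∈ m ^ v) (h : b ≤ v + a) (g : R) :
    mq m f v a b hf h (Ideal.Quotient.mk _ g) = Ideal.Quotient.mk _ (f * g) := rfl

lemma key {A B C D : Type} [AddCommGroup A] [Module ℂ A] [AddCommGroup B] [Module ℂ B]
    [AddCommGroup C] [Module ℂ C] [AddCommGroup D] [Module ℂ D] [FiniteDimensional ℂ A]
    [FiniteDimensional ℂ D] (π : A →ₗ[ℂ] B) (Φ : D →ₗ[ℂ] A) (Ψ : C →ₗ[ℂ] D)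
    (h₀ : Function.Surjective π) (h₁ : LinearMap.ker π ≤ LinearMap.range Φ)
    (h₂ : Function.Injective Ψ) (h₃ : ∀ c, Φ (Ψ c) = 0) :
    Module.finrank ℂ A + Module.finrank ℂ C ≤ Module.finrank ℂ B + Module.finrank ℂ D := by
  have e₁ := π.finrank_range_add_finrank_ker
  have e₂ := Φ.finrank_range_add_finrank_ker
  have e₃ := Submodule.finrank_mono h₁
  have e₄ : Module.finrank ℂ (LinearMap.range Ψ) ≤ Module.finrank ℂ (LinearMap.ker Φ) :=
    Submodule.finrank_mono (by rintro _ ⟨c, rfl⟩; exact h₃ c)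
  rw [LinearMap.finrank_range_of_inj h₂] at e₄
  rw [LinearMap.range_eq_top.2 h₀, finrank_top] at e₁
  omega

lemma main (m : Ideal R) (hfin : ∀ k, FiniteDimensional ℂ (R ⧸ m ^ k)) (f₁ f₂ : R) (w v N : ℕ)
    (h₁ : f₁ ∈ m ^ w) (h₂ : f₂ ∈ m ^ v) {C : Type} [AddCommGroup C] [Module ℂ C]
    (Ψ : C →ₗ[ℂ] (R ⧸ m ^ (N - w)) × (R ⧸ m ^ (N - v))) (hi : Function.Injective Ψ)
    (h₃ : ∀ c, mq m f₁ w _ N h₁ (by omega) (Ψ c).1 + mq m f₂ v _ N h₂ (by omega) (Ψ c).2 = 0) :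
    Module.finrank ℂ (R ⧸ m ^ N) + Module.finrank ℂ C ≤
      Module.finrank ℂ (R ⧸ (Ideal.span {f₁, f₂} ⊔ m ^ N)) +
        (Module.finrank ℂ (R ⧸ m ^ (N - w)) + Module.finrank ℂ (R ⧸ m ^ (N - v))) := by
  rw [← Module.finrank_prod (M := R ⧸ m ^ (N - w))]
  refine key
    (Ideal.Quotient.factorₐ ℂ (le_sup_right : m ^ N ≤ Ideal.span {f₁, f₂} ⊔ m ^ N)).toLinearMap
    ((mq m f₁ w _ N h₁ (by omega)).coprod (mq m f₂ v _ N h₂ (by omega))) Ψ ?_ ?_ hi h₃
  · intro z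
    obtain ⟨g, rfl⟩ := Ideal.Quotient.mk_surjective z
    exact ⟨Ideal.Quotient.mk _ g, rfl⟩
  · intro z hz
    obtain ⟨g, rfl⟩ := Ideal.Quotient.mk_surjective z
    have hg : g ∈ Ideal.span {f₁, f₂} ⊔ m ^ N := Ideal.Quotient.eq_zero_iff_mem.1 hz
    obtain ⟨x, hx, u, hu, rfl⟩ := Submodule.mem_sup.1 hg
    obtain ⟨a, b, rfl⟩ := Ideal.mem_span_pair.1 hx
    refine ⟨(Ideal.Quotient.mk _ a, Ideal.Quotient.mk _ b), ?_⟩
    rw [LinearMap.coprod_apply, mq_mk, mq_mk, map_add, Ideal.Quotient.eq_zero_iff_mem.2 hu,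
      add_zero, map_add, mul_comm a, mul_comm b]

lemma bn_sub (n s w : ℕ) : bn n ((s + 1 - w : ℕ) - 1) = bn n (s - w) := by
  rcases le_or_gt w (s + 1) with h | h
  · congr 1; omega
  · unfold bn
    rw [if_neg (by omega), if_neg (by omega)]

end MULAx

open MULAx in
theorem p_MULA (hORDM : S_ORDM) (hORDD : S_ORDD) (hBN : S_BN) :
    S_MULA := by
  intro σ _ y f₁ f₂ v₁ v₂ h₁ h₂
  have hfin := fun k => (hORDD σ y k).1
  have hd := fun k => (hORDD σ y k).2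
  have e₀ : ∀ s : ℕ, (Module.finrank ℂ (Pol σ ⧸ my y ^ (s + 1)) : ℤ) = bn (Fintype.card σ) s :=
    fun s => by rw [hd]; congr 1; push_cast; ring
  have e₁ : ∀ s w : ℕ, (Module.finrank ℂ (Pol σ ⧸ my y ^ (s + 1 - w)) : ℤ) =
      bn (Fintype.card σ) (s - w) := fun s w => by rw [hd, bn_sub]
  by_cases hz : f₁ = 0
  · refine ⟨v₁, le_rfl, fun s => ?_⟩
    have h := main (my y) hfin f₁ f₂ v₁ v₂ (s + 1) h₁ h₂ (LinearMap.inl ℂ _ _)
      LinearMap.inl_injective fun c => by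
        obtain ⟨g, rfl⟩ := Ideal.Quotient.mk_surjective c
        simp only [LinearMap.inl_apply, map_zero, add_zero]
        rw [mq_mk, hz, zero_mul, map_zero]
    have hm := hBN.2.2.2.2.1 (Fintype.card σ) (show (s : ℤ) - v₁ - v₂ ≤ s - v₁ by omega)
    have := e₀ s
    have := e₁ s v₁
    have := e₁ s v₂
    omega
  · obtain ⟨w, hw, hw'⟩ := (hORDM σ y).1 f₁ hz
    refine ⟨w, ?_, fun s => ?_⟩
    · by_contra hlt
      exact hw' (Ideal.pow_le_pow_right (by omega) h₁)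
    have h := main (my y) hfin f₁ f₂ w v₂ (s + 1) hw h₂
      ((mq (my y) f₂ v₂ (s + 1 - (w + v₂)) _ h₂ (by omega)).prod
        (-mq (my y) f₁ w (s + 1 - (w + v₂)) _ hw (by omega))) ?_ fun c => by
        obtain ⟨g, rfl⟩ := Ideal.Quotient.mk_surjective c
        simp only [LinearMap.prod_apply, Function.prod, LinearMap.neg_apply, map_neg]
        rw [mq_mk, mq_mk, mq_mk, mq_mk, mul_left_comm, add_neg_cancel]
    · have := e₀ s
      have := e₁ s w
      have := e₁ s v₂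
      have h' := e₁ s (w + v₂)
      rw [Nat.cast_add, ← _root_.sub_sub] at h'
      omega
    · refine (injective_iff_map_eq_zero _).2 fun c hc => ?_
      obtain ⟨g, rfl⟩ := Ideal.Quotient.mk_surjective c
      have h' : f₁ * g ∈ my y ^ (s + 1 - v₂) :=
        Ideal.Quotient.eq_zero_iff_mem.1 (neg_eq_zero.1 (congrArg Prod.snd hc))
      refine Ideal.Quotient.eq_zero_iff_mem.2 ?_
      rcases le_or_gt (w + v₂) (s + 1) with hle | hlt
      · exact (hORDM σ y).2.1 f₁ g w _ hw' (Ideal.pow_le_pow_right (by omega) h')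
      · rw [Nat.sub_eq_zero_of_le hlt.le, pow_zero, Ideal.one_eq_top]; trivial

end Pool.Agent.P.MP_b01859_ag.SD
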