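import Pool.Agent.P.MP_b01859_ag.SD.Iface

/-! Step MULB. -/

set_option autoImplicit false
set_option linter.unusedSectionVars false

namespace Pool.Agent.P.MP_b01859_ag.SD

open MvPolynomial Filter

namespace MULBx

variable {σ : Type} [Fintype σ]

theorem wt (d : σ →₀ ℕ) : Finsupp.weight (w1 σ) d = (d.degree : ℤ) := by
  simp [Finsupp.weight_apply, Finsupp.degree_apply, Finsupp.sum]

theorem mem_SS {k : ℕ} {f : Pol σ} (h : f.IsHomogeneous k) : f ∈ SS σ k := fun d hd => by
  rw [wt, Finsupp.degree_eq_weight_one]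
  exact congrArg Nat.cast (h hd)

theorem SS_le (k : ℕ) : SS σ k ≤ restrictTotalDegree σ ℂ k := fun f hf => by
  rw [mem_restrictTotalDegree]
  refine Finset.sup_le fun d hd => ?_
  have := hf (mem_support_iff.1 hd)
  rw [wt] at this
  have e : d.degree = k := by exact_mod_cast this
  exact e.le

instance fin_SS (k : ℕ) : FiniteDimensional ℂ (SS σ k) :=
  Submodule.finiteDimensional_of_le (SS_le k)

theorem sup_le {V : Type} [AddCommGroup V] [Module ℂ V] (B : ℕ → Submodule ℂ V)
    [∀ k, FiniteDimensional ℂ (B k)] (n : ℕ) :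
    Module.finrank ℂ ((Finset.range n).sup B : Submodule ℂ V) ≤
      ∑ k ∈ Finset.range n, Module.finrank ℂ (B k) := by
  induction n with
  | zero => rw [Finset.range_zero, Finset.sup_empty]; simp
  | succ n ih =>
    rw [Finset.range_add_one, Finset.sup_insert, Finset.sum_insert Finset.notMem_range_self]
    exact (Submodule.finrank_add_le_finrank_add_finrank _ _).trans (Nat.add_le_add_left ih _)

theorem back (y : σ → ℂ) (g : Pol σ) : aeval (fun i => (X i + C (y i) : Pol σ))
    (aeval (fun i => (X i - C (y i) : Pol σ)) g) = g := by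
  induction g using MvPolynomial.induction_on with
  | C a => simp
  | add p q hp hq => simp only [map_add, hp, hq]
  | mul_X p i hp => simp only [map_mul, hp]; simp

theorem forth (y : σ → ℂ) (g : Pol σ) : aeval (fun i => (X i - C (y i) : Pol σ))
    (aeval (fun i => (X i + C (y i) : Pol σ)) g) = g := by
  induction g using MvPolynomial.induction_on with
  | C a => simp
  | add p q hp hq => simp only [map_add, hp, hq]
  | mul_X p i hp => simp only [map_mul, hp]; simp

theorem deg_mono (y : σ → ℂ) (d : σ →₀ ℕ) (c : ℂ) :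
    (aeval (fun i => (X i - C (y i) : Pol σ)) (monomial d c)).totalDegree ≤ d.degree := by
  rw [aeval_monomial]
  refine (totalDegree_mul _ _).trans ?_
  rw [algebraMap_eq, totalDegree_C, zero_add, Finsupp.prod, Finsupp.degree_apply]
  refine (totalDegree_finsetProd _ _).trans (Finset.sum_le_sum fun i _ => ?_)
  refine (totalDegree_pow _ _).trans ?_
  have : (X i - C (y i) : Pol σ).totalDegree ≤ 1 :=
    (totalDegree_sub _ _).trans (by simp)
  simpa using Nat.mul_le_mul_left (d i) this

theorem split (hORD0 : S_ORD0) (y : σ → ℂ) (s : ℕ) (f : Pol σ) :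
    ∃ l : Pol σ, l.totalDegree ≤ s ∧ f - l ∈ my y ^ (s + 1) := by
  classical
  set g := aeval (fun i => (X i + C (y i) : Pol σ)) f with hg
  refine ⟨aeval (fun i => (X i - C (y i) : Pol σ))
    (∑ d ∈ g.support with d.degree ≤ s, monomial d (coeff d g)), ?_, ?_⟩
  · rw [map_sum]
    exact totalDegree_finsetSum_le fun d hd =>
      (deg_mono y d _).trans (Finset.mem_filter.1 hd).2
  · rw [hORD0, map_sub, back, ← hg]
    intro d hd
    by_contra h
    refine hd ?_
    rw [coeff_sub, coeff_sum]
    simp only [coeff_monomial]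
    rw [Finset.sum_ite_eq']
    split_ifs with h1
    · exact sub_self _
    · rw [sub_zero]
      by_contra h2
      exact h1 (Finset.mem_filter.2 ⟨mem_support_iff.2 h2, by omega⟩)

end MULBx

open MULBx in
theorem p_MULB (hORD0 : S_ORD0) :
    S_MULB := by
  intro σ _ y I s
  set J := I ⊔ my y ^ (s + 1) with hJ
  let A : ℕ → Submodule ℂ (Pol σ ⧸ I) := fun k =>
    (SS σ k).map (Ideal.Quotient.mkₐ ℂ I).toLinearMap
  let φ : (Pol σ ⧸ I) →ₐ[ℂ] Pol σ ⧸ J := Ideal.Quotient.factorₐ ℂ (le_sup_left : I ≤ J)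
  let B : ℕ → Submodule ℂ (Pol σ ⧸ J) := fun k => (A k).map φ.toLinearMap
  have top : (Finset.range (s + 1)).sup B = ⊤ := by
    refine eq_top_iff.2 fun x _ => ?_
    obtain ⟨f, rfl⟩ := Ideal.Quotient.mk_surjective x
    obtain ⟨l, h1, h2⟩ := split hORD0 y s f
    have e : Ideal.Quotient.mk J f = Ideal.Quotient.mk J l :=
      Ideal.Quotient.eq.2 (Ideal.mem_sup_right h2)
    rw [e, ← sum_homogeneousComponent l, map_sum]
    refine Submodule.sum_mem _ fun k hk => ?_
    have hk' : k ∈ Finset.range (s + 1) := by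
      rw [Finset.mem_range] at hk ⊢; omega
    refine Finset.le_sup (f := B) hk' ?_
    exact ⟨_, ⟨_, MULBx.mem_SS (homogeneousComponent_isHomogeneous k l), rfl⟩, rfl⟩
  have h1 := sup_le B (s + 1)
  rw [top, finrank_top] at h1
  have h2 : ∑ k ∈ Finset.range (s + 1), Module.finrank ℂ (B k) ≤
      ∑ k ∈ Finset.range (s + 1), Module.finrank ℂ (A k) :=
    Finset.sum_le_sum fun k _ => Submodule.finrank_map_le _ _
  have h3 := h1.trans h2
  have e : ∑ k ∈ Finset.range (s + 1), hq I k =
      ((∑ k ∈ Finset.range (s + 1), Module.finrank ℂ (A k) : ℕ) : ℤ) := by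
    push_cast; rfl
  rw [e]
  exact_mod_cast h3

end Pool.Agent.P.MP_b01859_ag.SD
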