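import Pool.Agent.P.MP_b01859_ag.SD.Iface

/-! Step MULN. -/

set_option autoImplicit false
set_option linter.unusedSectionVars false

namespace Pool.Agent.P.MP_b01859_ag.SD

open MvPolynomial Filter

namespace MULNx

theorem it_sub (r : ℕ) (f g : ℤ → ℤ) : dl^[r] (f - g) = dl^[r] f - dl^[r] g := by
  induction r with
  | zero => rfl
  | succ r ih =>
    simp only [Function.iterate_succ_apply', ih]
    funext t
    simp only [dg, Pi.sub_apply]
    ring

theorem it_dg (r : ℕ) (w : ℤ) (f : ℤ → ℤ) : dl^[r] (dg w f) = dg w (dl^[r] f) := by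
  refine (Function.Commute.iterate_left (fun g => _root_.funext fun t => ?_) r f)
  simp only [dg, sub_right_comm t w 1]
  ring

theorem ev_sub {p : ℤ → Prop} (h : ∀ᶠ t in atTop, p t) (w : ℤ) : ∀ᶠ t in atTop, p (t - w) := by
  obtain ⟨a, ha⟩ := eventually_atTop.1 h
  exact eventually_atTop.2 ⟨a + w, fun b hb => ha _ (by omega)⟩

theorem it_congr (r : ℕ) {f g : ℤ → ℤ} (h : ∀ᶠ t in atTop, f t = g t) :
    ∀ᶠ t in atTop, dl^[r] f t = dl^[r] g t := by
  induction r with
  | zero => exact h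
  | succ r ih =>
    filter_upwards [ih, ev_sub ih 1] with t a b
    simp only [Function.iterate_succ_apply', dg, a, b]

theorem bn_two {t : ℤ} (h : 0 ≤ t) : 2 * bn 2 t = (t + 1) * (t + 2) := by
  obtain ⟨k, rfl⟩ := Int.eq_ofNat_of_zero_le h
  have := Nat.add_one_mul_choose_eq (k + 1) 1
  rw [Nat.choose_one_right] at this
  simp only [bn, h, if_true, Int.toNat_natCast]
  zify at this
  linarith

end MULNx

open MULNx in
theorem p_MULN (hBN : S_BN) (hGROW : S_GROW) (hPOLY : S_POLY) :
    S_MULN := by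
  intro n w₁ w₂ f q hn hq h
  obtain ⟨m, rfl⟩ := Nat.exists_eq_add_of_le' hn
  rw [Nat.add_sub_cancel] at hq
  let F : ℤ → ℤ := fun t => ∑ k ∈ Finset.range (t.toNat + 1), f k
  let G : ℤ → ℤ := dg (w₂ : ℤ) (dg (w₁ : ℤ) (bn (m + 2 + 1)))
  have b : ∀ k, dl^[k] (bn (k + 2)) = bn 2 := fun k => by
    induction k with
    | zero => rfl
    | succ k ih => rw [Function.iterate_succ_apply, Nat.add_right_comm, hBN.1, ih]
  have a1 : ∀ᶠ t in atTop, dl^[m + 1] G t = w₁ * w₂ := by
    filter_upwards [eventually_ge_atTop ((w₁ : ℤ) + w₂)] with t ht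
    simp only [G, it_dg, show m + 2 + 1 = m + 1 + 2 from rfl, b, dg]
    linarith [bn_two (t := t) (by omega), bn_two (t := t - w₁) (by omega),
      bn_two (t := t - w₂) (by omega), bn_two (t := t - w₂ - w₁) (by omega)]
  have a2 : ∀ᶠ t in atTop, dl F t = f t := by
    filter_upwards [eventually_ge_atTop (1 : ℤ)] with t ht
    obtain ⟨k, rfl⟩ : ∃ k : ℕ, t = k + 1 := ⟨(t - 1).toNat, by omega⟩
    have : ((k : ℤ) + 1).toNat = k + 1 := by omega
    simp only [F, dg, this, add_sub_cancel_right, Int.toNat_natCast, Finset.sum_range_succ _ (k + 1)]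
    push_cast
    ring
  have a3 : ∀ᶠ t in atTop, dl^[m + 1] (F - G) t = q - w₁ * w₂ := by
    filter_upwards [a1, it_congr m a2, hq] with t x y z
    rw [it_sub, Pi.sub_apply, x, Function.iterate_succ_apply, y, z]
  have a4 := hGROW.1 (m + 1) (F - G) (by
    filter_upwards [eventually_ge_atTop (0 : ℤ)] with t ht
    obtain ⟨k, rfl⟩ := Int.eq_ofNat_of_zero_le ht
    have := h k
    simp only [F, G, dg, Pi.sub_apply, Int.toNat_natCast, sub_right_comm (k : ℤ) w₂ w₁]
    linarith) (by
    filter_upwards [a3, ev_sub a3 1] with t x y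
    rw [Function.iterate_succ_apply', dl, dg, x, y, sub_self])
  obtain ⟨t, x, y⟩ := (a3.and a4).exists
  linarith

end Pool.Agent.P.MP_b01859_ag.SD
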