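import Pool.Agent.P.MP_b01859_ag.SD.Iface
import Pool.Agent.P.MP_b01859_ag.SD.Api

/-! Step MULT. -/

set_option autoImplicit false
set_option linter.unusedSectionVars false

namespace Pool.Agent.P.MP_b01859_ag.SD

open MvPolynomial Filter

theorem p_MULT (hMULA : S_MULA) (hMULB : S_MULB) (hMULN : S_MULN) (hSEQA : S_SEQA) (hSEQN : S_SEQN) (hBN : S_BN) :
    S_MULT := by
  intro σ ι _ _ n T γ g c₂ a b hC φ α hφ hp y i j v₁ v₂ h0 h1 h2
  obtain ⟨-, -, b3, -, -, -, b7⟩ := hBN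
  have n5 := hC.five
  have e1 := hC.rr (Pol σ) X (SS σ) cl_SS sub_SS (bp n) ((b7 σ n hC.card).1 ▸ b3 n)
  have e2 := hSEQN n _ _ g c₂ α a b (by omega) hC.sum hC.mul e1
    (hSEQA σ ι n T γ g hC.card (by omega) hC.gr φ α hφ hp)
  obtain ⟨w, hw, e3⟩ := hMULA σ y _ _ v₁ v₂ h1 h2
  refine le_trans (by exact_mod_cast Nat.mul_le_mul_right v₂ hw)
    (hMULN n w v₂ _ _ (by omega) e2 fun s => ?_)
  have e4 : Ideal.span {φ.1 i, φ.1 j} ⊔ my y ^ (s + 1) =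
      Ideal.span (Set.range φ.1) ⊔ my y ^ (s + 1) := by
    refine le_antisymm (sup_le_sup_right (Ideal.span_mono ?_) _)
      (sup_le (Ideal.span_le.2 ?_) le_sup_right)
    · rintro _ (rfl | rfl) <;> exact ⟨_, rfl⟩
    · rintro _ ⟨k, rfl⟩
      have z : 1 - C (eval y (T.ω i j))⁻¹ * T.ω i j ∈ my y := by simp [RingHom.mem_ker, h0]
      obtain ⟨t, ht⟩ := one_sub_dvd_one_sub_pow (1 - C (eval y (T.ω i j))⁻¹ * T.ω i j) (s + 1)
      refine Submodule.mem_sup.2 ⟨_, Ideal.mem_span_pair.2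
        ⟨-(C (eval y (T.ω i j))⁻¹ * t * T.ω j k), C (eval y (T.ω i j))⁻¹ * t * T.ω i k, rfl⟩, _,
        Ideal.mul_mem_right (φ.1 k) _ (Ideal.pow_mem_pow z (s + 1)), ?_⟩
      linear_combination -φ.1 k * ht - C (eval y (T.ω i j))⁻¹ * t * φ.2 i j k
  rw [← hC.card]
  exact (e3 s).trans (e4 ▸ hMULB σ y _ s)

end Pool.Agent.P.MP_b01859_ag.SD
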