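import Pool.Agent.P.MP_b01859_ag.SD.Iface

/-! Step NULL. -/

set_option autoImplicit false
set_option linter.unusedSectionVars false

namespace Pool.Agent.P.MP_b01859_ag.SD

open MvPolynomial Filter

namespace NULLx

lemma wt_deg {σ : Type} (x : σ →₀ ℕ) :
    Finsupp.weight (fun _ : σ => (1 : ℤ)) x = ((Finsupp.degree x : ℕ) : ℤ) := by
  rw [Finsupp.weight_apply, Finsupp.degree_apply, Finsupp.sum]
  push_cast
  refine Finset.sum_congr rfl fun i _ => ?_
  simp

lemma vars_le {σ Λ : Type} [Fintype σ] (p : Ideal (Pol σ)) (f : Λ → Pol σ)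
    (h : ∀ y : σ → ℂ, y ≠ 0 → (∀ h ∈ p, eval y h = 0) → ∃ l, eval y (f l) ≠ 0) :
    idealOfVars σ ℂ ≤ (p ⊔ Ideal.span (Set.range f)).radical := by
  rw [← vanishingIdeal_zeroLocus_eq_radical (K := ℂ)]
  refine Ideal.span_le.mpr ?_
  rintro _ ⟨i, rfl⟩
  rw [SetLike.mem_coe, mem_vanishingIdeal_iff]
  intro y hy
  rw [mem_zeroLocus_iff] at hy
  have hy0 : y = 0 := by
    by_contra hne
    obtain ⟨l, hl⟩ := h y hne fun g hg => by
      have := hy g (Ideal.mem_sup_left hg)
      simpa using this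
    apply hl
    have := hy (f l) (Ideal.mem_sup_right (Ideal.subset_span ⟨l, rfl⟩))
    simpa using this
  simp [hy0]

end NULLx

theorem p_NULL :
    S_NULL := by
  intro σ Λ _ _ p f d hp hf h0
  obtain ⟨N, hN⟩ := Ideal.exists_pow_le_of_le_radical_of_fg (NULLx.vars_le p f h0)
    (idealOfVars_fg σ ℂ)
  filter_upwards [eventually_ge_atTop (N : ℤ)] with t ht h hh
  have hm : h ∈ p ⊔ Ideal.span (Set.range f) := by
    apply hN
    rw [mem_pow_idealOfVars_iff]
    intro x hx
    have h1 := hh (mem_support_iff.mp hx)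
    rw [NULLx.wt_deg] at h1
    omega
  obtain ⟨q, hq, r, hr, hqr⟩ := Submodule.mem_sup.mp hm
  obtain ⟨u, hu⟩ := Ideal.mem_span_range_iff_exists_fun.mp hr
  refine ⟨fun l => weightedHomogeneousComponent (w1 σ) (t - d l) (u l),
    fun l => weightedHomogeneousComponent_isWeightedHomogeneous _ _, ?_⟩
  have h1 : weightedHomogeneousComponent (w1 σ) t h = h :=
    hh.weightedHomogeneousComponent_same
  have h2 : ∀ l, weightedHomogeneousComponent (w1 σ) t (u l * f l) =
      weightedHomogeneousComponent (w1 σ) (t - d l) (u l) * f l := by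
    intro l
    have h3 := comp_mul (w := w1 σ) (hf l) (t - d l) (u l)
    rw [show d l + (t - d l) = t by ring] at h3
    rw [mul_comm (u l), h3, mul_comm]
  have h4 : h - ∑ l, weightedHomogeneousComponent (w1 σ) (t - d l) (u l) * f l =
      weightedHomogeneousComponent (w1 σ) t q := by
    have h5 := congrArg (weightedHomogeneousComponent (w1 σ) t) hqr
    rw [h1, map_add, ← hu, map_sum] at h5
    simp only [h2] at h5
    rw [← h5]
    ring
  rw [h4]
  exact hp q hq t

end Pool.Agent.P.MP_b01859_ag.SD
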