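import Pool.Agent.P.MP_b01859_ag.SD.Iface

/-! Step ORD0. -/

set_option autoImplicit false
set_option linter.unusedSectionVars false

namespace Pool.Agent.P.MP_b01859_ag.SD

open MvPolynomial Filter

namespace ORD0x

variable {σ : Type}

/-- Translation of the variables. -/
noncomputable def tr (y : σ → ℂ) : Pol σ →ₐ[ℂ] Pol σ := aeval fun i => (X i + C (y i) : Pol σ)

theorem tr_tr (y : σ → ℂ) (f : Pol σ) : tr (-y) (tr y f) = f := by
  have : (tr (-y)).comp (tr y) = AlgHom.id ℂ _ := algHom_ext fun i => by simp [tr]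
  exact DFunLike.congr_fun this f

theorem const_tr (y : σ → ℂ) (f : Pol σ) : coeff 0 (tr y f) = eval y f := by
  have : constantCoeff.comp (tr y : Pol σ →+* Pol σ) = eval y :=
    ringHom_ext (fun c => by simp [tr]) fun i => by simp [tr]
  exact DFunLike.congr_fun this f

end ORD0x

open ORD0x in
theorem p_ORD0 :
    S_ORD0 := by
  intro σ _ y v f
  have h1 : (my y).map (tr y) ≤ idealOfVars σ ℂ := Ideal.map_le_iff_le_comap.2 fun g hg => by
    rw [Ideal.mem_comap, ← pow_one (idealOfVars σ ℂ), mem_pow_idealOfVars_iff']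
    intro d hd
    have : d = 0 := by simpa [Finsupp.degree_eq_zero_iff] using hd
    rw [this, const_tr]
    exact hg
  have h2 : (idealOfVars σ ℂ).map (tr (-y)) ≤ my y :=
    Ideal.map_le_iff_le_comap.2 (Ideal.span_le.2 (by
      rintro _ ⟨i, rfl⟩
      simp [tr, RingHom.mem_ker]))
  have h3 : f ∈ my y ^ v ↔ tr y f ∈ idealOfVars σ ℂ ^ v := by
    refine ⟨fun h => Ideal.pow_right_mono h1 v ?_, fun h => Ideal.pow_right_mono h2 v ?_⟩
    · rw [← Ideal.map_pow]
      exact Ideal.mem_map_of_mem _ h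
    · rw [← Ideal.map_pow, ← tr_tr y f]
      exact Ideal.mem_map_of_mem _ h
  rw [h3, mem_pow_idealOfVars_iff]
  simp only [mem_support_iff]
  rfl

end Pool.Agent.P.MP_b01859_ag.SD
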