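import Pool.Agent.P.MP_b01859_ag.SD.Iface

/-! Step ORDD. -/

set_option autoImplicit false
set_option linter.unusedSectionVars false

namespace Pool.Agent.P.MP_b01859_ag.SD

open MvPolynomial Filter

namespace ORDDx

open Classical in
/-- exponents of small degree -/
noncomputable def low (σ : Type) [Fintype σ] (s : ℕ) : Finset (σ →₀ ℕ) :=
  (Finset.range s).biUnion fun k => Finset.univ.finsuppAntidiag k

theorem mem_low {σ : Type} [Fintype σ] {s : ℕ} {d : σ →₀ ℕ} : d ∈ low σ s ↔ d.degree < s := by
  classical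
  simp only [low, Finset.mem_biUnion, Finset.mem_range, Finset.mem_finsuppAntidiag,
    Finset.subset_univ, and_true, Finsupp.degree_eq_sum]
  exact ⟨fun ⟨k, hk, e⟩ => e ▸ hk, fun h => ⟨_, h, rfl⟩⟩

theorem card_low (σ : Type) [Fintype σ] (s : ℕ) :
    ((low σ s).card : ℤ) = bn (Fintype.card σ) (s - 1) := by
  classical
  have h : (low σ s).card = ∑ k ∈ Finset.range s, (Fintype.card σ).multichoose k := by
    unfold low
    rw [Finset.card_biUnion]
    · refine Finset.sum_congr rfl fun k _ => ?_
      convert Finset.card_finsuppAntidiag_nat_eq_multichoose (s := (Finset.univ : Finset σ)) k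
      rfl
    · intro a _ b _ hab
      simp only [Function.onFun]
      rw [Finset.disjoint_left]
      intro d h1 h2
      simp only [Finset.mem_finsuppAntidiag] at h1 h2
      exact hab (h1.1.symm.trans h2.1)
  rw [h]
  cases s with
  | zero => simp [bn]
  | succ s =>
    rw [Nat.sum_range_multichoose]
    simp [bn]

/-- low coefficients after translation -/
noncomputable def lo {σ : Type} [Fintype σ] (y : σ → ℂ) (s : ℕ) :
    Pol σ →ₗ[ℂ] (low σ s → ℂ) :=
  LinearMap.pi fun d => (lcoeff ℂ d.1).comp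
    (aeval (fun i => (X i + C (y i) : Pol σ)) : Pol σ →ₐ[ℂ] Pol σ).toLinearMap

theorem lo_surj {σ : Type} [Fintype σ] (y : σ → ℂ) (s : ℕ) : Function.Surjective (lo y s) := by
  classical
  intro c
  refine ⟨aeval (fun i => (X i - C (y i) : Pol σ)) (∑ d : low σ s, monomial d.1 (c d)), ?_⟩
  have e : ∀ f : Pol σ, aeval (fun i => (X i + C (y i) : Pol σ))
      (aeval (fun i => (X i - C (y i) : Pol σ)) f) = f := by
    intro f
    have : (aeval (fun i => (X i + C (y i) : Pol σ)) : Pol σ →ₐ[ℂ] Pol σ).comp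
        (aeval (fun i => (X i - C (y i) : Pol σ))) = AlgHom.id ℂ _ := by
      ext i : 1
      simp
    exact DFunLike.congr_fun this f
  funext d
  simp only [lo, LinearMap.pi_apply, LinearMap.comp_apply, AlgHom.toLinearMap_apply, e,
    lcoeff_apply, coeff_sum, coeff_monomial]
  rw [Finset.sum_eq_single d]
  · simp
  · intro b _ hb
    rw [if_neg fun h => hb (Subtype.ext h)]
  · simp

end ORDDx

theorem p_ORDD (hORD0 : S_ORD0) :
    S_ORDD := by
  intro σ _ y s
  have hk : ((my y ^ s).restrictScalars ℂ : Submodule ℂ (Pol σ)) =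
      LinearMap.ker (ORDDx.lo y s) := by
    ext f
    rw [Submodule.restrictScalars_mem, hORD0 σ y s f, LinearMap.mem_ker]
    constructor
    · intro h
      funext d
      by_contra hd
      exact absurd (h d.1 hd) (not_le.2 (ORDDx.mem_low.1 d.2))
    · intro h d hd
      by_contra hlt
      exact hd (congrFun h ⟨d, ORDDx.mem_low.2 (not_le.1 hlt)⟩)
  have e : (Pol σ ⧸ my y ^ s) ≃ₗ[ℂ] (ORDDx.low σ s → ℂ) :=
    (Submodule.Quotient.restrictScalarsEquiv ℂ (my y ^ s)).symm.trans
      ((Submodule.quotEquivOfEq _ _ hk).trans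
        ((ORDDx.lo y s).quotKerEquivOfSurjective (ORDDx.lo_surj y s)))
  refine ⟨e.symm.finiteDimensional, ?_⟩
  rw [e.finrank_eq, Module.finrank_fintype_fun_eq_card, Fintype.card_coe, ORDDx.card_low]

end Pool.Agent.P.MP_b01859_ag.SD
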