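import Pool.Agent.P.MP_b01859_ag.SD.Iface

/-! Step ORDM. -/

set_option autoImplicit false
set_option linter.unusedSectionVars false

namespace Pool.Agent.P.MP_b01859_ag.SD

open MvPolynomial Filter

namespace ORDMx

variable {σ : Type}

/-- Translation of the variables. -/
noncomputable abbrev tr (y : σ → ℂ) : Pol σ →ₐ[ℂ] Pol σ := aeval fun i => (X i + C (y i) : Pol σ)

theorem tr_ne (y : σ → ℂ) {f : Pol σ} (h : f ≠ 0) : tr y f ≠ 0 := fun e => by
  have e1 : (tr (-y)).comp (tr y) = AlgHom.id ℂ _ := by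
    ext1 i
    simp [tr]
  have e2 : tr (-y) (tr y f) = f := DFunLike.congr_fun e1 f
  rw [e, map_zero] at e2
  exact h e2.symm

theorem wt (d : σ →₀ ℕ) (c : ℤ) : Finsupp.weight (fun _ => c) d = c * d.degree := by
  simp [Finsupp.weight_apply, Finsupp.sum, Finsupp.degree_apply, Finset.mul_sum, mul_comm]

theorem bot {F : Pol σ} (h : F ≠ 0) :
    ∃ d, coeff d F ≠ 0 ∧ ∀ e, coeff e F ≠ 0 → d.degree ≤ e.degree := by
  obtain ⟨d, h1, h2⟩ := Finset.exists_min_image F.support (fun d => d.degree)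
    (support_nonempty.2 h)
  exact ⟨d, mem_support_iff.1 h1, fun e he => h2 e (mem_support_iff.2 he)⟩

theorem cp_ne {F : Pol σ} {d : σ →₀ ℕ} (h : coeff d F ≠ 0) :
    weightedHomogeneousComponent (fun _ => (-1 : ℤ)) (-1 * d.degree) F ≠ 0 := fun e => by
  classical
  have := coeff_weightedHomogeneousComponent (w := fun _ => (-1 : ℤ)) (-1 * d.degree) F d
  rw [e, if_pos (wt d _), coeff_zero] at this
  exact h this.symm

theorem low {F H : Pol σ} {d e : σ →₀ ℕ} (h1 : coeff d F ≠ 0)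
    (h2 : ∀ e, coeff e F ≠ 0 → d.degree ≤ e.degree) (h3 : coeff e H ≠ 0)
    (h4 : ∀ d, coeff d H ≠ 0 → e.degree ≤ d.degree) :
    ∃ c, coeff c (F * H) ≠ 0 ∧ c.degree = d.degree + e.degree := by
  classical
  have k := top_mul (w := fun _ => (-1 : ℤ)) (f := F) (g := H) (a := -1 * d.degree)
    (b := -1 * e.degree) (fun c hc => by rw [wt]; have := h2 c hc; omega)
    fun c hc => by rw [wt]; have := h4 c hc; omega
  obtain ⟨c, hc⟩ := exists_coeff_ne_zero (k.trans_ne (mul_ne_zero (cp_ne h1) (cp_ne h3)))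
  rw [coeff_weightedHomogeneousComponent, wt] at hc
  split_ifs at hc with h5
  · exact ⟨c, hc, by omega⟩
  · exact absurd rfl hc

theorem deg_tr (y : σ → ℂ) {f : Pol σ} {d : ℕ} (h : Hom f d) : (tr y f).totalDegree ≤ d := by
  rw [tr, aeval_def, eval₂_eq]
  refine totalDegree_finsetSum_le fun e he => (totalDegree_mul _ _).trans ?_
  have h1 := h (mem_support_iff.1 he)
  rw [wt, one_mul, Nat.cast_inj] at h1
  rw [algebraMap_eq, totalDegree_C, zero_add, ← h1]
  refine (totalDegree_finsetProd _ _).trans (Finset.sum_le_sum fun i _ => ?_)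
  refine (totalDegree_pow _ _).trans (mul_le_of_le_one_right (Nat.zero_le _) ?_)
  exact (totalDegree_add _ _).trans (by simp)

end ORDMx

open ORDMx in
theorem p_ORDM (hORD0 : S_ORD0) :
    S_ORDM := by
  intro σ _ y
  refine ⟨fun f hf => ?_, fun f h a b h1 h2 => ?_, fun f d hf hd h => ?_⟩
  · obtain ⟨d, h1, h2⟩ := bot (tr_ne y hf)
    exact ⟨d.degree, (hORD0 σ y _ f).2 h2, fun h => Nat.not_succ_le_self _ ((hORD0 σ y _ f).1 h d h1)⟩
  · rcases eq_or_ne h 0 with rfl | h0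
    · exact zero_mem _
    have f0 : f ≠ 0 := fun e => h1 (e ▸ zero_mem _)
    obtain ⟨d, d1, d2⟩ := bot (tr_ne y f0)
    obtain ⟨e, e1, e2⟩ := bot (tr_ne y h0)
    obtain ⟨c, c1, c2⟩ := low d1 d2 e1 e2
    have k1 := (hORD0 σ y _ _).1 h2 c (by rw [map_mul]; exact c1)
    have k2 : d.degree ≤ a := not_lt.1 fun k =>
      h1 ((hORD0 σ y _ f).2 fun c hc => le_trans k (d2 c hc))
    exact (hORD0 σ y _ h).2 fun c hc => le_trans (by omega) (e2 c hc)
  · obtain ⟨e, he⟩ := exists_coeff_ne_zero (tr_ne y hf)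
    have k1 := (hORD0 σ y _ f).1 h e he
    have k2 : e.degree ≤ d := (le_totalDegree (mem_support_iff.2 he)).trans (deg_tr y hd)
    omega

end Pool.Agent.P.MP_b01859_ag.SD
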