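import Pool.Agent.P.MP_b01859_ag.SD.Iface

/-! Step POLY. -/

set_option autoImplicit false
set_option linter.unusedSectionVars false

namespace Pool.Agent.P.MP_b01859_ag.SD

open MvPolynomial Filter

namespace POLYx

lemma shift {p : ℤ → Prop} (h : ∀ᶠ t in atTop, p t) (a : ℤ) : ∀ᶠ t in atTop, p (t - a) :=
  (tendsto_atTop_add_const_right atTop (-a) tendsto_id).eventually h

lemma evp_dl {f : ℤ → ℤ} {P : Polynomial ℂ} (h : EvP f P) : EvP (dl f) (P - sh (-1) P) := by
  filter_upwards [h, shift h 1] with t h1 h2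
  rw [dl, dg, Int.cast_sub, h1, h2, sh]
  simp [sub_eq_add_neg]

lemma evp_iter (r : ℕ) : ∀ {f : ℤ → ℤ} {P : Polynomial ℂ}, EvP f P →
    EvP (dl^[r] f) ((fun Q => Q - sh (-1) Q)^[r] P) := by
  induction r with
  | zero => exact fun h => h
  | succ r ih => exact fun h => ih (evp_dl h)

lemma uniq {f : ℤ → ℤ} {P Q : Polynomial ℂ} (h : EvP f P) (h' : EvP f Q) : P = Q := by
  obtain ⟨b, hb⟩ := eventually_atTop.mp (h.and h')
  refine Polynomial.eq_of_infinite_eval_eq _ _ (((Set.Ici_infinite b).image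
    (Int.cast_injective (α := ℂ)).injOn).mono ?_)
  rintro _ ⟨t, ht, rfl⟩
  exact (hb t ht).1.symm.trans (hb t ht).2

lemma coeff_top {P : Polynomial ℂ} {r : ℕ} (h : P.natDegree ≤ r + 1) :
    (P - sh (-1) P).natDegree ≤ r ∧ (P - sh (-1) P).coeff r = (r + 1) * P.coeff (r + 1) := by
  have e : ∀ k, r ≤ k → (P - sh (-1) P).coeff k = (k + 1) * P.coeff (k + 1) := by
    intro k hk
    have h1 : (Polynomial.hasseDeriv k P).natDegree < 2 :=
      (Polynomial.natDegree_hasseDeriv_le P k).trans_lt (by omega)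
    rw [Polynomial.coeff_sub, sh, ← Polynomial.taylor_apply, Polynomial.taylor_coeff,
      Polynomial.eval_eq_sum_range' h1]
    simp [Finset.sum_range_succ, Polynomial.hasseDeriv_coeff, add_comm]
  refine ⟨Polynomial.natDegree_le_iff_coeff_eq_zero.mpr fun k hk => ?_, e r le_rfl⟩
  rw [e k hk.le, Polynomial.coeff_eq_zero_of_natDegree_lt (by omega), mul_zero]

lemma top (r : ℕ) : ∀ {f : ℤ → ℤ} {P : Polynomial ℂ}, EvP f P → P.natDegree ≤ r →
    ∀ᶠ t in atTop, (dl^[r] f t : ℂ) = r.factorial * P.coeff r := by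
  induction r with
  | zero =>
    intro f P h hP
    filter_upwards [h] with t ht
    rw [Function.iterate_zero, id, ht, Polynomial.eq_C_of_natDegree_le_zero hP]
    simp
  | succ r ih =>
    intro f P h hP
    filter_upwards [ih (evp_dl h) (coeff_top hP).1] with t ht
    rw [Function.iterate_succ_apply, ht, (coeff_top hP).2, Nat.factorial_succ]
    push_cast
    ring

lemma ev0_succ {r : ℕ} {f : ℤ → ℤ} (h : Ev0 r f) : Ev0 (r + 1) f := by
  filter_upwards [h, shift h 1] with t h1 h2
  rw [Function.iterate_succ_apply', dl, dg, h1, h2, sub_zero]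

lemma anti (r : ℕ) : ∀ Q : Polynomial ℂ, Q.degree < r →
    ∃ P : Polynomial ℂ, P.degree < (r + 1 : ℕ) ∧ P - sh (-1) P = Q := by
  induction r with
  | zero =>
    intro Q hQ
    refine ⟨0, WithBot.bot_lt_coe _, ?_⟩
    rw [Polynomial.degree_eq_bot.mp (Nat.WithBot.lt_zero_iff.mp hQ)]
    simp [sh]
  | succ r ih =>
    intro Q hQ
    set M : Polynomial ℂ := Polynomial.monomial (r + 1) (Q.coeff r / (r + 1)) with hM
    have h1 : M.natDegree ≤ r + 1 := Polynomial.natDegree_monomial_le _
    have h0 : (r + 1 : ℂ) ≠ 0 := by exact_mod_cast r.succ_ne_zero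
    obtain ⟨P, hP, e⟩ := ih (Q - (M - sh (-1) M)) (by
      refine (Polynomial.degree_lt_iff_coeff_zero _ _).mpr fun k hk => ?_
      rcases hk.eq_or_lt with rfl | hk
      · rw [Polynomial.coeff_sub, (coeff_top h1).2, hM, Polynomial.coeff_monomial_same]
        field_simp
        ring
      · rw [Polynomial.coeff_sub, (Polynomial.degree_lt_iff_coeff_zero _ _).mp hQ k hk,
          Polynomial.coeff_eq_zero_of_natDegree_lt ((coeff_top h1).1.trans_lt hk), sub_zero])
    refine ⟨P + M, (Polynomial.degree_add_le _ _).trans_lt (max_lt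
      (hP.trans (by exact_mod_cast Nat.lt_succ_self _))
      (Polynomial.degree_le_natDegree.trans_lt (by exact_mod_cast Nat.lt_succ_of_le h1))), ?_⟩
    rw [sh, Polynomial.add_comp, ← sh, ← sh]
    linear_combination e

lemma ex (r : ℕ) : ∀ f : ℤ → ℤ, Ev0 r f → ∃ P : Polynomial ℂ, P.degree < r ∧ EvP f P := by
  induction r with
  | zero =>
    intro f h
    refine ⟨0, WithBot.bot_lt_coe _, ?_⟩
    filter_upwards [h] with t ht
    rw [Function.iterate_zero, id] at ht
    simp [ht]
  | succ r ih =>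
    intro f h
    obtain ⟨Q, hQ, h1⟩ := ih (dl f) h
    obtain ⟨P, hP, rfl⟩ := anti r Q hQ
    obtain ⟨b, hb⟩ := eventually_atTop.mp h1
    refine ⟨P + Polynomial.C (f b - P.eval (b : ℂ)), (Polynomial.degree_add_le _ _).trans_lt
      (max_lt hP (Polynomial.degree_C_le.trans_lt (by exact_mod_cast r.succ_pos))), ?_⟩
    refine eventually_atTop.mpr ⟨b, fun t ht => ?_⟩
    induction t, ht using Int.leInduction with
    | base => simp
    | succ t ht ih =>
      have := hb (t + 1) (by omega)
      simp only [dl, dg, add_sub_cancel_right, Int.cast_sub, sh, Polynomial.eval_sub,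
        Polynomial.eval_comp, Polynomial.eval_add, Polynomial.eval_X, Polynomial.eval_C,
        Int.cast_add, Int.cast_one, add_neg_cancel_right] at this ih ⊢
      linear_combination this + ih

end POLYx

open POLYx in
theorem p_POLY :
    S_POLY := by
  refine ⟨ex, fun r f P h => ⟨fun h0 => ?_, fun hP => ?_⟩, fun r f P => top r,
    fun f P Q => uniq, fun r f P => evp_iter r⟩
  · obtain ⟨Q, hQ, h1⟩ := ex r f h0
    rwa [uniq h h1]
  · filter_upwards [top r h (Polynomial.natDegree_le_of_degree_le hP.le)] with t ht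
    rw [(Polynomial.degree_lt_iff_coeff_zero _ _).mp hP r le_rfl, mul_zero] at ht
    exact_mod_cast ht

end Pool.Agent.P.MP_b01859_ag.SD
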