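import Pool.Agent.P.MP_b01859_ag.SD.Iface

/-! Step PRIME. -/

set_option autoImplicit false
set_option linter.unusedSectionVars false

namespace Pool.Agent.P.MP_b01859_ag.SD

open MvPolynomial Filter

namespace PRIMEx

variable {σ : Type} [Fintype σ]

lemma fin_SS (t : ℤ) : Module.Finite ℂ (SS σ t) := by
  have h1 : Module.Finite ℂ (weightedHomogeneousSubmodule ℂ (fun _ : σ => (1 : ℕ)) t.toNat) :=
    Module.Finite.iff_fg.2 (weightedHomogeneousSubmodule_fg ℂ _ (fun _ => one_ne_zero) _)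
  refine Submodule.finiteDimensional_of_le
    (S₂ := weightedHomogeneousSubmodule ℂ (fun _ : σ => (1 : ℕ)) t.toNat) fun f hf d hd => ?_
  have h2 : Finsupp.weight (w1 σ) d = t := hf hd
  have h3 : Finsupp.weight (w1 σ) d = ((Finsupp.weight (fun _ : σ => (1 : ℕ)) d : ℕ) : ℤ) := by
    simp [Finsupp.weight_apply, Finsupp.sum]
  omega

lemma rn {U W : Type} [AddCommGroup U] [Module ℂ U] [AddCommGroup W] [Module ℂ W]
    (φ : U →ₗ[ℂ] W) (V : Submodule ℂ U) [Module.Finite ℂ V] :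
    Module.finrank ℂ (V.map φ) + Module.finrank ℂ (V ⊓ LinearMap.ker φ : Submodule ℂ U) =
      Module.finrank ℂ V := by
  have h := LinearMap.finrank_range_add_finrank_ker (φ.domRestrict V)
  rw [LinearMap.range_domRestrict, LinearMap.ker_domRestrict] at h
  rw [← h, ← Submodule.finrank_map_subtype_eq V ((LinearMap.ker φ).comap V.subtype),
    Submodule.map_comap_subtype]

/-- the quotient map as a linear map -/
noncomputable abbrev mq (I : Ideal (Pol σ)) : Pol σ →ₗ[ℂ] Pol σ ⧸ I :=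
  (Ideal.Quotient.mkₐ ℂ I).toLinearMap

lemma mem_ker {I : Ideal (Pol σ)} {f : Pol σ} : f ∈ LinearMap.ker (mq I) ↔ f ∈ I := by
  rw [LinearMap.mem_ker]
  exact Ideal.Quotient.eq_zero_iff_mem

lemma hq_eq (p : Ideal (Pol σ)) (hp : HomI p) (f : Pol σ) (d : ℤ) (hf : Hom f d) (t : ℤ) :
    hq p t = hq (p ⊔ Ideal.span {f}) t + hq (p.colon {f}) (t - d) := by
  have := fin_SS (σ := σ) t
  have := fin_SS (σ := σ) (t - d)
  have e1 := rn (mq p) (SS σ t)
  have e2 := rn (mq (p ⊔ Ideal.span {f})) (SS σ t)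
  have e3 := rn (mq (p.colon {f})) (SS σ (t - d))
  have : Module.Finite ℂ
      (SS σ t ⊓ LinearMap.ker (mq (p ⊔ Ideal.span {f})) : Submodule ℂ (Pol σ)) :=
    Submodule.finiteDimensional_of_le inf_le_left
  have e4 := rn (mq p) (SS σ t ⊓ LinearMap.ker (mq (p ⊔ Ideal.span {f})))
  have e5 := rn ((mq p).comp (LinearMap.mulLeft ℂ f)) (SS σ (t - d))
  have k4 : SS σ t ⊓ LinearMap.ker (mq (p ⊔ Ideal.span {f})) ⊓ LinearMap.ker (mq p) =
      SS σ t ⊓ LinearMap.ker (mq p) := by
    have h0 : LinearMap.ker (mq p) ≤ LinearMap.ker (mq (p ⊔ Ideal.span {f})) :=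
      fun g hg => mem_ker.2 (Ideal.mem_sup_left (mem_ker.1 hg))
    rw [inf_assoc, inf_eq_right.2 h0]
  have k5 : LinearMap.ker ((mq p).comp (LinearMap.mulLeft ℂ f)) =
      LinearMap.ker (mq (p.colon {f})) := by
    ext g
    rw [mem_ker, Submodule.mem_colon_singleton, LinearMap.ker_comp, Submodule.mem_comap, mem_ker,
      LinearMap.mulLeft_apply, smul_eq_mul, mul_comm]
  have k6 : (SS σ t ⊓ LinearMap.ker (mq (p ⊔ Ideal.span {f}))).map (mq p) =
      (SS σ (t - d)).map ((mq p).comp (LinearMap.mulLeft ℂ f)) := by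
    apply le_antisymm
    · rintro _ ⟨g, ⟨hg, hg'⟩, rfl⟩
      obtain ⟨a, ha, b, hb, hab⟩ := Submodule.mem_sup.1 (mem_ker.1 hg')
      obtain ⟨c, rfl⟩ := Ideal.mem_span_singleton'.1 hb
      refine ⟨weightedHomogeneousComponent (w1 σ) (t - d) c,
        weightedHomogeneousComponent_mem _ _ _, ?_⟩
      have h1 := congrArg (weightedHomogeneousComponent (w1 σ) t) hab
      have h2 := comp_mul hf (t - d) c
      rw [add_sub_cancel] at h2
      rw [map_add, mul_comm c f, h2, weightedHomogeneousComponent_of_mem hg, if_pos rfl] at h1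
      rw [LinearMap.comp_apply, LinearMap.mulLeft_apply, ← h1, map_add,
        LinearMap.mem_ker.1 (mem_ker.2 (hp a ha t)), zero_add]
    · rintro _ ⟨c, hc, rfl⟩
      refine ⟨f * c, ⟨?_, mem_ker.2 (Ideal.mem_sup_right
        (Ideal.mem_span_singleton'.2 ⟨c, mul_comm _ _⟩))⟩, rfl⟩
      have h1 := hf.mul hc
      rw [add_sub_cancel] at h1
      exact h1
  rw [k4, k6] at e4
  rw [k5] at e5
  change ((Module.finrank ℂ ((SS σ t).map (mq p)) : ℕ) : ℤ) =
    (Module.finrank ℂ ((SS σ t).map (mq (p ⊔ Ideal.span {f}))) : ℕ) +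
      (Module.finrank ℂ ((SS σ (t - d)).map (mq (p.colon {f}))) : ℕ)
  omega

lemma dl_add (r : ℕ) (a b : ℤ → ℤ) (d : ℤ) : ∀ t,
    dl^[r] (fun t => a t + b (t - d)) t = dl^[r] a t + dl^[r] b (t - d) := by
  induction r with
  | zero => intro t; rfl
  | succ r ih =>
    intro t
    rw [Function.iterate_succ_apply', Function.iterate_succ_apply', Function.iterate_succ_apply']
    simp only [dg]
    rw [ih, ih, sub_right_comm t 1 d]
    ring

lemma ev0_add {r : ℕ} {a b : ℤ → ℤ} (d : ℤ) (ha : Ev0 r a) (hb : Ev0 r b) :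
    Ev0 r fun t => a t + b (t - d) := by
  obtain ⟨s, hs⟩ := eventually_atTop.1 ha
  obtain ⟨s', hs'⟩ := eventually_atTop.1 hb
  refine eventually_atTop.2 ⟨max s (s' + d), fun t ht => ?_⟩
  have h1 := le_trans (le_max_left _ _) ht
  have h2 := le_trans (le_max_right _ _) ht
  rw [dl_add, hs t h1, hs' (t - d) (by omega), add_zero]

lemma hom_colon (p : Ideal (Pol σ)) (hp : HomI p) (f : Pol σ) (d : ℤ) (hf : Hom f d) :
    HomI (p.colon {f}) := by
  intro g hg e
  rw [Submodule.mem_colon_singleton, smul_eq_mul, mul_comm] at hg ⊢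
  rw [← comp_mul hf e g]
  exact hp _ hg _

end PRIMEx

theorem p_PRIME (hHQ : S_HQ) :
    S_PRIME := by
  intro σ _ I r hI hr
  classical
  obtain ⟨-, -, hsup, hX, -⟩ := hHQ σ
  obtain ⟨p, ⟨hIp, hp, hd⟩, hmax⟩ := set_has_maximal_iff_noetherian.2
    (inferInstance : IsNoetherian (Pol σ) (Pol σ))
    {p : Ideal (Pol σ) | I ≤ p ∧ HomI p ∧ DimGe p r} ⟨I, le_rfl, hI, hr⟩
  refine ⟨p, hIp, ?_, hp, hd⟩
  have big : ∀ q : Ideal (Pol σ), p < q → HomI q → Ev0 r (hq q) := fun q hpq hq' => by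
    by_contra h
    exact hmax q ⟨hIp.trans hpq.le, hq', h⟩ hpq
  let _ := weightedGradedAlgebra ℂ (w1 σ)
  have hH : p.IsHomogeneous (weightedHomogeneousSubmodule ℂ (w1 σ)) := fun e g hg => by
    have h1 := hp g hg e
    rw [← weightedDecomposition.decompose'_apply] at h1
    exact h1
  refine Ideal.IsHomogeneous.isPrime_of_homogeneous_mem_or_mem hH ?_ ?_
  · obtain ⟨i, hi⟩ := hX p r hd
    rintro rfl
    exact hi Submodule.mem_top
  · rintro f h ⟨d, hf⟩ - hfh
    by_contra hno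
    rw [not_or] at hno
    have h1 : HomI (p ⊔ Ideal.span {f}) := by
      have := hsup Unit p (fun _ => f) (fun _ => d) hp fun _ => hf
      rwa [Set.range_const] at this
    have h2 := big _ (lt_of_le_of_ne le_sup_left fun e => hno.1
      (e ▸ Ideal.mem_sup_right (Ideal.mem_span_singleton_self f))) h1
    have h3 : p < p.colon {f} := by
      refine lt_of_le_of_ne (fun g hg => ?_) fun e => hno.2 ?_
      · rw [Submodule.mem_colon_singleton, smul_eq_mul]
        exact Ideal.mul_mem_right _ _ hg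
      · rw [e, Submodule.mem_colon_singleton, smul_eq_mul, mul_comm]
        exact hfh
    have h4 := big _ h3 (PRIMEx.hom_colon p hp f d hf)
    apply hd
    rw [funext (PRIMEx.hq_eq p hp f d hf)]
    exact PRIMEx.ev0_add d h2 h4

end Pool.Agent.P.MP_b01859_ag.SD
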