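import Pool.Agent.P.MP_b01859_ag.SD.Iface

/-! Step PROP. -/

set_option autoImplicit false
set_option linter.unusedSectionVars false

namespace Pool.Agent.P.MP_b01859_ag.SD

open MvPolynomial Filter

namespace PROPx

lemma fin_SS (σ : Type) [Fintype σ] (t : ℤ) : FiniteDimensional ℂ (SS σ t) := by
  have h1 : SS σ t ≤ restrictTotalDegree σ ℂ t.toNat := by
    intro f hf
    rw [mem_restrictTotalDegree, totalDegree, Finset.sup_le_iff]
    intro d hd
    have h2 := hf (MvPolynomial.mem_support_iff.mp hd)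
    rw [← h2]
    simp [Finsupp.weight_apply, Finsupp.sum, ← Nat.cast_sum]
  exact Submodule.finiteDimensional_of_le h1

lemma hq_le {σ : Type} [Fintype σ] {p : Ideal (Pol σ)} (hp : p.IsPrime) {D w : Pol σ}
    (hD : D ∉ p) {s t : ℤ} (h : ∀ f, Hom f s → ∃ f', Hom f' t ∧ D * f - w * f' ∈ p) :
    hq p s ≤ hq p t := by
  have := fin_SS σ s
  have := fin_SS σ t
  have : IsDomain (Pol σ ⧸ p) := Ideal.Quotient.isDomain p
  have hD0 : Ideal.Quotient.mk p D ≠ 0 := fun h0 => hD (Ideal.Quotient.eq_zero_iff_mem.mp h0)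
  have hinj : Function.Injective (LinearMap.mulLeft ℂ (Ideal.Quotient.mk p D)) :=
    fun x y hxy => mul_left_cancel₀ hD0 hxy
  have hle : ((SS σ s).map (Ideal.Quotient.mkₐ ℂ p).toLinearMap).map
        (LinearMap.mulLeft ℂ (Ideal.Quotient.mk p D)) ≤
      ((SS σ t).map (Ideal.Quotient.mkₐ ℂ p).toLinearMap).map
        (LinearMap.mulLeft ℂ (Ideal.Quotient.mk p w)) := by
    rintro _ ⟨_, ⟨f, hf, rfl⟩, rfl⟩
    obtain ⟨f', hf', hm⟩ := h f hf
    refine ⟨_, ⟨f', hf', rfl⟩, ?_⟩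
    show Ideal.Quotient.mk p w * Ideal.Quotient.mk p f'
      = Ideal.Quotient.mk p D * Ideal.Quotient.mk p f
    rw [← map_mul, ← map_mul]
    exact (Ideal.Quotient.eq.mpr hm).symm
  have e1 := LinearEquiv.finrank_eq
    (Submodule.equivMapOfInjective _ hinj ((SS σ s).map (Ideal.Quotient.mkₐ ℂ p).toLinearMap))
  have e2 := Submodule.finrank_mono hle
  have e3 := Submodule.finrank_map_le (LinearMap.mulLeft ℂ (Ideal.Quotient.mk p w))
    ((SS σ t).map (Ideal.Quotient.mkₐ ℂ p).toLinearMap)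
  unfold hq hd
  exact_mod_cast e1.le.trans (e2.trans e3)

lemma ev0_of {f : ℤ → ℤ} {e : ℤ} (he : e < 0) (h1 : ∀ᶠ t in atTop, 0 ≤ dl^[1] f t)
    (h2 : ∀ᶠ t in atTop, f t ≤ f (t + e)) : Ev0 1 f := by
  obtain ⟨a, ha⟩ := eventually_atTop.mp h1
  have hm : ∀ (k : ℕ) (s : ℤ), a ≤ s → f s ≤ f (s + k) := by
    intro k s hs
    induction k with
    | zero => simp
    | succ k ih =>
      have h3 : 0 ≤ f (s + k + 1) - f (s + k + 1 - 1) := ha (s + k + 1) (by omega)
      rw [add_sub_cancel_right] at h3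
      rw [Nat.cast_succ, ← add_assoc]
      omega
  filter_upwards [h2, eventually_ge_atTop (a - e), eventually_ge_atTop a] with t ht hta hta'
  have h3 : 0 ≤ f t - f (t - 1) := ha t hta'
  have h4 := hm (-e - 1).toNat (t + e) (by omega)
  rw [show t + e + ((-e - 1).toNat : ℤ) = t - 1 by omega] at h4
  show f t - f (t - 1) = 0
  omega

end PROPx

theorem p_PROP (hNULL : S_NULL) (hHQ : S_HQ) :
    S_PROP := by
  intro σ ι _ _ T γ g p u v α β hG hV hu hv he a b
  by_contra hD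
  obtain ⟨h1, hbot, -, -, -, -⟩ := hHQ σ
  have key : ∀ i j, T.ω i j * (u a * v b - u b * v a) - T.ω a b * (u i * v j - u j * v i) ∈ p := by
    intro i j
    have e : T.ω i j * (u a * v b - u b * v a) - T.ω a b * (u i * v j - u j * v i) =
        v b * (T.ω i j * u a - T.ω i a * u j + T.ω j a * u i)
        - v a * (T.ω i j * u b - T.ω i b * u j + T.ω j b * u i)
        + u j * (T.ω i a * v b - T.ω i b * v a + T.ω a b * v i)
        - u i * (T.ω j a * v b - T.ω j b * v a + T.ω a b * v j) := by ring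
    rw [e]
    exact sub_mem (add_mem (sub_mem (p.mul_mem_left _ (hu.2 i j a)) (p.mul_mem_left _ (hu.2 i j b)))
      (p.mul_mem_left _ (hv.2 i a b))) (p.mul_mem_left _ (hv.2 j a b))
  have hN := hNULL σ (ι × ι) ⊥ (fun l => T.ω l.1 l.2) (fun l => γ l.1 + γ l.2 - g) hbot
    (fun l => hG l.1 l.2) (fun y hy _ => by
      obtain ⟨i, j, h⟩ := T.LF_eval hy
      exact ⟨(i, j), h⟩)
  refine hV.dim (PROPx.ev0_of he ((h1 p).2 1) ?_)
  filter_upwards [hN] with t ht
  refine PROPx.hq_le hV.prime (w := T.ω a b) hD fun f hf => ?_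
  obtain ⟨c, hc, hf2⟩ := ht f hf
  have hf3 : f = ∑ l : ι × ι, c l * T.ω l.1 l.2 := sub_eq_zero.mp (Ideal.mem_bot.mp hf2)
  refine ⟨∑ l : ι × ι, c l * (u l.1 * v l.2 - u l.2 * v l.1), ?_, ?_⟩
  · refine IsWeightedHomogeneous.sum _ _ _ fun l _ => ?_
    have h2 : Hom (u l.1 * v l.2 - u l.2 * v l.1) (γ l.1 + γ l.2 + α + β) :=
      (hom_congr ((hu.1 l.1).mul (hv.1 l.2)) (by ring)).sub
        (hom_congr ((hu.1 l.2).mul (hv.1 l.1)) (by ring))
    exact hom_congr ((hc l).mul h2) (by ring)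
  · rw [hf3, Finset.mul_sum, Finset.mul_sum, ← Finset.sum_sub_distrib]
    refine sum_mem fun l _ => ?_
    have e : (u a * v b - u b * v a) * (c l * T.ω l.1 l.2)
        - T.ω a b * (c l * (u l.1 * v l.2 - u l.2 * v l.1))
        = c l * (T.ω l.1 l.2 * (u a * v b - u b * v a)
          - T.ω a b * (u l.1 * v l.2 - u l.2 * v l.1)) := by ring
    rw [e]
    exact p.mul_mem_left _ (key l.1 l.2)

end Pool.Agent.P.MP_b01859_ag.SD
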