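import Pool.Agent.P.MP_b01859_ag.SD.Iface

/-! Step PT. -/

set_option autoImplicit false
set_option linter.unusedSectionVars false

namespace Pool.Agent.P.MP_b01859_ag.SD

open MvPolynomial Filter

theorem p_PT (hNULL : S_NULL) :
    S_PT := by
  intro σ _ p hp hd
  by_contra hcon
  apply hd
  have h := hNULL σ Empty p (fun l => l.elim) (fun l => l.elim) hp (fun l => l.elim)
    (fun y hy h => absurd ⟨y, hy, h⟩ hcon)
  filter_upwards [h] with t ht
  have e : (SS σ t).map (Ideal.Quotient.mkₐ ℂ p).toLinearMap = ⊥ := by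
    rw [eq_bot_iff]
    rintro _ ⟨f, hf, rfl⟩
    obtain ⟨u, -, hu⟩ := ht f hf
    rw [Finset.univ_eq_empty, Finset.sum_empty, sub_zero] at hu
    exact (Submodule.mem_bot ℂ).2 (Ideal.Quotient.eq_zero_iff_mem.2 hu)
  show ((Module.finrank ℂ ((SS σ t).map (Ideal.Quotient.mkₐ ℂ p).toLinearMap) : ℕ) : ℤ) = 0
  rw [e, finrank_bot, Nat.cast_zero]

end Pool.Agent.P.MP_b01859_ag.SD
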