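import Pool.Agent.P.MP_b01859_ag.SD.Iface
import Pool.Agent.P.MP_b01859_ag.SD.Mom
import Pool.Agent.P.MP_b01859_ag.SD.Api

/-! Step RRN. -/

set_option autoImplicit false
set_option linter.unusedSectionVars false

namespace Pool.Agent.P.MP_b01859_ag.SD

open MvPolynomial Filter

namespace RRNx

open Function

lemma fin_of {f : ℤ → ℤ} (h : Bdd f) (h' : ∀ᶠ t in atTop, f t = 0) : (support f).Finite := by
  obtain ⟨b, hb⟩ := h
  obtain ⟨c, hc⟩ := eventually_atTop.mp h'
  refine (Set.finite_Icc b c).subset fun t ht => ⟨?_, ?_⟩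
  · by_contra e; exact ht (hb t (by omega))
  · by_contra e; exact ht (hc t (by omega))

lemma bdd_dl {f : ℤ → ℤ} (h : Bdd f) (r : ℕ) : Bdd (dl^[r] f) := by
  induction r with
  | zero => exact h
  | succ r ih =>
    obtain ⟨b, hb⟩ := ih
    exact ⟨b, fun t ht => by rw [dl_succ, hb t ht, hb _ (by omega), sub_zero]⟩

lemma bdd_pl {f : ℤ → ℤ} (h : Bdd f) (r : ℕ) : Bdd (pl^[r] f) := by
  induction r with
  | zero => exact h
  | succ r ih =>
    obtain ⟨b, hb⟩ := ih
    exact ⟨b, fun t ht => by rw [iterate_succ_apply', pl, hb t ht, hb _ (by omega), add_zero]⟩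

lemma bdd_conv {f g : ℤ → ℤ} (h : Bdd f) (h' : Bdd g) : Bdd (conv f g) := by
  obtain ⟨b, hb⟩ := h
  obtain ⟨c, hc⟩ := h'
  refine ⟨b + c, fun t ht => finsum_eq_zero_of_forall_eq_zero fun i => ?_⟩
  by_cases e : i < b
  · rw [hb i e, zero_mul]
  · rw [hc _ (by omega), mul_zero]

lemma bdd_dbl {f : ℤ → ℤ} (h : Bdd f) : Bdd (dbl f) := by
  obtain ⟨b, hb⟩ := h
  refine ⟨2 * b, fun t ht => ?_⟩
  rw [dbl]
  split_ifs
  exacts [hb _ (by omega), rfl]

lemma conv_comm (f g : ℤ → ℤ) : conv f g = conv g f := by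
  ext t
  rw [conv, conv, ← finsum_comp_equiv (Equiv.subLeft t)]
  exact finsum_congr fun i => by simp [mul_comm]

lemma fin_mul {f : ℤ → ℤ} (h : (support f).Finite) (p : ℤ → ℤ) :
    (support fun i => f i * p i).Finite := h.subset fun _ hi => left_ne_zero_of_mul hi

lemma fin_shift {f : ℤ → ℤ} (h : (support f).Finite) (c : ℤ) :
    (support fun i => f (i - c)).Finite :=
  (h.preimage (f := fun i => i - c) sub_left_injective.injOn).subset fun _ hi => hi

lemma fin_dl {f : ℤ → ℤ} (h : (support f).Finite) : (support (dl f)).Finite :=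
  (h.union (fin_shift h 1)).subset fun i hi => by
    by_contra e
    simp only [Set.mem_union, mem_support, not_or, not_not] at e
    exact hi (by rw [dl, dg, e.1, e.2, sub_zero])

lemma parts1 {f : ℤ → ℤ} (h : (support f).Finite) (p : ℤ → ℤ) :
    ∑ᶠ i, dl f i * p i = -∑ᶠ i, f i * fwdDiff 1 p i := by
  have e1 : ∑ᶠ i, f (i - 1) * p i = ∑ᶠ i, f i * p (i + 1) := by
    rw [← finsum_comp_equiv (Equiv.addRight (1 : ℤ))]
    exact finsum_congr fun i => by simp
  simp only [dl, dg, fwdDiff, sub_mul, mul_sub]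
  rw [finsum_sub_distrib (fin_mul h _) (fin_mul (fin_shift h 1) _),
    finsum_sub_distrib (fin_mul h _) (fin_mul h _), e1, neg_sub]

lemma parts (r : ℕ) : ∀ (f p : ℤ → ℤ), (support f).Finite → (fwdDiff 1)^[r] p = 0 →
    ∑ᶠ i, dl^[r] f i * p i = 0 := by
  induction r with
  | zero => intro f p _ hp; simp [show p = 0 from hp]
  | succ r ih =>
    intro f p hf hp
    have hf' : (support (dl^[r] f)).Finite := by
      clear ih hp
      induction r with
      | zero => exact hf
      | succ r ih => rw [iterate_succ_apply']; exact fin_dl ih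
    rw [iterate_succ_apply', parts1 hf', ih f _ hf hp, neg_zero]

lemma mom_conv {κ : ℤ → ℤ} (h : (support κ).Finite) (r : ℕ) :
    ∑ᶠ t, conv κ κ t * t ^ r = ∑ s ∈ Finset.range (r + 1), (r.choose s : ℤ) *
      ((∑ i ∈ h.toFinset, κ i * i ^ s) * ∑ i ∈ h.toFinset, κ i * i ^ (r - s)) := by
  have e1 : ∀ t, conv κ κ t * t ^ r = ∑ i ∈ h.toFinset, κ (t - i) * (κ i * t ^ r) := fun t => by
    rw [conv, finsum_eq_sum_of_support_subset (s := h.toFinset) _
      (fun i hi => by simpa using left_ne_zero_of_mul hi), Finset.sum_mul]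
    exact Finset.sum_congr rfl fun i _ => by ring
  have e2 : ∀ i, ∑ᶠ t, κ (t - i) * (κ i * t ^ r) =
      ∑ j ∈ h.toFinset, κ j * (κ i * (i + j) ^ r) := fun i => by
    rw [← finsum_comp_equiv (Equiv.addLeft i), finsum_eq_sum_of_support_subset (s := h.toFinset) _
      (fun j hj => by simpa using left_ne_zero_of_mul hj)]
    exact Finset.sum_congr rfl fun j _ => by simp
  simp only [e1]
  rw [finsum_sum_comm _ _ fun i _ => fin_mul (fin_shift h i) _]
  simp only [e2, add_pow, Finset.sum_mul_sum]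
  simp only [Finset.mul_sum]
  rw [Finset.sum_comm (s := Finset.range (r + 1))]
  refine Finset.sum_congr rfl fun i _ => ?_
  rw [Finset.sum_comm (s := Finset.range (r + 1))]
  exact Finset.sum_congr rfl fun j _ => Finset.sum_congr rfl fun s _ => by ring

lemma fin_conv {κ : ℤ → ℤ} (h : (support κ).Finite) : (support (conv κ κ)).Finite := by
  refine (h.image2 (· + ·) h).subset fun t ht => ?_
  by_contra e
  refine ht (finsum_eq_zero_of_forall_eq_zero fun i => ?_)
  by_contra e'
  exact e ⟨i, left_ne_zero_of_mul e', t - i, right_ne_zero_of_mul e', by simp⟩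

lemma supp_dbl {κ : ℤ → ℤ} (h : (support κ).Finite) :
    support (dbl κ) ⊆ h.toFinset.image (2 * ·) := fun t ht => by
  rw [mem_support, dbl] at ht
  split_ifs at ht with e
  · simp only [Finset.coe_image, Set.Finite.coe_toFinset]
    exact ⟨t / 2, ht, by simp only; omega⟩
  · exact absurd rfl ht

lemma mom_dbl {κ : ℤ → ℤ} (h : (support κ).Finite) (r : ℕ) :
    ∑ᶠ t, dbl κ t * t ^ r = 2 ^ r * ∑ i ∈ h.toFinset, κ i * i ^ r := by
  rw [finsum_eq_sum_of_support_subset (s := h.toFinset.image (2 * ·)) _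
    (fun t ht => supp_dbl h (left_ne_zero_of_mul ht)),
    Finset.sum_image fun a _ b _ e => by simpa using e, Finset.mul_sum]
  refine Finset.sum_congr rfl fun i _ => ?_
  rw [dbl, if_pos (dvd_mul_right _ _), Int.mul_ediv_cancel_left _ two_ne_zero]
  ring

lemma dl_pl (r : ℕ) (f : ℤ → ℤ) : dl^[r] (pl^[r] (dbl f)) = dbl (dl^[r] f) := by
  have c : Function.Commute dl pl := fun u => by ext t; simp only [dl, dg, pl]; ring
  have s : Semiconj dbl dl (dl ∘ pl) := fun u => by
    ext t
    simp only [dl, dg, pl, dbl, comp]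
    by_cases e : (2 : ℤ) ∣ t
    · rw [if_pos e, if_pos e, if_neg (by omega), if_pos (by omega),
        show (t - 1 - 1) / 2 = t / 2 - 1 by omega]
      ring
    · rw [if_neg e, if_neg e, if_neg (show ¬ (2 : ℤ) ∣ t - 1 - 1 by omega)]
      ring
  rw [s.iterate_right r f, c.comp_iterate]
  rfl

end RRNx

open RRNx Function in
theorem p_RRN (hBN : S_BN) (hGF : S_GF) :
    S_RRN := by
  intro n h g hn hb h0 hpos hF
  set κ := dl^[n + 1] h with hκ
  have bκ : Bdd κ := bdd_dl hb _
  have fκ : (support κ).Finite := fin_of bκ h0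
  set M : ℕ → ℤ := fun r => ∑ i ∈ fκ.toFinset, κ i * i ^ r with hM
  set F : ℤ → ℤ := fun t => dl^[n + 1] (conv h h) t - pl^[n + 1] (dbl h) t - 2 * bn n (t + -g)
    with hFd
  have fF : (support F).Finite := by
    refine fin_of ?_ (hF.mono fun t ht => by
      simp only [hFd]; rw [← sub_eq_add_neg, ht, sub_self])
    obtain ⟨b1, h1⟩ := bdd_dl (bdd_conv hb hb) (n + 1)
    obtain ⟨b2, h2⟩ := bdd_pl (bdd_dbl hb) (n + 1)
    refine ⟨min (min b1 b2) g, fun t ht => ?_⟩
    simp only [hFd]
    rw [h1 t (by omega), h2 t (by omega), bn, if_neg (by omega)]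
    rfl
  have dF : ∀ t, dl^[n + 1] F t = conv κ κ t - dbl κ t - 2 * if t = g then 1 else 0 := fun t => by
    rw [hFd, dg_iter_sub, dg_iter_sub, dg_iter_mul, dg_iter_shift]
    congr 2
    · change dl^[n + 1] (dl^[n + 1] (conv h h)) t = _
      rw [hGF _ _ _ hb hb, conv_comm, hGF _ _ _ hb bκ]
    · exact congrFun (dl_pl _ h) t
    · rw [hBN.2.1]
      exact if_congr (by omega) rfl rfl
  have fδ : (support fun t : ℤ => (2 : ℤ) * if t = g then 1 else 0).Finite :=
    (Set.finite_singleton g).subset fun t ht => by by_contra e; exact ht (by simp [show t ≠ g from e])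
  have fd : (support (dbl κ)).Finite := (Finset.finite_toSet _).subset (supp_dbl fκ)
  have hrec : ∀ r, r ≤ n → ∑ s ∈ Finset.range (r + 1), (r.choose s : ℤ) * (M s * M (r - s)) =
      2 ^ r * M r + 2 * g ^ r := fun r hr => by
    have e := parts (n + 1) F (fun i => i ^ r) fF (fwdDiff_iter_pow_eq_zero_of_lt (by omega))
    simp only [dF, sub_mul] at e
    rw [finsum_sub_distrib _ (fin_mul fδ _), finsum_sub_distrib (fin_mul (fin_conv fκ) _)
      (fin_mul fd _), mom_conv fκ, mom_dbl fκ,
      finsum_eq_single _ g fun t ht => by simp [ht]] at e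
    · simp only [if_true] at e
      linear_combination e
    · exact ((fin_mul (fin_conv fκ) _).union (fin_mul fd _)).subset (support_sub _ _)
  have M0 : M 0 = 2 := by
    obtain ⟨T, hT1, hT2⟩ := (hpos.and (eventually_forall_ge_atTop.mpr h0)).exists
    obtain ⟨b, hb'⟩ := bdd_dl hb n
    set u : ℤ → ℤ := fun t => if t ≤ T then dl^[n] h t else 0 with hu
    have fu : (support u).Finite := fin_of ⟨b, fun t ht => by simp [hu, hb' t ht]⟩
      (eventually_atTop.mpr ⟨T + 1, fun t ht => if_neg (by omega)⟩)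
    have du : ∀ t, dl^[1] u t * 1 = κ t * t ^ 0 - if t = T + 1 then dl^[n] h T else 0 := fun t => by
      simp only [iterate_one, dl, dg, hu, pow_zero, mul_one]
      rcases lt_trichotomy t (T + 1) with c | c | c
      · rw [if_pos (by omega), if_pos (by omega), if_neg c.ne, sub_zero, hκ, dl_succ]
      · rw [if_neg (by omega), if_pos (by omega), if_pos c, show κ t = 0 from hT2 t (by omega), c,
          add_sub_cancel_right]
      · rw [if_neg (by omega), if_neg (by omega), if_neg c.ne', show κ t = 0 from hT2 t (by omega)]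
    have e := parts 1 u (fun _ => 1) fu (by ext t; simp [fwdDiff])
    simp only [du] at e
    rw [finsum_sub_distrib (fin_mul fκ _) ((Set.finite_singleton (T + 1)).subset fun t ht => by
      by_contra e'; exact ht (if_neg e')), finsum_eq_single _ (T + 1) fun t ht => if_neg ht,
      finsum_eq_sum_of_support_subset (s := fκ.toFinset) _
        (fun j hj => by simpa using left_ne_zero_of_mul hj), if_pos rfl] at e
    have e0 : 0 ≤ M 0 := by simp only [hM]; linarith
    have e1 := hrec 0 (by omega)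
    simp only [zero_add, Finset.range_one, Finset.sum_singleton, Nat.choose_self, Nat.cast_one,
      Nat.sub_self, pow_zero] at e1
    have e2 : (M 0 - 2) * (M 0 + 1) = 0 := by linear_combination e1
    rcases mul_eq_zero.mp e2 with e3 | e3 <;> omega
  have M1 : M 1 = g := by
    have e1 := hrec 1 (by omega)
    simp [Finset.sum_range_succ, M0] at e1
    omega
  have par : (2 : ℤ) ∣ g ^ 2 - M 2 := by
    have e1 : (2 : ℤ) ∣ M 2 - M 1 := by
      simp only [hM]
      rw [← Finset.sum_sub_distrib]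
      refine Finset.dvd_sum fun i _ => ?_
      rw [← mul_sub, show i ^ 2 - i ^ 1 = i * (i - 1) by ring]
      exact (Int.even_mul_pred_self i).two_dvd.mul_left _
    have e2 : (2 : ℤ) ∣ g * (g - 1) := (Int.even_mul_pred_self g).two_dvd
    rw [show g ^ 2 - M 2 = g * (g - 1) - (M 2 - M 1) by rw [M1]; ring]
    exact dvd_sub e2 e1
  obtain ⟨c₂, hc₂⟩ := par
  refine ⟨c₂, fun a b hab hp P hP x => ?_⟩
  have hc : (g : ℂ) ^ 2 - M 2 = 2 * c₂ := by exact_mod_cast hc₂
  have hg : -a + -b = g := by linear_combination -hab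
  have key := moments n (fun r => (M r : ℂ)) (-a) (-b) (by simp [M0])
    (by linear_combination -hc + 2 * hp - (-a + -b + g) * hg) fun r hr => by
      rw [hg]; exact_mod_cast hrec r hr
  rw [finsum_eq_sum_of_support_subset (s := fκ.toFinset) _
    (fun j hj => by simpa using left_ne_zero_of_mul hj)]
  refine sum_eval_eq n _ κ a b (fun r hr => ?_) P hP x
  have e := key r hr
  simp only [hM] at e
  push_cast at e
  rw [← neg_neg a, ← neg_neg b, neg_pow (-a), neg_pow (-b), ← mul_add, ← e, Finset.mul_sum]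
  exact Finset.sum_congr rfl fun i _ => by rw [neg_pow]; ring

end Pool.Agent.P.MP_b01859_ag.SD
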