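import Pool.Agent.P.MP_b01859_ag.SD.Iface

/-! Step SAND. -/

set_option autoImplicit false
set_option linter.unusedSectionVars false

namespace Pool.Agent.P.MP_b01859_ag.SD

open MvPolynomial Filter

namespace SANDx

lemma le_of_inj {V W : Type} [AddCommGroup V] [Module ℂ V] [AddCommGroup W] [Module ℂ W]
    (f : V →ₗ[ℂ] W) (A : Submodule ℂ V) (B : Submodule ℂ W) [Module.Finite ℂ B]
    (h : ∀ x ∈ A, f x ∈ B) (hi : ∀ x ∈ A, f x = 0 → x = 0) :
    Module.Finite ℂ A ∧ Module.finrank ℂ A ≤ Module.finrank ℂ B := by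
  have hinj : Function.Injective (f.restrict h) := by
    rw [← LinearMap.ker_eq_bot, LinearMap.ker_eq_bot']
    intro x hx
    exact Subtype.ext (hi x.1 x.2 (congrArg Subtype.val hx))
  exact ⟨Module.Finite.of_injective _ hinj, LinearMap.finrank_le_finrank_of_injective hinj⟩

lemma ss_fin (σ : Type) [Fintype σ] (t : ℤ) : Module.Finite ℂ (SS σ t) := by
  refine (le_of_inj LinearMap.id (SS σ t) (restrictTotalDegree σ ℂ t.toNat) (fun f hf => ?_)
    fun _ _ h => h).1
  rw [LinearMap.id_apply, mem_restrictTotalDegree, totalDegree]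
  refine Finset.sup_le fun d hd => ?_
  have h := hf (mem_support_iff.1 hd)
  have h2 : Finsupp.weight (w1 σ) d = ((d.sum fun _ e => e : ℕ) : ℤ) := by
    simp [Finsupp.weight_apply, Finsupp.sum]
  rw [h2] at h
  omega

variable {σ ι Λ : Type} [Fintype σ] [Fintype ι] [Fintype Λ]

lemma ev_lf [DecidableEq ι] (p : Ideal (Pol σ)) (u : ι → Pol σ) (a : ι) :
    eval (Pi.single a (1 : Pol σ ⧸ p)) (lf p u) = Ideal.Quotient.mk p (u a) := by
  simp only [lf, map_sum, map_mul, eval_C, eval_X]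
  rw [Finset.sum_eq_single a]
  · simp
  · intro b _ hb
    simp [hb]
  · simp

lemma prop_lf {p : Ideal (Pol σ)} {v : Λ → ι → Pol σ} (h : PropW p v) (l k : Λ) (a : ι) :
    C (Ideal.Quotient.mk p (v l a)) * lf p (v k) =
      C (Ideal.Quotient.mk p (v k a)) * lf p (v l) := by
  simp only [lf, Finset.mul_sum, ← mul_assoc, ← map_mul]
  refine Finset.sum_congr rfl fun b _ => ?_
  have : Ideal.Quotient.mk p (v l a * v k b) = Ideal.Quotient.mk p (v k a * v l b) := by
    rw [Ideal.Quotient.eq, mul_comm (v k a)]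
    exact h l k a b
  rw [this]

end SANDx

open SANDx in
theorem p_SAND (hALGB : S_ALGB) :
    S_SAND := by
  classical
  intro σ ι Λ _ _ _ γ p v α hp hv hP ⟨l, a, hla⟩ m hm
  obtain ⟨m, rfl⟩ := Int.eq_ofNat_of_zero_le hm
  obtain ⟨-, -, -, hspan, -, -⟩ := hALGB σ ι Λ p v
  have := hp
  have hne : Ideal.Quotient.mk p (v l a) ≠ 0 := fun h => hla (Ideal.Quotient.eq_zero_iff_mem.1 h)
  have hC : (C (Ideal.Quotient.mk p (v l a)) : AP ι p) ≠ 0 := by
    rwa [Ne, C_eq_zero]
  have hlf : lf p (v l) ≠ 0 := fun h => hne (by rw [← ev_lf p (v l) a, h, map_zero])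
  have fin : ∀ t, Module.Finite ℂ ((SS σ t).map (Ideal.Quotient.mkₐ ℂ p).toLinearMap) := fun t => by
    have := ss_fin σ t
    infer_instance
  let ev : AP ι p →ₗ[ℂ] (Pol σ ⧸ p) :=
    ((aeval (Pi.single a (1 : Pol σ ⧸ p)) : AP ι p →ₐ[Pol σ ⧸ p] (Pol σ ⧸ p)).toLinearMap).restrictScalars ℂ
  have hev : ∀ z, ev z = eval (Pi.single a (1 : Pol σ ⧸ p)) z := fun z => rfl
  let mu : (Pol σ ⧸ p) →ₗ[ℂ] AP ι p :=
    (LinearMap.toSpanSingleton (Pol σ ⧸ p) (AP ι p) (lf p (v l) ^ m)).restrictScalars ℂ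
  have hmu : ∀ f, mu f = C f * lf p (v l) ^ m := fun f => smul_eq_C_mul _ _
  refine ⟨m * (γ a + α), fun t => ?_⟩
  have key : ∀ z ∈ Al p v m t,
      ev z ∈ (SS σ (t + m * (γ a + α))).map (Ideal.Quotient.mkₐ ℂ p).toLinearMap ∧
      C (Ideal.Quotient.mk p (v l a)) ^ m * z = mu (ev z) := by
    intro z hz
    rw [hspan] at hz
    induction hz using Submodule.span_induction with
    | mem z hz =>
      obtain ⟨f, e, hf, rfl⟩ := hz
      have h1 : ev (C (Ideal.Quotient.mk p f) * ∏ i, lf p (v (e i))) =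
          Ideal.Quotient.mk p (f * ∏ i, v (e i) a) := by
        rw [hev, map_mul, map_prod, eval_C, map_mul, map_prod]
        simp only [ev_lf]
      rw [h1]
      refine ⟨⟨f * ∏ i, v (e i) a, ?_, rfl⟩, ?_⟩
      · have := IsWeightedHomogeneous.prod Finset.univ (fun i => v (e i) a) (fun _ => γ a + α)
          (fun i _ => hv (e i) a)
        rw [Finset.sum_const, Finset.card_univ, Fintype.card_fin, nsmul_eq_mul] at this
        exact hf.mul this
      · have h2 : C (Ideal.Quotient.mk p (v l a)) ^ m * ∏ i, lf p (v (e i)) =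
            (∏ i, C (Ideal.Quotient.mk p (v (e i) a))) * lf p (v l) ^ m := by
          have e1 : ∀ x : AP ι p, x ^ m = ∏ _i : Fin m, x := fun x => by simp
          rw [e1, e1, ← Finset.prod_mul_distrib, ← Finset.prod_mul_distrib]
          exact Finset.prod_congr rfl fun i _ => prop_lf hP l (e i) a
        rw [hmu, mul_left_comm, h2, map_mul, map_mul, map_prod, map_prod, mul_assoc]
    | zero => simp
    | add x y _ _ hx hy =>
      rw [map_add, map_add]
      exact ⟨add_mem hx.1 hy.1, by rw [mul_add, hx.2, hy.2]⟩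
    | smul c x _ hx =>
      rw [map_smul, map_smul, mul_smul_comm, hx.2]
      exact ⟨Submodule.smul_mem _ c hx.1, rfl⟩
  have := fin (t + m * (γ a + α))
  obtain ⟨f1, f2⟩ := le_of_inj ev (Al p v m t) _ (fun z hz => (key z hz).1) (fun z hz h0 => by
    have := (key z hz).2
    rw [h0, map_zero] at this
    exact (mul_eq_zero.1 this).resolve_left (pow_ne_zero _ hC))
  have g1 : ∀ x ∈ (SS σ t).map (Ideal.Quotient.mkₐ ℂ p).toLinearMap, mu x ∈ Al p v m t := by
    rintro _ ⟨f, hf, rfl⟩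
    rw [hspan, hmu]
    exact Submodule.subset_span ⟨f, fun _ => l, hf, by simp⟩
  have g2 : ∀ x ∈ (SS σ t).map (Ideal.Quotient.mkₐ ℂ p).toLinearMap, mu x = 0 → x = 0 := by
    intro f _ h0
    rw [hmu] at h0
    exact C_eq_zero.1 ((mul_eq_zero.1 h0).resolve_right (pow_ne_zero _ hlf))
  have f3 := (le_of_inj (V := Pol σ ⧸ p) (W := AP ι p) mu _ (Al p v m t) g1 g2).2
  exact ⟨Int.ofNat_le.2 f3, Int.ofNat_le.2 f2⟩

end Pool.Agent.P.MP_b01859_ag.SD
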