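import Pool.Agent.P.MP_b01859_ag.SD.Iface
import Pool.Agent.P.MP_b01859_ag.SD.Api

/-! Step SEQA. -/

set_option autoImplicit false
set_option linter.unusedSectionVars false

namespace Pool.Agent.P.MP_b01859_ag.SD

open MvPolynomial Filter

namespace SEQAx

theorem rk {V W : Type} [AddCommGroup V] [Module ℂ V] [AddCommGroup W] [Module ℂ W]
    (f : V →ₗ[ℂ] W) (S : Submodule ℂ V) [FiniteDimensional ℂ S] :
    Module.finrank ℂ (S.map f) + Module.finrank ℂ (S ⊓ LinearMap.ker f : Submodule ℂ V) =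
      Module.finrank ℂ S := by
  have h := LinearMap.finrank_range_add_finrank_ker (f.domRestrict S)
  rw [LinearMap.range_domRestrict, LinearMap.ker_domRestrict] at h
  rw [← h]
  congr 1
  rw [← Submodule.finrank_map_subtype_eq S, Submodule.map_comap_subtype]

theorem rk_inj {V W : Type} [AddCommGroup V] [Module ℂ V] [AddCommGroup W] [Module ℂ W]
    (f : V →ₗ[ℂ] W) (hf : Function.Injective f) (S : Submodule ℂ V) :
    Module.finrank ℂ (S.map f) = Module.finrank ℂ S :=
  (Submodule.equivMapOfInjective f hf S).finrank_eq.symm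

end SEQAx

theorem p_SEQA (hWD : S_WD) (hBN : S_BN) :
    S_SEQA := by
  intro σ ι _ _ n T γ g hcard hn hG φ α hφ hp
  have : Nontrivial σ := Fintype.one_lt_card_iff_nontrivial.1 (by omega)
  have hb : ∀ t, ((Module.finrank ℂ (SS σ t) : ℕ) : ℤ) = bn n t := fun t =>
    congrFun (hBN.2.2.2.2.2.2 σ n hcard).1 t
  filter_upwards [ev_shift' (hWD σ ι (Pol σ) T γ g X (SS σ) hG cl_SS sub_SS) α] with t ht
  set I : Ideal (Pol σ) := Ideal.span (Set.range φ.1) with hI
  set E : Submodule ℂ (ι → Pol σ) := EN T γ X (SS σ) (t - α) with hE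
  have : FiniteDimensional ℂ E := (sub_EN (T := T) (γ := γ) (x := X) sub_SS).fin (t - α)
  let j : T.N →ₗ[ℂ] (ι → Pol σ) := T.N.subtype.restrictScalars ℂ
  have hj : Function.Injective j := Subtype.val_injective
  let S : Submodule ℂ T.N := E.comap j
  have hmem : ∀ ψ : ι → Pol σ, ψ ∈ E ↔ (∀ a, Hom (ψ a) (t - α + γ a - g)) ∧ ψ ∈ T.N := by
    intro ψ
    rw [ht, mem_WN]
    simp only [aeval_X_left, AlgHom.coe_id, id_eq]
    rfl
  have hSE : S.map j = E := by
    refine Submodule.map_comap_eq_self ?_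
    intro ψ hψ
    exact ⟨⟨ψ, ((hmem ψ).1 hψ).2⟩, rfl⟩
  have : FiniteDimensional ℂ S := by
    have : FiniteDimensional ℂ (S.map j) := by rw [hSE]; infer_instance
    exact (Submodule.equivMapOfInjective j hj S).symm.finiteDimensional
  have hS : Module.finrank ℂ S = Module.finrank ℂ E := by rw [← hSE, SEQAx.rk_inj j hj]
  let Φ : T.N →ₗ[ℂ] Pol σ := (T.B φ).restrictScalars ℂ
  let q : Pol σ →ₗ[ℂ] (Pol σ ⧸ I) := (Ideal.Quotient.mkₐ ℂ I).toLinearMap
  have hrow : ∀ (m : ι → Pol σ), T.B φ (∑ s, m s • T.row s) = ∑ s, m s * φ.1 s := by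
    intro m
    simp only [map_sum, map_smul, T.B_row, smul_eq_mul]
  have hval : ∀ (m : ι → Pol σ) (a : ι), (∑ s, m s • T.row s).1 a = ∑ s, T.ω s a * m s := by
    intro m a
    simp only [Submodule.coe_sum, Finset.sum_apply, Submodule.coe_smul, Pi.smul_apply,
      VB.row_val, smul_eq_mul, mul_comm]
  have h1 : S.map Φ = SS σ t ⊓ LinearMap.ker q := by
    ext f
    have hq : f ∈ LinearMap.ker q ↔ f ∈ I := by
      rw [LinearMap.mem_ker]; exact Ideal.Quotient.eq_zero_iff_mem
    rw [Submodule.mem_inf, hq]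
    constructor
    · rintro ⟨ψ, ⟨m, hm, hψ⟩, rfl⟩
      have e : ψ = ∑ s, m s • T.row s := by
        refine VB.N_ext fun a => ?_
        rw [hval]
        have e0 := hψ a
        simp only [aeval_X_left, AlgHom.coe_id, id_eq] at e0
        exact e0
      have e2 : Φ ψ = ∑ s, m s * φ.1 s := by rw [e]; exact hrow m
      rw [e2]
      refine ⟨Submodule.sum_mem _ fun s _ => ?_, Submodule.sum_mem _ fun s _ => ?_⟩
      · exact hom_congr (IsWeightedHomogeneous.mul (hm s) (hφ s)) (by ring)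
      · exact Ideal.mul_mem_left _ _ (Ideal.subset_span ⟨s, rfl⟩)
    · rintro ⟨hf, hfI⟩
      obtain ⟨c, hc⟩ := Ideal.mem_span_range_iff_exists_fun.1 hfI
      refine ⟨∑ s, weightedHomogeneousComponent (w1 σ) (t - α - γ s) (c s) • T.row s,
        ⟨fun s => weightedHomogeneousComponent (w1 σ) (t - α - γ s) (c s),
          fun s => weightedHomogeneousComponent_isWeightedHomogeneous _ _, fun a => ?_⟩, ?_⟩
      · simp only [aeval_X_left, AlgHom.coe_id, id_eq]
        exact hval _ a
      · have e2 := hrow fun s => weightedHomogeneousComponent (w1 σ) (t - α - γ s) (c s)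
        refine e2.trans ?_
        have e3 : weightedHomogeneousComponent (w1 σ) t f = f :=
          IsWeightedHomogeneous.weightedHomogeneousComponent_same hf
        rw [← e3, ← hc, map_sum]
        refine Finset.sum_congr rfl fun s _ => ?_
        have e4 := comp_mul (hφ s) (t - α - γ s) (c s)
        rw [show γ s + α + (t - α - γ s) = t by ring] at e4
        rw [mul_comm (c s), e4, mul_comm]
  let μ : Pol σ →ₗ[ℂ] T.N := (LinearMap.toSpanSingleton (Pol σ) T.N φ).restrictScalars ℂ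
  have hμ : Function.Injective μ := by
    intro f f' h
    have h' : f • φ = f' • φ := h
    exact smul_left_injective (Pol σ) (VB.ne_zero_of_prim hp) h'
  have h2 : S ⊓ LinearMap.ker Φ = (SS σ (t - 2 * α - g)).map μ := by
    ext ψ
    constructor
    · rintro ⟨hψ, hk⟩
      obtain ⟨f, rfl⟩ := VB.eq_smul_of_B hp (show T.B φ ψ = 0 from hk)
      refine ⟨f, ?_, rfl⟩
      have h3 : VB.HomN (w1 σ) γ (f • φ) (t - α - g) := fun a =>
        hom_congr (((hmem _).1 hψ).1 a) (by ring)
      exact hom_congr (hφ.coef (VB.ne_zero_of_prim hp) h3) (by ring)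
    · rintro ⟨f, hf, rfl⟩
      refine ⟨(hmem _).2 ⟨fun a => ?_, (μ f).2⟩, ?_⟩
      · exact hom_congr (VB.HomN.smul hf hφ a) (by ring)
      · show T.B φ (f • φ) = 0
        rw [map_smul, VB.B_self, smul_zero]
  have r1 := SEQAx.rk Φ S
  have r2 := SEQAx.rk q (SS σ t)
  rw [h1, h2, SEQAx.rk_inj μ hμ, hS] at r1
  have b1 := hb t
  have b2 := hb (t - 2 * α - g)
  show ((Module.finrank ℂ ((SS σ t).map q) : ℕ) : ℤ) =
    bn n t - ((Module.finrank ℂ E : ℕ) : ℤ) + bn n (t - 2 * α - g)
  omega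

end Pool.Agent.P.MP_b01859_ag.SD
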