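import Pool.Agent.P.MP_b01859_ag.SD.Iface

/-! Step SEQN. -/

set_option autoImplicit false
set_option linter.unusedSectionVars false

namespace Pool.Agent.P.MP_b01859_ag.SD

open MvPolynomial Filter

namespace SEQNx

theorem coeff_sh (c : ℂ) (Q : Polynomial ℂ) (j : ℕ) (h : Q.natDegree ≤ j + 1) :
    (sh c Q).coeff j = Q.coeff j + (j + 1) * Q.coeff (j + 1) * c := by
  have h1 : (Polynomial.hasseDeriv j Q).natDegree < 2 :=
    lt_of_le_of_lt (Polynomial.natDegree_hasseDeriv_le Q j) (by omega)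
  rw [sh, ← Polynomial.taylor_apply, Polynomial.taylor_coeff, Polynomial.eval_eq_sum_range' h1]
  simp [Finset.sum_range_succ, Polynomial.hasseDeriv_coeff, add_comm 1 j]

theorem drop (c : ℂ) (Q : Polynomial ℂ) (k : ℕ) (h : Q.natDegree ≤ k + 1) :
    (Q - sh c Q).natDegree ≤ k ∧ (Q - sh c Q).coeff k = -(c * (k + 1) * Q.coeff (k + 1)) := by
  refine ⟨Polynomial.natDegree_le_iff_coeff_eq_zero.2 fun j hj => ?_, ?_⟩
  · rw [Polynomial.coeff_sub, coeff_sh c Q j (by omega),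
      Polynomial.coeff_eq_zero_of_natDegree_lt (p := Q) (n := j + 1) (by omega)]
    ring
  · rw [Polynomial.coeff_sub, coeff_sh c Q k h]; ring

theorem eval_sh (c x : ℂ) (Q : Polynomial ℂ) : (sh c Q).eval x = Q.eval (x + c) := by
  simp [sh]

theorem shift {p : ℤ → Prop} (h : ∀ᶠ t in atTop, p t) (d : ℤ) : ∀ᶠ t in atTop, p (t - d) := by
  obtain ⟨a, ha⟩ := eventually_atTop.1 h
  exact eventually_atTop.2 ⟨a + d, fun t ht => ha _ (by omega)⟩

end SEQNx

theorem p_SEQN (hPOLY : S_POLY) (hBN : S_BN) :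
    S_SEQN := by
  intro n h f g c₂ α a b hn hab hc hh hf
  obtain ⟨k, rfl⟩ := Nat.exists_eq_add_of_le' hn
  obtain ⟨-, -, hb, hdeg, -⟩ := hBN
  obtain ⟨hd1, hd2⟩ := hdeg (k + 2)
  have hb' := hb (k + 2)
  generalize bp (k + 2) = P at hh hb' hd1 hd2
  obtain ⟨e1, e2⟩ := SEQNx.drop (a - α) P (k + 1) hd1.le
  obtain ⟨e3, e4⟩ := SEQNx.drop (b - α) (P - sh (a - α) P) k e1
  have hE : EvP f ((P - sh (a - α) P) - sh (b - α) (P - sh (a - α) P)) := by
    filter_upwards [hf, hb', SEQNx.shift hh α, SEQNx.shift hb' (2 * α + g)] with t h1 h2 h3 h4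
    rw [h1, show t - 2 * α - g = t - (2 * α + g) by ring]
    simp only [Int.cast_add, Int.cast_sub, h2, Polynomial.eval_sub, Polynomial.eval_add,
      SEQNx.eval_sh] at h3 ⊢
    rw [h3, h4]
    have q1 : (t : ℂ) - α + a = t + (a - α) := by ring
    have q2 : (t : ℂ) - α + b = t + (b - α) := by ring
    have q3 : ((t - (2 * α + g) : ℤ) : ℂ) = t + (b - α) + (a - α) := by
      push_cast; linear_combination -hab
    rw [q1, q2, q3]; ring
  have hF := hPOLY.2.2.1 k f _ hE e3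
  simp only [Nat.add_sub_cancel]
  filter_upwards [hF] with t ht
  have hk : ((k + 2).factorial : ℂ) = (k + 2) * ((k + 1) * k.factorial) := by
    rw [Nat.factorial_succ, Nat.factorial_succ]; push_cast; ring
  have k0 : (k.factorial : ℂ) ≠ 0 := Nat.cast_ne_zero.2 k.factorial_ne_zero
  have k1 : (k : ℂ) + 1 ≠ 0 := by exact_mod_cast Nat.succ_ne_zero k
  have k2 : (k : ℂ) + 2 ≠ 0 := by exact_mod_cast Nat.succ_ne_zero (k + 1)
  rw [e4, e2, hd2, hk] at ht
  have : ((dl^[k] f t : ℤ) : ℂ) = (qq g c₂ α : ℤ) := by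
    rw [ht, qq]
    push_cast
    rw [← hc, show (g : ℂ) = -(a + b) by rw [hab]; ring]
    field_simp
    ring
  exact_mod_cast this

end Pool.Agent.P.MP_b01859_ag.SD
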