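import Pool.Agent.P.MP_b01859_ag.SD.Iface
import Pool.Agent.P.MP_b01859_ag.Horr

/-! Step SPL0. -/

set_option autoImplicit false
set_option linter.unusedSectionVars false

namespace Pool.Agent.P.MP_b01859_ag.SD

open MvPolynomial Filter

theorem p_SPL0 :
    S_SPL0 := by
  intro σ ι _ _ T φ h3 hφ
  classical
  obtain ⟨x₁, x₂, x₃, h12, h13, h23⟩ := Fintype.two_lt_card_iff.mp (show 2 < Fintype.card σ from h3)
  have : Nontrivial σ := ⟨⟨x₁, x₂, h12⟩⟩
  have hrad : ∀ s : σ, (X s : Pol σ) ∈ (Ideal.span (Set.range φ.1)).radical := by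
    intro s
    rw [← vanishingIdeal_zeroLocus_eq_radical (K := ℂ), mem_vanishingIdeal_iff]
    intro y hy
    rw [mem_zeroLocus_iff] at hy
    have y0 : y = 0 := by
      by_contra h
      obtain ⟨a, ha⟩ := hφ y h
      exact ha (by simpa using hy _ (Ideal.subset_span ⟨a, rfl⟩))
    simp [y0]
  have hpr : ∀ p : Ideal (Pol σ), p.IsPrime → Ideal.span (Set.range φ.1) ≤ p →
      ∀ s : σ, X s ∈ p := fun p hp hI s => (hp.radical_le_iff.2 hI) (hrad s)
  obtain ⟨N, hN⟩ := exists_pow_mem (A := Set.univ) (I := Ideal.span (Set.range φ.1))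
    fun p hp hI s _ => hpr p hp hI s
  have hprim : Prim φ.1 := by
    refine prim_of_primes h12 fun p hp h => ?_
    by_contra hcon
    push Not at hcon
    have hI : Ideal.span (Set.range φ.1) ≤ p := by
      rw [Ideal.span_le]
      rintro _ ⟨a, rfl⟩
      exact hcon a
    rcases h with h | h
    · exact h (hpr p hp hI _)
    · exact h (hpr p hp hI _)
  have hψ : ∀ s : σ, ∃ ψ : T.N, T.B φ ψ = X s ^ N := by
    intro s
    obtain ⟨u, hu⟩ := (Submodule.mem_span_range_iff_exists_fun _).mp (hN s trivial)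
    refine ⟨∑ t, u t • T.row t, ?_⟩
    rw [← hu, map_sum]
    exact Finset.sum_congr rfl fun t _ => by rw [map_smul, VB.B_row]
  choose ψ hψ using hψ
  have hc : ∀ s t : σ, ∃ a : Pol σ, ∀ l,
      X t ^ N * (ψ s).1 l - X s ^ N * (ψ t).1 l = a * φ.1 l := by
    intro s t
    obtain ⟨a, ha⟩ := VB.eq_smul_of_B hprim
      (φ := (X t ^ N : Pol σ) • ψ s - (X s ^ N : Pol σ) • ψ t) (by
        rw [map_sub, map_smul, map_smul, hψ, hψ, smul_eq_mul, smul_eq_mul]; ring)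
    refine ⟨a, fun l => ?_⟩
    have := congrFun (congrArg Subtype.val ha) l
    simpa using this
  obtain ⟨a₁, f₁⟩ := hc x₁ x₂
  obtain ⟨a₂, f₂⟩ := hc x₁ x₃
  obtain ⟨a₃, f₃⟩ := hc x₂ x₃
  obtain ⟨l₀, hl₀⟩ := hprim.exists_ne
  have hw : kl ({x₁, x₂}ᶜ : Set σ) (X x₃ ^ N) ≠ 0 := by
    rw [map_pow, kl_X_mem (by simp [h13.symm, h23.symm])]
    exact pow_ne_zero _ (X_ne_zero _)
  obtain ⟨a, a', ha⟩ := primary_xy h12 hw N N a₁ (-a₃) a₂ (mul_left_cancel₀ hl₀ (by
    linear_combination -X x₃ ^ N * f₁ l₀ + X x₂ ^ N * f₂ l₀ - X x₁ ^ N * f₃ l₀))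
  have hX : (X x₁ : Pol σ) ^ N ≠ 0 := pow_ne_zero _ (X_ne_zero _)
  obtain ⟨χ, hχ⟩ := VB.div hX (ψ x₁ - a' • φ) fun t =>
    X_pow_dvd_of_mul h12 (b := N) ⟨(ψ x₂).1 t + a * φ.1 t, by
      have := f₁ t
      rw [ha] at this
      simp only [Submodule.coe_sub, Submodule.coe_smul, Pi.sub_apply, Pi.smul_apply, smul_eq_mul]
      linear_combination this⟩
  have h1 : T.B φ χ = 1 := by
    apply mul_left_cancel₀ hX
    have := congrArg (T.B φ) hχ
    rw [map_sub, map_smul, map_smul, hψ, VB.B_self, smul_zero, sub_zero, smul_eq_mul] at this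
    rw [← this, mul_one]
  exact VB.sp_of_unit (φ := φ) (ψ := χ) (by rw [h1]; exact isUnit_one)

end Pool.Agent.P.MP_b01859_ag.SD
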