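import Pool.Agent.P.MP_b01859_ag.SD.Iface

/-! Step STEP. -/

set_option autoImplicit false
set_option linter.unusedSectionVars false

namespace Pool.Agent.P.MP_b01859_ag.SD

open MvPolynomial Filter

theorem p_STEP (hHQ : S_HQ) (hALGB : S_ALGB) (hC1 : S_C1) (hC2 : S_C2) (hPOLY : S_POLY) (hGROW : S_GROW) (hSAND : S_SAND) (hSYM0 : S_SYM0) (hSYP1 : S_SYP1) (hSYP2 : S_SYP2) (hSTEPN : S_STEPN) :
    S_STEP := by
  intro σ ι Λ _ _ _ n T γ g c₂ a b hCh p v α r hp hv hprop hα hq0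
  obtain ⟨hq1, -, -, -, hq5, hq6⟩ := hHQ σ
  by_cases hall : ∀ l a, v l a ∈ p
  · have : ZI p v = p := by
      refine sup_eq_left.2 (Ideal.span_le.2 ?_)
      rintro _ ⟨la, rfl⟩
      exact hall _ _
    rw [this]
    exact (hq5 p _ r (by omega) hp).dim
  push Not at hall
  intro hev
  obtain ⟨w, δ, hw, hδ, -, hwδ⟩ := hq6 p _ hp.dim
  obtain ⟨r', rfl⟩ : ∃ r', w = r' + 2 := ⟨w - 2, by omega⟩
  have hev' : Ev0 r' (hq (ZI p v)) := hev.mono (by omega)
  have hp0 : Var p 0 := hq5 p _ 0 (by omega) hp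
  obtain ⟨hB, -⟩ := hALGB σ ι Λ p v
  have hE : ∀ m : ℤ, Ev0 (Fintype.card σ) (hd (Al p v m)) := fun m =>
    (hC1 σ (AP ι p) (AP ι p) (xb ι p) _ (hB m).2 (hB m).1).1.1
  choose P _ hP using fun m : ℤ => hPOLY.1 _ _ (hE m)
  have hs2 : Sub (xa p v) (wb σ Λ) (Alg p v) := by unfold Alg; exact gen_sub
  have hc2 : Cl (xa p v) (wb σ Λ) (Alg p v) := by unfold Alg; exact gen_cl
  have hP2 := (hC2 σ Λ (AP ι p) (AP ι p) (xa p v) (Alg p v) hs2 hc2).1
  have hAl : hd (Alg p v) = fun mt : ℤ × ℤ => hd (Al p v mt.1) mt.2 := by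
    funext mt
    unfold hd Al
    rfl
  rw [hAl] at hP2
  refine absurd (hSTEPN (fun mt => hd (Al p v mt.1) mt.2)
    (fun m => hd (EN T γ (xb ι p) (Al p v m))) P r' δ g c₂ α a b
    hCh.sum hCh.mul hδ hα ?_ hP2 ?_) (not_le.2 hq0)
  · intro m hm
    refine ⟨hP m, hCh.rr (AP ι p) (xb ι p) _ (hB m).1 (hB m).2 _ (hP m), ?_⟩
    obtain ⟨e, he⟩ := hSAND σ ι Λ γ p v α hp.prime (fun l => (hv l).1) hprop hall m hm
    have h1 : Ev0 (r' + 2) fun t => hq p (t + e) - hq p t := by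
      filter_upwards [hwδ, ev_shift hwδ e] with t h1 h2
      rw [dg_iter_sub, dg_iter_shift, h1, h2, sub_self]
    have h2 : Ev0 (r' + 2) fun t => hd (Al p v m) t - hq p t :=
      hGROW.2.1 _ _ _ _ (Eventually.of_forall fun t =>
        ⟨sub_nonneg.2 (he t).1, sub_le_sub_right (he t).2 _⟩) ((hE m).sub (hq1 p).1) h1
    filter_upwards [hwδ, h2] with t h3 h4
    rw [dg_iter_sub, h3] at h4
    exact sub_eq_zero.1 h4
  · intro m hm
    have h0 := hSYM0 σ ι Λ T γ g p v α hCh.gr hp0 hv m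
    have h1 := hSYP1 σ ι Λ T γ g p v α hv m (by omega) r'
    have h2 := hSYP2 σ ι Λ T γ p v α r' hp.hom hv hprop hev' m hm
    have h3 := dl_iter_congr r' (f := fun t => hd (EN T γ (xb ι p) (Al p v m)) t -
        hd (Al p v (m + 1)) (t - g - α) - hd (Al p v (m - 1)) (t + α))
      (g := fun t => (hd (ZN T γ g p (Al p v m)) t - hd (Al p v (m + 1)) (t - g - α)) -
        (hd (Al p v (m - 1)) (t + α) - hd (DN γ p (Al p v m)) t)) (by
      filter_upwards [h0] with t h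
      rw [h]
      ring)
    filter_upwards [h1, h2, h3] with t h4 h5 h6
    rw [dg_iter_sub 1 r' (fun t => hd (ZN T γ g p (Al p v m)) t - hd (Al p v (m + 1)) (t - g - α)),
      h5, sub_zero] at h6
    exact h4.trans h6.ge

end Pool.Agent.P.MP_b01859_ag.SD
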