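import Pool.Agent.P.MP_b01859_ag.SD.Iface

/-! Step STEPN. -/

set_option autoImplicit false
set_option linter.unusedSectionVars false

namespace Pool.Agent.P.MP_b01859_ag.SD

open MvPolynomial Filter

namespace STEPNx

theorem slice (j : ℕ) (f : ℤ × ℤ → ℤ) (m t : ℤ) :
    (dg ((0, 1) : ℤ × ℤ))^[j] f (m, t) = dl^[j] (fun t => f (m, t)) t := by
  induction j generalizing t with
  | zero => rfl
  | succ j ih =>
    rw [Function.iterate_succ_apply', Function.iterate_succ_apply']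
    simp only [dg, Prod.mk_sub_mk, sub_zero, ih]

theorem comb (r : ℕ) (u v w : ℤ → ℤ) (k l t : ℤ) :
    dl^[r] (fun t => u t - v (t + k) - w (t + l)) t =
      dl^[r] u t - dl^[r] v (t + k) - dl^[r] w (t + l) := by
  induction r generalizing t with
  | zero => rfl
  | succ r ih =>
    simp only [Function.iterate_succ_apply', dg, ih]
    rw [show t - 1 + k = t + k - 1 by ring, show t - 1 + l = t + l - 1 by ring]
    ring

theorem ev_sh (a x : ℂ) (Q : Polynomial ℂ) : (sh a Q).eval x = Q.eval (x + a) := by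
  simp [sh, Polynomial.eval_comp]

theorem ev_it (r : ℕ) (Q : Polynomial ℂ) (a b x : ℂ) :
    ((fun Q => Q - sh (-1) Q)^[r] (sh a Q + sh b Q)).eval x =
      ((fun Q => Q - sh (-1) Q)^[r] Q).eval (x + a) +
        ((fun Q => Q - sh (-1) Q)^[r] Q).eval (x + b) := by
  induction r generalizing x with
  | zero => simp [ev_sh]
  | succ r ih =>
    simp only [Function.iterate_succ_apply', Polynomial.eval_sub, ev_sh, ih]
    rw [show x + -1 + a = x + a + -1 by ring, show x + -1 + b = x + b + -1 by ring]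
    ring

theorem shift (p : ℤ → Prop) (k : ℤ) (h : ∀ᶠ t in atTop, p t) : ∀ᶠ t in atTop, p (t + k) :=
  (tendsto_atTop_add_const_right atTop k tendsto_id).eventually h

theorem quad (hPOLY : S_POLY) (f : ℤ → ℤ) (Q : Polynomial ℂ) (δ : ℤ) (h1 : EvP f Q)
    (h2 : ∀ᶠ t in atTop, dl^[2] f t = δ) :
    ∃ b c : ℂ, ∀ x, Q.eval x = (δ : ℂ) / 2 * x ^ 2 + b * x + c := by
  have h3 : Ev0 3 f := by
    filter_upwards [h2, shift _ (-1) h2] with t a1 a2
    rw [Function.iterate_succ_apply']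
    show dl^[2] f t - dl^[2] f (t - 1) = 0
    rw [a1, sub_eq_add_neg t, a2, sub_self]
  have h4 : Q.degree < (3 : ℕ) := (hPOLY.2.1 3 f Q h1).1 h3
  have h5 : Q.natDegree ≤ 2 := by
    rcases eq_or_ne Q 0 with h | h
    · simp [h]
    · have := (Polynomial.natDegree_lt_iff_degree_lt h).2 h4
      omega
  obtain ⟨t, a1, a2⟩ := ((hPOLY.2.2.1 2 f Q h1 h5).and h2).exists
  rw [a2] at a1
  refine ⟨Q.coeff 1, Q.coeff 0, fun x => ?_⟩
  rw [Polynomial.eval_eq_sum_range' (n := 3) (by omega), a1]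
  simp [Finset.sum_range_succ, Nat.factorial]
  ring

end STEPNx

open STEPNx in
theorem p_STEPN (hPOLY : S_POLY) :
    S_STEPN := by
  intro h e P r δ g c₂ α a b hab hmul hδ hc hP hpos hG
  have hF : ∀ m : ℤ, 0 ≤ m → ∃ β c : ℂ,
      (∀ᶠ t : ℤ in atTop, (dl^[r] (fun t => h (m, t)) t : ℂ) =
        (δ : ℂ) / 2 * (t : ℂ) ^ 2 + β * t + c) ∧
      ∀ᶠ t : ℤ in atTop, (dl^[r] (e m) t : ℂ) =
        (δ : ℂ) / 2 * ((t : ℂ) + a) ^ 2 + β * (t + a) + c +
          ((δ : ℂ) / 2 * ((t : ℂ) + b) ^ 2 + β * (t + b) + c) := by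
    intro m hm
    obtain ⟨h1, h2, h3⟩ := hP m hm
    have h4 := hPOLY.2.2.2.2 r _ _ h1
    have h5 := hPOLY.2.2.2.2 r _ _ h2
    obtain ⟨β, c, h6⟩ := quad hPOLY _ _ δ h4 (by
      filter_upwards [h3] with t ht
      rw [← Function.iterate_add_apply, add_comm]
      exact ht)
    refine ⟨β, c, ?_, ?_⟩
    · filter_upwards [h4] with t ht
      rw [ht, h6]
    · filter_upwards [h5] with t ht
      rw [ht, ev_it, h6, h6]
  obtain ⟨m₁, t₁, p1⟩ := hpos 2 r
  obtain ⟨m₂, t₂, p2⟩ := hpos 1 (r + 1)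
  obtain ⟨m, hm1, hm2, hm3⟩ : ∃ m : ℤ, 1 ≤ m ∧ m₁ ≤ m + 1 ∧ m₂ ≤ m :=
    ⟨max 1 (max m₁ m₂), by omega, by omega, by omega⟩
  obtain ⟨β0, c0, u0, -⟩ := hF (m - 1) (by omega)
  obtain ⟨β1, c1, u1, v1⟩ := hF m (by omega)
  obtain ⟨β2, c2, u2, -⟩ := hF (m + 1) (by omega)
  obtain ⟨t, a0, a1, a2, a3, a4, a5, a6, a7, a8, a9⟩ := ((hG m hm1).and (v1.and
    ((shift _ (-g - α) u2).and ((shift _ (-g - α) u1).and ((shift _ (-g - α) u0).and
    ((shift _ (-g - α - 1) u1).and ((shift _ (-g - α - 1) u0).and ((shift _ α u0).and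
    ((eventually_ge_atTop (t₁ + g + α)).and (eventually_ge_atTop (t₂ + g + α))))))))))).exists
  have b0 := comb r (e m) (fun t => h (m + 1, t)) (fun t => h (m - 1, t)) (-g - α) α t
  have b1 : (fun t => e m t - h (m + 1, t - g - α) - h (m - 1, t + α)) =
      fun t => e m t - h (m + 1, t + (-g - α)) - h (m - 1, t + α) := by
    funext t
    rw [show t - g - α = t + (-g - α) by ring]
  rw [b1, b0] at a0
  have b2 := p1 (m + 1) (t + (-g - α)) hm2 (by omega)
  have b3 := p2 m (t + (-g - α)) hm3 (by omega)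
  have b4 : dd 2 r h (m + 1, t + (-g - α)) =
      dl^[r] (fun t => h (m + 1, t)) (t + (-g - α)) -
        2 * dl^[r] (fun t => h (m, t)) (t + (-g - α)) +
        dl^[r] (fun t => h (m - 1, t)) (t + (-g - α)) := by
    simp only [dd, Function.iterate_succ_apply', Function.iterate_zero_apply, dg, Prod.mk_sub_mk,
      sub_zero, slice, add_sub_cancel_right]
    ring
  have b5 : dd 1 (r + 1) h (m, t + (-g - α)) =
      dl^[r] (fun t => h (m, t)) (t + (-g - α)) -
        dl^[r] (fun t => h (m, t)) (t + (-g - α - 1)) -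
        (dl^[r] (fun t => h (m - 1, t)) (t + (-g - α)) -
          dl^[r] (fun t => h (m - 1, t)) (t + (-g - α - 1))) := by
    simp only [dd, Function.iterate_succ_apply', Function.iterate_zero_apply, dg, Prod.mk_sub_mk,
      sub_zero, slice]
    rw [show t + (-g - α) - 1 = t + (-g - α - 1) by ring]
  rw [b4] at b2
  rw [b5] at b3
  generalize dl^[r] (e m) t = E at a0 a1
  generalize dl^[r] (fun t => h (m + 1, t)) (t + (-g - α)) = A2 at a0 a2 b2
  generalize dl^[r] (fun t => h (m, t)) (t + (-g - α)) = A1 at a3 b2 b3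
  generalize dl^[r] (fun t => h (m - 1, t)) (t + (-g - α)) = A0 at a4 b2 b3
  generalize dl^[r] (fun t => h (m, t)) (t + (-g - α - 1)) = B1 at a5 b3
  generalize dl^[r] (fun t => h (m - 1, t)) (t + (-g - α - 1)) = B0 at a6 b3
  generalize dl^[r] (fun t => h (m - 1, t)) (t + α) = C0 at a0 a7
  have key : E - C0 - 2 * A1 + A0 =
      -δ * qq g c₂ α + (2 * α + g) * (A1 - B1 - (A0 - B0)) := by
    have hb : b = -g - a := by linear_combination hab
    have : ((E - C0 - 2 * A1 + A0 : ℤ) : ℂ) =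
        ((-δ * qq g c₂ α + (2 * α + g) * (A1 - B1 - (A0 - B0)) : ℤ) : ℂ) := by
      unfold qq
      push_cast at a3 a4 a5 a6 a7 ⊢
      rw [a1, a3, a4, a5, a6, a7, ← hmul, hb]
      ring
    exact_mod_cast this
  by_contra hq
  have c1' : 0 < δ * qq g c₂ α := mul_pos hδ (not_le.1 hq)
  have c2' : (2 * α + g) * (A1 - B1 - (A0 - B0)) ≤ 0 := mul_nonpos_of_nonpos_of_nonneg hc b3
  nlinarith

end Pool.Agent.P.MP_b01859_ag.SD
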