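import Pool.Agent.P.MP_b01859_ag.SD.Iface

/-! Step SYM0. -/

set_option autoImplicit false
set_option linter.unusedSectionVars false

namespace Pool.Agent.P.MP_b01859_ag.SD

open MvPolynomial Filter

namespace SYM0x

section la

variable {U W Y : Type} [AddCommGroup U] [Module ℂ U] [AddCommGroup W] [Module ℂ W]
  [AddCommGroup Y] [Module ℂ Y]

lemma rn (φ : U →ₗ[ℂ] W) (V : Submodule ℂ U) [Module.Finite ℂ V] :
    Module.finrank ℂ (V.map φ) + Module.finrank ℂ ↥(V ⊓ LinearMap.ker φ) = Module.finrank ℂ V := by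
  rw [← LinearMap.finrank_range_add_finrank_ker (φ.domRestrict V), LinearMap.range_domRestrict,
    LinearMap.ker_domRestrict, ← Submodule.map_comap_subtype, Submodule.finrank_map_subtype_eq]

lemma key (Ω : U →ₗ[ℂ] W) (Dv : U →ₗ[ℂ] Y) (P : Submodule ℂ U) [Module.Finite ℂ P]
    (Z : Submodule ℂ W) (hZ : ∀ φ, φ ∈ Z ↔ ∃ n ∈ P, Dv n = 0 ∧ Ω n = φ)
    (hk : ∀ n ∈ P, Ω n = 0 → Dv n = 0) :
    Module.finrank ℂ (P.map Ω) = Module.finrank ℂ Z + Module.finrank ℂ (P.map Dv) := by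
  have : Module.Finite ℂ ↥(P ⊓ LinearMap.ker Dv) := Submodule.finiteDimensional_of_le inf_le_left
  have h1 := rn Ω P
  have h2 := rn Dv P
  have h3 := rn Ω (P ⊓ LinearMap.ker Dv)
  have e1 : (P ⊓ LinearMap.ker Dv).map Ω = Z := by
    ext φ
    rw [hZ]
    exact ⟨fun ⟨n, a, b⟩ => ⟨n, a.1, a.2, b⟩, fun ⟨n, a, b, c⟩ => ⟨n, ⟨a, b⟩, c⟩⟩
  have e2 : P ⊓ LinearMap.ker Dv ⊓ LinearMap.ker Ω = P ⊓ LinearMap.ker Ω :=
    le_antisymm (inf_le_inf_right _ inf_le_left) fun n a => ⟨⟨a.1, hk n a.1 a.2⟩, a.2⟩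
  rw [e1, e2] at h3
  omega

end la

lemma sum3 {ι R : Type} [Fintype ι] [CommRing R] (f g h : ι → R) (e : ∀ s, f s - g s = -h s) :
    ∑ s, f s - ∑ s, g s = -∑ s, h s := by
  rw [← Finset.sum_sub_distrib, ← Finset.sum_neg_distrib]
  exact Finset.sum_congr rfl fun s _ => e s

lemma aeval_xb {σ ι : Type} (p : Ideal (Pol σ)) (f : Pol σ) :
    aeval (xb ι p) f = C (Ideal.Quotient.mk p f) := by
  induction f using MvPolynomial.induction_on with
  | C c => rw [aeval_C]; rfl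
  | add f g h1 h2 => simp only [map_add, h1, h2]
  | mul_X f i h => simp only [map_mul, h, aeval_X, xb]

end SYM0x

theorem p_SYM0 (hWD : S_WD) (hALGB : S_ALGB) (hALGD : S_ALGD) (hHQ : S_HQ) :
    S_SYM0 := by
  intro σ ι Λ _ _ _ T γ g p v α hG hp hv m
  obtain ⟨hc, hs⟩ := (hALGB σ ι Λ p v).1 m
  have := hp.prime
  obtain ⟨i₀, hi₀⟩ := (hHQ σ).2.2.2.1 p 0 hp.dim
  obtain ⟨a₀, b₀, hab⟩ := T.LF p hp.prime i₀ hi₀
  have hw : aeval (xb ι p) (T.ω a₀ b₀) ≠ 0 := by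
    rw [SYM0x.aeval_xb, Ne, C_eq_zero, Ideal.Quotient.eq_zero_iff_mem]
    exact hab
  filter_upwards [hWD σ ι (AP ι p) T γ g (xb ι p) (Al p v m) hG hc hs] with t ht
  let P : Submodule ℂ (ι → AP ι p) := Submodule.pi Set.univ fun s => Al p v m (t - γ s)
  have hP : ∀ n, n ∈ P ↔ ∀ s, n s ∈ Al p v m (t - γ s) := fun n => by simp [P, Submodule.mem_pi]
  have : Module.Finite ℂ P := Module.Finite.iff_fg.2
    (Submodule.fg_pi fun s => Module.Finite.iff_fg.1 (hs.fin (t - γ s)))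
  let Ω : (ι → AP ι p) →ₗ[ℂ] (ι → AP ι p) :=
    { toFun := fun n a => ∑ s, aeval (xb ι p) (T.ω s a) * n s
      map_add' := fun n n' => funext fun a => by simp [mul_add, Finset.sum_add_distrib]
      map_smul' := fun c n => funext fun a => by simp [Finset.smul_sum] }
  let Dv : (ι → AP ι p) →ₗ[ℂ] AP ι p :=
    { toFun := fun n => ∑ s, pderiv s (n s)
      map_add' := fun n n' => by simp [Finset.sum_add_distrib]
      map_smul' := fun c n => by
        simp only [Pi.smul_apply, Derivation.map_smul_of_tower, Finset.smul_sum, RingHom.id_apply] }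
  have curl : ∀ n ∈ P, ∀ a b, pderiv b (Ω n a) - pderiv a (Ω n b) =
      -(aeval (xb ι p) (T.ω a b) * Dv n) := by
    intro n hn a b
    change pderiv b (∑ s, aeval (xb ι p) (T.ω s a) * n s) -
      pderiv a (∑ s, aeval (xb ι p) (T.ω s b) * n s) = -(_ * ∑ s, pderiv s (n s))
    rw [map_sum, map_sum, Finset.mul_sum]
    refine SYM0x.sum3 (R := AP ι p) _ _ _ fun s => ?_
    have h := (hALGD σ ι Λ T γ p v α hv m _ _ ((hP n).1 hn s)).2.1 s a b
    simp only [SYM0x.aeval_xb] at h ⊢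
    rw [pderiv_C_mul, pderiv_C_mul]
    linear_combination h
  have hE : EN T γ (xb ι p) (Al p v m) t = P.map Ω := by
    ext φ
    exact ⟨fun ⟨n, h1, h2⟩ => ⟨n, (hP n).2 h1, (funext h2).symm⟩,
      fun ⟨n, h1, h2⟩ => ⟨n, (hP n).1 h1, fun a => (congrFun h2 a).symm⟩⟩
  have hD : DN γ p (Al p v m) t = P.map Dv := by
    ext f
    exact ⟨fun ⟨n, h1, h2⟩ => ⟨n, (hP n).2 h1, h2.symm⟩,
      fun ⟨n, h1, h2⟩ => ⟨n, (hP n).1 h1, h2.symm⟩⟩
  have dv : ∀ n ∈ P, pderiv b₀ (Ω n a₀) = pderiv a₀ (Ω n b₀) → Dv n = 0 := fun n hn h => by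
    have h1 := curl n hn a₀ b₀
    rw [h, sub_self, eq_comm, neg_eq_zero] at h1
    exact (mul_eq_zero.1 h1).resolve_left hw
  have main := SYM0x.key (U := ι → AP ι p) (W := ι → AP ι p) (Y := AP ι p) Ω Dv P
    (ZN T γ g p (Al p v m) t) (fun φ => ⟨fun h => ?_, ?_⟩)
    fun n hn (h : Ω n = 0) => dv n hn (by rw [h]; simp)
  · simp only [hd]
    rw [hE, hD, main]
    push_cast
    rfl
  · have h1 : φ ∈ P.map Ω := by rw [← hE, ht]; exact h.1
    obtain ⟨n, hn, rfl⟩ := h1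
    exact ⟨n, hn, dv n hn (h.2 a₀ b₀), rfl⟩
  · rintro ⟨n, hn, h0, rfl⟩
    refine ⟨by rw [← ht, hE]; exact ⟨n, hn, rfl⟩, fun a b => ?_⟩
    have h1 := curl n hn a b
    rw [h0] at h1
    linear_combination h1

end Pool.Agent.P.MP_b01859_ag.SD
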