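import Pool.Agent.P.MP_b01859_ag.SD.Iface

/-! Step SYP1. -/

set_option autoImplicit false
set_option linter.unusedSectionVars false

namespace Pool.Agent.P.MP_b01859_ag.SD

open MvPolynomial Filter

namespace SYP1x

lemma pd_comm {ι A : Type} [CommRing A] (a b : ι) (z : MvPolynomial ι A) :
    pderiv b (pderiv a z) = pderiv a (pderiv b z) := by
  classical
  induction z using MvPolynomial.induction_on with
  | C c => simp
  | add p q hp hq => simp only [map_add, hp, hq]
  | mul_X p i hp =>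
    have e : ∀ c d : ι, pderiv c (pderiv d (X i : MvPolynomial ι A)) = 0 := fun c d => by
      rw [pderiv_X]
      by_cases h : i = d
      · subst h; simp
      · simp [h]
    simp only [Derivation.leibniz, map_add, smul_eq_mul, hp, e]
    ring

/-- The gradient. -/
noncomputable def grad {σ : Type} (ι : Type) (p : Ideal (Pol σ)) : AP ι p →ₗ[ℂ] (ι → AP ι p) where
  toFun z a := pderiv a z
  map_add' z z' := by ext1 a; simp
  map_smul' c z := by
    ext1 a
    simp only [Pi.smul_apply, Derivation.map_smul_of_tower, RingHom.id_apply]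

end SYP1x

theorem p_SYP1 (hC1 : S_C1) (hALGB : S_ALGB) (hALGD : S_ALGD) :
    S_SYP1 := by
  intro σ ι Λ _ _ _ T γ g p v α hv m hm
  obtain ⟨hB, -⟩ := hALGB σ ι Λ p v
  have hD := hALGD σ ι Λ T γ p v α hv
  have hcl : Cl (xb ι p) (w1 σ) (ZN T γ g p (Al p v m)) := by
    intro i t φ hφ
    refine ⟨cl_WN (hB m).1 i t φ hφ.1, fun a b => ?_⟩
    simp only [Pi.smul_apply, smul_eq_mul, xb, pderiv_C_mul, hφ.2 a b]
  have hsub : Sub (xb ι p) (w1 σ) (ZN T γ g p (Al p v m)) :=
    (sub_WN (T := T) (γ := γ) (g := g) (x := xb ι p) (hB m).2).mono fun t φ hφ => hφ.1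
  have hcl' : Cl (xb ι p) (w1 σ)
      fun t => (Al p v (m + 1) (t + (-g - α))).map (SYP1x.grad ι p) :=
    ((hB (m + 1)).1.shift (-g - α)).map _ fun i z => by
      ext1 a
      show pderiv a (xb ι p i • z) = xb ι p i • pderiv a z
      simp only [smul_eq_mul, xb, pderiv_C_mul]
  have hle : ∀ t, (Al p v (m + 1) (t + (-g - α))).map (SYP1x.grad ι p) ≤
      ZN T γ g p (Al p v m) t := by
    rintro t _ ⟨z, hz, rfl⟩
    obtain ⟨h1, h2, -⟩ := hD _ _ z hz
    refine ⟨⟨fun a => ?_, h2⟩, fun a b => SYP1x.pd_comm a b z⟩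
    have := h1 a
    rwa [add_sub_cancel_right, show t + (-g - α) + γ a + α = t + γ a - g by ring] at this
  have key := ((hC1 σ (AP ι p) (ι → AP ι p) (xb ι p) _ hsub hcl).2 _ hcl' hle).1.2
  refine key.congr (Eventually.of_forall fun t => ?_)
  congr 1
  have hinj : Function.Injective ((SYP1x.grad ι p).domRestrict (Al p v (m + 1) (t + (-g - α)))) := by
    rintro ⟨z, hz⟩ ⟨z', hz'⟩ h0
    have h3 := (hD _ _ z hz).2.2
    have h3' := (hD _ _ z' hz').2.2
    have h4 : ∀ a, pderiv a z = pderiv a z' := fun a => congrFun h0 a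
    simp only [h4] at h3
    rw [h3'] at h3
    have h5 : ((m + 1 : ℤ) : ℂ) ≠ 0 := Int.cast_ne_zero.2 (by omega)
    have h6 := congrArg (fun y => ((m + 1 : ℤ) : ℂ)⁻¹ • y) h3
    simp only [smul_smul, inv_mul_cancel₀ h5, one_smul] at h6
    exact Subtype.ext h6.symm
  have h7 := LinearMap.finrank_range_of_inj hinj
  rw [LinearMap.range_domRestrict] at h7
  simp only [hd]
  rw [h7, show t + (-g - α) = t - g - α by ring]

end Pool.Agent.P.MP_b01859_ag.SD
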