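import Pool.Agent.P.MP_b01859_ag.SD.Iface

/-! Step TAY. -/

set_option autoImplicit false
set_option linter.unusedSectionVars false

namespace Pool.Agent.P.MP_b01859_ag.SD

open MvPolynomial Filter

namespace TAYx

variable {σ : Type} [Fintype σ]

theorem zero (n : ℕ) : ∀ (g : Pol σ) (d : σ →₀ ℕ), d.degree = n → coeff d g ≠ 0 →
    ∃ L : List σ, L.length = n ∧ constantCoeff (dL L g) ≠ 0 := by
  classical
  induction n with
  | zero =>
    intro g d h1 h2
    obtain rfl := (Finsupp.degree_eq_zero_iff d).1 h1
    exact ⟨[], rfl, h2⟩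
  | succ n ih =>
    intro g d h1 h2
    obtain ⟨i, hi⟩ : ∃ i, d i ≠ 0 := by
      by_contra h
      push Not at h
      rw [show d = 0 from Finsupp.ext h, map_zero] at h1
      omega
    have e : d - Finsupp.single i 1 + Finsupp.single i 1 = d :=
      tsub_add_cancel_of_le (Finsupp.single_le_iff.2 (Nat.one_le_iff_ne_zero.2 hi))
    obtain ⟨L, a, b⟩ := ih (pderiv i g) (d - Finsupp.single i 1) (by
      rw [← e, map_add, Finsupp.degree_single] at h1; omega) (by
      rw [coeff_pderiv, e]
      exact mul_ne_zero h2 (Nat.cast_add_one_ne_zero _))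
    exact ⟨L ++ [i], by simp [a], by rwa [dL, List.foldr_append]⟩

theorem tr_pderiv (y : σ → ℂ) (i : σ) (f : Pol σ) :
    pderiv i (aeval (fun k => (X k + C (y k) : Pol σ)) f) =
      aeval (fun k => (X k + C (y k) : Pol σ)) (pderiv i f) := by
  classical
  induction f using MvPolynomial.induction_on with
  | C a => simp
  | add f g hf hg => simp only [map_add, hf, hg]
  | mul_X f k hf =>
    simp only [map_mul, aeval_X, Derivation.leibniz, hf, map_add, pderiv_C, add_zero, smul_eq_mul,
      pderiv_X, Pi.single_apply]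
    split_ifs <;> simp

theorem tr_dL (y : σ → ℂ) (L : List σ) (f : Pol σ) :
    dL L (aeval (fun k => (X k + C (y k) : Pol σ)) f) =
      aeval (fun k => (X k + C (y k) : Pol σ)) (dL L f) := by
  induction L with
  | nil => rfl
  | cons i L ih => exact (congrArg (pderiv i) ih).trans (tr_pderiv y i _)

theorem cc_tr (y : σ → ℂ) (f : Pol σ) :
    constantCoeff (aeval (fun k => (X k + C (y k) : Pol σ)) f) = eval y f := by
  induction f using MvPolynomial.induction_on with
  | C a => simp
  | add f g hf hg => simp only [map_add, hf, hg]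
  | mul_X f k hf =>
    rw [map_mul, map_mul, hf, map_mul, aeval_X, map_add, constantCoeff_X, constantCoeff_C, zero_add,
      eval_X]

end TAYx

theorem p_TAY (hORD0 : S_ORD0) :
    S_TAY := by
  intro σ _ y v f h
  refine (hORD0 σ y v f).2 fun d hd => not_lt.1 fun a => ?_
  obtain ⟨L, h1, h2⟩ := TAYx.zero _ _ d rfl hd
  rw [TAYx.tr_dL, TAYx.cc_tr] at h2
  exact h2 (h L (h1.trans_lt a))

end Pool.Agent.P.MP_b01859_ag.SD
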