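import Pool.Agent.P.MP_b01859_ag.SD.Iface

/-! Step TEN2. -/

set_option autoImplicit false
set_option linter.unusedSectionVars false

namespace Pool.Agent.P.MP_b01859_ag.SD

open MvPolynomial Filter

namespace TEN2x

theorem proj {W : Type} [AddCommGroup W] [Module ℂ W] [FiniteDimensional ℂ W]
    (T : Module.End ℂ W) (hT : ∀ v, T (T v) = v) (ε : ℂ) (hε : ε * ε = 1) :
    (Module.finrank ℂ (T.eigenspace ε) : ℂ) =
      (1 / 2 : ℂ) * (Module.finrank ℂ W + ε * LinearMap.trace ℂ W T) := by
  have h : LinearMap.IsProj (T.eigenspace ε) ((1 / 2 : ℂ) • (LinearMap.id + ε • T)) := by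
    constructor
    · intro x
      rw [Module.End.mem_eigenspace_iff]
      simp only [LinearMap.smul_apply, LinearMap.add_apply, LinearMap.id_apply, map_smul, map_add,
        hT, smul_add, smul_smul]
      rw [add_comm]
      congr 2
      · ring
      · linear_combination (-1 / 2 : ℂ) * hε
    · intro x hx
      rw [Module.End.mem_eigenspace_iff] at hx
      simp only [LinearMap.smul_apply, LinearMap.add_apply, LinearMap.id_apply, hx, smul_smul, hε,
        one_smul]
      rw [← two_smul ℂ x, smul_smul]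
      norm_num
  rw [← h.trace, map_smul, map_add, map_smul, LinearMap.trace_id]
  simp

theorem perm {K Z : Type} [Finite K] [AddCommGroup Z] [Module ℂ Z] (u : K → Z)
    (hu : LinearIndependent ℂ u) (σ : K → K) (hσ : ∀ k, σ (σ k) = k) (s : Module.End ℂ Z)
    (hs : ∀ k, s (u k) = u (σ k)) :
    ((Module.finrank ℂ ↥(Submodule.span ℂ (Set.range u) ⊓ s.eigenspace 1) : ℕ) : ℤ) +
      (Module.finrank ℂ ↥(Submodule.span ℂ (Set.range u) ⊓ s.eigenspace (-1)) : ℕ) =
        (Module.finrank ℂ ↥(Submodule.span ℂ (Set.range u)) : ℕ) ∧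
    ((Module.finrank ℂ ↥(Submodule.span ℂ (Set.range u) ⊓ s.eigenspace 1) : ℕ) : ℤ) -
      (Module.finrank ℂ ↥(Submodule.span ℂ (Set.range u) ⊓ s.eigenspace (-1)) : ℕ) =
        (Nat.card {k // σ k = k} : ℕ) := by
  classical
  have := Fintype.ofFinite K
  set U := Submodule.span ℂ (Set.range u) with hU
  have hinv : ∀ x ∈ U, s x ∈ U := by
    intro x hx
    have : U ≤ U.comap s := by
      rw [hU, Submodule.span_le]
      rintro _ ⟨k, rfl⟩
      show s (u k) ∈ Submodule.span ℂ (Set.range u)
      rw [hs]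
      exact Submodule.subset_span ⟨_, rfl⟩
    exact this hx
  let b : Module.Basis K ℂ U := Module.Basis.span hu
  have hb : ∀ k, (b k : Z) = u k := fun k => congrArg Subtype.val (Module.Basis.span_apply hu k)
  have : FiniteDimensional ℂ U := Module.Finite.of_basis b
  let T : Module.End ℂ U := s.restrict hinv
  have hTb : ∀ k, T (b k) = b (σ k) := by
    intro k
    apply Subtype.ext
    show s (b k : Z) = _
    rw [hb, hb, hs]
  have hT : ∀ v, T (T v) = v := by
    have : T ∘ₗ T = LinearMap.id := b.ext fun k => by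
      simp only [LinearMap.comp_apply, hTb, hσ, LinearMap.id_apply]
    intro v
    exact LinearMap.congr_fun this v
  have htr : LinearMap.trace ℂ U T = (Nat.card {k // σ k = k} : ℕ) := by
    rw [LinearMap.trace_eq_matrix_trace ℂ b, Matrix.trace, Nat.card_eq_fintype_card,
      Fintype.card_subtype, Finset.card_filter]
    push_cast
    refine Finset.sum_congr rfl fun k _ => ?_
    rw [Matrix.diag_apply, LinearMap.toMatrix_apply, hTb, b.repr_self, Finsupp.single_apply]
  have hE : ∀ ε : ℂ, Module.finrank ℂ ↥(U ⊓ s.eigenspace ε) =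
      Module.finrank ℂ (T.eigenspace ε) := by
    intro ε
    have : U ⊓ s.eigenspace ε = (T.eigenspace ε).map U.subtype := by
      ext x
      simp only [Submodule.mem_inf, Submodule.mem_map, Module.End.mem_eigenspace_iff]
      constructor
      · rintro ⟨h1, h2⟩
        exact ⟨⟨x, h1⟩, Subtype.ext h2, rfl⟩
      · rintro ⟨y, h1, rfl⟩
        exact ⟨y.2, congrArg Subtype.val h1⟩
    rw [this, Submodule.finrank_map_subtype_eq]
  have h1 := proj T hT 1 (by norm_num)
  have h2 := proj T hT (-1) (by norm_num)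
  rw [htr] at h1 h2
  rw [hE, hE]
  constructor
  · have : ((Module.finrank ℂ (T.eigenspace 1) : ℕ) : ℂ) +
        (Module.finrank ℂ (T.eigenspace (-1)) : ℕ) = (Module.finrank ℂ U : ℕ) := by
      rw [h1, h2]; ring
    exact_mod_cast this
  · have : ((Module.finrank ℂ (T.eigenspace 1) : ℕ) : ℂ) -
        (Module.finrank ℂ (T.eigenspace (-1)) : ℕ) = (Nat.card {k // σ k = k} : ℕ) := by
      rw [h1, h2]; ring
    exact_mod_cast this

end TEN2x

theorem p_TEN2 (hTEN : S_TEN) :
    S_TEN2 := by
  intro V Z _ _ _ _ β hβ s hs A hA hfin hb t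
  obtain ⟨b, hb⟩ := hb
  have hten := congrFun (hTEN V V Z β hβ A A hA hfin hfin ⟨b, fun t ht => ⟨hb t ht, hb t ht⟩⟩) t
  let J := Σ i : ℤ, Fin (Module.finrank ℂ (A i))
  let f : ∀ i : ℤ, Fin (Module.finrank ℂ (A i)) → V :=
    fun i k => (Module.finBasis ℂ (A i) k : V)
  have hfs : ∀ i, Submodule.span ℂ (Set.range (f i)) = A i := by
    intro i
    have h := congrArg (Submodule.map (A i).subtype) (Module.finBasis ℂ (A i)).span_eq
    rw [Submodule.map_span, Submodule.map_subtype_top, ← Set.range_comp] at h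
    exact h
  have hfl : ∀ i, LinearIndependent ℂ (f i) := fun i =>
    (Module.finBasis ℂ (A i)).linearIndependent.map' (A i).subtype (Submodule.ker_subtype _)
  let e : J → V := fun j => f j.1 j.2
  have he : LinearIndependent ℂ e := by
    refine linearIndependent_iUnion_finite hfl fun i T _ hi => ?_
    simp only [hfs]
    exact hA.disjoint_biSup hi
  have hlow : ∀ j : J, b ≤ j.1 := by
    intro j
    by_contra h
    have h0 : Module.finrank ℂ (A j.1) = 0 := by
      rw [hb j.1 (not_le.1 h)]; exact finrank_bot _ _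
    have := j.2.2
    omega
  let K := {p : J × J // p.1.1 + p.2.1 = t}
  have : Finite K := by
    let S : Finset J := (Finset.Icc b (t - b)).sigma fun i => Finset.univ
    have hS : {p : J × J | p.1.1 + p.2.1 = t} ⊆ ((S ×ˢ S : Finset (J × J)) : Set (J × J)) := by
      intro p hp
      have h1 := hlow p.1
      have h2 := hlow p.2
      have h3 : p.1.1 + p.2.1 = t := hp
      simp only [S, Finset.coe_product, Set.mem_prod, Finset.mem_coe, Finset.mem_sigma,
        Finset.mem_Icc, Finset.mem_univ, and_true]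
      omega
    exact ((S ×ˢ S).finite_toSet.subset hS).to_subtype
  let u : K → Z := fun p => β (e p.1.1) (e p.1.2)
  have hu : LinearIndependent ℂ u := by
    have h1 := (he.tmul_of_isDomain he).map' (TensorProduct.lift β)
      (LinearMap.ker_eq_bot.2 hβ)
    exact h1.comp (fun p : K => p.1) Subtype.val_injective
  let σ : K → K := fun p => ⟨(p.1.2, p.1.1), by have := p.2; simp only; omega⟩
  have hU : (⨆ i, Submodule.map₂ β (A i) (A (t - i))) = Submodule.span ℂ (Set.range u) := by
    apply le_antisymm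
    · refine iSup_le fun i => ?_
      rw [← hfs i, ← hfs (t - i), Submodule.map₂_span_span, Submodule.span_le]
      rintro _ ⟨_, ⟨k, rfl⟩, _, ⟨k', rfl⟩, rfl⟩
      exact Submodule.subset_span ⟨⟨(⟨i, k⟩, ⟨t - i, k'⟩), by simp⟩, rfl⟩
    · rw [Submodule.span_le]
      rintro _ ⟨p, rfl⟩
      refine Submodule.mem_iSup_of_mem p.1.1.1 (Submodule.apply_mem_map₂ β ?_ ?_)
      · exact (Module.finBasis ℂ (A p.1.1.1) p.1.1.2).2
      · have h : t - p.1.1.1 = p.1.2.1 := by have := p.2; omega
        rw [h]
        exact (Module.finBasis ℂ (A p.1.2.1) p.1.2.2).2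
  obtain ⟨h1, h2⟩ := TEN2x.perm u hu σ (fun k => rfl) s (fun k => hs _ _)
  have hfix : ((Nat.card {k // σ k = k} : ℕ) : ℤ) = dbl (hd A) t := by
    unfold dbl
    split_ifs with h
    · obtain ⟨m, hm⟩ := h
      have hm' : t / 2 = m := by omega
      rw [hm']
      let g : Fin (Module.finrank ℂ (A m)) → {k // σ k = k} :=
        fun k => ⟨⟨(⟨m, k⟩, ⟨m, k⟩), by simp only; omega⟩, rfl⟩
      have hg : Function.Bijective g := by
        constructor
        · intro k k' hk
          have h3 : (⟨m, k⟩ : J) = ⟨m, k'⟩ := congrArg (fun x => x.1.1.1) hk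
          exact eq_of_heq (Sigma.mk.inj_iff.1 h3).2
        · rintro ⟨⟨⟨⟨i, k⟩, j'⟩, hp⟩, hq⟩
          have h3 : j' = ⟨i, k⟩ := congrArg (fun x => x.1.1) hq
          subst h3
          have h4 : i = m := by simp only at hp; omega
          subst h4
          exact ⟨k, rfl⟩
      rw [← Nat.card_congr (Equiv.ofBijective g hg), Nat.card_eq_fintype_card, Fintype.card_fin]
      rfl
    · have : IsEmpty {k // σ k = k} := by
        refine ⟨fun ⟨p, hq⟩ => h ?_⟩
        have h3 : p.1.2 = p.1.1 := congrArg (fun x => x.1.1) hq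
        have h4 := p.2
        rw [h3] at h4
        exact ⟨p.1.1.1, by omega⟩
      simp
  rw [← hU] at h1 h2
  exact ⟨h1.trans hten, h2.trans hfix⟩

end Pool.Agent.P.MP_b01859_ag.SD
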