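import Pool.Agent.P.MP_b01859_ag.SD.Iface

/-! Step TENS. -/

set_option autoImplicit false
set_option linter.unusedSectionVars false

namespace Pool.Agent.P.MP_b01859_ag.SD

open MvPolynomial Filter

namespace TENSx

variable {σ ι R : Type} [Fintype σ] [DecidableEq σ] [Fintype ι] [CommRing R] [Algebra ℂ R]

/-- The product of a vector of polynomials with a coefficient. -/
noncomputable def be (σ ι R : Type) [CommRing R] [Algebra ℂ R] :
    (ι → Pol σ) →ₗ[ℂ] R →ₗ[ℂ] (ι → MvPolynomial σ R) :=
  LinearMap.mk₂ ℂ (fun φ r a => map (algebraMap ℂ R) (φ a) * C r)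
    (fun φ ψ r => by funext a; simp [add_mul])
    (fun c φ r => by
      funext a
      simp only [Pi.smul_apply, smul_eq_C_mul, map_mul, map_C]
      rw [Algebra.smul_def, mul_assoc]; rfl)
    (fun φ r s => by funext a; simp [mul_add])
    (fun c φ r => by
      funext a
      simp only [Pi.smul_apply]
      rw [Algebra.smul_def, Algebra.smul_def, map_mul, mul_left_comm]; rfl)

lemma be_apply (φ : ι → Pol σ) (r : R) (a : ι) :
    be σ ι R φ r a = map (algebraMap ℂ R) (φ a) * C r := rfl

lemma coeff_be (f : Pol σ) (r : R) (d : σ →₀ ℕ) :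
    coeff d (map (algebraMap ℂ R) f * C r) = coeff d f • r := by
  rw [mul_comm, coeff_C_mul, coeff_map, mul_comm, Algebra.smul_def]

lemma be_inj : Function.Injective (TensorProduct.lift (be σ ι R)) := by
  classical
  rw [injective_iff_map_eq_zero]
  intro u hu
  let b := Module.Basis.ofVectorSpace ℂ R
  obtain ⟨f, rfl⟩ := TensorProduct.eq_repr_basis_right b u
  have h0 : ∀ k ∈ f.support, f k = 0 := by
    intro k hk
    funext a
    ext d
    have h1 := congrArg (fun z => coeff d (z a)) hu
    simp only [Finsupp.sum, map_sum, TensorProduct.lift.tmul, Finset.sum_apply, be_apply,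
      coeff_sum, coeff_be, Pi.zero_apply, coeff_zero] at h1
    exact linearIndependent_iff'.mp b.linearIndependent _ (fun k => coeff d (f k a)) h1 k hk
  exact Finset.sum_eq_zero fun k hk => by
    rw [h0 k hk]; exact TensorProduct.zero_tmul _ _

lemma aeval_xJ (x : σ → R) (f : Pol σ) : aeval (xJ x ∅) f = map (algebraMap ℂ R) f := by
  induction f using MvPolynomial.induction_on with
  | C c => rw [algHom_C, map_C]; rfl
  | add p q hp hq => simp only [map_add, hp, hq]
  | mul_X q i hq => simp only [map_mul, hq, aeval_X, map_X, xJ, Finset.notMem_empty, if_false]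

lemma indep {T : VB σ ι} {γ : ι → ℤ} {g : ℤ} (hG : Gr (w1 σ) γ g T.ω) :
    iSupIndep (EN T γ X (SS σ)) := by
  intro i
  let P : (ι → Pol σ) →ₗ[ℂ] (ι → Pol σ) :=
    LinearMap.pi fun a => (weightedHomogeneousComponent (w1 σ) (i + γ a - g)).comp
      (LinearMap.proj a)
  have h1 : (⨆ j, ⨆ _ : j ≠ i, EN T γ X (SS σ) j) ≤ LinearMap.ker P := by
    refine iSup_le fun j => iSup_le fun hj φ hφ => ?_
    rw [LinearMap.mem_ker]
    funext a
    have := (EN_le_WN hG cl_SS j hφ).1 a
    exact IsWeightedHomogeneous.weightedHomogeneousComponent_ne _ this (by omega)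
  rw [Submodule.disjoint_def]
  intro φ hφ hφ'
  have h2 := LinearMap.mem_ker.mp (h1 hφ')
  rw [← h2]
  funext a
  exact (IsWeightedHomogeneous.weightedHomogeneousComponent_same
    ((EN_le_WN hG cl_SS i hφ).1 a)).symm

lemma U1_eq (T : VB σ ι) (γ : ι → ℤ) (x : σ → R) (N : ℤ → Submodule ℂ R) (t : ℤ) :
    U1 T γ x N ∅ t = ⨆ i, Submodule.map₂ (be σ ι R) (EN T γ X (SS σ) i) (N (t - i)) := by
  classical
  apply le_antisymm
  · rintro φ ⟨n, hn, hφ⟩
    have e : φ = ∑ s, ∑ d ∈ (n s).support,
        be σ ι R (fun a => T.ω s a * monomial d 1) (coeff d (n s)) := by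
      funext a
      rw [hφ, Finset.sum_apply]
      refine Finset.sum_congr rfl fun s _ => ?_
      rw [Finset.sum_apply, aeval_xJ]
      conv_lhs => rw [as_sum (n s), Finset.mul_sum]
      refine Finset.sum_congr rfl fun d _ => ?_
      rw [be_apply, map_mul, map_monomial, map_one, mul_assoc, mul_comm (monomial d 1),
        C_mul_monomial, mul_one]
    rw [e]
    refine Submodule.sum_mem _ fun s _ => Submodule.sum_mem _ fun d _ => ?_
    refine Submodule.mem_iSup_of_mem (γ s + Finsupp.weight (w1 σ) d)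
      (Submodule.apply_mem_map₂ _ ?_ ?_)
    · refine ⟨Pi.single s (monomial d 1), fun s' => ?_, fun a => ?_⟩
      · by_cases h : s' = s
        · subst h
          rw [Pi.single_eq_same]
          exact isWeightedHomogeneous_monomial _ _ _ (by ring)
        · rw [Pi.single_eq_of_ne h]; exact zero_mem _
      · rw [Finset.sum_eq_single s]
        · simp
        · intro b _ hb; simp [hb]
        · simp
    · have := (hn s d).1
      rwa [← sub_add_eq_sub_sub] at this
  · refine iSup_le fun i => Submodule.map₂_le.mpr ?_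
    rintro φ ⟨n, hn, hφ⟩ r hr
    refine ⟨fun s => map (algebraMap ℂ R) (n s) * C r, fun s d => ⟨?_, by simp⟩, fun a => ?_⟩
    · rw [coeff_be]
      by_cases h : coeff d (n s) = 0
      · rw [h, zero_smul]; exact zero_mem _
      · rw [hn s h, show t - γ s - (i - γ s) = t - i by ring]
        exact Submodule.smul_mem _ _ hr
    · rw [be_apply, hφ, map_sum, Finset.sum_mul]
      refine Finset.sum_congr rfl fun s _ => ?_
      rw [aeval_xJ, aeval_X_left_apply, map_mul, mul_assoc]

end TENSx

theorem p_TENS (hTEN : S_TEN) :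
    S_TENS := by
  intro σ ι R _ _ _ _ _ T γ g x N hG hN
  have hA : Sub (X : σ → Pol σ) (w1 σ) (EN T γ X (SS σ)) := sub_EN sub_SS
  obtain ⟨b, hb⟩ := hA.bdd
  obtain ⟨b', hb'⟩ := hN.bdd
  have := hTEN _ _ _ (TENSx.be σ ι R) TENSx.be_inj (EN T γ X (SS σ)) N (TENSx.indep hG)
    hA.fin hN.fin ⟨min b b', fun t ht => ⟨hb t (by omega), hb' t (by omega)⟩⟩
  rw [hM, ← this]
  congr 1
  funext t
  exact TENSx.U1_eq T γ x N t

end Pool.Agent.P.MP_b01859_ag.SD
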