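import Pool.Agent.P.MP_b01859_ag.SD.Iface

/-! Step TENS2. -/

set_option autoImplicit false
set_option linter.unusedSectionVars false

namespace Pool.Agent.P.MP_b01859_ag.SD

open MvPolynomial Filter

namespace TENS2x

open TensorProduct

lemma wt_map {σ τ : Type} (f : σ → τ) (d : σ →₀ ℕ) :
    Finsupp.weight (w1 τ) (d.mapDomain f) = Finsupp.weight (w1 σ) d := by
  induction d using Finsupp.induction_linear with
  | zero => simp
  | add a b ha hb => rw [Finsupp.mapDomain_add, map_add, map_add, ha, hb]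
  | single i c => simp [Finsupp.weight_single]

lemma hom_rename {σ τ : Type} (f : σ → τ) {p : Pol σ} {t : ℤ} (h : Hom p t) :
    Hom (rename f p) t := by
  intro d hd
  obtain ⟨u, rfl, hu⟩ := coeff_rename_ne_zero f p d hd
  rw [wt_map]
  exact h hu

lemma tes {σ : Type} (p q : Pol σ) :
    tensorEquivSum ℂ σ σ ℂ (p ⊗ₜ q) = rename Sum.inl p * rename Sum.inr q := by
  have h1 : tensorEquivSum ℂ σ σ ℂ (p ⊗ₜ 1) = rename Sum.inl p := by
    induction p using MvPolynomial.induction_on with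
    | C a => simp
    | add p q hp hq => rw [add_tmul, map_add, hp, hq, map_add]
    | mul_X p i h =>
      rw [← one_mul (1 : Pol σ), ← Algebra.TensorProduct.tmul_mul_tmul, map_mul, h]
      simp
  have h2 : tensorEquivSum ℂ σ σ ℂ (1 ⊗ₜ q) = rename Sum.inr q := by
    induction q using MvPolynomial.induction_on with
    | C a => simp
    | add p q hp hq => rw [tmul_add, map_add, hp, hq, map_add]
    | mul_X p i h =>
      rw [← one_mul (1 : Pol σ), ← Algebra.TensorProduct.tmul_mul_tmul, map_mul, h]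
      simp
  rw [← h1, ← h2, ← map_mul, Algebra.TensorProduct.tmul_mul_tmul, one_mul, mul_one]

noncomputable def be (σ ι : Type) :
    (ι → Pol σ) →ₗ[ℂ] (ι → Pol σ) →ₗ[ℂ] (ι × ι → Pol (σ ⊕ σ)) :=
  LinearMap.mk₂ ℂ (fun φ ψ a => rename Sum.inl (φ a.1) * rename Sum.inr (ψ a.2))
    (fun _ _ _ => by ext1 a; simp [add_mul]) (fun _ _ _ => by ext1 a; simp)
    (fun _ _ _ => by ext1 a; simp [mul_add]) (fun _ _ _ => by ext1 a; simp)

lemma be_apply {σ ι : Type} (φ ψ : ι → Pol σ) (a : ι × ι) :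
    be σ ι φ ψ a = rename Sum.inl (φ a.1) * rename Sum.inr (ψ a.2) := rfl

lemma be_inj (σ ι : Type) [Fintype ι] : Function.Injective (TensorProduct.lift (be σ ι)) := by
  classical
  have key : ∀ (x : (ι → Pol σ) ⊗[ℂ] (ι → Pol σ)) (a b : ι),
      TensorProduct.lift (be σ ι) x (a, b) = tensorEquivSum ℂ σ σ ℂ
        (piLeft ℂ (Pol σ) (fun _ : ι => Pol σ)
          (piRight ℂ ℂ (ι → Pol σ) (fun _ : ι => Pol σ) x b) a) := by
    intro x a b
    induction x using TensorProduct.induction_on with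
    | zero => simp only [map_zero, Pi.zero_apply]
    | tmul φ ψ =>
      rw [TensorProduct.lift.tmul, be_apply, ← tes]
      rfl
    | add x y hx hy => simp only [map_add, Pi.add_apply, hx, hy]
  intro x y h
  apply (piRight ℂ ℂ (ι → Pol σ) (fun _ : ι => Pol σ)).injective
  funext b
  apply (piLeft ℂ (Pol σ) (fun _ : ι => Pol σ)).injective
  funext a
  apply (tensorEquivSum ℂ σ σ ℂ).injective
  rw [← key, ← key, h]

variable {σ ι : Type} [Fintype σ] [DecidableEq σ] [Fintype ι] {T : VB σ ι} {γ : ι → ℤ} {g : ℤ}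

lemma en_hom (hG : Gr (w1 σ) γ g T.ω) {t : ℤ} {φ : ι → Pol σ} (h : φ ∈ EN T γ X (SS σ) t)
    (a : ι) : Hom (φ a) (t + γ a - g) := by
  obtain ⟨n, hn, hφ⟩ := h
  rw [hφ]
  refine IsWeightedHomogeneous.sum _ _ _ fun s _ => ?_
  rw [aeval_X_left_apply]
  exact hom_congr ((hG s a).mul (hn s)) (by ring)

lemma indep (hG : Gr (w1 σ) γ g T.ω) : iSupIndep (EN T γ X (SS σ)) := by
  intro t
  let P : (ι → Pol σ) →ₗ[ℂ] (ι → Pol σ) := LinearMap.pi fun a =>
    weightedHomogeneousComponent (w1 σ) (t + γ a - g) ∘ₗ LinearMap.proj a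
  have h1 : (⨆ j, ⨆ (_ : j ≠ t), EN T γ X (SS σ) j) ≤ LinearMap.ker P := by
    refine iSup₂_le fun j hj φ hφ => ?_
    rw [LinearMap.mem_ker]
    funext a
    exact (en_hom hG hφ a).weightedHomogeneousComponent_ne _ (by omega)
  rw [Submodule.disjoint_def]
  intro φ h2 h3
  have h4 : P φ = 0 := h1 h3
  funext a
  rw [← (en_hom hG h2 a).weightedHomogeneousComponent_same]
  exact congrFun h4 a

lemma sub_en (hG : Gr (w1 σ) γ g T.ω) : Sub (X : σ → Pol σ) (w1 σ) (EN T γ X (SS σ)) :=
  sub_SS.pi (fun a => γ a - g) fun t φ h a => hom_congr (en_hom hG h a) (by ring)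

lemma row_mem (s : ι) {m : Pol σ} {e : ℤ} (h : Hom m e) :
    (fun a => T.ω s a * m) ∈ EN T γ X (SS σ) (γ s + e) := by
  classical
  refine ⟨Pi.single s m, fun s' => ?_, fun a => ?_⟩
  · by_cases e' : s' = s
    · subst e'
      rw [Pi.single_eq_same]
      exact hom_congr h (by ring)
    · rw [Pi.single_eq_of_ne e']
      exact zero_mem _
  · rw [Finset.sum_eq_single s (fun s' _ e' => by rw [Pi.single_eq_of_ne e', mul_zero])
      (by simp), Pi.single_eq_same, aeval_X_left_apply]

lemma zJ_empty : zJ (∅ : Finset σ) = X := by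
  funext u
  simp [zJ]

lemma u2_eq (t : ℤ) : U2 T γ ∅ t =
    ⨆ i, Submodule.map₂ (be σ ι) (EN T γ X (SS σ) i) (EN T γ X (SS σ) (t - i)) := by
  apply le_antisymm
  · rintro ψ ⟨n, hn, hψ⟩
    have e : ψ = ∑ s : ι × ι, ∑ d ∈ (n s).support,
        be σ ι (fun a => T.ω s.1 a * monomial (d.comapDomain Sum.inl Sum.inl_injective.injOn)
          (coeff d (n s)))
          (fun a => T.ω s.2 a * monomial (d.comapDomain Sum.inr Sum.inr_injective.injOn) 1) := by
      funext a
      rw [hψ, zJ_empty, aeval_X_left_apply, Finset.sum_apply]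
      refine Finset.sum_congr rfl fun s _ => ?_
      rw [Finset.sum_apply]
      conv_lhs => rw [as_sum (n s), Finset.mul_sum]
      refine Finset.sum_congr rfl fun d _ => ?_
      rw [be_apply, map_mul, map_mul, rename_monomial, rename_monomial, mul_mul_mul_comm,
        monomial_mul, mul_one, ← Finsupp.sumElim_eq_add, Finsupp.comapDomain_sumElim_comapDomain]
    rw [e]
    refine Submodule.sum_mem _ fun s _ => Submodule.sum_mem _ fun d hd => ?_
    have h1 := hn s (mem_support_iff.mp hd)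
    rw [← Finsupp.comapDomain_sumElim_comapDomain d, Finsupp.sumElim_eq_add, map_add] at h1
    have h2 := wt_map (Sum.inl : σ → σ ⊕ σ) (d.comapDomain Sum.inl Sum.inl_injective.injOn)
    have h3 := wt_map (Sum.inr : σ → σ ⊕ σ) (d.comapDomain Sum.inr Sum.inr_injective.injOn)
    refine Submodule.mem_iSup_of_mem (γ s.1 + Finsupp.weight (w1 σ)
      (d.comapDomain Sum.inl Sum.inl_injective.injOn)) (Submodule.apply_mem_map₂ _
        (row_mem _ (isWeightedHomogeneous_monomial _ _ _ rfl)) ?_)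
    have h4 : t - (γ s.1 + Finsupp.weight (w1 σ)
        (d.comapDomain Sum.inl Sum.inl_injective.injOn)) = γ s.2 + Finsupp.weight (w1 σ)
        (d.comapDomain Sum.inr Sum.inr_injective.injOn) := by
      rw [← h2, ← h3]
      linarith
    rw [h4]
    exact row_mem _ (isWeightedHomogeneous_monomial _ _ _ rfl)
  · refine iSup_le fun i => Submodule.map₂_le.mpr ?_
    rintro φ ⟨n, hn, hφ⟩ ψ ⟨n', hn', hψ⟩
    refine ⟨fun s => rename Sum.inl (n s.1) * rename Sum.inr (n' s.2), fun s =>
      hom_congr ((hom_rename _ (hn s.1)).mul (hom_rename _ (hn' s.2))) (by ring), fun a => ?_⟩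
    rw [zJ_empty, aeval_X_left_apply, be_apply, hφ, hψ, map_sum, map_sum, Finset.sum_mul_sum,
      Fintype.sum_prod_type]
    refine Finset.sum_congr rfl fun s _ => Finset.sum_congr rfl fun s' _ => ?_
    simp only [aeval_X_left_apply, map_mul]
    ring

end TENS2x

open TENS2x in
theorem p_TENS2 (hTEN2 : S_TEN2) :
    S_TENS2 := by
  intro σ ι _ _ _ T γ g hG t
  have h := hTEN2 (ι → Pol σ) (ι × ι → Pol (σ ⊕ σ)) (be σ ι) (be_inj σ ι) (sw σ ι)
    (fun v w => by
      funext a
      change rename Sum.swap (be σ ι v w a.swap) = _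
      rw [be_apply, be_apply, map_mul, rename_rename, rename_rename, mul_comm]
      rfl)
    (EN T γ X (SS σ)) (indep hG) (fun t => (sub_en hG).fin t) (sub_en hG).bdd t
  have e : ∀ ε : ℂ, U2e T γ ∅ ε = fun t => (⨆ i, Submodule.map₂ (be σ ι) (EN T γ X (SS σ) i)
      (EN T γ X (SS σ) (t - i))) ⊓ (sw σ ι).eigenspace ε := fun ε => by
    funext t
    rw [U2e, u2_eq]
  rw [e, e]
  exact h

end Pool.Agent.P.MP_b01859_ag.SD
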