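import Pool.Agent.P.MP_b01859_ag.SD.Iface

/-! Step TOW. -/

set_option autoImplicit false
set_option linter.unusedSectionVars false

namespace Pool.Agent.P.MP_b01859_ag.SD

open MvPolynomial Filter

theorem p_TOW (hLEIB : S_LEIB) (hPROP : S_PROP) (hSTEP : S_STEP) (hPRIME : S_PRIME) (hHQ : S_HQ) :
    S_TOW := by
  classical
  intro σ ι _ _ n T γ g c₂ a b hC φ α hφ h0 hq v
  obtain ⟨-, -, hQ3, -, hQ5, -⟩ := hHQ σ
  induction v with
  | zero => exact fun r p₀ h => ⟨p₀, le_rfl, h, fun _ L hL => absurd hL (Nat.not_lt_zero _)⟩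
  | succ v ih =>
    intro r p₀ h
    obtain ⟨p₁, h1, h2, h3⟩ := ih (r + 2) p₀ (by
      rw [show r + 2 + 2 * v = r + 2 * (v + 1) by ring]; exact h)
    obtain ⟨w, hw⟩ : ∃ w : (Fin v → σ) → ι → Pol σ, w = fun e a => dL (List.ofFn e) (φ.1 a) :=
      ⟨_, rfl⟩
    have hs : ∀ e, SecW T γ p₁ (w e) (α - v) := fun e => by
      have := hLEIB σ ι T γ p₁ φ α (List.ofFn e) hφ (by rw [List.length_ofFn]; exact h3)
      rw [List.length_ofFn] at this
      rw [hw]
      exact this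
    have hv0 : (0 : ℤ) ≤ v := Int.natCast_nonneg v
    have hp : PropW p₁ w := by
      intro l k x y
      rcases Nat.eq_zero_or_pos v with rfl | hv
      · rw [Subsingleton.elim l k, mul_comm, sub_self]
        exact zero_mem _
      · have hv1 : (1 : ℤ) ≤ v := by exact_mod_cast hv
        exact hPROP σ ι T γ g p₁ (w l) (w k) _ _ hC.gr (hQ5 p₁ (r + 2) 1 (by omega) h2) (hs l)
          (hs k) (by linarith) x y
    have hd := hSTEP σ ι (Fin v → σ) n T γ g c₂ a b hC p₁ w (α - v) r h2 hs hp (by linarith) (by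
      unfold qq at hq ⊢
      nlinarith [mul_nonneg hv0 (neg_nonneg.2 h0), sq_nonneg (v : ℤ)])
    have hI : HomI (ZI p₁ w) :=
      hQ3 ((Fin v → σ) × ι) p₁ (fun la => w la.1 la.2) (fun la => γ la.2 + (α - v)) h2.hom
        fun la => (hs la.1).1 la.2
    obtain ⟨p, h4, h5⟩ := hPRIME σ (ZI p₁ w) r hI hd
    have h6 : p₁ ≤ p := le_sup_left.trans h4
    refine ⟨p, h1.trans h6, h5, fun x L hL => ?_⟩
    rcases Nat.lt_succ_iff_lt_or_eq.1 hL with h7 | h7
    · exact h6 (h3 x L h7)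
    · subst h7
      refine h4 (Ideal.mem_sup_right (Ideal.subset_span ⟨(L.get, x), ?_⟩))
      simp only [hw, List.ofFn_get]

end Pool.Agent.P.MP_b01859_ag.SD
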