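import Pool.Agent.P.MP_b01859_ag.SD.Iface

/-! Step WD. -/

set_option autoImplicit false
set_option linter.unusedSectionVars false

namespace Pool.Agent.P.MP_b01859_ag.SD

open MvPolynomial Filter

namespace WDx

lemma homI_bot {σ : Type} [Fintype σ] : HomI (⊥ : Ideal (Pol σ)) := by
  intro f hf d
  rw [Ideal.mem_bot] at hf ⊢
  rw [hf, map_zero]

lemma ev_ne {σ ι : Type} (T : VB σ ι) {y : σ → ℂ} (hy : y ≠ 0) :
    ∃ l : ι × ι, eval y (T.ω l.1 l.2) ≠ 0 := by
  obtain ⟨s, hs⟩ := Function.ne_iff.mp hy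
  obtain ⟨i, j, h⟩ := T.LF (RingHom.ker (eval y)) (RingHom.ker_isPrime _) s (by
    rw [RingHom.mem_ker, eval_X]; exact hs)
  exact ⟨(i, j), fun e => h (RingHom.mem_ker.mpr e)⟩

end WDx

theorem p_WD (hC1 : S_C1) (hNULL : S_NULL) :
    S_WD := by
  intro σ ι R _ _ _ _ T γ g x N hG hC hS
  refine ((hC1 σ R (ι → R) x (WN T γ g x N) (sub_WN hS) (cl_WN hC)).2 (EN T γ x N) (cl_EN hC)
    (EN_le_WN hG hC)).2.2 fun i t φ hφ => ?_
  have h0 := hNULL σ (ι × ι) ⊥ (fun l => T.ω l.1 l.2) (fun l => γ l.1 + γ l.2 - g) WDx.homI_bot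
    (fun l => hG l.1 l.2) fun y hy _ => WDx.ev_ne T hy
  obtain ⟨b, hb⟩ := eventually_atTop.mp h0
  have hX : Hom ((X i : Pol σ) ^ b.toNat) (b.toNat : ℤ) := by
    simpa using (isWeightedHomogeneous_X ℂ (w1 σ) i).pow b.toNat
  obtain ⟨u, hu, he⟩ := hb (b.toNat : ℤ) (Int.self_le_toNat b) _ hX
  rw [Ideal.mem_bot, sub_eq_zero] at he
  refine ⟨b.toNat, fun s => ∑ c, aeval x (u (s, c)) * φ c - ∑ a, aeval x (u (a, s)) * φ a,
    fun s => sub_mem (Submodule.sum_mem _ fun c _ => ?_) (Submodule.sum_mem _ fun a _ => ?_),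
    fun c => ?_⟩
  · have := hC.aeval (hu (s, c)) (hφ.1 c)
    rwa [show t + γ c - g + ((b.toNat : ℤ) - (γ s + γ c - g)) = t + b.toNat - γ s by ring] at this
  · have := hC.aeval (hu (a, s)) (hφ.1 a)
    rwa [show t + γ a - g + ((b.toNat : ℤ) - (γ a + γ s - g)) = t + b.toNat - γ s by ring] at this
  · have e1 : x i ^ b.toNat = ∑ a, ∑ d, aeval x (u (a, d)) * aeval x (T.ω a d) := by
      have := congrArg (aeval x) he
      simpa [map_sum, Fintype.sum_prod_type] using this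
    have e2 : ∑ s, aeval x (T.ω s c) * ∑ a, aeval x (u (a, s)) * φ a =
        ∑ a, ∑ s, aeval x (T.ω s c) * (aeval x (u (a, s)) * φ a) := by
      rw [Finset.sum_comm]
      simp only [Finset.mul_sum]
    simp only [Pi.smul_apply, smul_eq_mul, mul_sub, Finset.sum_sub_distrib]
    rw [e1, e2, Finset.sum_mul, ← Finset.sum_sub_distrib]
    refine Finset.sum_congr rfl fun a _ => ?_
    rw [Finset.sum_mul, Finset.mul_sum, ← Finset.sum_sub_distrib]
    refine Finset.sum_congr rfl fun d _ => ?_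
    linear_combination aeval x (u (a, d)) * hφ.2 a d c

end Pool.Agent.P.MP_b01859_ag.SD
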