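import Pool.Agent.P.MP_b01859_ag.SD.Fin
import Pool.Agent.P.MP_b01859_ag.SD.TPOLY
import Pool.Agent.P.MP_b01859_ag.SD.TGROW
import Pool.Agent.P.MP_b01859_ag.SD.TBN
import Pool.Agent.P.MP_b01859_ag.SD.TGF
import Pool.Agent.P.MP_b01859_ag.SD.TRRN
import Pool.Agent.P.MP_b01859_ag.SD.TDISC
import Pool.Agent.P.MP_b01859_ag.SD.TC1
import Pool.Agent.P.MP_b01859_ag.SD.TC2
import Pool.Agent.P.MP_b01859_ag.SD.TNULL
import Pool.Agent.P.MP_b01859_ag.SD.TTEN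
import Pool.Agent.P.MP_b01859_ag.SD.TTEN2
import Pool.Agent.P.MP_b01859_ag.SD.TTENS
import Pool.Agent.P.MP_b01859_ag.SD.TD1E
import Pool.Agent.P.MP_b01859_ag.SD.TD1F
import Pool.Agent.P.MP_b01859_ag.SD.TD1S
import Pool.Agent.P.MP_b01859_ag.SD.TDIAG1
import Pool.Agent.P.MP_b01859_ag.SD.TTENS2
import Pool.Agent.P.MP_b01859_ag.SD.TD2N
import Pool.Agent.P.MP_b01859_ag.SD.TD2K
import Pool.Agent.P.MP_b01859_ag.SD.TD2S
import Pool.Agent.P.MP_b01859_ag.SD.TD2E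
import Pool.Agent.P.MP_b01859_ag.SD.TDIAG2
import Pool.Agent.P.MP_b01859_ag.SD.TCHERN
import Pool.Agent.P.MP_b01859_ag.SD.THQ
import Pool.Agent.P.MP_b01859_ag.SD.TPT
import Pool.Agent.P.MP_b01859_ag.SD.TPRIME
import Pool.Agent.P.MP_b01859_ag.SD.TWD
import Pool.Agent.P.MP_b01859_ag.SD.TALGB
import Pool.Agent.P.MP_b01859_ag.SD.TALGD
import Pool.Agent.P.MP_b01859_ag.SD.TSYM0
import Pool.Agent.P.MP_b01859_ag.SD.TSYP1
import Pool.Agent.P.MP_b01859_ag.SD.TSYP2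
import Pool.Agent.P.MP_b01859_ag.SD.TSAND
import Pool.Agent.P.MP_b01859_ag.SD.TSTEPN
import Pool.Agent.P.MP_b01859_ag.SD.TSTEP
import Pool.Agent.P.MP_b01859_ag.SD.TPROP
import Pool.Agent.P.MP_b01859_ag.SD.TLEIB
import Pool.Agent.P.MP_b01859_ag.SD.TTOW
import Pool.Agent.P.MP_b01859_ag.SD.TORD0
import Pool.Agent.P.MP_b01859_ag.SD.TTAY
import Pool.Agent.P.MP_b01859_ag.SD.TORDM
import Pool.Agent.P.MP_b01859_ag.SD.TORDD
import Pool.Agent.P.MP_b01859_ag.SD.TCOND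
import Pool.Agent.P.MP_b01859_ag.SD.TMULA
import Pool.Agent.P.MP_b01859_ag.SD.TMULB
import Pool.Agent.P.MP_b01859_ag.SD.TMULN
import Pool.Agent.P.MP_b01859_ag.SD.TSEQA
import Pool.Agent.P.MP_b01859_ag.SD.TSEQN
import Pool.Agent.P.MP_b01859_ag.SD.TMULT
import Pool.Agent.P.MP_b01859_ag.SD.TSPL0
import Pool.Agent.P.MP_b01859_ag.SD.TC2P
import Pool.Agent.P.MP_b01859_ag.SD.TBOGN
import Pool.Agent.P.MP_b01859_ag.SD.TBOG
import Pool.Agent.P.MP_b01859_ag.SD.TFRL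
import Pool.Agent.P.MP_b01859_ag.SD.TFRH

/-!
The steps used by both theorems.
-/

namespace Pool.Agent.P.MP_b01859_ag.SD

theorem q_POLY : S_POLY := p_POLY

theorem q_GROW : S_GROW := p_GROW

theorem q_BN : S_BN := p_BN

theorem q_GF : S_GF := p_GF

theorem q_RRN : S_RRN := p_RRN q_BN q_GF

theorem q_DISC : S_DISC := p_DISC

theorem q_C1 : S_C1 := p_C1

theorem q_C2 : S_C2 := p_C2

theorem q_NULL : S_NULL := p_NULL

theorem q_TEN : S_TEN := p_TEN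

theorem q_TEN2 : S_TEN2 := p_TEN2 q_TEN

theorem q_TENS : S_TENS := p_TENS q_TEN

theorem q_D1E : S_D1E := p_D1E

theorem q_D1F : S_D1F := p_D1F

theorem q_D1S : S_D1S := p_D1S q_C1 q_NULL q_D1F

theorem q_DIAG1 : S_DIAG1 := p_DIAG1 q_TENS q_D1E q_D1S

theorem q_TENS2 : S_TENS2 := p_TENS2 q_TEN2

theorem q_D2N : S_D2N := p_D2N q_NULL

theorem q_D2K : S_D2K := p_D2K q_C1 q_D2N

theorem q_D2S : S_D2S := p_D2S q_D2K

theorem q_D2E : S_D2E := p_D2E q_NULL q_BN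

theorem q_DIAG2 : S_DIAG2 := p_DIAG2 q_TENS2 q_D2S q_D2E

theorem q_CHERN : S_CHERN := p_CHERN q_DIAG1 q_DIAG2 q_RRN q_GF q_C1 q_POLY

theorem q_HQ : S_HQ := p_HQ q_C1 q_GROW

theorem q_PT : S_PT := p_PT q_NULL

theorem q_PRIME : S_PRIME := p_PRIME q_HQ

theorem q_WD : S_WD := p_WD q_C1 q_NULL

theorem q_ALGB : S_ALGB := p_ALGB

theorem q_ALGD : S_ALGD := p_ALGD q_ALGB

theorem q_SYM0 : S_SYM0 := p_SYM0 q_WD q_ALGB q_ALGD q_HQ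

theorem q_SYP1 : S_SYP1 := p_SYP1 q_C1 q_ALGB q_ALGD

theorem q_SYP2 : S_SYP2 := p_SYP2 q_C1 q_ALGB q_ALGD q_GROW

theorem q_SAND : S_SAND := p_SAND q_ALGB

theorem q_STEPN : S_STEPN := p_STEPN q_POLY

theorem q_STEP : S_STEP := p_STEP q_HQ q_ALGB q_C1 q_C2 q_POLY q_GROW q_SAND q_SYM0 q_SYP1 q_SYP2 q_STEPN

theorem q_PROP : S_PROP := p_PROP q_NULL q_HQ

theorem q_LEIB : S_LEIB := p_LEIB

theorem q_TOW : S_TOW := p_TOW q_LEIB q_PROP q_STEP q_PRIME q_HQ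

theorem q_ORD0 : S_ORD0 := p_ORD0

theorem q_TAY : S_TAY := p_TAY q_ORD0

theorem q_ORDM : S_ORDM := p_ORDM q_ORD0

theorem q_ORDD : S_ORDD := p_ORDD q_ORD0

theorem q_COND : S_COND := p_COND q_BN

theorem q_MULA : S_MULA := p_MULA q_ORDM q_ORDD q_BN

theorem q_MULB : S_MULB := p_MULB q_ORD0

theorem q_MULN : S_MULN := p_MULN q_BN q_GROW q_POLY

theorem q_SEQA : S_SEQA := p_SEQA q_WD q_BN

theorem q_SEQN : S_SEQN := p_SEQN q_POLY q_BN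

theorem q_MULT : S_MULT := p_MULT q_MULA q_MULB q_MULN q_SEQA q_SEQN q_BN

theorem q_SPL0 : S_SPL0 := p_SPL0

theorem q_C2P : S_C2P := p_C2P q_MULT q_SPL0

theorem q_BOGN : S_BOGN := p_BOGN q_POLY q_BN q_GROW

theorem q_BOG : S_BOG := p_BOG q_BOGN q_COND q_ORDM q_MULT q_BN

theorem q_FRL : S_FRL := p_FRL

theorem q_FRH : S_FRH := p_FRH q_C1

end Pool.Agent.P.MP_b01859_ag.SD
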