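import Pool.Agent.P.MP_b01859_ag.Map
import Pool.Agent.P.MP_b01859_ag.Front

/-!
Hilbert functions of families of subspaces, sections on subvarieties, orders of vanishing.
-/

namespace Pool.Agent.P.MP_b01859_ag.SD

open MvPolynomial Filter

section fn

/-- Difference in the direction `w`. -/
def dg {G : Type} [AddCommGroup G] (w : G) (f : G → ℤ) : G → ℤ := fun g => f g - f (g - w)

/-- Backward difference. -/
abbrev dl : (ℤ → ℤ) → ℤ → ℤ := dg 1

/-- Mixed differences of a function of two variables. -/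
abbrev dd (i j : ℕ) (f : ℤ × ℤ → ℤ) : ℤ × ℤ → ℤ := (dg (1, 0))^[i] ((dg (0, 1))^[j] f)

/-- Backward sum. -/
def pl (f : ℤ → ℤ) : ℤ → ℤ := fun t => f t + f (t - 1)

/-- Convolution. -/
noncomputable def conv (f g : ℤ → ℤ) : ℤ → ℤ := fun t => ∑ᶠ i, f i * g (t - i)

/-- Doubling of degrees. -/
def dbl (f : ℤ → ℤ) : ℤ → ℤ := fun t => if 2 ∣ t then f (t / 2) else 0

/-- Zero in low degrees. -/
def Bdd (f : ℤ → ℤ) : Prop := ∃ b, ∀ t, t < b → f t = 0

/-- Eventually a polynomial of degree less than `r`. -/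
def Ev0 (r : ℕ) (f : ℤ → ℤ) : Prop := ∀ᶠ t in atTop, dl^[r] f t = 0

/-- All differences are eventually nonnegative. -/
def Pos (f : ℤ → ℤ) : Prop := ∀ j : ℕ, ∀ᶠ t in atTop, 0 ≤ dl^[j] f t

/-- All mixed differences are eventually nonnegative. -/
def Pos2 (f : ℤ × ℤ → ℤ) : Prop :=
  ∀ i j : ℕ, ∃ m₀ t₀ : ℤ, ∀ m t, m₀ ≤ m → t₀ ≤ t → 0 ≤ dd i j f (m, t)

/-- Eventually equal to a given polynomial. -/
def EvP (f : ℤ → ℤ) (P : Polynomial ℂ) : Prop := ∀ᶠ t : ℤ in atTop, (f t : ℂ) = P.eval (t : ℂ)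

/-- Translation of the variable. -/
noncomputable def sh (a : ℂ) (P : Polynomial ℂ) : Polynomial ℂ :=
  P.comp (Polynomial.X + Polynomial.C a)

/-- The number of monomials of degree `t` in `n + 1` variables. -/
def bn (n : ℕ) (t : ℤ) : ℤ := if 0 ≤ t then ((t.toNat + n).choose n : ℕ) else 0

/-- The Hilbert polynomial of projective space. -/
noncomputable def bp (n : ℕ) : Polynomial ℂ :=
  Polynomial.C ((n.factorial : ℂ)⁻¹) *
    ∏ i ∈ Finset.range n, (Polynomial.X + Polynomial.C ((i : ℂ) + 1))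

/-- Complete symmetric functions of the two roots. -/
def hs (c₁ c₂ : ℤ) : ℕ → ℤ
  | 0 => 1
  | 1 => c₁
  | j + 2 => c₁ * hs c₁ c₂ (j + 1) - c₂ * hs c₁ c₂ j

/-- The second Chern class of the twist whose sections have level `α`. -/
def qq (g c₂ α : ℤ) : ℤ := α ^ 2 + g * α + c₂

end fn

section fam

variable {τ G R V : Type} [AddCommGroup G] [CommRing R] [Algebra ℂ R] [AddCommMonoid V]
  [Module ℂ V] [Module R V] [IsScalarTower ℂ R V]

/-- All weights equal to one. -/
abbrev w1 (σ : Type) : σ → ℤ := fun _ => 1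

/-- The dimension function of a family of subspaces. -/
noncomputable def hd (K : G → Submodule ℂ V) : G → ℤ := fun g => (Module.finrank ℂ (K g) : ℕ)

/-- Families closed under the operators `x i`. -/
def Cl (x : τ → R) (w : τ → G) (K : G → Submodule ℂ V) : Prop :=
  ∀ i g v, v ∈ K g → x i • v ∈ K (g + w i)

/-- The family generated by elements `u l` of degree `e l`. -/
def Gen (x : τ → R) (w : τ → G) {κ : Type} [Fintype κ] (u : κ → V) (e : κ → G) (g : G) :
    Submodule ℂ V where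
  carrier := {v | ∃ f : κ → Pol τ, (∀ l, IsWeightedHomogeneous w (f l) (g - e l)) ∧
    v = ∑ l, aeval x (f l) • u l}
  add_mem' := by
    rintro _ _ ⟨f, hf, rfl⟩ ⟨f', hf', rfl⟩
    exact ⟨f + f', fun l => (hf l).add (hf' l), by simp [add_smul, Finset.sum_add_distrib]⟩
  zero_mem' := ⟨0, fun l => isWeightedHomogeneous_zero _ _ _, by simp⟩
  smul_mem' := by
    rintro c _ ⟨f, hf, rfl⟩
    exact ⟨fun l => C c * f l, fun l => (hf l).C_mul c, by
      simp [Finset.smul_sum, mul_smul]⟩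

/-- Families contained in a finitely generated family. -/
def Sub (x : τ → R) (w : τ → G) (K : G → Submodule ℂ V) : Prop :=
  ∃ (κ : Type) (_ : Fintype κ) (u : κ → V) (e : κ → G), ∀ g, K g ≤ Gen x w u e g

end fam

section vb

variable {σ ι : Type} [Fintype σ] [Fintype ι] {R : Type} [CommRing R] [Algebra ℂ R]

/-- Forms of degree `t`. -/
noncomputable abbrev SS (σ : Type) (t : ℤ) : Submodule ℂ (Pol σ) :=
  weightedHomogeneousSubmodule ℂ (w1 σ) t

/-- The tensor product of the bundle with a family, as combinations of the rows. -/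
def EN (T : VB σ ι) (γ : ι → ℤ) (x : σ → R) (N : ℤ → Submodule ℂ R) (t : ℤ) :
    Submodule ℂ (ι → R) where
  carrier := {φ | ∃ n : ι → R, (∀ s, n s ∈ N (t - γ s)) ∧
    ∀ a, φ a = ∑ s, aeval x (T.ω s a) * n s}
  add_mem' := by
    rintro φ ψ ⟨n, hn, h⟩ ⟨n', hn', h'⟩
    exact ⟨n + n', fun s => add_mem (hn s) (hn' s), fun a => by
      simp [h, h', mul_add, Finset.sum_add_distrib]⟩
  zero_mem' := ⟨0, fun s => zero_mem _, by simp⟩
  smul_mem' := by
    rintro c φ ⟨n, hn, h⟩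
    exact ⟨c • n, fun s => Submodule.smul_mem _ c (hn s), fun a => by
      simp [h, Finset.smul_sum]⟩

/-- The tensor product of the bundle with a family, as vectors of rank at most two with the rows. -/
def WN (T : VB σ ι) (γ : ι → ℤ) (g : ℤ) (x : σ → R) (N : ℤ → Submodule ℂ R) (t : ℤ) :
    Submodule ℂ (ι → R) where
  carrier := {φ | (∀ a, φ a ∈ N (t + γ a - g)) ∧ ∀ i j k, aeval x (T.ω i j) * φ k -
    aeval x (T.ω i k) * φ j + aeval x (T.ω j k) * φ i = 0}
  add_mem' := by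
    rintro φ ψ ⟨h₁, h₂⟩ ⟨h₃, h₄⟩
    exact ⟨fun a => add_mem (h₁ a) (h₃ a), fun i j k => by
      simp only [Pi.add_apply]; linear_combination h₂ i j k + h₄ i j k⟩
  zero_mem' := ⟨fun a => zero_mem _, by simp⟩
  smul_mem' := by
    rintro c φ ⟨h₁, h₂⟩
    refine ⟨fun a => Submodule.smul_mem _ c (h₁ a), fun i j k => ?_⟩
    simp only [Pi.smul_apply, mul_smul_comm, ← smul_sub, ← smul_add, h₂ i j k, smul_zero]

/-- The Hilbert function of the module spanned by the rows. -/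
noncomputable def hM (T : VB σ ι) (γ : ι → ℤ) : ℤ → ℤ := hd (EN T γ X (SS σ))

/-- Riemann-Roch: the bundle acts on Hilbert polynomials as the sum of two translations. -/
def RR (T : VB σ ι) (γ : ι → ℤ) (a b : ℂ) : Prop :=
  ∀ (R : Type) [CommRing R] [Algebra ℂ R] (x : σ → R) (N : ℤ → Submodule ℂ R),
    Cl x (w1 σ) N → Sub x (w1 σ) N → ∀ P, EvP (hd N) P → EvP (hd (EN T γ x N)) (sh a P + sh b P)

/-- A graded bundle on `P^n` with its Chern roots. -/
structure Ch (n : ℕ) (T : VB σ ι) (γ : ι → ℤ) (g c₂ : ℤ) (a b : ℂ) : Prop where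
  card : Fintype.card σ = n + 1
  five : 5 ≤ n
  gr : Gr (w1 σ) γ g T.ω
  sum : a + b = -g
  mul : a * b = c₂
  rr : RR T γ a b

/-- Homogeneous ideals. -/
def HomI (I : Ideal (Pol σ)) : Prop :=
  ∀ f ∈ I, ∀ d : ℤ, weightedHomogeneousComponent (w1 σ) d f ∈ I

/-- The Hilbert function of a quotient. -/
noncomputable def hq (I : Ideal (Pol σ)) : ℤ → ℤ :=
  hd fun t => (SS σ t).map (Ideal.Quotient.mkₐ ℂ I).toLinearMap

/-- The zero set has dimension at least `r`. -/
def DimGe (I : Ideal (Pol σ)) (r : ℕ) : Prop := ¬ Ev0 r (hq I)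

/-- Irreducible subvarieties of dimension at least `r`. -/
structure Var (p : Ideal (Pol σ)) (r : ℕ) : Prop where
  prime : p.IsPrime
  hom : HomI p
  dim : DimGe p r

/-- Sections of level `α` on a subvariety. -/
def SecW (T : VB σ ι) (γ : ι → ℤ) (p : Ideal (Pol σ)) (v : ι → Pol σ) (α : ℤ) : Prop :=
  (∀ a, Hom (v a) (γ a + α)) ∧ ∀ i j k, T.ω i j * v k - T.ω i k * v j + T.ω j k * v i ∈ p

/-- Pairwise proportional sections. -/
def PropW {Λ : Type} (p : Ideal (Pol σ)) (v : Λ → ι → Pol σ) : Prop :=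
  ∀ l k a b, v l a * v k b - v l b * v k a ∈ p

/-- Sections that span a plane at every point of the subvariety. -/
def GenW {Λ : Type} (p : Ideal (Pol σ)) (v : Λ → ι → Pol σ) : Prop :=
  ∀ y : σ → ℂ, y ≠ 0 → (∀ f ∈ p, eval y f = 0) →
    ∃ l k a b, eval y (v l a * v k b - v l b * v k a) ≠ 0

/-- The ideal of common zeros of sections. -/
noncomputable def ZI {Λ : Type} (p : Ideal (Pol σ)) (v : Λ → ι → Pol σ) : Ideal (Pol σ) :=
  p ⊔ Ideal.span (Set.range fun la : Λ × ι => v la.1 la.2)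

/-- The ambient ring of the symmetric algebra. -/
abbrev AP (ι : Type) (p : Ideal (Pol σ)) : Type := MvPolynomial ι (Pol σ ⧸ p)

/-- The coordinates in the ambient ring. -/
noncomputable def xb (ι : Type) (p : Ideal (Pol σ)) (i : σ) : AP ι p :=
  C (Ideal.Quotient.mk p (X i))

/-- A section as a linear form. -/
noncomputable def lf (p : Ideal (Pol σ)) (v : ι → Pol σ) : AP ι p :=
  ∑ a, C (Ideal.Quotient.mk p (v a)) * X a

/-- The two weights. -/
def wb (σ Λ : Type) : σ ⊕ Λ → ℤ × ℤ := Sum.elim (fun _ => (0, 1)) fun _ => (1, 0)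

/-- The generators of the algebra of a family of sections. -/
noncomputable def xa {Λ : Type} (p : Ideal (Pol σ)) (v : Λ → ι → Pol σ) : σ ⊕ Λ → AP ι p :=
  Sum.elim (xb ι p) fun l => lf p (v l)

/-- The bigraded algebra generated by a family of sections. -/
noncomputable def Alg {Λ : Type} (p : Ideal (Pol σ)) (v : Λ → ι → Pol σ) :
    ℤ × ℤ → Submodule ℂ (AP ι p) :=
  Gen (xa p v) (wb σ Λ) (fun _ : Unit => (1 : AP ι p)) fun _ => 0

/-- One symmetric power. -/
noncomputable def Al {Λ : Type} (p : Ideal (Pol σ)) (v : Λ → ι → Pol σ) (m t : ℤ) :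
    Submodule ℂ (AP ι p) := Alg p v (m, t)

/-- Curl free vectors. -/
noncomputable def ZN (T : VB σ ι) (γ : ι → ℤ) (g : ℤ) (p : Ideal (Pol σ))
    (N : ℤ → Submodule ℂ (AP ι p)) (t : ℤ) : Submodule ℂ (ι → AP ι p) where
  carrier := {φ | φ ∈ WN T γ g (xb ι p) N t ∧ ∀ a b, pderiv b (φ a) = pderiv a (φ b)}
  add_mem' := by
    rintro φ ψ ⟨h₁, h₂⟩ ⟨h₃, h₄⟩
    exact ⟨add_mem h₁ h₃, fun a b => by simp [h₂ a b, h₄ a b]⟩
  zero_mem' := ⟨zero_mem _, by simp⟩
  smul_mem' := by
    rintro c φ ⟨h₁, h₂⟩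
    refine ⟨Submodule.smul_mem _ c h₁, fun a b => ?_⟩
    simp only [Pi.smul_apply, Derivation.map_smul_of_tower, h₂ a b]

/-- Divergences. -/
noncomputable def DN (γ : ι → ℤ) (p : Ideal (Pol σ)) (N : ℤ → Submodule ℂ (AP ι p)) (t : ℤ) :
    Submodule ℂ (AP ι p) where
  carrier := {f | ∃ n : ι → AP ι p, (∀ s, n s ∈ N (t - γ s)) ∧ f = ∑ s, pderiv s (n s)}
  add_mem' := by
    rintro _ _ ⟨n, hn, rfl⟩ ⟨n', hn', rfl⟩
    exact ⟨n + n', fun s => add_mem (hn s) (hn' s), by simp [Finset.sum_add_distrib]⟩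
  zero_mem' := ⟨0, fun s => zero_mem _, by simp⟩
  smul_mem' := by
    rintro c _ ⟨n, hn, rfl⟩
    refine ⟨c • n, fun s => Submodule.smul_mem _ c (hn s), ?_⟩
    simp only [Pi.smul_apply, Derivation.map_smul_of_tower, Finset.smul_sum]

/-- Iterated derivatives. -/
noncomputable def dL (L : List σ) (f : Pol σ) : Pol σ := L.foldr (fun i h => pderiv i h) f

/-- Vanishing to order `v` along a subvariety. -/
def OrdW (p : Ideal (Pol σ)) (v : ℕ) (f : Pol σ) : Prop := ∀ L : List σ, L.length < v → dL L f ∈ p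

/-- The bundle is generated by sections on some subvariety of codimension at most two. -/
def GW (n : ℕ) (T : VB σ ι) (γ : ι → ℤ) (g : ℤ) : Prop :=
  ∃ p : Ideal (Pol σ), Var p (n - 2) ∧ ∃ (Λ : Type) (_ : Fintype Λ) (v : Λ → ι → Pol σ),
    (∀ l, SecW T γ p (v l) (-g)) ∧ GenW p v

/-- The Jacobian criterion for the zeros of a section. -/
def Smo (s : ι → Pol σ) : Prop :=
  ∀ y : σ → ℂ, y ≠ 0 → (∀ a, eval y (s a) = 0) → ∃ i k a b,
    eval y (pderiv i (s a) * pderiv k (s b) - pderiv i (s b) * pderiv k (s a)) ≠ 0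

/-- The maximal ideal of a point. -/
noncomputable abbrev my (y : σ → ℂ) : Ideal (Pol σ) := RingHom.ker (eval y)

end vb

section diag

variable {σ ι : Type} [Fintype σ] [DecidableEq σ] [Fintype ι] {R : Type} [CommRing R]
  [Algebra ℂ R]

/-- The coordinates after identifying the variables in `J`. -/
noncomputable def xJ (x : σ → R) (J : Finset σ) (i : σ) : MvPolynomial σ R :=
  if i ∈ J then C (x i) else X i

/-- Polynomials in the variables outside `J` with coefficients in a family. -/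
def FJ (N : ℤ → Submodule ℂ R) (J : Finset σ) (t : ℤ) : Submodule ℂ (MvPolynomial σ R) where
  carrier := {f | ∀ d, coeff d f ∈ N (t - Finsupp.weight (w1 σ) d) ∧
    ((∃ i ∈ J, d i ≠ 0) → coeff d f = 0)}
  add_mem' := fun {f f'} h h' d => ⟨by rw [coeff_add]; exact add_mem (h d).1 (h' d).1,
    fun e => by rw [coeff_add, (h d).2 e, (h' d).2 e, add_zero]⟩
  zero_mem' := fun d => ⟨zero_mem _, fun _ => rfl⟩
  smul_mem' := fun c f h d => ⟨by rw [coeff_smul]; exact Submodule.smul_mem _ c (h d).1,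
    fun e => by rw [coeff_smul, (h d).2 e, smul_zero]⟩

/-- The partial restriction to the diagonal. -/
noncomputable def U1 (T : VB σ ι) (γ : ι → ℤ) (x : σ → R) (N : ℤ → Submodule ℂ R) (J : Finset σ) :
    ℤ → Submodule ℂ (ι → MvPolynomial σ R) := EN T γ (xJ x J) (FJ N J)

/-- The coordinates of the square after identifying the variables in `J`. -/
noncomputable def zJ (J : Finset σ) (u : σ ⊕ σ) : Pol (σ ⊕ σ) :=
  if u.elim id id ∈ J then C (2⁻¹ : ℂ) * (X (Sum.inl (u.elim id id)) + X (Sum.inr (u.elim id id)))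
  else X u

/-- The partial restriction of the square to the diagonal. -/
noncomputable def U2 (T : VB σ ι) (γ : ι → ℤ) (J : Finset σ) (t : ℤ) :
    Submodule ℂ (ι × ι → Pol (σ ⊕ σ)) where
  carrier := {ψ | ∃ n : ι × ι → Pol (σ ⊕ σ), (∀ s, Hom (n s) (t - γ s.1 - γ s.2)) ∧
    ∀ a, ψ a = aeval (zJ J) (∑ s, rename Sum.inl (T.ω s.1 a.1) * rename Sum.inr (T.ω s.2 a.2) * n s)}
  add_mem' := by
    rintro φ ψ ⟨n, hn, h⟩ ⟨n', hn', h'⟩
    exact ⟨n + n', fun s => (hn s).add (hn' s), fun a => by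
      simp [h, h', mul_add, Finset.sum_add_distrib]⟩
  zero_mem' := ⟨0, fun s => isWeightedHomogeneous_zero _ _ _, by simp⟩
  smul_mem' := by
    rintro c φ ⟨n, hn, h⟩
    refine ⟨fun s => C c * n s, fun s => (hn s).C_mul c, fun a => ?_⟩
    rw [Pi.smul_apply, h, ← map_smul, Finset.smul_sum]
    congr 1
    exact Finset.sum_congr rfl fun s _ => by rw [smul_eq_C_mul]; ring

/-- The exchange of the two factors. -/
noncomputable def sw (σ ι : Type) : Module.End ℂ (ι × ι → Pol (σ ⊕ σ)) where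
  toFun ψ a := rename Sum.swap (ψ a.swap)
  map_add' φ ψ := by ext1 a; simp
  map_smul' c φ := by ext1 a; simp

/-- The symmetric and the alternating part. -/
noncomputable def U2e (T : VB σ ι) (γ : ι → ℤ) (J : Finset σ) (ε : ℂ) (t : ℤ) :
    Submodule ℂ (ι × ι → Pol (σ ⊕ σ)) := U2 T γ J t ⊓ (sw σ ι).eigenspace ε

end diag

section front

variable {σ ι : Type} [Fintype σ] [Fintype ι] {M : Type} [AddCommGroup M] [Module ℂ M]
  [Module (Pol σ) M] [IsScalarTower ℂ (Pol σ) M]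

/-- A graded module together with its map onto the module of rows. -/
structure Lift (ℳ : ℤ → Submodule ℂ M) (T : VB σ ι) (γ : ι → ℤ) (g : ℤ) (L : M →ₗ[Pol σ] T.N) :
    Prop where
  gr : Gr (w1 σ) γ g T.ω
  img : ∀ t φ, φ ∈ EN T γ X (SS σ) t ↔ ∃ m ∈ ℳ t, (L m).1 = φ
  hom : ∀ t, ∀ m ∈ ℳ t, VB.HomN (w1 σ) γ (L m) (t - g)
  ker : ∀ m, L m = 0 → ∀ i, ∃ k : ℕ, (X i : Pol σ) ^ k • m = 0
  row : ∀ s, ∃ m, L m = T.row s

/-- Locally free of rank two away from the origin. -/
def LF2 (σ M : Type) [AddCommGroup M] [Module (Pol σ) M] : Prop :=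
  ∀ p : PrimeSpectrum (Pol σ), (∃ i, X i ∉ p.asIdeal) →
    Module.Free (Localization.AtPrime p.asIdeal) (LocalizedModule p.asIdeal.primeCompl M) ∧
    Module.finrank (Localization.AtPrime p.asIdeal) (LocalizedModule p.asIdeal.primeCompl M) = 2

/-- The sheaf of the graded module is a sum of two line bundles. -/
def SplitM (σ : Type) {M : Type} [AddCommGroup M] [Module ℂ M] [Module (Pol σ) M]
    (ℳ : ℤ → Submodule ℂ M) : Prop :=
  ∃ (a b : ℤ) (φ : M →ₗ[Pol σ] Pol σ × Pol σ),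
    (∀ k m, m ∈ ℳ k → IsWeightedHomogeneous (fun _ => (1 : ℤ)) (φ m).1 (k + a) ∧
      IsWeightedHomogeneous (fun _ => (1 : ℤ)) (φ m).2 (k + b)) ∧
    ∀ p : PrimeSpectrum (Pol σ), (∃ i, X i ∉ p.asIdeal) →
      Function.Bijective (LocalizedModule.map p.asIdeal.primeCompl φ)

end front

end Pool.Agent.P.MP_b01859_ag.SD
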