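import Pool.Agent.P.MP_b01859_ag.SD.Iface

/-!
From bundles given by skew matrices to graded modules.
-/

set_option linter.unusedSectionVars false

namespace Pool.Agent.P.MP_b01859_ag.SD

open MvPolynomial Filter

variable {σ M : Type} [Fintype σ] [AddCommGroup M] [Module ℂ M] [Module (Pol σ) M]
  [IsScalarTower ℂ (Pol σ) M] [Module.Finite (Pol σ) M] {ℳ : ℤ → Submodule ℂ M} {n : ℕ}

lemma eval_bp (n : ℕ) (z : ℂ) :
    (bp n).eval z = (∏ i ∈ Finset.range n, (z + i + 1)) / n.factorial := by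
  simp only [bp, Polynomial.eval_mul, Polynomial.eval_C, Polynomial.eval_prod, Polynomial.eval_add,
    Polynomial.eval_X, add_assoc]
  rw [div_eq_inv_mul]

theorem setup (hFRL : S_FRL) (hFRH : S_FRH) (hCHERN : S_CHERN) (hDISC : S_DISC) (hBN : S_BN)
    (hcard : Fintype.card σ = n + 1) (hn : 5 ≤ n) (hint : DirectSum.IsInternal ℳ)
    (hgr : Cl (X : σ → Pol σ) (w1 σ) ℳ) (hfree : LF2 σ M) :
    ∃ (ι : Type) (_ : Fintype ι) (T : VB σ ι) (γ : ι → ℤ) (g : ℤ) (L : M →ₗ[Pol σ] T.N) (c₂ : ℤ)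
      (a b : ℂ), Lift ℳ T γ g L ∧ (Sp T.ω → SplitM σ ℳ) ∧ Ch n T γ g c₂ a b ∧
      (g ^ 2 < 4 * c₂ → (n : ℤ) ^ 2 ≤ 6 * (4 * c₂ - g ^ 2)) ∧
      ∀ᶠ t : ℤ in atTop, (Module.finrank ℂ (ℳ t) : ℂ) =
        (∏ i ∈ Finset.range n, (t + a + i + 1) + ∏ i ∈ Finset.range n, (t + b + i + 1)) /
          n.factorial := by
  obtain ⟨ι, _, T, γ, g, L, hL, hS⟩ := hFRL σ M ℳ (by omega) hint hgr hfree
  obtain ⟨c₂, a, b, hC, hI⟩ := hCHERN σ ι T γ g n hcard hn hL.gr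
  refine ⟨ι, inferInstance, T, γ, g, L, c₂, a, b, hL, hS, hC, fun h => ?_, ?_⟩
  · have := hDISC n (-g) c₂ a b hn (by rw [hC.sum]; simp) hC.mul (by rwa [neg_sq]) hI
    rwa [neg_sq] at this
  · have h1 := hC.rr (Pol σ) X (SS σ) cl_SS sub_SS (bp n)
      (by rw [(hBN.2.2.2.2.2.2 σ n hcard).1]; exact hBN.2.2.1 n)
    filter_upwards [h1, hFRH σ ι M ℳ T γ g L hint hgr hL] with t h2 h3
    have h4 : ((hd ℳ t : ℤ) : ℂ) = (Module.finrank ℂ (ℳ t) : ℂ) := by simp [hd]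
    rw [← h4, h3, hM, h2, Polynomial.eval_add, eval_sh, eval_sh, eval_bp, eval_bp, add_div]

theorem finA (hFRL : S_FRL) (hFRH : S_FRH) (hCHERN : S_CHERN) (hDISC : S_DISC) (hBN : S_BN)
    (hFRP : S_FRP) (hMAINA : S_MAINA)
    (hcard : Fintype.card σ = n + 1) (hn : 5 ≤ n) (hint : DirectSum.IsInternal ℳ)
    (hgr : Cl (X : σ → Pol σ) (w1 σ) ℳ) (hfree : LF2 σ M) :
    ∃ (c₁ c₂ : ℤ) (a b : ℂ), a + b = c₁ ∧ a * b = c₂ ∧
      (∀ᶠ t : ℤ in atTop, (Module.finrank ℂ (ℳ t) : ℂ) =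
        (∏ i ∈ Finset.range n, (t + a + i + 1) + ∏ i ∈ Finset.range n, (t + b + i + 1)) /
          n.factorial) ∧
      (SplitM σ ℳ ∨ ∀ (j : ℤ) (s : M), s ∈ ℳ j →
        (∀ (f h : Pol σ) (m : M), Prime f → h • s = f • m → f ∣ h) →
        (n : ℤ) ^ 2 ≤ 24 * (j ^ 2 + c₁ * j + c₂) ∧
          (4 * c₂ ≤ c₁ ^ 2 → ((n / 2 : ℕ) : ℤ) ^ 2 ≤ j ^ 2 + c₁ * j + c₂)) := by
  obtain ⟨ι, _, T, γ, g, L, c₂, a, b, hL, hS, hC, hD, hH⟩ :=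
    setup hFRL hFRH hCHERN hDISC hBN hcard hn hint hgr hfree
  refine ⟨-g, c₂, a, b, by rw [hC.sum]; simp, hC.mul, hH, ?_⟩
  by_cases hsp : Sp T.ω
  · exact Or.inl (hS hsp)
  refine Or.inr fun j s hs hp => ?_
  have key : 4 * c₂ ≤ (-g) ^ 2 → ((n / 2 : ℕ) : ℤ) ^ 2 ≤ j ^ 2 + -g * j + c₂ := fun h => by
    have := hMAINA σ ι n T γ g c₂ a b hC (by rwa [neg_sq] at h) hsp (L s) (j - g) (hL.hom j s hs)
      (hFRP σ ι M ℳ T γ g L (by omega) hL s hp)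
    unfold qq at this
    linarith
  refine ⟨?_, key⟩
  by_cases h : 4 * c₂ ≤ (-g) ^ 2
  · have h1 := key h
    have h2 : (n : ℤ) ≤ 3 * ((n / 2 : ℕ) : ℤ) := by omega
    have h3 : (0 : ℤ) ≤ n := by omega
    nlinarith
  · have h1 := hD (by rw [neg_sq] at h; omega)
    nlinarith [sq_nonneg (2 * j - g)]

theorem finB (hFRL : S_FRL) (hFRH : S_FRH) (hCHERN : S_CHERN) (hDISC : S_DISC) (hBN : S_BN)
    (hFRG : S_FRG) (hFRS : S_FRS) (hSMP : S_SMP) (hSMO : S_SMO) (hMAINB : S_MAINB) (hHQ : S_HQ)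
    (hcard : Fintype.card σ = n + 1) (hn : 5 ≤ n) (hint : DirectSum.IsInternal ℳ)
    (hgr : Cl (X : σ → Pol σ) (w1 σ) ℳ) (hfree : LF2 σ M)
    (hpos : (∀ p : PrimeSpectrum (Pol σ), (∃ i, X i ∉ p.asIdeal) → ∀ m : M, ∃ h : Pol σ,
        h ∉ p.asIdeal ∧ h • m ∈ Submodule.span (Pol σ) (ℳ 0 : Set M)) ∨
      ∃ s ∈ ℳ 0, ∀ y : σ → ℂ, y ≠ 0 → ∀ e : M, ∀ f ∈ my y,
        s - f • e ∉ (my y ^ 2 • ⊤ : Submodule (Pol σ) M)) :
    ∃ (c₁ c₂ : ℤ) (a b : ℂ), a + b = c₁ ∧ a * b = c₂ ∧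
      (∀ᶠ t : ℤ in atTop, (Module.finrank ℂ (ℳ t) : ℂ) =
        (∏ i ∈ Finset.range n, (t + a + i + 1) + ∏ i ∈ Finset.range n, (t + b + i + 1)) /
          n.factorial) ∧
      (SplitM σ ℳ ∨ ((n : ℤ) ^ 2 < 50 * c₁ ∧ (n : ℤ) ^ 2 * c₁ < 50 * c₂ ∧
        ∀ (k : ℤ) (s : M), s ∈ ℳ (-k) →
        (∀ f : Pol σ, f • s = 0 → f = 0) → (n : ℤ) ^ 2 < 50 * (c₁ - k))) := by
  obtain ⟨ι, _, T, γ, g, L, c₂, a, b, hL, hS, hC, hD, hH⟩ :=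
    setup hFRL hFRH hCHERN hDISC hBN hcard hn hint hgr hfree
  refine ⟨-g, c₂, a, b, by rw [hC.sum]; simp, hC.mul, hH, ?_⟩
  by_cases hsp : Sp T.ω
  · exact Or.inl (hS hsp)
  obtain ⟨i⟩ : Nonempty σ := Fintype.card_pos_iff.mp (by omega)
  have hG : GW n T γ g ∧ ∃ s : T.N, s ≠ 0 ∧ VB.HomN (w1 σ) γ s (-g) := by
    rcases hpos with h | ⟨s, hs, h⟩
    · obtain ⟨Λ, _, v, hv, hv'⟩ := hFRG σ ι M ℳ T γ g L hL (finite_piece (σ := σ)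
        hint.submodule_iSupIndep hint.submodule_iSup_eq_top hgr 0) h
      refine ⟨⟨⊥, (hHQ σ).2.2.2.2.1 ⊥ n (n - 2) (by omega) ⟨Ideal.isPrime_bot, (hHQ σ).2.1, ?_⟩,
        Λ, inferInstance, v, hv, hv'⟩, ?_⟩
      · rw [DimGe, (hBN.2.2.2.2.2.2 σ n hcard).2]
        intro h0
        obtain ⟨t, h1, h2⟩ := (Eventually.and h0 (hBN.2.2.2.2.2.1 n)).exists
        omega
      · obtain ⟨l, k, a, b, h1⟩ := hv' (fun _ => 1) (fun e => one_ne_zero (congrFun e i))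
          (fun f hf => by rw [Ideal.mem_bot.mp hf, map_zero])
        refine ⟨⟨v l, fun i j k => Ideal.mem_bot.mp ((hv l).2 i j k)⟩, fun e => h1 ?_, (hv l).1⟩
        have e' : v l = 0 := congrArg Subtype.val e
        simp [e']
    · have h1 := hFRS σ ι M ℳ T γ g L hL s h
      have h2 : VB.HomN (w1 σ) γ (L s) (-g) := by simpa using hL.hom 0 s hs
      have h3 := hSMP σ ι _ _ (by omega) h2 h1
      exact ⟨hSMO σ ι n T γ g c₂ a b hC hsp (L s) h2 h3 h1, L s, VB.ne_zero_of_prim h3, h2⟩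
  obtain ⟨hG, s₀, hs₀, hs₀'⟩ := hG
  obtain ⟨h1, h2⟩ := hMAINB σ ι n T γ g c₂ a b hC hD hsp hG
  refine Or.inr ⟨by simpa using h2 0 s₀ hs₀ (by simpa using hs₀'), h1,
    fun k s hs h => h2 k (L s) (fun h0 => ?_) (hL.hom _ s hs)⟩
  obtain ⟨e, he⟩ := hL.ker s h0 i
  exact pow_ne_zero e (X_ne_zero i) (h _ he)

end Pool.Agent.P.MP_b01859_ag.SD
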