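import Mathlib

/-!
An induction principle for Hilbert functions of graded subquotients.
-/

namespace Pool.Agent.P.MP_b01859_ag.SD.H

open MvPolynomial Module

variable {σ Γ U : Type} [AddCommGroup Γ] [AddCommGroup U] [Module ℂ U]
  [Module (MvPolynomial σ ℂ) U] [IsScalarTower ℂ (MvPolynomial σ ℂ) U]

/-- A family of subspaces of the graded pieces that is closed under the variables. -/
def Cl (w : σ → Γ) (𝒰 K : Γ → Submodule ℂ U) : Prop :=
  (∀ g, K g ≤ 𝒰 g) ∧ ∀ i g u, u ∈ K g → (X i : MvPolynomial σ ℂ) • u ∈ K (g + w i)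

/-- The Hilbert function of a subquotient. -/
noncomputable def dd (K K' : Γ → Submodule ℂ U) (g : Γ) : ℤ :=
  (finrank ℂ (K g) : ℤ) - finrank ℂ (K' g)

/-- Multiplication by a polynomial as a linear map over the constants. -/
noncomputable def mulP (f : MvPolynomial σ ℂ) : U →ₗ[ℂ] U where
  toFun u := f • u
  map_add' := smul_add f
  map_smul' c u := by
    rw [RingHom.id_apply, ← algebraMap_smul (MvPolynomial σ ℂ) c u,
      ← algebraMap_smul (MvPolynomial σ ℂ) c (f • u), ← mul_smul, ← mul_smul, mul_comm]

lemma mulP_apply (f : MvPolynomial σ ℂ) (u : U) : mulP f u = f • u := rfl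

omit [AddCommGroup Γ] in
lemma iSup_inf_le {𝒰 K : Γ → Submodule ℂ U} (hind : iSupIndep 𝒰) (h : ∀ g, K g ≤ 𝒰 g) (g : Γ) :
    (⨆ a, K a) ⊓ 𝒰 g ≤ K g := by
  have h1 : (⨆ a, K a) ≤ K g ⊔ ⨆ (a) (_ : a ≠ g), 𝒰 a := by
    refine iSup_le fun a => ?_
    by_cases e : a = g
    · subst e; exact le_sup_left
    · exact le_sup_of_le_right ((h a).trans (le_iSup₂_of_le a e le_rfl))
  refine (inf_le_inf_right _ h1).trans ?_
  rw [sup_inf_assoc_of_le _ (h g), (hind g).symm.eq_bot, sup_bot_eq]

/-- The sum of a closed family is a submodule over the polynomial ring. -/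
def tot {w : σ → Γ} {𝒰 K : Γ → Submodule ℂ U} (h : Cl w 𝒰 K) : Submodule (MvPolynomial σ ℂ) U where
  carrier := (⨆ a, K a : Submodule ℂ U)
  add_mem' := Submodule.add_mem _
  zero_mem' := Submodule.zero_mem _
  smul_mem' f := by
    induction f using MvPolynomial.induction_on with
    | C c =>
      intro u hu
      rw [← algebraMap_eq, algebraMap_smul]
      exact Submodule.smul_mem _ _ hu
    | add p q hp hq =>
      intro u hu
      rw [add_smul]
      exact Submodule.add_mem _ (hp hu) (hq hu)
    | mul_X p i hp =>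
      intro u hu
      rw [mul_smul]
      apply hp
      have : (⨆ a, K a) ≤ (⨆ a, K a).comap (mulP (X i : MvPolynomial σ ℂ)) :=
        iSup_le fun a v hv => Submodule.mem_iSup_of_mem (a + w i) (h.2 i a v hv)
      exact this hu

lemma tot_lt {w : σ → Γ} {𝒰 K L : Γ → Submodule ℂ U} (hind : iSupIndep 𝒰) (hK : Cl w 𝒰 K)
    (hL : Cl w 𝒰 L) (h : K ≤ L) (hne : K ≠ L) : tot hK < tot hL := by
  refine lt_of_le_of_ne (fun u hu => iSup_mono (f := K) (g := L) h hu) fun e => hne ?_
  refine le_antisymm h fun g u hu => iSup_inf_le hind hK.1 g ⟨?_, hL.1 g hu⟩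
  have : u ∈ tot hL := Submodule.mem_iSup_of_mem g hu
  rw [← e] at this
  exact this

lemma finrank_map_add (φ : U →ₗ[ℂ] U) (V : Submodule ℂ U) [Module.Finite ℂ V] :
    finrank ℂ (V.map φ) + finrank ℂ (V ⊓ LinearMap.ker φ : Submodule ℂ U) = finrank ℂ V := by
  have h := LinearMap.finrank_range_add_finrank_ker (φ.domRestrict V)
  rw [LinearMap.range_domRestrict, LinearMap.ker_domRestrict,
    ← Submodule.finrank_map_subtype_eq, Submodule.map_comap_subtype] at h
  exact h

lemma finrank_sup_map (φ : U →ₗ[ℂ] U) (V V' W : Submodule ℂ U) [Module.Finite ℂ V]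
    [Module.Finite ℂ W] (h : V ⊓ W.comap φ = V') :
    finrank ℂ (W ⊔ V.map φ : Submodule ℂ U) + finrank ℂ V' = finrank ℂ W + finrank ℂ V := by
  have hle : V' ≤ V := h ▸ inf_le_left
  have : Module.Finite ℂ V' := Submodule.finiteDimensional_of_le hle
  have h1 := Submodule.finrank_sup_add_finrank_inf_eq W (V.map φ)
  have h2 : W ⊓ V.map φ = V'.map φ := by
    rw [← h]
    refine le_antisymm ?_ ?_
    · rintro _ ⟨hW, u, hu, rfl⟩
      exact ⟨u, ⟨hu, hW⟩, rfl⟩
    · rintro _ ⟨u, hu, rfl⟩
      exact ⟨hu.2, u, hu.1, rfl⟩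
  have h3 := finrank_map_add φ V
  have h4 := finrank_map_add φ V'
  have h5 : V' ⊓ LinearMap.ker φ = V ⊓ LinearMap.ker φ := by
    rw [← h, inf_assoc, inf_eq_right.mpr (LinearMap.ker_le_comap φ)]
  rw [h2] at h1
  rw [h5] at h4
  omega

open Classical in
/-- The graded pieces of a Noetherian positively graded module have finite dimension. -/
theorem fin_piece [IsNoetherian (MvPolynomial σ ℂ) U] (w : σ → Γ) (φ : Γ →+ ℤ)
    (hφ : ∀ i, 0 < φ (w i)) (𝒰 : Γ → Submodule ℂ U) (hind : iSupIndep 𝒰)
    (hgr : ∀ i g u, u ∈ 𝒰 g → (X i : MvPolynomial σ ℂ) • u ∈ 𝒰 (g + w i)) (g0 : Γ) :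
    Module.Finite ℂ (𝒰 g0) := by
  let F : Submodule ℂ (𝒰 g0) → Γ → Submodule ℂ U := fun V g =>
    if φ g0 < φ g then 𝒰 g else if g = g0 then V.map (𝒰 g0).subtype else ⊥
  have F0 : ∀ V, F V g0 = V.map (𝒰 g0).subtype := fun V => by simp [F]
  have hle : ∀ V g, F V g ≤ 𝒰 g := fun V g => by
    simp only [F]
    split_ifs with h1 h2
    · exact le_rfl
    · subst h2; exact Submodule.map_subtype_le _ _
    · exact bot_le
  have hc : ∀ V, Cl w 𝒰 (F V) := fun V => ⟨hle V, fun i g u hu => by
    have h3 := hφ i
    by_cases h : φ g0 ≤ φ g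
    · have : F V (g + w i) = 𝒰 (g + w i) := if_pos (by rw [map_add]; omega)
      rw [this]
      exact hgr i g u (hle V g hu)
    · have : F V g = ⊥ := (if_neg (by omega)).trans (if_neg (by rintro rfl; omega))
      rw [this, Submodule.mem_bot] at hu
      rw [hu, smul_zero]
      exact Submodule.zero_mem _⟩
  have hs : StrictMono fun V => tot (hc V) := fun V V' h => by
    refine tot_lt hind _ _ (fun g => ?_) fun e => h.ne ?_
    · simp only [F]
      split_ifs
      exacts [le_rfl, Submodule.map_mono h.le, le_rfl]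
    · have := congrFun e g0
      rw [F0, F0] at this
      exact Submodule.map_injective_of_injective (𝒰 g0).injective_subtype this
  have := isNoetherian_mk hs.wellFoundedGT
  infer_instance

/-- The variables outside `A` act nilpotently on `K / K'`. -/
def Nil (w : σ → Γ) (A : Set σ) (K K' : Γ → Submodule ℂ U) : Prop :=
  ∀ i, i ∉ A → ∀ g u, u ∈ K g → ∃ N : ℕ, (X i : MvPolynomial σ ℂ) ^ N • u ∈ K' (g + N • w i)

omit [IsScalarTower ℂ (MvPolynomial σ ℂ) U] in
lemma Nil.mono {w : σ → Γ} {A : Set σ} {K K' L L' : Γ → Submodule ℂ U} (h : Nil w A K K')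
    (h1 : L ≤ K) (h2 : K' ≤ L') : Nil w A L L' := fun i hi g u hu =>
  (h i hi g u (h1 g hu)).imp fun _ hN => h2 _ hN

open Classical in
theorem hilb_ind [Fintype σ] [IsNoetherian (MvPolynomial σ ℂ) U] (w : σ → Γ)
    (𝒰 : Γ → Submodule ℂ U) (hind : iSupIndep 𝒰) (hfin : ∀ g, Module.Finite ℂ (𝒰 g))
    (P : Finset σ → (Γ → ℤ) → Prop) (h0 : ∀ B, P B 0)
    (hadd : ∀ B f f', P B f → P B f' → P B (f + f'))
    (hsingle : ∀ g (f : Γ → ℤ), (∀ x, x ≠ g → f x = 0) → P ∅ f)
    (hmono : ∀ z B f, z ∉ B → P B f → P (insert z B) f)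
    (hstep : ∀ z B (f h : Γ → ℤ), z ∉ B → 0 ≤ f → (∀ g, f (g + w z) - f g = h (g + w z)) → P B h →
      (∀ φ : Γ →+ ℤ, (∀ i, 0 ≤ φ (w i)) → 0 < φ (w z) → ∀ t,
        P B fun g => if φ g = t then f g else 0) → P (insert z B) f)
    (A : Finset σ) (K K' : Γ → Submodule ℂ U) (hK : Cl w 𝒰 K) (hK' : Cl w 𝒰 K') (hle : K' ≤ K)
    (hnil : Nil w A K K') : P A (dd K K') := by
  have fin : ∀ L : Γ → Submodule ℂ U, Cl w 𝒰 L → ∀ g, Module.Finite ℂ (L g) := fun L hL g =>
    have := hfin g
    Submodule.finiteDimensional_of_le (hL.1 g)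
  have split : ∀ L M N : Γ → Submodule ℂ U, dd L N = dd L M + dd M N := fun L M N => by
    ext g; simp [dd]
  have nonneg : ∀ L M : Γ → Submodule ℂ U, Cl w 𝒰 L → M ≤ L → 0 ≤ dd L M := fun L M hL h g => by
    have := fin L hL g
    have := Submodule.finrank_mono (h g)
    simp only [dd, Pi.zero_apply]
    omega
  have self : ∀ L : Γ → Submodule ℂ U, dd L L = 0 := fun L => by ext g; simp [dd]
  suffices H : ∀ B : Finset σ, ∀ K K' : Γ → Submodule ℂ U, Cl w 𝒰 K → Cl w 𝒰 K' → K' ≤ K →
      Nil w A K K' → (∀ i, i ∉ B → ∀ g u, u ∈ K g →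
        (X i : MvPolynomial σ ℂ) • u ∈ K' (g + w i)) → P (A ∩ B) (dd K K') by
    simpa using H Finset.univ K K' hK hK' hle hnil (by simp)
  intro B
  induction B using Finset.induction_on with
  | empty =>
    intro K K' hK hK' hle hnil hz
    rw [Finset.inter_empty]
    clear hnil
    induction hT : tot hK' using WellFoundedGT.induction generalizing K' with
    | _ T ih =>
      by_cases e : K' = K
      · rw [e, self]; exact h0 _
      obtain ⟨g0, hg0⟩ := Function.ne_iff.mp e
      have hle1 : K' ≤ Function.update K' g0 (K g0) := le_update_iff.mpr ⟨hle g0, fun _ _ => le_rfl⟩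
      have hle2 : Function.update K' g0 (K g0) ≤ K := update_le_iff.mpr ⟨le_rfl, fun g _ => hle g⟩
      have hc : Cl w 𝒰 (Function.update K' g0 (K g0)) :=
        ⟨fun g => (hle2 g).trans (hK.1 g), fun i g u hu => hle1 _ (hz i (by simp) g u (hle2 g hu))⟩
      have hne : K' ≠ Function.update K' g0 (K g0) := fun e' => hg0 (by
        have := congrFun e' g0
        rwa [Function.update_self] at this)
      rw [split K (Function.update K' g0 (K g0)) K']
      refine hadd _ _ _ (ih _ (hT ▸ tot_lt hind hK' hc hle1 hne) _ hc hle2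
        (fun i hi g u hu => hle1 _ (hz i hi g u hu)) rfl) ?_
      exact hsingle g0 _ fun g e' => by rw [dd, Function.update_of_ne e', sub_self]
  | insert z B hzB ihB =>
    have lift : ∀ f, P (A ∩ B) f → P (A ∩ insert z B) f := fun f hf => by
      by_cases hA : z ∈ A
      · rw [Finset.inter_insert_of_mem hA]
        exact hmono _ _ _ (fun h => hzB (Finset.mem_inter.mp h).2) hf
      · rwa [Finset.inter_insert_of_notMem hA]
    intro K K' hK hK' hle hnil hz
    induction hT : tot hK' using WellFoundedGT.induction generalizing K' with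
    | _ T ih =>
      set K1 : Γ → Submodule ℂ U :=
        fun g => K g ⊓ (K' (g + w z)).comap (mulP (X z : MvPolynomial σ ℂ)) with hK1
      have hle1 : K' ≤ K1 := fun g u hu => ⟨hle g hu, hK'.2 z g u hu⟩
      have hle2 : K1 ≤ K := fun g => inf_le_left
      have hc : Cl w 𝒰 K1 := by
        refine ⟨fun g => (hle2 g).trans (hK.1 g), fun i g u hu => ⟨hK.2 i g u hu.1, ?_⟩⟩
        have := hK'.2 i _ _ hu.2
        rw [mulP_apply, smul_comm, add_right_comm] at this
        exact this
      by_cases e : K' = K1
      swap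
      · rw [split K K1 K']
        refine hadd _ _ _ (ih _ (hT ▸ tot_lt hind hK' hc hle1 e) _ hc hle2
          (hnil.mono le_rfl hle1) (fun i hi g u hu => hle1 _ (hz i hi g u hu)) rfl) (lift _ ?_)
        refine ihB K1 K' hc hK' hle1 (hnil.mono hle2 le_rfl) fun i hi g u hu => ?_
        by_cases e' : i = z
        · subst e'; exact hu.2
        · exact hz i (by simp [e', hi]) g u hu.1
      by_cases hA : z ∈ A
      swap
      · have : K' = K := by
          refine le_antisymm hle fun g u hu => ?_
          obtain ⟨N, hN⟩ := hnil z (by simpa using hA) g u hu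
          induction N generalizing g u with
          | zero => simpa using hN
          | succ N ihN =>
            rw [e]
            refine ⟨hu, ihN _ _ (hK.2 z g u hu) ?_⟩
            rw [pow_succ, mul_smul, succ_nsmul', ← add_assoc] at hN
            exact hN
        rw [this, self]; exact h0 _
      rw [Finset.inter_insert_of_mem hA]
      set K2 : Γ → Submodule ℂ U :=
        fun g => K' g ⊔ (K (g - w z)).map (mulP (X z : MvPolynomial σ ℂ)) with hK2
      have hle3 : K' ≤ K2 := fun g => le_sup_left
      have hle4 : K2 ≤ K := fun g => sup_le (hle g) (by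
        rintro _ ⟨u, hu, rfl⟩
        have := hK.2 z _ u hu
        rwa [sub_add_cancel] at this)
      have hc2 : Cl w 𝒰 K2 := by
        refine ⟨fun g => (hle4 g).trans (hK.1 g), fun i g u hu => ?_⟩
        obtain ⟨a, ha, _, ⟨b, hb, rfl⟩, rfl⟩ := Submodule.mem_sup.mp hu
        rw [smul_add]
        refine Submodule.add_mem_sup (hK'.2 i g a ha) ⟨(X i : MvPolynomial σ ℂ) • b, ?_, ?_⟩
        · have := hK.2 i _ b hb
          rwa [sub_add_eq_add_sub] at this
        · rw [mulP_apply, mulP_apply, smul_comm]
      refine hstep z _ _ (dd K K2) (fun h => hzB (Finset.mem_inter.mp h).2) (nonneg K K' hK hle)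
        (fun g => ?_) ?_ fun φ hφ hφz t => ?_
      · have := fin K hK g
        have := fin K' hK' (g + w z)
        have h1 := finrank_sup_map (mulP (X z : MvPolynomial σ ℂ)) (K g) (K' g) (K' (g + w z))
          (congrFun e g).symm
        have h2 : K2 (g + w z) = K' (g + w z) ⊔ (K g).map (mulP (X z : MvPolynomial σ ℂ)) := by
          simp only [hK2, add_sub_cancel_right]
        simp only [dd]
        rw [h2]
        omega
      · refine ihB K K2 hK hc2 hle4 (hnil.mono le_rfl hle3) fun i hi g u hu => ?_
        by_cases e' : i = z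
        · subst e'
          exact Submodule.mem_sup_right ⟨u, by rwa [add_sub_cancel_right], rfl⟩
        · exact hle3 _ (hz i (by simp [e', hi]) g u hu)
      · have cut : ∀ s : ℤ, K' ≤ (fun g => if φ g < s then K' g else K g) ∧
            (fun g => if φ g < s then K' g else K g) ≤ K ∧
            Cl w 𝒰 fun g => if φ g < s then K' g else K g := fun s => by
          have c1 : K' ≤ (fun g => if φ g < s then K' g else K g) := fun g => by
            dsimp only; split_ifs; exacts [le_rfl, hle g]
          have c2 : (fun g => if φ g < s then K' g else K g) ≤ K := fun g => by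
            dsimp only; split_ifs; exacts [hle g, le_rfl]
          refine ⟨c1, c2, fun g => (c2 g).trans (hK.1 g), fun i g u hu => ?_⟩
          dsimp only at hu ⊢
          by_cases c : φ g < s
          · rw [if_pos c] at hu
            exact c1 _ (hK'.2 i g u hu)
          · rw [if_neg c] at hu
            have := hφ i
            rw [if_neg (by rw [map_add]; omega)]
            exact hK.2 i g u hu
        have key := ihB _ _ (cut t).2.2 (cut (t + 1)).2.2 (fun g => by
          dsimp only; split_ifs; exacts [le_rfl, hle g, by omega, le_rfl])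
          (hnil.mono (cut t).2.1 (cut (t + 1)).1) fun i hi g u hu => by
            by_cases e' : i = z
            · subst e'
              try dsimp only at hu ⊢
              by_cases c : φ g < t
              · rw [if_pos c] at hu
                exact (cut (t + 1)).1 _ (hK'.2 i g u hu)
              · rw [if_neg c] at hu
                rw [if_neg (by rw [map_add]; omega)]
                exact hK.2 i g u hu
            · exact (cut (t + 1)).1 _ (hz i (by simp [e', hi]) g u ((cut t).2.1 g hu))
        have ddc : ∀ (L M L' M' : Γ → Submodule ℂ U) (g : Γ), L g = L' g → M g = M' g →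
            dd L M g = dd L' M' g := fun L M L' M' g h1 h2 => by rw [dd, dd, h1, h2]
        have e2 : (fun g => if φ g = t then dd K K' g else 0) =
            dd (fun g => if φ g < t then K' g else K g)
              (fun g => if φ g < t + 1 then K' g else K g) := by
          ext g
          rcases lt_trichotomy (φ g) t with c | c | c
          · rw [if_neg c.ne]
            refine ((ddc _ _ K' K' g ?_ ?_).trans (congrFun (self _) g)).symm
            exacts [if_pos c, if_pos (by omega)]
          · rw [if_pos c]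
            refine ddc _ _ _ _ g ?_ ?_
            exacts [(if_neg (by omega)).symm, (if_pos (by omega)).symm]
          · rw [if_neg c.ne']
            refine ((ddc _ _ K K g ?_ ?_).trans (congrFun (self _) g)).symm
            exacts [if_neg (by omega), if_neg (by omega)]
        rw [e2]
        exact key

end Pool.Agent.P.MP_b01859_ag.SD.H
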