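import Pool.Agent.P.MP_b01859_ag.SD.Iface

/-! Step FRP. -/

set_option autoImplicit false
set_option linter.unusedSectionVars false

namespace Pool.Agent.P.MP_b01859_ag.SD

open MvPolynomial Filter

theorem p_FRP :
    S_FRP := by
  intro σ ι M _ _ _ _ _ _ ℳ T γ g L hσ hL s hs c hc
  have : Nontrivial σ := Fintype.one_lt_card_iff_nontrivial.mp hσ
  obtain ⟨x, y, hxy⟩ := exists_pair_ne σ
  by_contra hu
  obtain ⟨f, hf, hfc⟩ : ∃ f : Pol σ, Prime f ∧ f ∣ c := by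
    by_cases h0 : c = 0
    · exact ⟨X x, X_prime, h0 ▸ dvd_zero _⟩
    · obtain ⟨f, hf, hfc⟩ := WfDvdMonoid.exists_irreducible_factor hu h0
      exact ⟨f, hf.prime, hfc⟩
  obtain ⟨ψ, hψ⟩ := VB.div hf.ne_zero (L s) fun t => hfc.trans (hc t)
  obtain ⟨a, b, hab⟩ : ∃ a b, ¬ f ∣ T.ω a b := by
    by_contra hcon
    push Not at hcon
    exact hf.not_isUnit (T.prim f fun ij => hcon ij.1 ij.2)
  obtain ⟨ma, hma⟩ := hL.row a
  obtain ⟨mb, hmb⟩ := hL.row b
  have h0 : L (T.ω a b • s - f • (ψ.1 b • ma - ψ.1 a • mb)) = 0 := by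
    simp only [map_sub, map_smul, hma, hmb, hψ]
    rw [← T.ω_smul, smul_comm, sub_self]
  have key : ∀ i, f ∣ X i := fun i => by
    obtain ⟨k, hk⟩ := hL.ker _ h0 i
    have h1 : f ∣ X i ^ k * T.ω a b :=
      hs f _ ((X i : Pol σ) ^ k • (ψ.1 b • ma - ψ.1 a • mb)) hf (by
        rw [smul_sub, sub_eq_zero, smul_comm _ f] at hk
        rw [mul_smul, hk])
    exact hf.dvd_of_dvd_pow ((hf.dvd_or_dvd h1).resolve_right hab)
  have hx : Prime (X x : Pol σ) := X_prime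
  have h2 : (X x : Pol σ) ∣ X y :=
    ((hf.irreducible.dvd_symm hx.irreducible (key x))).trans (key y)
  exact hxy (X_dvd_X.mp h2)

end Pool.Agent.P.MP_b01859_ag.SD
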