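import Pool.Agent.P.MP_b01859_ag.SD.Iface

/-! Step MAINA. -/

set_option autoImplicit false
set_option linter.unusedSectionVars false

namespace Pool.Agent.P.MP_b01859_ag.SD

open MvPolynomial Filter

theorem p_MAINA (hBOG : S_BOG) (hC2P : S_C2P) (hTOW : S_TOW) (hPT : S_PT) (hTAY : S_TAY) (hMULT : S_MULT) (hBN : S_BN) (hHQ : S_HQ) :
    S_MAINA := by
  intro σ ι _ _ n T γ g c₂ a b hC hD hS s α hs hsp
  have h5 := hC.five
  have : Nontrivial σ := Fintype.one_lt_card_iff_nontrivial.mp (by rw [hC.card]; omega)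
  obtain ⟨τ, α₀, hτ, hτp, h2⟩ := hBOG σ ι n T γ g c₂ a b hC hD
  have hq0 := hC2P σ ι n T γ g c₂ a b hC hS τ α₀ hτ hτp
  obtain ⟨-, hbot, -, -, hmono, -⟩ := hHQ σ
  have hV : Var (⊥ : Ideal (Pol σ)) n := by
    refine ⟨Ideal.isPrime_bot, hbot, fun h => ?_⟩
    rw [(hBN.2.2.2.2.2.2 σ n hC.card).2] at h
    obtain ⟨t, h1, h2⟩ := (Filter.Eventually.and h (hBN.2.2.2.2.2.1 n)).exists
    rw [h1] at h2
    exact zero_ne_one h2
  obtain ⟨p, -, hp, hord⟩ := hTOW σ ι n T γ g c₂ a b hC τ α₀ hτ h2 hq0 (n / 2) 0 ⊥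
    (hmono _ n _ (by omega) hV)
  obtain ⟨y, hy, hyp⟩ := hPT σ p hp.hom hp.dim
  have hmy : ∀ i, τ.1 i ∈ my y ^ (n / 2) := fun i =>
    hTAY σ y _ _ fun L hL => hyp _ (hord i L hL)
  obtain ⟨i, j, hij⟩ := T.LF_eval hy
  have hM := hMULT σ ι n T γ g c₂ a b hC τ α₀ hτ hτp y i j _ _ hij (hmy i) (hmy j)
  rw [sq]
  refine hM.trans ?_
  by_cases hB : T.B τ s = 0
  · obtain ⟨f, hf⟩ := VB.eq_smul_of_B hτp hB
    have hu : IsUnit f := hsp f fun i => ⟨τ.1 i, by rw [hf]; rfl⟩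
    have hh : Hom f (α - α₀) := VB.HomN.coef hτ (VB.ne_zero_of_prim hτp) (hf ▸ hs)
    have h0 : α - α₀ = 0 := hh.deg_zero (hu.map (constantCoeff (σ := σ) (R := ℂ))).ne_zero
    rw [sub_eq_zero.mp h0]
  · have h0 : 0 ≤ α₀ + α + g := Hom.nonneg (VB.B_hom hC.gr hτ hs) hB
    have h1 : 0 ≤ α - α₀ := by omega
    have := mul_nonneg h1 h0
    unfold qq
    nlinarith

end Pool.Agent.P.MP_b01859_ag.SD
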