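import Pool.Agent.P.MP_b01859_ag.SD.Com
import Pool.Agent.P.MP_b01859_ag.SD.TMAINA
import Pool.Agent.P.MP_b01859_ag.SD.TFRP

/-!
The steps for the degree of sections.
-/

namespace Pool.Agent.P.MP_b01859_ag.SD

theorem q_MAINA : S_MAINA := p_MAINA q_BOG q_C2P q_TOW q_PT q_TAY q_MULT q_BN q_HQ

theorem q_FRP : S_FRP := p_FRP

end Pool.Agent.P.MP_b01859_ag.SD
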