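import Pool.Agent.P.MP_b01859_ag.SD.Iface

/-! Step EXO. -/

set_option autoImplicit false
set_option linter.unusedSectionVars false

namespace Pool.Agent.P.MP_b01859_ag.SD

open MvPolynomial Filter

namespace EXOx

variable {σ : Type}

theorem eq_C {f : Pol σ} (h : ∀ i, pderiv i f = 0) : f = C (coeff 0 f) := by
  classical
  ext m
  rw [coeff_C]
  split_ifs with hm
  · rw [hm]
  obtain ⟨i, hi⟩ := Finsupp.ne_iff.1 (Ne.symm hm)
  have e : m - Finsupp.single i 1 + Finsupp.single i 1 = m :=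
    tsub_add_cancel_of_le (Finsupp.single_le_iff.2 (Nat.one_le_iff_ne_zero.2 hi))
  have h1 := coeff_pderiv (i := i) f (m - Finsupp.single i 1)
  rw [h i, coeff_zero, e] at h1
  exact (mul_eq_zero.1 h1.symm).resolve_right (Nat.cast_add_one_ne_zero _)

theorem ex_der {p : Ideal (Pol σ)} (hp : p ≠ ⊤) (n : ℕ) : ∀ f : Pol σ, f ≠ 0 →
    (∀ m, coeff m f ≠ 0 → m.degree < n) → ∃ L, dL L f ∉ p := by
  induction n with
  | zero => exact fun f hf h => (hf (by ext m; by_contra e; exact Nat.not_lt_zero _ (h m e))).elim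
  | succ n ih =>
    intro f hf h
    by_cases hd : ∀ i, pderiv i f = 0
    · refine ⟨[], fun e => hp (p.eq_top_of_isUnit_mem e ?_)⟩
      have e1 := eq_C hd
      have e2 : coeff 0 f ≠ 0 := fun e => hf (by rw [e1, e, C_0])
      show IsUnit f
      rw [e1]
      exact e2.isUnit.map C
    obtain ⟨i, hi⟩ := not_forall.1 hd
    obtain ⟨L, hL⟩ := ih _ hi fun m hm => by
      rw [coeff_pderiv] at hm
      have := h _ (left_ne_zero_of_mul hm)
      rw [map_add, Finsupp.degree_single] at this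
      omega
    exact ⟨L ++ [i], by rwa [dL, List.foldr_append]⟩

end EXOx

theorem p_EXO (hLEIB : S_LEIB) :
    S_EXO := by
  classical
  intro σ ι _ _ T γ p φ α v hp hφ hα hv
  have h : ∃ n : ℕ, ∃ (L : List σ) (a : ι), L.length = n ∧ dL L (φ.1 a) ∉ p := by
    obtain ⟨a, ha⟩ : ∃ a, φ.1 a ≠ 0 := by
      by_contra e
      exact hφ (Subtype.ext (funext fun a => not_not.1 (not_exists.1 e a)))
    obtain ⟨L, hL⟩ := EXOx.ex_der hp ((φ.1 a).totalDegree + 1) _ ha fun m hm =>
      Nat.lt_succ_of_le (le_totalDegree (mem_support_iff.2 hm))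
    exact ⟨_, L, a, rfl, hL⟩
  obtain ⟨L, a, hL, ha⟩ := Nat.find_spec h
  refine ⟨L.length, fun a => dL L (φ.1 a), not_lt.1 fun e => ha (hv a L e),
    hLEIB σ ι T γ p φ α L hα fun b L' e => ?_, a, ha⟩
  by_contra e'
  exact Nat.find_min h (hL ▸ e) ⟨L', b, rfl, e'⟩

end Pool.Agent.P.MP_b01859_ag.SD
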