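import Pool.Agent.P.MP_b01859_ag.SD.Iface
import Pool.Agent.P.MP_b01859_ag.SD.Ar

/-! Step FINB. -/

set_option autoImplicit false
set_option linter.unusedSectionVars false

namespace Pool.Agent.P.MP_b01859_ag.SD

open MvPolynomial Filter

namespace FINBx

theorem rec' (c1 c2 : ℤ) (j : ℕ) :
    (hs c1 c2 (j + 2) : ℝ) = c1 * hs c1 c2 (j + 1) - c2 * hs c1 c2 j := by
  rw [hs]; push_cast; ring

theorem one (n : ℕ) (c1 c2 : ℤ) (hn : 5 ≤ n) (hD : c1 ^ 2 < 4 * c2)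
    (hC : (n : ℤ) ^ 2 ≤ 6 * (4 * c2 - c1 ^ 2))
    (hpos : ∀ j, j + 1 ≤ n - 2 → 0 ≤ hs c1 c2 (j + 1)) : (n : ℤ) ^ 2 * c1 < 50 * c2 := by
  obtain ⟨w, rfl⟩ : ∃ w, n = w + 2 := ⟨n - 2, by omega⟩
  have hD' : (0 : ℝ) < 4 * c2 - c1 ^ 2 := by
    have : (0 : ℤ) < 4 * c2 - c1 ^ 2 := by omega
    exact_mod_cast this
  have a1 := angle_bound c1 c2 (fun j => hs c1 c2 j) (by simp [hs]) (by simp [hs]) (rec' c1 c2)
    hD' w fun j hj => by
      rcases j with _ | j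
      · simp [hs]
      · exact_mod_cast hpos j (by omega)
  have a2 : (4 * c2 - c1 ^ 2) * ((w : ℤ) + 1) ^ 2 ≤ 40 * c2 := by exact_mod_cast a1
  push_cast at hC ⊢
  set N : ℤ := (w : ℤ) + 2 with hN
  have hw : (3 : ℤ) ≤ w := by omega
  have hc2 : 0 < c2 := by nlinarith [sq_nonneg c1]
  have b1 : 240 * N ^ 2 ≤ 625 * ((w : ℤ) + 1) ^ 2 := by
    have e : 625 * ((w : ℤ) + 1) ^ 2 - 240 * N ^ 2 = 385 * (w : ℤ) ^ 2 + 290 * w - 335 := by
      rw [hN]; ring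
    linarith [sq_nonneg (w : ℤ)]
  have b2 : 240 * N ^ 2 * N ^ 2 ≤ 625 * ((w : ℤ) + 1) ^ 2 * (6 * (4 * c2 - c1 ^ 2)) :=
    mul_le_mul b1 hC (sq_nonneg _) (by positivity)
  have b3 : N ^ 2 * N ^ 2 ≤ 625 * c2 := by
    have e : 625 * ((w : ℤ) + 1) ^ 2 * (6 * (4 * c2 - c1 ^ 2)) =
      3750 * ((4 * c2 - c1 ^ 2) * ((w : ℤ) + 1) ^ 2) := by ring
    rw [e, mul_assoc] at b2
    generalize N ^ 2 * N ^ 2 = X at *
    generalize (4 * c2 - c1 ^ 2) * ((w : ℤ) + 1) ^ 2 = Y at *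
    omega
  have N0 : 0 < N ^ 2 * N ^ 2 := by positivity
  refine lt_of_pow_lt_pow_left₀ 2 (by positivity) ?_
  calc (N ^ 2 * c1) ^ 2 = N ^ 2 * N ^ 2 * c1 ^ 2 := by ring
    _ < N ^ 2 * N ^ 2 * (4 * c2) := mul_lt_mul_of_pos_left hD N0
    _ ≤ 625 * c2 * (4 * c2) := mul_le_mul_of_nonneg_right b3 (by positivity)
    _ = _ := by ring

theorem two (n : ℕ) (c1 c2 k κ : ℤ) (hn : 5 ≤ n) (hD : 4 * c2 ≤ c1 ^ 2)
    (hk : c1 ≤ 2 * k) (hq : 0 < k ^ 2 - c1 * k + c2) (hκ : k + ((n - 1) / 4 : ℕ) ≤ κ)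
    (hpos : ∀ j, j + 1 ≤ n - 2 - 2 * ((n - 1) / 4) → κ * hs c1 c2 j ≤ hs c1 c2 (j + 1)) :
    (n : ℤ) ^ 2 * c1 < 50 * c2 := by
  have hD' : (0 : ℝ) ≤ (c1 : ℝ) ^ 2 - 4 * c2 := by
    have : (0 : ℤ) ≤ c1 ^ 2 - 4 * c2 := by omega
    exact_mod_cast this
  set r := Real.sqrt ((c1 : ℝ) ^ 2 - 4 * c2) with hr'
  have r0 : 0 ≤ r := Real.sqrt_nonneg _
  have r2 : r ^ 2 = (c1 : ℝ) ^ 2 - 4 * c2 := Real.sq_sqrt hD'
  set a : ℝ := (c1 - r) / 2 with ha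
  set b : ℝ := (c1 + r) / 2 with hb
  have es : (c1 : ℝ) = a + b := by rw [ha, hb]; ring
  have hp : (c2 : ℝ) = a * b := by rw [ha, hb]; linarith
  have hab : a ≤ b := by rw [ha, hb]; linarith
  have hk' : (c1 : ℝ) ≤ 2 * k := by exact_mod_cast hk
  have hq' : (0 : ℝ) < k ^ 2 - c1 * k + c2 := by exact_mod_cast hq
  have hbk : b < k := by
    by_contra hle
    push Not at hle
    have : ((k : ℝ) - a) * (b - k) ≥ 0 := mul_nonneg (by linarith) (by linarith)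
    rw [es, hp] at hq'
    nlinarith
  set v := (n - 1) / 4 with hv
  set w := n - 2 - 2 * v with hw
  have hκ' : (k : ℝ) + v ≤ κ := by exact_mod_cast hκ
  have v0 : (0 : ℝ) ≤ v := Nat.cast_nonneg v
  have w1 : 1 ≤ w := by omega
  have main := small_root a b κ (fun j => hs c1 c2 j) (by simp [hs]) (by simpa [hs] using es)
    (fun j => by rw [rec', es, hp]) hab (by linarith) w w1 fun j hj => by exact_mod_cast hpos j hj
  have hnat : n ^ 2 ≤ 25 * (w * v) := by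
    obtain ⟨u, hu⟩ : ∃ u, v = u + 1 := ⟨v - 1, by omega⟩
    obtain ⟨e, he⟩ : ∃ e, n = 4 * u + 5 + e := ⟨n - (4 * u + 5), by omega⟩
    have hf : w = 2 * u + 1 + e := by omega
    have he3 : e ≤ 3 := by omega
    rw [hu, hf, he]
    interval_cases e <;> nlinarith
  have hreal : (n : ℝ) ^ 2 ≤ 25 * (w * v) := by exact_mod_cast hnat
  have w0 : (0 : ℝ) < w := by exact_mod_cast w1
  have a1 : (w : ℝ) * v < a := (mul_lt_mul_of_pos_left (by linarith) w0).trans_le main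
  have a0 : 0 < a := (mul_nonneg w0.le v0).trans_lt a1
  have fin : (n : ℝ) ^ 2 * c1 < 50 * c2 := by
    rw [es, hp]
    have : (n : ℝ) ^ 2 * (a + b) < 25 * a * (a + b) :=
      mul_lt_mul_of_pos_right (by linarith) (by linarith)
    nlinarith
  exact_mod_cast fin

end FINBx

theorem p_FINB :
    S_FINB := by
  intro n c1 c2 hn
  refine ⟨FINBx.one n c1 c2 hn, fun k κ => FINBx.two n c1 c2 k κ hn, fun k h h1 h2 hk => ?_⟩
  have e1 : hs c1 c2 1 = c1 := rfl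
  have e2 : hs c1 c2 2 = c1 * c1 - c2 := by simp [hs]
  rw [e1] at h1
  rw [e2] at h2
  rw [e1, e2] at hk
  rcases hk with hk | ⟨κ, hκ, hk⟩
  · exact arithB_sec 50 n c1 c2 k 0 (by norm_num) h h1 hk.le (by simpa using h2)
  · exact arithB_sec 50 n c1 c2 k κ (by norm_num) h h1 hκ hk

end Pool.Agent.P.MP_b01859_ag.SD
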