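import Pool.Agent.P.MP_b01859_ag.SD.Iface

/-! Step FRG. -/

set_option autoImplicit false
set_option linter.unusedSectionVars false

namespace Pool.Agent.P.MP_b01859_ag.SD

open MvPolynomial Filter

theorem p_FRG :
    S_FRG := by
  intro σ ι M _ _ _ _ _ _ ℳ T γ g L hL hfd hgen
  let e := Module.finBasis ℂ (ℳ 0)
  refine ⟨Fin (Module.finrank ℂ (ℳ 0)), inferInstance, fun l => (L (e l)).1,
    fun l => ⟨fun a => hom_congr (hL.hom 0 _ (e l).2 a) (by ring), fun i j k => (L (e l)).2 i j k⟩,
    fun y hy _ => ?_⟩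
  obtain ⟨a, b, hab⟩ := T.LF_eval hy
  by_contra hcon
  push Not at hcon
  have hsp : Submodule.span (Pol σ) (ℳ 0 : Set M) ≤
      Submodule.span (Pol σ) (Set.range fun l => (e l : M)) := by
    refine Submodule.span_le.2 fun m hm => ?_
    have h1 := congrArg Subtype.val (e.sum_repr ⟨m, hm⟩)
    simp only [Submodule.coe_sum, Submodule.coe_smul] at h1
    rw [← h1]
    exact Submodule.sum_mem _ fun l _ =>
      Submodule.smul_of_tower_mem _ _ (Submodule.subset_span ⟨l, rfl⟩)
  have key : ∀ m ∈ Submodule.span (Pol σ) (Set.range fun l => (e l : M)),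
      ∀ m' ∈ Submodule.span (Pol σ) (Set.range fun l => (e l : M)),
      eval y ((L m).1 a * (L m').1 b - (L m).1 b * (L m').1 a) = 0 := by
    intro m hm m' hm'
    induction hm, hm' using Submodule.span_induction₂ with
    | mem_mem m m' hm hm' =>
      obtain ⟨l, rfl⟩ := hm
      obtain ⟨k, rfl⟩ := hm'
      exact hcon l k a b
    | zero_left => simp
    | zero_right => simp
    | add_left _ _ _ _ _ _ h1 h2 =>
      simp only [map_add, Submodule.coe_add, Pi.add_apply, map_sub, map_mul] at h1 h2 ⊢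
      linear_combination h1 + h2
    | add_right _ _ _ _ _ _ h1 h2 =>
      simp only [map_add, Submodule.coe_add, Pi.add_apply, map_sub, map_mul] at h1 h2 ⊢
      linear_combination h1 + h2
    | smul_left r _ _ _ _ h1 =>
      simp only [map_smul, Submodule.coe_smul, Pi.smul_apply, smul_eq_mul, map_sub, map_mul]
        at h1 ⊢
      linear_combination eval y r * h1
    | smul_right r _ _ _ _ h1 =>
      simp only [map_smul, Submodule.coe_smul, Pi.smul_apply, smul_eq_mul, map_sub, map_mul]
        at h1 ⊢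
      linear_combination eval y r * h1
  obtain ⟨s, hs⟩ := Function.ne_iff.mp hy
  have hp := hgen ⟨RingHom.ker (eval y), RingHom.ker_isPrime _⟩ ⟨s, by simpa using hs⟩
  obtain ⟨ma, hma⟩ := hL.row a
  obtain ⟨mb, hmb⟩ := hL.row b
  obtain ⟨ha, ha1, ha2⟩ := hp ma
  obtain ⟨hb, hb1, hb2⟩ := hp mb
  have := key _ (hsp ha2) _ (hsp hb2)
  simp only [map_smul, hma, hmb, Submodule.coe_smul, Pi.smul_apply, smul_eq_mul, VB.row_val,
    T.diag, T.skew a b, map_sub, map_mul, map_neg, map_zero] at this
  rw [RingHom.mem_ker] at ha1 hb1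
  exact mul_ne_zero (mul_ne_zero ha1 hb1) (mul_ne_zero hab hab) (by linear_combination this)

end Pool.Agent.P.MP_b01859_ag.SD
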