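import Pool.Agent.P.MP_b01859_ag.SD.Iface

/-! Step FRS. -/

set_option autoImplicit false
set_option linter.unusedSectionVars false

namespace Pool.Agent.P.MP_b01859_ag.SD

open MvPolynomial Filter

namespace FRSx

theorem prop (hTAY : S_TAY) {σ : Type} [Fintype σ] (y : σ → ℂ) {f h : Pol σ} (hf : eval y f = 0)
    (hh : eval y h = 0)
    (H : ∀ i k, eval y (pderiv i f * pderiv k h - pderiv i h * pderiv k f) = 0) :
    ∃ l ∈ my y, ∃ a b : ℂ, f - C a * l ∈ my y ^ 2 ∧ h - C b * l ∈ my y ^ 2 := by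
  have key : ∀ q : Pol σ, eval y q = 0 → (∀ i, eval y (pderiv i q) = 0) → q ∈ my y ^ 2 :=
    fun q h0 h1 => hTAY σ y 2 q fun L hL => match L, hL with
      | [], _ => h0
      | [i], _ => h1 i
      | _ :: _ :: _, hL => absurd hL (by simp)
  by_cases e : ∀ k, eval y (pderiv k f) = 0
  · exact ⟨h, hh, 0, 1, by simpa using key f hf e, by simp⟩
  · obtain ⟨k, hk⟩ := not_forall.1 e
    refine ⟨f, hf, 1, eval y (pderiv k h) / eval y (pderiv k f), by simp,
      key _ (by simp [hf, hh]) fun i => ?_⟩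
    have := H i k
    simp only [map_sub, map_mul, pderiv_C_mul, eval_C] at this ⊢
    field_simp
    linear_combination -this

end FRSx

theorem p_FRS (hTAY : S_TAY) :
    S_FRS := by
  intro σ ι M _ _ _ _ _ _ ℳ T γ g L hL s hs y hy h0
  by_contra hc
  push Not at hc
  obtain ⟨a, b, hab⟩ := T.LF_eval hy
  obtain ⟨i, hi⟩ := Function.ne_iff.1 hy
  obtain ⟨ma, ha⟩ := hL.row a
  obtain ⟨mb, hb⟩ := hL.row b
  obtain ⟨k, hk⟩ := hL.ker (T.ω a b • s - ((L s).1 b • ma - (L s).1 a • mb))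
    (by rw [map_sub, map_sub, map_smul, map_smul, map_smul, ha, hb, T.ω_smul, sub_self]) i
  obtain ⟨l, hl, α, β, h1, h2⟩ := FRSx.prop hTAY y (h0 b) (h0 a) fun i k => hc i k b a
  obtain ⟨c, hc⟩ : ∃ c, c = eval y (X i ^ k * T.ω a b) := ⟨_, rfl⟩
  have c0 : c ≠ 0 := by
    rw [hc, map_mul, map_pow, eval_X]
    exact mul_ne_zero (pow_ne_zero _ hi) hab
  have c1 : (C c⁻¹ * C c : Pol σ) = 1 := by rw [← map_mul, inv_mul_cancel₀ c0, map_one]
  have u1 : C c - X i ^ k * T.ω a b ∈ my y := by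
    rw [RingHom.mem_ker, map_sub, eval_C, hc, sub_self]
  have e1 : s = (C c⁻¹ : Pol σ) • ((C c - X i ^ k * T.ω a b) • s +
      (X i ^ k : Pol σ) • ((L s).1 b • ma - (L s).1 a • mb)) := by
    rw [smul_sub, sub_eq_zero, smul_smul] at hk
    rw [← hk, ← add_smul, sub_add_cancel, smul_smul, c1, one_smul]
  have m1 : s ∈ (my y • ⊤ : Submodule (Pol σ) M) := by
    rw [e1]
    exact Submodule.smul_mem _ _ (add_mem (Submodule.smul_mem_smul u1 trivial)
      (Submodule.smul_mem _ _ (sub_mem (Submodule.smul_mem_smul (h0 b) trivial)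
        (Submodule.smul_mem_smul (h0 a) trivial))))
  refine hs y hy ((C α : Pol σ) • ma - (C β : Pol σ) • mb) (C c⁻¹ * (X i ^ k * l))
    (Ideal.mul_mem_left _ _ (Ideal.mul_mem_left _ _ hl)) ?_
  have e2 : s - (C c⁻¹ * (X i ^ k * l) : Pol σ) • ((C α : Pol σ) • ma - (C β : Pol σ) • mb) =
      (C c⁻¹ : Pol σ) • ((C c - X i ^ k * T.ω a b) • s +
        (X i ^ k : Pol σ) • (((L s).1 b - C α * l) • ma - ((L s).1 a - C β * l) • mb)) := by
    refine (congrArg (· - _) e1).trans ?_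
    module
  rw [e2]
  refine Submodule.smul_mem _ _ (add_mem ?_ (Submodule.smul_mem _ _
    (sub_mem (Submodule.smul_mem_smul h1 trivial) (Submodule.smul_mem_smul h2 trivial))))
  rw [pow_two, Submodule.mul_smul]
  exact Submodule.smul_mem_smul u1 m1

end Pool.Agent.P.MP_b01859_ag.SD
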