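import Pool.Agent.P.MP_b01859_ag.SD.Iface

/-! Step MAINB. -/

set_option autoImplicit false
set_option linter.unusedSectionVars false

namespace Pool.Agent.P.MP_b01859_ag.SD

open MvPolynomial Filter

theorem p_MAINB (hBOG : S_BOG) (hC2P : S_C2P) (hTOW : S_TOW) (hEXO : S_EXO) (hPOSW : S_POSW) (hPT : S_PT) (hHQ : S_HQ) (hFINB : S_FINB) :
    S_MAINB := by
  intro σ ι _ _ n T γ g c₂ a b hC hD hS hG
  have h5 := hC.five
  obtain ⟨p₀, hp₀, Λ, _, v, hsec, hgen⟩ := hG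
  obtain ⟨-, -, -, -, hmono, -⟩ := hHQ σ
  obtain ⟨F1, F2, F3⟩ := hFINB n (-g) c₂ h5
  obtain ⟨y, hy, hyp⟩ := hPT σ p₀ hp₀.hom (hmono _ _ 0 (Nat.zero_le _) hp₀).dim
  obtain ⟨l, k, i, j, hne⟩ := hgen y hy hyp
  have hl : ∃ a, v l a ∉ p₀ := by
    by_contra hcon
    push Not at hcon
    exact hne (hyp _ (sub_mem (p₀.mul_mem_right _ (hcon i)) (p₀.mul_mem_right _ (hcon j))))
  have hpos : ∀ j, j + 1 ≤ n - 2 → 0 ≤ hs (-g) c₂ (j + 1) := fun j hj => by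
    simpa using hPOSW σ ι Λ n T γ g c₂ a b hC p₀ v (n - 2) hp₀ hsec hgen 0 (v l)
      (by simpa using hsec l) hl j hj
  have h1 : 0 ≤ hs (-g) c₂ 1 := hpos 0 (by omega)
  have h2 : 0 ≤ hs (-g) c₂ 2 := hpos 1 (by omega)
  have hA : (n : ℤ) ^ 2 * (-g) < 50 * c₂ := by
    by_cases hd : g ^ 2 < 4 * c₂
    · exact F1 (by rwa [neg_sq]) (by rw [neg_sq]; exact hD hd) hpos
    · have hd' : 4 * c₂ ≤ g ^ 2 := not_lt.mp hd
      obtain ⟨τ, α₀, hτ, hτp, h3⟩ := hBOG σ ι n T γ g c₂ a b hC hd'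
      have hq0 := hC2P σ ι n T γ g c₂ a b hC hS τ α₀ hτ hτp
      have hg : 0 ≤ -g := h1
      obtain ⟨p, hle, hp, hord⟩ := hTOW σ ι n T γ g c₂ a b hC τ α₀ hτ h3 hq0 ((n - 1) / 4)
        (n - 2 - 2 * ((n - 1) / 4)) p₀ (hmono _ _ _ (by omega) hp₀)
      obtain ⟨v', u, hv', hu, hun⟩ := hEXO σ ι T γ p τ α₀ _ hp.prime.ne_top
        (VB.ne_zero_of_prim hτp) hτ hord
      obtain ⟨κ, hκ⟩ := Int.eq_ofNat_of_zero_le (show 0 ≤ -g - α₀ + v' by omega)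
      have hP := hPOSW σ ι Λ n T γ g c₂ a b hC p v _ hp
        (fun l => ⟨(hsec l).1, fun i j k => hle ((hsec l).2 i j k)⟩)
        (fun y hy h => hgen y hy fun f hf => h f (hle hf)) κ u
        (by rwa [show -g - (κ : ℤ) = α₀ - v' by omega]) hun
      refine F2 (-g - α₀) κ (by rwa [neg_sq]) (by omega) ?_ (by omega) hP
      unfold qq at hq0
      nlinarith
  refine ⟨hA, fun k s hs0 hs => F3 k hA h1 h2 ?_⟩
  rcases lt_or_ge k 0 with hk | hk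
  · exact Or.inl hk
  · obtain ⟨v', u, -, hu, hun⟩ := hEXO σ ι T γ p₀ s _ 0 hp₀.prime.ne_top hs0 hs
      fun a L hL => absurd hL (Nat.not_lt_zero _)
    obtain ⟨κ, hκ⟩ := Int.eq_ofNat_of_zero_le (show 0 ≤ k + v' by omega)
    exact Or.inr ⟨κ, by omega, hPOSW σ ι Λ n T γ g c₂ a b hC p₀ v (n - 2) hp₀ hsec hgen κ u
      (by rwa [show -g - (κ : ℤ) = -k - g - v' by omega]) hun 1 (by omega)⟩

end Pool.Agent.P.MP_b01859_ag.SD
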