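import Pool.Agent.P.MP_b01859_ag.SD.Iface

/-! Step POSK. -/

set_option autoImplicit false
set_option linter.unusedSectionVars false

namespace Pool.Agent.P.MP_b01859_ag.SD

open MvPolynomial Filter

namespace POSKx

lemma split {σ : Type} (κ : ℕ) : ∀ d : σ →₀ ℕ, κ ≤ d.degree →
    ∃ (e : Fin κ → σ) (d' : σ →₀ ℕ), d'.degree + κ = d.degree ∧
      ∀ c : ℂ, (monomial d c : Pol σ) = monomial d' c * ∏ i, X (e i) := by
  classical
  induction κ with
  | zero => exact fun d _ => ⟨Fin.elim0, d, rfl, fun c => by simp⟩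
  | succ κ ih =>
    intro d hd
    obtain ⟨e, d', h1, h2⟩ := ih d (by omega)
    have h3 : d' ≠ 0 := by
      rintro rfl
      simp only [map_zero] at h1
      omega
    obtain ⟨j, hj⟩ := Finsupp.ne_iff.mp h3
    have h4 : Finsupp.single j 1 ≤ d' := by
      rw [Finsupp.single_le_iff]
      exact Nat.one_le_iff_ne_zero.mpr hj
    obtain ⟨d'', rfl⟩ := exists_add_of_le h4
    refine ⟨Fin.cons j e, d'', ?_, fun c => ?_⟩
    · rw [map_add, Finsupp.degree_single] at h1
      omega
    · rw [h2, Fin.prod_univ_succ, monomial_single_add]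
      simp only [Fin.cons_zero, Fin.cons_succ, pow_one]
      ring

lemma wt {σ : Type} (d : σ →₀ ℕ) : Finsupp.weight (fun _ : σ => (1 : ℤ)) d = (d.degree : ℕ) := by
  simp [Finsupp.weight_apply, Finsupp.sum, Finsupp.degree_apply]

variable {σ ι : Type} [Fintype σ] [Fintype ι]

lemma lf_mul (p : Ideal (Pol σ)) (f : Pol σ) (u : ι → Pol σ) :
    lf p (fun a => f * u a) = C (Ideal.Quotient.mk p f) * lf p u := by
  simp only [lf, map_mul, Finset.mul_sum, mul_assoc]

lemma lf_ne (p : Ideal (Pol σ)) (u : ι → Pol σ) (h : ∃ a, u a ∉ p) : lf p u ≠ 0 := by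
  classical
  obtain ⟨a, ha⟩ := h
  intro h0
  have := congrArg (eval (Pi.single a 1 : ι → Pol σ ⧸ p)) h0
  simp only [lf, map_sum, map_mul, eval_C, eval_X, map_zero] at this
  rw [Finset.sum_eq_single a (fun b _ hb => by simp [hb]) (by simp)] at this
  simp only [Pi.single_eq_same, mul_one] at this
  exact ha (Ideal.Quotient.eq_zero_iff_mem.mp this)

end POSKx

open POSKx in
theorem p_POSK (hC2 : S_C2) (hALGB : S_ALGB) :
    S_POSK := by
  intro σ ι Λ _ _ _ p v u κ hp hu hv
  obtain ⟨-, -, h0, hsp, hl, hc⟩ := hALGB σ ι Λ p v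
  let F : AP ι p →ₗ[ℂ] AP ι p := LinearMap.mulLeft ℂ (lf p u)
  have hF : ∀ z, F z = lf p u * z := fun z => rfl
  have hinj : Function.Injective F := fun a b h => mul_left_cancel₀ (lf_ne p u hu) h
  have hcl : Cl (xa p v) (wb σ Λ) (Alg p v) := gen_cl
  have hcl' := ((hcl.shift (-1, (κ : ℤ))).map F fun i z => by
    simp only [hF, smul_eq_mul, mul_left_comm]).inf hcl
  have hs : Sub (xa p v) (wb σ Λ) (Alg p v) := gen_sub
  refine ⟨_, (hC2 σ Λ (AP ι p) (AP ι p) (xa p v) (Alg p v) hs hcl).2 _ hcl'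
    fun g => inf_le_right, fun m t ht => ?_⟩
  have key : (Alg p v (m - 1, t + κ)).map F ≤ Alg p v (m, t) := by
    rcases lt_or_ge (m - 1) 0 with hm | hm
    · have := h0 (m - 1) (t + κ) (Or.inl hm)
      rw [Al] at this
      rw [this, Submodule.map_bot]
      exact bot_le
    · obtain ⟨n, hn⟩ := Int.eq_ofNat_of_zero_le hm
      have := hsp n (t + κ)
      rw [Al] at this
      rw [hn, this, Submodule.map_span_le]
      rintro _ ⟨f, e, hf, rfl⟩
      have hz : ∏ i, lf p (v (e i)) ∈ Al p v n 0 := by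
        rw [hsp]
        exact Submodule.subset_span ⟨1, e, isWeightedHomogeneous_one ℂ _, by simp⟩
      rw [as_sum f, map_sum, map_sum, Finset.sum_mul, map_sum]
      refine Submodule.sum_mem _ fun d hd => ?_
      have h1 := hf (mem_support_iff.mp hd)
      rw [wt] at h1
      obtain ⟨e', d', h2, h3⟩ := split κ d (by omega)
      obtain ⟨l, hl'⟩ := hv e'
      have h4 := hc _ _ t (monomial d' (coeff d f))
        (isWeightedHomogeneous_monomial _ _ _ (by rw [wt]; omega)) _ (hl _ _ l _ hz)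
      rw [hl', lf_mul, zero_add, ← hn, sub_add_cancel] at h4
      rw [h3, hF, map_mul, map_mul]
      have e2 : ∀ a b c z : AP ι p, a * (b * c * z) = b * (c * a * z) := fun a b c z => by ring
      rw [e2]
      exact h4
  have e1 : ((m, t) : ℤ × ℤ) + (-1, (κ : ℤ)) = (m - 1, t + κ) := by
    rw [Prod.mk_add_mk, sub_eq_add_neg]
  have e3 : Module.finrank ℂ ↥((Alg p v ((m, t) + (-1, (κ : ℤ)))).map F ⊓ Alg p v (m, t)) =
      Module.finrank ℂ (Alg p v (m - 1, t + κ)) := by
    rw [e1, inf_eq_left.mpr key, ← (Submodule.equivMapOfInjective F hinj _).finrank_eq]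
  exact congrArg (fun k : ℕ => hd (Alg p v) (m, t) - (k : ℤ)) e3

end Pool.Agent.P.MP_b01859_ag.SD
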