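import Pool.Agent.P.MP_b01859_ag.SD.Iface

/-! Step POSN. -/

set_option autoImplicit false
set_option linter.unusedSectionVars false

namespace Pool.Agent.P.MP_b01859_ag.SD

open MvPolynomial Filter

namespace POSNx

/-- degree at most `k`, normalised coefficient `c` in degree `k` -/
def Top (k : ℕ) (c : ℂ) (Q : Polynomial ℂ) : Prop :=
  Q.natDegree ≤ k ∧ (k.factorial : ℂ) * Q.coeff k = c

lemma sh_eq (a : ℂ) (Q : Polynomial ℂ) : sh a Q = Polynomial.taylor a Q := rfl

lemma sh_sh (a b : ℂ) (Q : Polynomial ℂ) : sh a (sh b Q) = sh (a + b) Q := by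
  simp only [sh_eq, Polynomial.taylor_taylor]

lemma sh_sub (a : ℂ) (Q Q' : Polynomial ℂ) : sh a (Q - Q') = sh a Q - sh a Q' := by
  simp only [sh_eq, map_sub]

lemma sh_zero (Q : Polynomial ℂ) : sh 0 Q = Q := by
  simp only [sh_eq, Polynomial.taylor_zero]

lemma sh_nil (a : ℂ) : sh a 0 = 0 := by
  simp only [sh_eq, map_zero]

lemma sh_eval (a t : ℂ) (Q : Polynomial ℂ) : (sh a Q).eval t = Q.eval (t + a) := by
  simp only [sh_eq, Polynomial.taylor_eval]

lemma sh_deg (a : ℂ) (Q : Polynomial ℂ) : (sh a Q).natDegree = Q.natDegree := by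
  simp only [sh_eq, Polynomial.natDegree_taylor]

lemma sh_coeff (a : ℂ) (Q : Polynomial ℂ) (k : ℕ) (h : Q.natDegree ≤ k + 1) :
    (sh a Q).coeff k = Q.coeff k + ((k : ℂ) + 1) * Q.coeff (k + 1) * a := by
  have h1 : (Polynomial.hasseDeriv k Q).natDegree < 2 :=
    lt_of_le_of_lt (Polynomial.natDegree_hasseDeriv_le Q k) (by omega)
  rw [sh_eq, Polynomial.taylor_coeff, Polynomial.eval_eq_sum_range' h1]
  simp [Finset.sum_range_succ, Polynomial.hasseDeriv_coeff, add_comm 1 k]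

lemma sh_top (a : ℂ) (Q : Polynomial ℂ) (k : ℕ) (h : Q.natDegree ≤ k) :
    (sh a Q).coeff k = Q.coeff k := by
  rw [sh_coeff a Q k (by omega), Polynomial.coeff_eq_zero_of_natDegree_lt (n := k + 1) (by omega)]
  ring

lemma Top.add {k : ℕ} {c c' : ℂ} {Q Q' : Polynomial ℂ} (h : Top k c Q) (h' : Top k c' Q') :
    Top k (c + c') (Q + Q') :=
  ⟨(Polynomial.natDegree_add_le _ _).trans (max_le h.1 h'.1), by
    rw [Polynomial.coeff_add, mul_add, h.2, h'.2]⟩

lemma Top.sh {k : ℕ} {c : ℂ} {Q : Polynomial ℂ} (h : Top k c Q) (a : ℂ) : Top k c (sh a Q) :=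
  ⟨(sh_deg a Q).trans_le h.1, by rw [sh_top a Q k h.1, h.2]⟩

lemma Top.diff {k : ℕ} {c : ℂ} {Q : Polynomial ℂ} (h : Top (k + 1) c Q) (a a' : ℂ) :
    Top k ((a - a') * c) (SD.sh a Q - SD.sh a' Q) := by
  refine ⟨?_, ?_⟩
  · rw [Polynomial.natDegree_le_iff_coeff_eq_zero]
    intro N hN
    rw [Polynomial.coeff_sub, sh_top a Q N (h.1.trans hN), sh_top a' Q N (h.1.trans hN), sub_self]
  · rw [Polynomial.coeff_sub, sh_coeff a Q k h.1, sh_coeff a' Q k h.1, ← h.2, Nat.factorial_succ]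
    push_cast
    ring

lemma top_of_le {k : ℕ} {Q : Polynomial ℂ} (h : Q.natDegree ≤ k) : Top (k + 1) 0 Q :=
  ⟨by omega, by rw [Polynomial.coeff_eq_zero_of_natDegree_lt (by omega), mul_zero]⟩

/-- difference in the index -/
noncomputable def Dm (S : ℤ → Polynomial ℂ) : ℤ → Polynomial ℂ := fun m => S m - S (m - 1)

lemma Dm_succ (J : ℕ) (S : ℤ → Polynomial ℂ) (m : ℤ) :
    Dm^[J + 1] S m = Dm^[J] S m - Dm^[J] S (m - 1) := by
  rw [Function.iterate_succ_apply']
  rfl

lemma geo (b δ : ℂ) (w : ℕ) (Q : Polynomial ℂ) (hQ : Top w δ Q) (J : ℕ) :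
    ∀ k, J + k = w → ∃ R, Top k (b ^ J * δ) R ∧
      ∀ m : ℤ, Dm^[J] (fun m : ℤ => sh (m * b) Q) m = sh (m * b) R := by
  induction J with
  | zero =>
    intro k hk
    obtain rfl : k = w := by omega
    exact ⟨Q, by simpa using hQ, fun m => rfl⟩
  | succ J ih =>
    intro k hk
    obtain ⟨R, hR, e⟩ := ih (k + 1) (by omega)
    refine ⟨sh 0 R - sh (-b) R, ?_, fun m => ?_⟩
    · have := hR.diff 0 (-b)
      convert this using 1
      ring
    · rw [Dm_succ, e, e, sh_sub, sh_sh, sh_sh]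
      congr 2 <;> push_cast <;> ring

lemma twist (z : ℂ) (P : ℤ → Polynomial ℂ) (J : ℕ) : ∀ m : ℤ,
    Dm^[J] (fun m => P m - sh z (P (m - 1))) m = Dm^[J] P m - sh z (Dm^[J] P (m - 1)) := by
  induction J with
  | zero => intro m; rfl
  | succ J ih =>
    intro m
    rw [Dm_succ, Dm_succ, Dm_succ, ih, ih, sh_sub]
    ring

lemma loc (S S' : ℤ → Polynomial ℂ) (h : ∀ m, 0 ≤ m → S m = S' m) (J : ℕ) :
    ∀ m : ℤ, (J : ℤ) ≤ m → Dm^[J] S m = Dm^[J] S' m := by
  induction J with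
  | zero => intro m hm; exact h m (by simpa using hm)
  | succ J ih =>
    intro m hm
    push_cast at hm
    rw [Dm_succ, Dm_succ, ih m (by omega), ih (m - 1) (by omega)]

/-- complete symmetric functions, index moved by one -/
noncomputable def H (a b : ℂ) : ℕ → ℂ
  | 0 => 0
  | J + 1 => b ^ J + a * H a b J

lemma H_hs (c₁ c₂ : ℤ) (a b : ℂ) (h1 : a + b = c₁) (h2 : a * b = c₂) (j : ℕ) :
    H a b (j + 1) = hs c₁ c₂ j := by
  have key : ∀ j, (hs c₁ c₂ (j + 1) : ℂ) = b ^ (j + 1) + a * hs c₁ c₂ j := by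
    intro j
    induction j with
    | zero => simp [hs, ← h1, add_comm]
    | succ j ih =>
      rw [hs]
      push_cast
      rw [← h1, ← h2, ih]
      ring
  induction j with
  | zero => simp [H, hs]
  | succ j ih => rw [H, ih, key]

section main

variable {P : ℤ → Polynomial ℂ} {a b δ : ℂ} {w : ℕ}

lemma first (h0 : P (-1) = 0)
    (hr : ∀ m, 0 ≤ m → P (m + 1) + sh (a + b) (P (m - 1)) = sh a (P m) + sh b (P m)) :
    ∀ m : ℤ, 0 ≤ m → P m - sh a (P (m - 1)) = sh (m * b) (P 0) := by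
  intro m hm
  induction m, hm using Int.leInduction with
  | base => simp [h0, sh_nil, sh_zero]
  | succ m hm ih =>
    have e : sh (((m + 1 : ℤ) : ℂ) * b) (P 0) = sh b (sh (m * b) (P 0)) := by
      rw [sh_sh]
      congr 1
      push_cast
      ring
    rw [e, ← ih, sh_sub, sh_sh, add_comm b a, add_sub_cancel_right]
    linear_combination hr m hm

lemma second (hf : ∀ m : ℤ, 0 ≤ m → P m - sh a (P (m - 1)) = sh (m * b) (P 0))
    (hT : Top w δ (P 0)) (J k : ℕ) (hk : J + k = w) (m : ℤ) (hm : (J : ℤ) ≤ m) :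
    Top k (b ^ J * δ) (Dm^[J] P m - sh a (Dm^[J] P (m - 1))) := by
  obtain ⟨R, hR, e⟩ := geo b δ w (P 0) hT J k hk
  rw [← twist, loc _ _ hf J m hm, e]
  exact hR.sh _

lemma third (h0 : P (-1) = 0)
    (hf : ∀ m : ℤ, 0 ≤ m → P m - sh a (P (m - 1)) = sh (m * b) (P 0))
    (hT : Top w δ (P 0)) (J : ℕ) : ∀ k, J + k = w + 1 → ∀ m : ℤ, (J : ℤ) - 1 ≤ m →
      Top k (H a b J * δ) (Dm^[J] P m) := by
  induction J with
  | zero =>
    intro k hk m hm
    obtain rfl : k = w + 1 := by omega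
    have : ∀ m : ℤ, -1 ≤ m → (P m).natDegree ≤ w := by
      intro m hm
      induction m, hm using Int.leInduction with
      | base => simp [h0]
      | succ m hm ih =>
        have e := hf (m + 1) (by omega)
        rw [add_sub_cancel_right, sub_eq_iff_eq_add] at e
        rw [e]
        refine (Polynomial.natDegree_add_le _ _).trans (max_le ?_ ?_)
        · exact (sh_deg _ _).trans_le hT.1
        · exact (sh_deg _ _).trans_le ih
    simpa [H] using top_of_le (this m (by simpa using hm))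
  | succ J ih =>
    intro k hk m hm
    push_cast at hm
    have h1 := second hf hT J k (by omega) m (by omega)
    have h2 := (ih (k + 1) (by omega) (m - 1) (by omega)).diff a 0
    have h3 := h1.add h2
    rw [sh_zero] at h3
    rw [Dm_succ]
    convert h3 using 1
    · rw [H]; ring
    · ring

lemma fourth (h0 : P (-1) = 0)
    (hf : ∀ m : ℤ, 0 ≤ m → P m - sh a (P (m - 1)) = sh (m * b) (P 0))
    (hT : Top w δ (P 0)) (z : ℂ) (J k : ℕ) (hk : J + k = w) (m : ℤ) (hm : (J : ℤ) ≤ m) :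
    Top k ((H a b (J + 1) - z * H a b J) * δ) (Dm^[J] (fun m => P m - sh z (P (m - 1))) m) := by
  have h1 := second hf hT J k hk m hm
  have h2 := (third h0 hf hT J (k + 1) (by omega) (m - 1) (by omega)).diff a z
  have h3 := h1.add h2
  rw [twist]
  convert h3 using 1
  · rw [H]; ring
  · ring

end main

lemma dg_comm (x y : ℤ × ℤ) : Function.Commute (dg x) (dg y) := fun f => by
  funext g
  simp only [dg]
  rw [sub_right_comm g x y]
  ring

lemma dg_snd (j : ℕ) : ∀ (f : ℤ × ℤ → ℤ) (m t : ℤ),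
    (dg ((0 : ℤ), (1 : ℤ)))^[j] f (m, t) = dl^[j] (fun t => f (m, t)) t := by
  induction j with
  | zero => intro f m t; rfl
  | succ j ih =>
    intro f m t
    have e : (fun t => dg ((0 : ℤ), (1 : ℤ)) f (m, t)) = dl fun t => f (m, t) := by
      funext t
      simp [dg]
    rw [Function.iterate_succ_apply, Function.iterate_succ_apply, ih, e]

lemma evp_fst (f : ℤ × ℤ → ℤ) (S : ℤ → Polynomial ℂ) (h : ∀ m, EvP (fun t => f (m, t)) (S m))
    (J : ℕ) : ∀ m, EvP (fun t => (dg ((1 : ℤ), (0 : ℤ)))^[J] f (m, t)) (Dm^[J] S m) := by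
  induction J with
  | zero => exact h
  | succ J ih =>
    intro m
    filter_upwards [ih m, ih (m - 1)] with t h1 h2
    rw [Dm_succ, Function.iterate_succ_apply', Polynomial.eval_sub, ← h1, ← h2]
    simp [dg]

end POSNx

open POSNx in
theorem p_POSN (hPOLY : S_POLY) :
    S_POSN := by
  intro h h' P w δ g c₂ κ a b hab hab' hδ hP h0 hw hr hpos hh j hj
  obtain ⟨-, p2, p3, -, -⟩ := hPOLY
  have hT : Top w δ (P 0) := by
    have e0 : Ev0 (w + 1) (fun t => h (0, t)) := by
      have := (tendsto_atTop_add_const_right atTop (-1 : ℤ) tendsto_id).eventually hw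
      filter_upwards [hw, this] with t h1 h2
      rw [Function.iterate_succ_apply']
      simp only [id, ← sub_eq_add_neg] at h2
      change dl^[w] _ t - dl^[w] _ (t - 1) = 0
      rw [h1, h2, sub_self]
    have hd : (P 0).natDegree ≤ w := by
      have := (p2 _ _ _ (hP 0)).1 e0
      rw [Polynomial.natDegree_le_iff_degree_le]
      exact Order.le_of_lt_succ (by exact_mod_cast this)
    refine ⟨hd, ?_⟩
    obtain ⟨t, h1, h2⟩ := ((p3 w _ _ (hP 0) hd).and hw).exists
    rw [← h1]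
    exact_mod_cast h2
  have hf := first (a := a) (b := b) h0 (by rw [hab]; exact hr)
  have hE : ∀ m, EvP (fun t => h' (m, t)) (P m - sh κ (P (m - 1))) := by
    intro m
    have := (tendsto_atTop_add_const_right atTop κ tendsto_id).eventually (hP (m - 1))
    filter_upwards [hP m, this, eventually_ge_atTop (0 : ℤ)] with t h1 h2 h3
    simp only [id] at h2
    rw [hh m t h3, Polynomial.eval_sub, sh_eval, ← h1]
    push_cast at h2 ⊢
    rw [h2]
  obtain ⟨k, hk⟩ : ∃ k, j + 1 + k = w := ⟨w - (j + 1), by omega⟩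
  obtain ⟨m₀, t₀, hp⟩ := hpos (j + 1) k
  set m : ℤ := max m₀ ((j + 1 : ℕ) : ℤ)
  have h4 := fourth h0 hf hT κ (j + 1) k hk m (le_max_right _ _)
  obtain ⟨t, h5, h6⟩ :=
    ((p3 k _ _ (evp_fst h' _ hE (j + 1) m) h4.1).and (eventually_ge_atTop t₀)).exists
  have h7 := hp m t (le_max_left _ _) h6
  have e : dd (j + 1) k h' (m, t) =
      dl^[k] (fun t => (dg ((1 : ℤ), (0 : ℤ)))^[j + 1] h' (m, t)) t := by
    rw [← dg_snd]
    exact congrFun ((dg_comm _ _).iterate_iterate (j + 1) k h') (m, t)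
  have hc : a + b = ((-g : ℤ) : ℂ) := by rw [hab]; push_cast; ring
  rw [h4.2, H_hs _ _ a b hc hab', H_hs _ _ a b hc hab'] at h5
  have h8 : dd (j + 1) k h' (m, t) = (hs (-g) c₂ (j + 1) - κ * hs (-g) c₂ j) * δ := by
    rw [e]
    exact_mod_cast h5
  rw [h8] at h7
  have := nonneg_of_mul_nonneg_left h7 hδ
  omega

end Pool.Agent.P.MP_b01859_ag.SD
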