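import Pool.Agent.P.MP_b01859_ag.SD.Iface

/-! Step POSW. -/

set_option autoImplicit false
set_option linter.unusedSectionVars false

namespace Pool.Agent.P.MP_b01859_ag.SD

open MvPolynomial Filter

theorem POSWx.rec3 (hP4 : ∀ (f : ℤ → ℤ) (P Q : Polynomial ℂ), EvP f P → EvP f Q → P = Q)
    {e z d f f' : ℤ → ℤ} {g : ℤ} {Q P P' : Polynomial ℂ} (h : EvP e Q)
    (h1 : ∀ᶠ t in atTop, e t = z t + d t) (h2 : ∀ᶠ t in atTop, z t = f (t - g - -g))
    (h3 : ∀ᶠ t in atTop, d t = f' (t + -g)) (h4 : EvP f P) (h5 : EvP f' P') :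
    P + sh (-g) P' = Q := by
  refine hP4 _ _ _ ?_ h
  have hs : Tendsto (fun t : ℤ => t + -g) atTop atTop :=
    tendsto_atTop_atTop.2 fun c => ⟨c + g, fun t ht => by omega⟩
  filter_upwards [h1, h2, h3, h4, hs.eventually h5] with t e1 e2 e3 e4 e5
  rw [e1, e2, e3, sub_neg_eq_add, sub_add_cancel, Int.cast_add, e4, e5]
  simp [sh]

theorem p_POSW (hHQ : S_HQ) (hALGB : S_ALGB) (hC1 : S_C1) (hPOLY : S_POLY) (hSYM0 : S_SYM0) (hSYG1 : S_SYG1) (hSYG2 : S_SYG2) (hPOSK : S_POSK) (hPOSN : S_POSN) :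
    S_POSW := by
  classical
  intro σ ι Λ _ _ _ n T γ g c₂ a b hC p v w hp hv hG κ u hu hu0 j hj
  obtain ⟨-, -, -, -, hVar, hδ⟩ := hHQ σ
  obtain ⟨w', δ, hw, hδ0, -, hδ⟩ := hδ p w hp.dim
  have hp0 : Var p 0 := hVar p w 0 (Nat.zero_le _) hp
  let v' : Λ ⊕ (Fin κ → σ) → ι → Pol σ :=
    Sum.elim v fun d a => (∏ i, X (d i)) * u a
  have hv' : ∀ l, SecW T γ p (v' l) (-g) := by
    rintro (l | d)
    · exact hv l
    · refine ⟨fun a => ?_, fun i j k => ?_⟩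
      · have h1 : IsWeightedHomogeneous (w1 σ) (∏ i, X (d i) : Pol σ) (∑ _i : Fin κ, (1 : ℤ)) :=
          IsWeightedHomogeneous.prod _ _ _ fun i _ => isWeightedHomogeneous_X ℂ (w1 σ) (d i)
        have h2 := h1.mul (hu.1 a)
        have e : (∑ _i : Fin κ, (1 : ℤ)) + (γ a + (-g - κ)) = γ a + -g := by simp; ring
        rw [e] at h2
        exact h2
      · have := p.mul_mem_left (∏ i, X (d i)) (hu.2 i j k)
        convert this using 1
        simp only [v', Sum.elim_inr]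
        ring
  have hG' : GenW p v' := fun y hy hy' => by
    obtain ⟨l, k, c, e, h⟩ := hG y hy hy'
    exact ⟨Sum.inl l, Sum.inl k, c, e, h⟩
  obtain ⟨hcl, h0, hneg, -⟩ := hALGB σ ι _ p v'
  obtain ⟨hP1, -, -, hP4, -⟩ := hPOLY
  have hP : ∀ m : ℤ, ∃ P : Polynomial ℂ, EvP (hd (Al p v' m)) P := fun m => by
    obtain ⟨P, -, h⟩ := hP1 _ _ (hC1 σ (AP ι p) (AP ι p) (xb ι p) (Al p v' m) (hcl m).2 (hcl m).1).1.1
    exact ⟨P, h⟩
  choose P hP using hP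
  obtain ⟨h', hh', he⟩ := hPOSK σ ι _ p v' u κ hp.prime hu0 fun d => ⟨Sum.inr d, rfl⟩
  refine hPOSN (hd (Alg p v')) h' P w' δ g c₂ κ a b hC.sum hC.mul hδ0 hP ?_ ?_ ?_ hh' he j
    (hj.trans hw)
  · refine hP4 _ _ _ (hP (-1)) (Eventually.of_forall fun t => ?_)
    have e := hneg (-1) t (Or.inl (by norm_num))
    rw [hd, e, finrank_bot]
    simp
  · rw [← h0] at hδ
    exact hδ
  · intro m hm
    have hr := hC.rr (AP ι p) (xb ι p) (Al p v' m) (hcl m).1 (hcl m).2 (P m)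
    have h1 := hSYM0 σ ι _ T γ g p v' (-g) hC.gr hp0 hv' m
    have h2 := hSYG1 σ ι _ T γ g p v' (-g) hp0 hv' hG' m hm
    have h3 := hSYG2 σ ι _ T γ p v' (-g) hp0 hv' hG' m hm
    exact POSWx.rec3 hP4 (hr (by with_reducible_and_instances exact hP m)) h1 h2 h3
      (hP (m + 1)) (hP (m - 1))

end Pool.Agent.P.MP_b01859_ag.SD
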