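import Pool.Agent.P.MP_b01859_ag.SD.Iface

/-! Step SMO. -/

set_option autoImplicit false
set_option linter.unusedSectionVars false

namespace Pool.Agent.P.MP_b01859_ag.SD

open MvPolynomial Filter

namespace SMOx

theorem cl (σ : Type) : Cl (X : σ → Pol σ) (w1 σ) (SS σ) := fun i g v hv => by
  have h := (isWeightedHomogeneous_X ℂ (w1 σ) i).mul hv
  rw [add_comm] at h
  exact h

theorem sub (σ : Type) : Sub (X : σ → Pol σ) (w1 σ) (SS σ) :=
  ⟨Unit, inferInstance, fun _ => 1, fun _ => 0, fun g v hv =>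
    ⟨fun _ => v, fun _ => by rw [sub_zero]; exact hv, by simp⟩⟩

end SMOx

theorem p_SMO (hC2P : S_C2P) (hSEQA : S_SEQA) (hSEQN : S_SEQN) (hPRIME : S_PRIME) (hLEIB : S_LEIB) (hHQ : S_HQ) (hBN : S_BN) :
    S_SMO := by
  intro σ ι _ _ n T γ g c₂ a b hC hS s hs hp hm
  obtain ⟨-, -, b3, -, -, -, b7⟩ := hBN
  obtain ⟨-, q2, q3, -⟩ := hHQ σ
  have five := hC.five
  have hE : EvP (hM T γ) (sh a (bp n) + sh b (bp n)) :=
    hC.rr (Pol σ) X (SS σ) (SMOx.cl σ) (SMOx.sub σ) _ (by rw [(b7 σ n hC.card).1]; exact b3 n)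
  have h1 := hSEQN n _ _ g c₂ (-g) a b (by omega) hC.sum hC.mul hE
    (hSEQA σ ι n T γ g hC.card (by omega) hC.gr s (-g) hs hp)
  have h2 := hC2P σ ι n T γ g c₂ a b hC hS s (-g) hs hp
  have hD : DimGe (Ideal.span (Set.range s.1)) (n - 2) := fun h0 => by
    obtain ⟨t, e1, e2⟩ := (h1.and h0).exists
    rw [e1] at e2
    exact h2.ne' e2
  have hI : HomI (Ideal.span (Set.range s.1)) := by
    have := q3 ι ⊥ s.1 _ q2 hs
    rwa [bot_sup_eq] at this
  obtain ⟨p, hle, hv⟩ := hPRIME σ _ _ hI hD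
  have hin : ∀ c, s.1 c ∈ p := fun c => hle (Ideal.subset_span ⟨c, rfl⟩)
  refine ⟨p, hv, σ × σ, inferInstance, fun l c => X l.1 * pderiv l.2 (s.1 c), fun l => ?_, ?_⟩
  · obtain ⟨e1, e2⟩ := hLEIB σ ι T γ p s (-g) [l.2] hs (fun c L hL => by
      have : L = [] := List.length_eq_zero_iff.1 (by simpa using hL)
      subst this
      exact hin c)
    refine ⟨fun c => ?_, fun i j k => ?_⟩
    · have h := (isWeightedHomogeneous_X ℂ (w1 σ) l.1).mul (e1 c)
      refine hom_congr h ?_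
      simp only [List.length_singleton, Nat.cast_one]
      ring
    · have h := p.mul_mem_left (X l.1) (e2 i j k)
      convert h using 1
      simp only [dL, List.foldr]
      ring
  · intro y hy h0
    obtain ⟨i, k, c, d, h⟩ := hm y hy fun c => h0 _ (hin c)
    obtain ⟨j, hj⟩ := Function.ne_iff.1 hy
    refine ⟨(j, i), (j, k), c, d, ?_⟩
    have e : X j * pderiv i (s.1 c) * (X j * pderiv k (s.1 d)) -
        X j * pderiv i (s.1 d) * (X j * pderiv k (s.1 c)) =
        X j * X j * (pderiv i (s.1 c) * pderiv k (s.1 d) - pderiv i (s.1 d) * pderiv k (s.1 c)) := by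
      ring
    rw [e, map_mul, map_mul, eval_X]
    exact mul_ne_zero (mul_ne_zero hj hj) h

end Pool.Agent.P.MP_b01859_ag.SD
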