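import Pool.Agent.P.MP_b01859_ag.SD.Iface

/-! Step SYG1. -/

set_option autoImplicit false
set_option linter.unusedSectionVars false

namespace Pool.Agent.P.MP_b01859_ag.SD

open MvPolynomial Filter

namespace SYG1x

lemma det3 {R ι : Type} [CommRing R] [IsDomain R] {W : ι → ι → R} {i j : ι} (h0 : W i j ≠ 0)
    {x y z : ι → R} (hx : ∀ k, W i j * x k - W i k * x j + W j k * x i = 0)
    (hy : ∀ k, W i j * y k - W i k * y j + W j k * y i = 0)
    (hz : ∀ k, W i j * z k - W i k * z j + W j k * z i = 0) (a b c : ι) :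
    (x a * y b - x b * y a) * z c =
      (z a * y b - z b * y a) * x c + (x a * z b - x b * z a) * y c := by
  have ex : ∀ k, W i j * x k = W i k * x j - W j k * x i := fun k => by linear_combination hx k
  have ey : ∀ k, W i j * y k = W i k * y j - W j k * y i := fun k => by linear_combination hy k
  have ez : ∀ k, W i j * z k = W i k * z j - W j k * z i := fun k => by linear_combination hz k
  apply mul_left_cancel₀ (pow_ne_zero 3 h0)
  calc _ = ((W i j * x a) * (W i j * y b) - (W i j * x b) * (W i j * y a)) * (W i j * z c) := by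
        ring
    _ = ((W i j * z a) * (W i j * y b) - (W i j * z b) * (W i j * y a)) * (W i j * x c) +
        ((W i j * x a) * (W i j * z b) - (W i j * x b) * (W i j * z a)) * (W i j * y c) := by
        simp only [ex, ey, ez]; ring
    _ = _ := by ring

lemma sub_mem' {V : Type} [AddCommGroup V] [Module ℂ V] {S : Submodule ℂ V} {y z : V}
    (hy : y ∈ S) (hz : z ∈ S) : y - z ∈ S := S.sub_mem hy hz

lemma finrank_map {V W : Type} [AddCommGroup V] [Module ℂ V] [AddCommGroup W] [Module ℂ W]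
    (f : V →ₗ[ℂ] W) (S : Submodule ℂ V) (h : ∀ z, z ∈ S → f z = 0 → z = 0) :
    Module.finrank ℂ (S.map f) = Module.finrank ℂ S := by
  rw [← LinearMap.range_domRestrict]
  exact LinearMap.finrank_range_of_inj ((injective_iff_map_eq_zero _).mpr fun z hz =>
    Subtype.ext (h z.1 z.2 hz))

variable {σ ι : Type} [Fintype σ] [Fintype ι]

lemma aeval_xb (p : Ideal (Pol σ)) (f : Pol σ) :
    aeval (xb ι p) f = C (Ideal.Quotient.mk p f) := by
  induction f using MvPolynomial.induction_on with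
  | C a => rw [aeval_C]; rfl
  | add f g hf hg => rw [map_add, hf, hg, map_add, map_add]
  | mul_X f i hf => rw [map_mul, hf, aeval_X, map_mul, map_mul]; rfl

lemma sub_pi {τ R V : Type} [CommRing R] [Algebra ℂ R] [AddCommGroup V] [Module ℂ V] [Module R V]
    [IsScalarTower ℂ R V] {x : τ → R} {N : ℤ → Submodule ℂ V} (h : Sub x (w1 τ) N) (e : ι → ℤ)
    {K : ℤ → Submodule ℂ (ι → V)} (hK : ∀ t, ∀ φ ∈ K t, ∀ a, φ a ∈ N (t + e a)) :
    Sub x (w1 τ) K := by
  classical
  obtain ⟨κ, _, u, d, hu⟩ := h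
  refine ⟨ι × κ, inferInstance, fun l => Pi.single l.1 (u l.2), fun l => d l.2 - e l.1,
    fun t φ hφ => ?_⟩
  choose f hf using fun a => hu _ (hK t φ hφ a)
  refine ⟨fun l => f l.1 l.2, fun l => hom_congr ((hf l.1).1 l.2) (by ring), ?_⟩
  funext a
  rw [Finset.sum_apply, Fintype.sum_prod_type, Finset.sum_eq_single a, (hf a).2]
  · simp
  · intro b _ hb
    simp [Pi.single_eq_of_ne hb.symm]
  · simp

/-- The gradient. -/
noncomputable def grad (p : Ideal (Pol σ)) : AP ι p →ₗ[ℂ] (ι → AP ι p) where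
  toFun z a := pderiv a z
  map_add' y z := by funext a; simp
  map_smul' c z := by funext a; simp only [Derivation.map_smul_of_tower]; rfl

lemma pderiv_comm {A : Type} [CommRing A] (a b : ι) (z : MvPolynomial ι A) :
    pderiv b (pderiv a z) = pderiv a (pderiv b z) := by
  classical
  induction z using MvPolynomial.induction_on with
  | C r => simp
  | add f g hf hg => simp only [map_add, hf, hg]
  | mul_X f i hf =>
    simp only [Derivation.leibniz, smul_eq_mul, map_add, pderiv_X, hf, Pi.single_apply]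
    split_ifs <;> simp <;> ring

end SYG1x

open SYG1x in
theorem p_SYG1 (hC1 : S_C1) (hNULL : S_NULL) (hALGB : S_ALGB) (hALGD : S_ALGD) (hHQ : S_HQ) :
    S_SYG1 := by
  classical
  intro σ ι Λ _ _ _ T γ g p v α hp hv hgen m hm
  have := hp.prime
  obtain ⟨hcl, -, -, -, hlf, hC⟩ := hALGB σ ι Λ p v
  have hD := hALGD σ ι Λ T γ p v α hv
  obtain ⟨i₀, hi₀⟩ := (hHQ σ).2.2.2.1 p 0 hp.dim
  obtain ⟨i, j, hij⟩ := T.LF p hp.prime i₀ hi₀
  have h0 : aeval (xb ι p) (T.ω i j) ≠ 0 := by
    rw [aeval_xb, C_ne_zero]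
    exact fun h => hij (Ideal.Quotient.eq_zero_iff_mem.mp h)
  have hm1 : ((m + 1 : ℤ) : ℂ) ≠ 0 := Int.cast_ne_zero.mpr (by omega)
  set K' : ℤ → Submodule ℂ (ι → AP ι p) :=
    fun t => (Al p v (m + 1) (t - g - α)).map (grad p) with hK'
  have hxs : ∀ (f : Pol σ) (z : AP ι p) (a : ι),
      pderiv a (C (Ideal.Quotient.mk p f) * z) = C (Ideal.Quotient.mk p f) * pderiv a z :=
    fun f z a => pderiv_C_mul
  have clK : Cl (xb ι p) (w1 σ) (ZN T γ g p (Al p v m)) := by
    rintro s t φ ⟨⟨h1, h2⟩, h3⟩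
    refine ⟨⟨fun a => ?_, fun a b c => ?_⟩, fun a b => ?_⟩
    · have := (hcl m).1 s _ _ (h1 a)
      rwa [show t + γ a - g + w1 σ s = t + w1 σ s + γ a - g by ring] at this
    · simp only [Pi.smul_apply, smul_eq_mul]
      linear_combination xb ι p s * h2 a b c
    · simp only [Pi.smul_apply, smul_eq_mul, xb, hxs, h3 a b]
  have subK : Sub (xb ι p) (w1 σ) (ZN T γ g p (Al p v m)) :=
    sub_pi (V := AP ι p) (K := ZN T γ g p (Al p v m)) (hcl m).2 (fun a => γ a - g)
      fun t φ hφ a => by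
      have := hφ.1.1 a
      rwa [add_sub_assoc] at this
  have clK' : Cl (xb ι p) (w1 σ) K' := by
    rintro s t _ ⟨z, hz, rfl⟩
    refine ⟨xb ι p s • z, ?_, funext fun a => hxs _ _ a⟩
    have := (hcl (m + 1)).1 s _ _ hz
    rwa [show t - g - α + w1 σ s = t + w1 σ s - g - α by ring] at this
  have hle : ∀ t, K' t ≤ ZN T γ g p (Al p v m) t := by
    rintro t _ ⟨z, hz, rfl⟩
    obtain ⟨h1, h2, -⟩ := hD _ _ z hz
    refine ⟨⟨fun a => ?_, h2⟩, fun a b => pderiv_comm a b z⟩
    have := h1 a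
    rwa [add_sub_cancel_right, show t - g - α + γ a + α = t + γ a - g by ring] at this
  have hnull := hNULL σ (Λ × Λ × ι × ι) p
    (fun q => v q.1 q.2.2.1 * v q.2.1 q.2.2.2 - v q.1 q.2.2.2 * v q.2.1 q.2.2.1)
    (fun q => γ q.2.2.1 + γ q.2.2.2 + 2 * α) hp.hom
    (fun q => (hom_congr (((hv _).1 _).mul ((hv _).1 _)) (by ring)).sub
      (hom_congr (((hv _).1 _).mul ((hv _).1 _)) (by ring)))
    fun y hy hy' => by
      obtain ⟨l, k, a, b, h⟩ := hgen y hy hy'
      exact ⟨(l, k, a, b), h⟩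
  obtain ⟨s₀, hs₀⟩ := eventually_atTop.mp hnull
  have hw : ∀ l c, aeval (xb ι p) (T.ω i j) * C (Ideal.Quotient.mk p (v l c)) -
      aeval (xb ι p) (T.ω i c) * C (Ideal.Quotient.mk p (v l j)) +
      aeval (xb ι p) (T.ω j c) * C (Ideal.Quotient.mk p (v l i)) = 0 := fun l c => by
    have := congrArg (C : _ →+* AP ι p) (Ideal.Quotient.eq_zero_iff_mem.mpr ((hv l).2 i j c))
    simpa only [aeval_xb, map_mul, map_sub, map_add, map_zero] using this
  have nil : ∀ s t, ∀ φ ∈ ZN T γ g p (Al p v m) t, ∃ k : ℕ, xb ι p s ^ k • φ ∈ K' (t + k) := by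
    rintro s t φ ⟨⟨h1, h2⟩, h3⟩
    obtain ⟨u, hu, hu'⟩ := hs₀ s₀.toNat (Int.self_le_toNat _) (X s ^ s₀.toNat)
      (hom_congr ((isWeightedHomogeneous_X ℂ (w1 σ) s).pow s₀.toNat) (by simp))
    set μ : AP ι p := ∑ c, X c * φ c with hμ
    have dμ : ∀ a, pderiv a μ = ((m + 1 : ℤ) : ℂ) • φ a := fun a => by
      rw [hμ, map_sum, Int.cast_add, Int.cast_one, add_smul, one_smul, ← (hD _ _ _ (h1 a)).2.2]
      simp only [Derivation.leibniz, smul_eq_mul, pderiv_X, Finset.sum_add_distrib, h3 a,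
        Pi.single_apply, mul_ite, mul_one, mul_zero, Finset.sum_ite_eq', Finset.mem_univ, if_true]
    have one : ∀ l k a b, C (Ideal.Quotient.mk p (v l a * v k b - v l b * v k a)) * μ ∈
        Al p v (m + 1) (t - g - α + (γ a + γ b + 2 * α)) := fun l k a b => by
      have e : C (Ideal.Quotient.mk p (v l a * v k b - v l b * v k a)) * μ =
          lf p (v l) * (C (Ideal.Quotient.mk p (v k b)) * φ a -
            C (Ideal.Quotient.mk p (v k a)) * φ b) +
          lf p (v k) * (C (Ideal.Quotient.mk p (v l a)) * φ b -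
            C (Ideal.Quotient.mk p (v l b)) * φ a) := by
        rw [hμ, lf, lf, Finset.mul_sum, Finset.sum_mul, Finset.sum_mul, ← Finset.sum_add_distrib]
        refine Finset.sum_congr rfl fun c _ => ?_
        have := det3 (W := fun a b => aeval (xb ι p) (T.ω a b)) h0 (hw l) (hw k) (h2 i j) a b c
        simp only [map_sub, map_mul]
        linear_combination X c * this
      have m1 : ∀ l a b, C (Ideal.Quotient.mk p (v l b)) * φ a ∈
          Al p v m (t - g - α + (γ a + γ b + 2 * α)) := fun l a b => by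
        have := hC _ _ _ _ ((hv l).1 b) _ (h1 a)
        rwa [show t + γ a - g + (γ b + α) = t - g - α + (γ a + γ b + 2 * α) by ring] at this
      have m2 : ∀ l, C (Ideal.Quotient.mk p (v l a)) * φ b ∈
          Al p v m (t - g - α + (γ a + γ b + 2 * α)) := fun l => add_comm (γ b) (γ a) ▸ m1 l b a
      have sb : ∀ {y z : AP ι p} {s : ℤ}, y ∈ Al p v m s → z ∈ Al p v m s →
          y - z ∈ Al p v m s := fun hy hz => sub_mem' (V := AP ι p) hy hz
      rw [e]
      exact add_mem (hlf _ _ _ _ (sb (m1 k a b) (m2 k))) (hlf _ _ _ _ (sb (m2 l) (m1 l a b)))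
    have two : C (Ideal.Quotient.mk p (X s ^ s₀.toNat)) * μ ∈
        Al p v (m + 1) (t + s₀.toNat - g - α) := by
      rw [Ideal.Quotient.eq.mpr hu', map_sum, map_sum, Finset.sum_mul]
      refine sum_mem fun q _ => ?_
      have := hC _ _ _ _ (hu q) _ (one q.1 q.2.1 q.2.2.1 q.2.2.2)
      rw [map_mul, map_mul, mul_assoc]
      convert this using 2
      ring
    refine ⟨s₀.toNat, _, Submodule.smul_mem _ ((m + 1 : ℤ) : ℂ)⁻¹ two, ?_⟩
    rw [map_smul]
    funext a
    change ((m + 1 : ℤ) : ℂ)⁻¹ • pderiv a _ = xb ι p s ^ s₀.toNat * φ a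
    rw [hxs, dμ, mul_smul_comm, smul_smul, inv_mul_cancel₀ hm1, one_smul, map_pow, map_pow]
    rfl
  filter_upwards [((hC1 σ (AP ι p) (ι → AP ι p) (xb ι p) (ZN T γ g p (Al p v m)) subK clK).2
    K' clK' hle).2.2 nil] with t ht
  rw [hd, hd, ← ht]
  refine congrArg _ (finrank_map (V := AP ι p) (W := ι → AP ι p) (grad p) _ fun z hz h => ?_)
  have e := (hD _ _ z hz).2.2
  have : ∀ a, pderiv a z = 0 := fun a => congrFun h a
  simp only [this, mul_zero, Finset.sum_const_zero] at e
  rw [← one_smul ℂ z, ← inv_mul_cancel₀ hm1, mul_smul, ← e, smul_zero]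

end Pool.Agent.P.MP_b01859_ag.SD
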