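import Pool.Agent.P.MP_b01859_ag.SD.Iface

/-! Step SYG2. -/

set_option autoImplicit false
set_option linter.unusedSectionVars false

namespace Pool.Agent.P.MP_b01859_ag.SD

open MvPolynomial Filter

namespace SYG2x

lemma det3 {R ι : Type} [CommRing R] [IsDomain R] {W : ι → ι → R} {i j : ι} (h0 : W i j ≠ 0)
    {x y z : ι → R} (hx : ∀ k, W i j * x k - W i k * x j + W j k * x i = 0)
    (hy : ∀ k, W i j * y k - W i k * y j + W j k * y i = 0)
    (hz : ∀ k, W i j * z k - W i k * z j + W j k * z i = 0) (a b c : ι) :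
    (x a * y b - x b * y a) * z c =
      (z a * y b - z b * y a) * x c + (x a * z b - x b * z a) * y c := by
  have ex : ∀ k, W i j * x k = W i k * x j - W j k * x i := fun k => by linear_combination hx k
  have ey : ∀ k, W i j * y k = W i k * y j - W j k * y i := fun k => by linear_combination hy k
  have ez : ∀ k, W i j * z k = W i k * z j - W j k * z i := fun k => by linear_combination hz k
  apply mul_left_cancel₀ (pow_ne_zero 3 h0)
  calc _ = ((W i j * x a) * (W i j * y b) - (W i j * x b) * (W i j * y a)) * (W i j * z c) := by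
        ring
    _ = ((W i j * z a) * (W i j * y b) - (W i j * z b) * (W i j * y a)) * (W i j * x c) +
        ((W i j * x a) * (W i j * z b) - (W i j * x b) * (W i j * z a)) * (W i j * y c) := by
        simp only [ex, ey, ez]; ring
    _ = _ := by ring

lemma sub_mem' {V : Type} [AddCommGroup V] [Module ℂ V] {S : Submodule ℂ V} {y z : V}
    (hy : y ∈ S) (hz : z ∈ S) : y - z ∈ S := S.sub_mem hy hz

variable {σ ι : Type} [Fintype σ] [Fintype ι]

lemma aeval_xb (p : Ideal (Pol σ)) (f : Pol σ) :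
    aeval (xb ι p) f = C (Ideal.Quotient.mk p f) := by
  induction f using MvPolynomial.induction_on with
  | C a => rw [aeval_C]; rfl
  | add f g hf hg => rw [map_add, hf, hg, map_add, map_add]
  | mul_X f i hf => rw [map_mul, hf, aeval_X, map_mul, map_mul]; rfl

lemma sub_shift {τ R V : Type} [CommRing R] [Algebra ℂ R] [AddCommGroup V] [Module ℂ V]
    [Module R V] [IsScalarTower ℂ R V] {x : τ → R} {N : ℤ → Submodule ℂ V} (h : Sub x (w1 τ) N)
    (e : ℤ) : Sub x (w1 τ) fun t => N (t + e) := by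
  obtain ⟨κ, _, u, d, hu⟩ := h
  refine ⟨κ, inferInstance, u, fun l => d l - e, fun t φ hφ => ?_⟩
  obtain ⟨f, hf, rfl⟩ := hu _ hφ
  exact ⟨f, fun l => hom_congr (hf l) (by ring), rfl⟩

lemma pderiv_lf (p : Ideal (Pol σ)) (x : ι → Pol σ) (e : ι) :
    pderiv e (lf p x) = C (Ideal.Quotient.mk p (x e)) := by
  classical
  simp [lf, pderiv_X, Pi.single_apply]

lemma key (p : Ideal (Pol σ)) (x y : ι → Pol σ) (f : AP ι p) (a b : ι) (X₁ X₂ Y₁ Y₂ : AP ι p)
    (h₁ : X₁ = C (Ideal.Quotient.mk p (x a))) (h₂ : X₂ = C (Ideal.Quotient.mk p (x b)))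
    (h₃ : Y₁ = C (Ideal.Quotient.mk p (y a))) (h₄ : Y₂ = C (Ideal.Quotient.mk p (y b)))
    (h : ∀ c, (X₁ * Y₂ - X₂ * Y₁) * pderiv c f =
      (pderiv a f * Y₂ - pderiv b f * Y₁) * C (Ideal.Quotient.mk p (x c)) +
        (X₁ * pderiv b f - X₂ * pderiv a f) * C (Ideal.Quotient.mk p (y c))) :
    pderiv a (Y₂ * (lf p x * f)) - pderiv b (Y₁ * (lf p x * f)) +
      (pderiv b (X₁ * (lf p y * f)) - pderiv a (X₂ * (lf p y * f))) =
      (X₁ * Y₂ - X₂ * Y₁) * (∑ c, X c * pderiv c f + f + f) := by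
  have s : (X₁ * Y₂ - X₂ * Y₁) * ∑ c, X c * pderiv c f =
      (pderiv a f * Y₂ - pderiv b f * Y₁) * lf p x +
        (X₁ * pderiv b f - X₂ * pderiv a f) * lf p y := by
    rw [lf, lf, Finset.mul_sum, Finset.mul_sum, Finset.mul_sum, ← Finset.sum_add_distrib]
    exact Finset.sum_congr rfl fun c _ => by linear_combination X c * h c
  rw [mul_add, mul_add, s, h₁, h₂, h₃, h₄, pderiv_C_mul, pderiv_C_mul, pderiv_C_mul, pderiv_C_mul,
    pderiv_mul, pderiv_mul, pderiv_mul, pderiv_mul, pderiv_lf, pderiv_lf, pderiv_lf, pderiv_lf]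
  ring

end SYG2x

open SYG2x in
theorem p_SYG2 (hC1 : S_C1) (hNULL : S_NULL) (hALGB : S_ALGB) (hALGD : S_ALGD) (hHQ : S_HQ) :
    S_SYG2 := by
  classical
  intro σ ι Λ _ _ _ T γ p v α hp hv hgen m hm
  have := hp.prime
  obtain ⟨hcl, -, -, -, hlf, hC⟩ := hALGB σ ι Λ p v
  have hD := hALGD σ ι Λ T γ p v α hv
  obtain ⟨i₀, hi₀⟩ := (hHQ σ).2.2.2.1 p 0 hp.dim
  obtain ⟨i, j, hij⟩ := T.LF p hp.prime i₀ hi₀
  have h0 : aeval (xb ι p) (T.ω i j) ≠ 0 := by
    rw [aeval_xb, C_ne_zero]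
    exact fun h => hij (Ideal.Quotient.eq_zero_iff_mem.mp h)
  have hm1 : (m : ℂ) + 1 ≠ 0 := by exact_mod_cast (by omega : m + 1 ≠ 0)
  have hxs : ∀ (f : Pol σ) (z : AP ι p) (a : ι),
      pderiv a (C (Ideal.Quotient.mk p f) * z) = C (Ideal.Quotient.mk p f) * pderiv a z :=
    fun f z a => pderiv_C_mul
  have clK : Cl (xb ι p) (w1 σ) fun t => Al p v (m - 1) (t + α) := by
    intro s t z hz
    have := (hcl (m - 1)).1 s _ _ hz
    rwa [add_right_comm] at this
  have subK : Sub (xb ι p) (w1 σ) fun t => Al p v (m - 1) (t + α) :=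
    sub_shift (V := AP ι p) (hcl (m - 1)).2 α
  have mulD : ∀ (f : Pol σ) (d t : ℤ), Hom f d → ∀ z ∈ DN γ p (Al p v m) t,
      C (Ideal.Quotient.mk p f) * z ∈ DN γ p (Al p v m) (t + d) := by
    rintro f d t hf _ ⟨n, hn, rfl⟩
    refine ⟨fun s => C (Ideal.Quotient.mk p f) * n s, fun s => ?_, ?_⟩
    · have := hC _ _ _ _ hf _ (hn s)
      rwa [sub_add_eq_add_sub] at this
    · simp only [hxs, Finset.mul_sum]
  have clK' : Cl (xb ι p) (w1 σ) (DN γ p (Al p v m)) := fun s t z hz =>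
    mulD (X s) 1 t (isWeightedHomogeneous_X ℂ (w1 σ) s) z hz
  have hle : ∀ t, DN γ p (Al p v m) t ≤ Al p v (m - 1) (t + α) := by
    rintro t _ ⟨n, hn, rfl⟩
    refine sum_mem fun s _ => ?_
    have := (hD _ _ _ (hn s)).1 s
    rwa [sub_add_cancel] at this
  have hnull := hNULL σ (Λ × Λ × ι × ι) p
    (fun q => v q.1 q.2.2.1 * v q.2.1 q.2.2.2 - v q.1 q.2.2.2 * v q.2.1 q.2.2.1)
    (fun q => γ q.2.2.1 + γ q.2.2.2 + 2 * α) hp.hom
    (fun q => (hom_congr (((hv _).1 _).mul ((hv _).1 _)) (by ring)).sub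
      (hom_congr (((hv _).1 _).mul ((hv _).1 _)) (by ring)))
    fun y hy hy' => by
      obtain ⟨l, k, a, b, h⟩ := hgen y hy hy'
      exact ⟨(l, k, a, b), h⟩
  obtain ⟨s₀, hs₀⟩ := eventually_atTop.mp hnull
  have hw : ∀ l c, aeval (xb ι p) (T.ω i j) * C (Ideal.Quotient.mk p (v l c)) -
      aeval (xb ι p) (T.ω i c) * C (Ideal.Quotient.mk p (v l j)) +
      aeval (xb ι p) (T.ω j c) * C (Ideal.Quotient.mk p (v l i)) = 0 := fun l c => by
    have := congrArg (C : _ →+* AP ι p) (Ideal.Quotient.eq_zero_iff_mem.mpr ((hv l).2 i j c))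
    simpa only [aeval_xb, map_mul, map_sub, map_add, map_zero] using this
  have single : ∀ (a : ι) (t : ℤ), ∀ z ∈ Al p v m (t - γ a),
      pderiv a z ∈ DN γ p (Al p v m) t := fun a t z hz => by
    refine ⟨Pi.single a z, fun s => ?_, ?_⟩
    · by_cases e : s = a
      · subst e; rwa [Pi.single_eq_same]
      · rw [Pi.single_eq_of_ne e]; exact zero_mem _
    · rw [Finset.sum_eq_single a, Pi.single_eq_same]
      · intro b _ hb
        rw [Pi.single_eq_of_ne hb, map_zero]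
      · simp
  have nil : ∀ s t, ∀ f ∈ Al p v (m - 1) (t + α), ∃ k : ℕ,
      xb ι p s ^ k • f ∈ DN γ p (Al p v m) (t + k) := by
    intro s t f hf
    obtain ⟨u, hu, hu'⟩ := hs₀ s₀.toNat (Int.self_le_toNat _) (X s ^ s₀.toNat)
      (hom_congr ((isWeightedHomogeneous_X ℂ (w1 σ) s).pow s₀.toNat) (by simp))
    obtain ⟨-, h2, h3⟩ := hD _ _ f hf
    have m1 : ∀ l k a b, pderiv a (C (Ideal.Quotient.mk p (v k b)) * (lf p (v l) * f)) ∈
        DN γ p (Al p v m) (t + (γ a + γ b + 2 * α)) := fun l k a b => by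
      refine single a _ _ ?_
      have := hC _ _ _ _ ((hv k).1 b) _ (hlf _ _ l _ hf)
      rwa [sub_add_cancel,
        show t + α + (γ b + α) = t + (γ a + γ b + 2 * α) - γ a by ring] at this
    have one : ∀ l k a b, C (Ideal.Quotient.mk p (v l a * v k b - v l b * v k a)) * f ∈
        DN γ p (Al p v m) (t + (γ a + γ b + 2 * α)) := fun l k a b => by
      have e := key p (v l) (v k) f a b _ _ _ _ rfl rfl rfl rfl fun c => by
        have := det3 (W := fun a b => aeval (xb ι p) (T.ω a b)) h0 (hw l) (hw k) (h2 i j) a b c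
        linear_combination this
      have e2 : ∑ c, X c * pderiv c f + f + f = ((m : ℂ) + 1) • f := by
        rw [h3, show (m : ℂ) + 1 = ((m - 1 : ℤ) : ℂ) + 1 + 1 by push_cast; ring, add_smul, add_smul,
          one_smul]
      have m2 : ∀ l k, pderiv b (C (Ideal.Quotient.mk p (v k a)) * (lf p (v l) * f)) ∈
          DN γ p (Al p v m) (t + (γ a + γ b + 2 * α)) := fun l k =>
        add_comm (γ b) (γ a) ▸ m1 l k b a
      have mem := Submodule.smul_mem _ ((m : ℂ) + 1)⁻¹ (add_mem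
        (sub_mem' (V := AP ι p) (m1 l k a b) (m2 l k))
        (sub_mem' (V := AP ι p) (m2 k l) (m1 k l a b)))
      rw [e, e2, mul_smul_comm, smul_smul, inv_mul_cancel₀ hm1, one_smul] at mem
      rwa [map_sub, map_sub, map_mul, map_mul, map_mul, map_mul]
    refine ⟨s₀.toNat, ?_⟩
    change C (Ideal.Quotient.mk p (X s)) ^ s₀.toNat * f ∈ _
    rw [← map_pow, ← map_pow, Ideal.Quotient.eq.mpr hu', map_sum, map_sum, Finset.sum_mul]
    refine sum_mem fun q _ => ?_
    have := mulD _ _ _ (hu q) _ (one q.1 q.2.1 q.2.2.1 q.2.2.2)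
    rw [map_mul, map_mul, mul_assoc]
    convert this using 2
    ring
  filter_upwards [((hC1 σ (AP ι p) (AP ι p) (xb ι p) (fun t => Al p v (m - 1) (t + α))
    subK clK).2 (DN γ p (Al p v m)) clK' hle).2.2 nil] with t ht
  rw [hd, hd, ht]

end Pool.Agent.P.MP_b01859_ag.SD
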