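import Pool.Agent.P.MP_b01859_ag.SD.Com
import Pool.Agent.P.MP_b01859_ag.SD.TFINB
import Pool.Agent.P.MP_b01859_ag.SD.TSYG1
import Pool.Agent.P.MP_b01859_ag.SD.TSYG2
import Pool.Agent.P.MP_b01859_ag.SD.TPOSN
import Pool.Agent.P.MP_b01859_ag.SD.TPOSK
import Pool.Agent.P.MP_b01859_ag.SD.TPOSW
import Pool.Agent.P.MP_b01859_ag.SD.TEXO
import Pool.Agent.P.MP_b01859_ag.SD.TMAINB
import Pool.Agent.P.MP_b01859_ag.SD.TSMO
import Pool.Agent.P.MP_b01859_ag.SD.TSMP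
import Pool.Agent.P.MP_b01859_ag.SD.TFRG
import Pool.Agent.P.MP_b01859_ag.SD.TFRS

/-!
The steps for generated bundles.
-/

namespace Pool.Agent.P.MP_b01859_ag.SD

theorem q_FINB : S_FINB := p_FINB

theorem q_SYG1 : S_SYG1 := p_SYG1 q_C1 q_NULL q_ALGB q_ALGD q_HQ

theorem q_SYG2 : S_SYG2 := p_SYG2 q_C1 q_NULL q_ALGB q_ALGD q_HQ

theorem q_POSN : S_POSN := p_POSN q_POLY

theorem q_POSK : S_POSK := p_POSK q_C2 q_ALGB

theorem q_POSW : S_POSW := p_POSW q_HQ q_ALGB q_C1 q_POLY q_SYM0 q_SYG1 q_SYG2 q_POSK q_POSN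

theorem q_EXO : S_EXO := p_EXO q_LEIB

theorem q_MAINB : S_MAINB := p_MAINB q_BOG q_C2P q_TOW q_EXO q_POSW q_PT q_HQ q_FINB

theorem q_SMO : S_SMO := p_SMO q_C2P q_SEQA q_SEQN q_PRIME q_LEIB q_HQ q_BN

theorem q_SMP : S_SMP := p_SMP

theorem q_FRG : S_FRG := p_FRG

theorem q_FRS : S_FRS := p_FRS q_TAY

end Pool.Agent.P.MP_b01859_ag.SD
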