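import Pool.Agent.P.MP_b01859_ag.SD.Iface

/-! Step COND. -/

set_option autoImplicit false
set_option linter.unusedSectionVars false

namespace Pool.Agent.P.MP_b01859_ag.SD

open MvPolynomial Filter

namespace CONDx

variable {σ : Type} [Fintype σ] [DecidableEq σ]

theorem wt (e : σ →₀ ℕ) : Finsupp.weight (w1 σ) e = ((∑ k ∈ e.support, e k : ℕ) : ℤ) := by
  rw [Finsupp.weight_apply, Finsupp.sum]
  simp

theorem fin (n : ℕ) (h : hd (SS σ) = bn n) (t : ℤ) : Module.Finite ℂ (SS σ t) := by
  by_cases ht : 0 ≤ t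
  · apply Module.finite_of_finrank_pos
    have h1 : hd (SS σ) t = bn n t := by rw [h]
    simp only [hd, bn, if_pos ht] at h1
    have h2 : 0 < (t.toNat + n).choose n := Nat.choose_pos (by omega)
    omega
  · have : SS σ t = ⊥ := by
      rw [eq_bot_iff]
      intro f hf
      rw [Submodule.mem_bot]
      ext e
      by_contra he
      have h1 := hf he
      rw [wt] at h1
      omega
    rw [this]
    infer_instance

theorem mono_mem (i : σ) (e : σ →₀ ℕ) (he : e i = 0) (c : ℂ) :
    monomial e c ∈ my (Pi.single i (1 : ℂ) : σ → ℂ) ^ (∑ k ∈ e.support, e k) := by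
  rw [monomial_eq, Finsupp.prod, ← Finset.prod_pow_eq_pow_sum]
  apply Ideal.mul_mem_left
  apply Ideal.prod_mem_prod
  intro k hk
  apply Ideal.pow_mem_pow
  have hki : k ≠ i := by
    rintro rfl
    exact (Finsupp.mem_support_iff.1 hk) he
  simp [RingHom.mem_ker, hki]

theorem step (i : σ) (v : ℕ) (d : ℤ) (hd' : (v : ℤ) ≤ d) :
    (SS σ d).map (Ideal.Quotient.mkₐ ℂ (my (Pi.single i (1 : ℂ) : σ → ℂ) ^ v)).toLinearMap ≤
      ((SS σ (d - 1)).map
        (Ideal.Quotient.mkₐ ℂ (my (Pi.single i (1 : ℂ) : σ → ℂ) ^ v)).toLinearMap).map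
        (LinearMap.mulLeft ℂ
          (Ideal.Quotient.mkₐ ℂ (my (Pi.single i (1 : ℂ) : σ → ℂ) ^ v) (X i))) := by
  rintro _ ⟨f, hf, rfl⟩
  rw [f.as_sum, map_sum]
  apply Submodule.sum_mem
  intro e he
  have h1 : Finsupp.weight (w1 σ) e = d := hf (mem_support_iff.1 he)
  by_cases hi : e i = 0
  · have h2 := mono_mem i e hi (coeff e f)
    rw [wt] at h1
    have h3 : v ≤ ∑ k ∈ e.support, e k := by omega
    have h4 := Ideal.pow_le_pow_right h3 h2
    have h5 : (Ideal.Quotient.mkₐ ℂ (my (Pi.single i (1 : ℂ) : σ → ℂ) ^ v)).toLinearMap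
        (monomial e (coeff e f)) = 0 := Ideal.Quotient.eq_zero_iff_mem.2 h4
    rw [h5]
    exact zero_mem _
  · have h2 : e = Finsupp.single i 1 + (e - Finsupp.single i 1) := by
      rw [add_comm, tsub_add_cancel_of_le]
      exact Finsupp.single_le_iff.2 (Nat.one_le_iff_ne_zero.2 hi)
    refine ⟨_, ⟨monomial (e - Finsupp.single i 1) (coeff e f), ?_, rfl⟩, ?_⟩
    · apply isWeightedHomogeneous_monomial
      rw [h2, map_add, Finsupp.weight_single] at h1
      have h6 : w1 σ i = 1 := rfl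
      simp only [one_smul, h6] at h1
      omega
    · have h3 : (monomial e (coeff e f) : Pol σ) =
          X i * monomial (e - Finsupp.single i 1) (coeff e f) := by
        rw [X, monomial_mul, one_mul, ← h2]
      rw [h3]
      simp

end CONDx

theorem p_COND (hBN : S_BN) :
    S_COND := by
  intro σ _ _ n hn i v d
  obtain ⟨-, -, -, -, hmono, -, hS⟩ := hBN
  have h := (hS σ n hn).1
  have hf := CONDx.fin n h
  have h0 : ∀ t, hq (my (Pi.single i (1 : ℂ) : σ → ℂ) ^ v) t ≤ bn n t := by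
    intro t
    rw [← h]
    simp only [hq, hd]
    have := hf t
    exact_mod_cast Submodule.finrank_map_le _ _
  have h1 : ∀ t : ℤ, (v : ℤ) ≤ t → hq (my (Pi.single i (1 : ℂ) : σ → ℂ) ^ v) t ≤
      hq (my (Pi.single i (1 : ℂ) : σ → ℂ) ^ v) (t - 1) := by
    intro t ht
    simp only [hq, hd]
    have := hf (t - 1)
    exact_mod_cast (Submodule.finrank_mono (CONDx.step i v t ht)).trans
      (Submodule.finrank_map_le _ _)
  by_cases hd' : d ≤ v - 1
  · exact (h0 d).trans (hmono n hd')
  · have h2 : ∀ k : ℕ, hq (my (Pi.single i (1 : ℂ) : σ → ℂ) ^ v) (v - 1 + k) ≤ bn n (v - 1) := by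
      intro k
      induction k with
      | zero => simpa using h0 (v - 1)
      | succ k ih =>
        refine (h1 _ (by push_cast; omega)).trans ?_
        have e : ((v : ℤ) - 1 + ((k + 1 : ℕ) : ℤ)) - 1 = v - 1 + k := by push_cast; ring
        rw [e]
        exact ih
    have e : d = v - 1 + ((d - (v - 1)).toNat : ℕ) := by omega
    rw [e]
    exact h2 _

end Pool.Agent.P.MP_b01859_ag.SD
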