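import Pool.Agent.P.MP_b01859_ag.SD.Iface

/-! Step D2E. -/

set_option autoImplicit false
set_option linter.unusedSectionVars false

namespace Pool.Agent.P.MP_b01859_ag.SD

open MvPolynomial Filter

namespace D2Ex

variable {σ ι : Type}

/-- The embedding by the mean of the two sets of variables. -/
noncomputable def ze (σ : Type) : Pol σ →ₐ[ℂ] Pol (σ ⊕ σ) :=
  aeval fun i => C (2⁻¹ : ℂ) * (X (Sum.inl i) + X (Sum.inr i))

/-- Restriction to the diagonal. -/
noncomputable def de (σ : Type) : Pol (σ ⊕ σ) →ₐ[ℂ] Pol σ := aeval (Sum.elim X X)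

lemma de_ze (f : Pol σ) : de σ (ze σ f) = f := by
  have : (de σ).comp (ze σ) = AlgHom.id ℂ _ := by
    refine MvPolynomial.algHom_ext fun i => ?_
    simp only [AlgHom.comp_apply, ze, de, aeval_X, map_mul, map_add, Sum.elim_inl, Sum.elim_inr,
      AlgHom.id_apply, aeval_C, algebraMap_eq]
    rw [← two_mul, ← mul_assoc, show (2 : Pol σ) = C (2 : ℂ) from rfl, ← map_mul]
    simp
  exact AlgHom.congr_fun this f

lemma ze_inj : Function.Injective (ze σ) := Function.LeftInverse.injective de_ze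

lemma de_inl (f : Pol σ) : de σ (rename Sum.inl f) = f := by
  have : (de σ).comp (rename Sum.inl) = AlgHom.id ℂ _ :=
    MvPolynomial.algHom_ext fun i => by simp [de]
  exact AlgHom.congr_fun this f

lemma de_inr (f : Pol σ) : de σ (rename Sum.inr f) = f := by
  have : (de σ).comp (rename Sum.inr) = AlgHom.id ℂ _ :=
    MvPolynomial.algHom_ext fun i => by simp [de]
  exact AlgHom.congr_fun this f

lemma swap_ze (f : Pol σ) : rename Sum.swap (ze σ f) = ze σ f := by
  have : (rename (Sum.swap : σ ⊕ σ → σ ⊕ σ)).comp (ze σ) = ze σ :=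
    MvPolynomial.algHom_ext fun i => by simp [ze, add_comm]
  exact AlgHom.congr_fun this f

lemma zJ_univ [Fintype σ] [DecidableEq σ] (f : Pol (σ ⊕ σ)) :
    aeval (zJ (Finset.univ : Finset σ)) f = ze σ (de σ f) := by
  have : (aeval (zJ (Finset.univ : Finset σ)) : Pol (σ ⊕ σ) →ₐ[ℂ] Pol (σ ⊕ σ)) =
      (ze σ).comp (de σ) :=
    MvPolynomial.algHom_ext fun u => by
      cases u <;> simp [zJ, ze, de]
  exact AlgHom.congr_fun this f

lemma de_hom {f : Pol (σ ⊕ σ)} {d : ℤ} (h : Hom f d) : Hom (de σ f) d :=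
  algHom_hom _ (fun u => by
    cases u <;> simp only [de, aeval_X, Sum.elim_inl, Sum.elim_inr] <;>
      exact isWeightedHomogeneous_X ℂ _ _) h

lemma inl_hom {f : Pol σ} {d : ℤ} (h : Hom f d) :
    Hom (rename (Sum.inl : σ → σ ⊕ σ) f) d :=
  algHom_hom _ (fun i => by rw [rename_X]; exact isWeightedHomogeneous_X ℂ _ _) h

/-- The embedding of the forms. -/
noncomputable def Ph (T : VB σ ι) : Pol σ →ₗ[ℂ] (ι × ι → Pol (σ ⊕ σ)) where
  toFun f a := ze σ (f * T.ω a.1 a.2)
  map_add' f g := by ext1 a; simp [add_mul]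
  map_smul' c f := by ext1 a; simp

lemma Ph_inj [Finite σ] [Nontrivial σ] (T : VB σ ι) : Function.Injective (Ph T) := by
  intro f g h
  obtain ⟨i, j, hij⟩ := T.exists_ne
  have := congrFun h (i, j)
  exact mul_right_cancel₀ hij (ze_inj this)

end D2Ex

open D2Ex in
theorem p_D2E (hNULL : S_NULL) (hBN : S_BN) :
    S_D2E := by
  intro σ ι _ _ _ T γ g n hc hn hG
  have : Nontrivial σ := Fintype.one_lt_card_iff_nontrivial.mp (by omega)
  have h0 := hNULL σ (ι × ι) ⊥ (fun s => T.ω s.1 s.2) (fun s => γ s.1 + γ s.2 - g)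
    (fun f hf d => by rw [Ideal.mem_bot.mp hf, map_zero]; exact zero_mem _)
    (fun s => hG s.1 s.2) (fun y hy _ => by
      obtain ⟨i, j, h⟩ := T.LF_eval hy
      exact ⟨(i, j), h⟩)
  have h1 := (tendsto_atTop_add_const_right atTop (-g) tendsto_id).eventually h0
  filter_upwards [h1] with t ht
  have key : U2e T γ Finset.univ (-1) t = (SS σ (t - g)).map (Ph T) := by
    apply le_antisymm
    · rintro ψ ⟨⟨m, hm, hψ⟩, hsw⟩
      have hsw' : sw σ ι ψ = (-1 : ℂ) • ψ := Module.End.mem_eigenspace_iff.mp hsw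
      set ω' : ι → ι → Pol σ := fun a b => ∑ s : ι × ι, T.ω s.1 a * T.ω s.2 b * de σ (m s)
        with hω'
      have e : ∀ a b, ψ (a, b) = ze σ (ω' a b) := fun a b => by
        rw [hψ, zJ_univ]
        simp only [map_sum, map_mul, de_inl, de_inr, hω']
      have hsk : ∀ i j, ω' j i = - ω' i j := fun i j => by
        have := congrFun hsw' (i, j)
        simp only [sw, LinearMap.coe_mk, AddHom.coe_mk, Prod.swap_prod_mk, Pi.smul_apply, e,
          swap_ze, neg_smul, one_smul] at this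
        apply ze_inj
        rw [this, map_neg]
      have hN : ∀ i, Wd T.ω (ω' i) := fun a i j k => by
        simp only [hω', Finset.mul_sum, ← Finset.sum_sub_distrib, ← Finset.sum_add_distrib]
        refine Finset.sum_eq_zero fun s _ => ?_
        linear_combination T.ω s.1 a * de σ (m s) * T.pl s.2 i j k
      obtain ⟨Δ, hΔ⟩ := VB.alt_prop hsk hN
      refine ⟨Δ, ?_, ?_⟩
      · obtain ⟨i, j, hij⟩ := T.exists_ne
        have hh : Hom (ω' i j) (γ i + γ j - g + (t - g)) :=
          IsWeightedHomogeneous.sum _ _ _ fun s _ =>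
            hom_congr (((hG s.1 i).mul (hG s.2 j)).mul (de_hom (hm s))) (by ring)
        rw [hΔ, mul_comm] at hh
        exact hom_of_mul (hG i j) hij hh
      · ext1 ⟨a, b⟩
        rw [e, hΔ]; rfl
    · rintro _ ⟨Δ, hΔ, rfl⟩
      obtain ⟨u, hu, hs⟩ := ht Δ (hom_congr hΔ (by simp [sub_eq_add_neg]))
      have hs' : Δ = ∑ l : ι × ι, u l * T.ω l.1 l.2 := sub_eq_zero.mp (Ideal.mem_bot.mp hs)
      refine ⟨⟨fun s => rename Sum.inl (u s - u s.swap), fun s => inl_hom ?_, fun a => ?_⟩, ?_⟩
      · exact (hom_congr (hu s) (by simp; ring)).sub (hom_congr (hu s.swap) (by simp; ring))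
      · rw [zJ_univ]
        simp only [map_sum, map_mul, de_inl, de_inr]
        change ze σ (Δ * T.ω a.1 a.2) = _
        simp only [← map_mul, ← map_sum]
        congr 1
        simp only [mul_sub, Finset.sum_sub_distrib]
        rw [← Equiv.sum_comp (Equiv.prodComm ι ι)
          (fun s : ι × ι => T.ω s.1 a.1 * T.ω s.2 a.2 * u s.swap), hs', Finset.sum_mul,
          ← Finset.sum_sub_distrib]
        refine Finset.sum_congr rfl fun s _ => ?_
        simp only [Equiv.prodComm_apply, Prod.fst_swap, Prod.snd_swap, Prod.swap_swap]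
        linear_combination u s * T.pl s.1 s.2 a.1 a.2
      · refine Module.End.mem_eigenspace_iff.mpr ?_
        ext1 ⟨a, b⟩
        change rename Sum.swap (ze σ (Δ * T.ω b a)) = (-1 : ℂ) • ze σ (Δ * T.ω a b)
        rw [swap_ze, T.skew a b]
        simp
  have h2 := congrFun (hBN.2.2.2.2.2.2 σ n hc).1 (t - g)
  rw [← h2]
  change ((Module.finrank ℂ (U2e T γ Finset.univ (-1) t) : ℕ) : ℤ) =
    (Module.finrank ℂ (SS σ (t - g)) : ℕ)
  rw [key, ← LinearEquiv.finrank_eq (Submodule.equivMapOfInjective _ (Ph_inj T) (SS σ (t - g)))]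

end Pool.Agent.P.MP_b01859_ag.SD
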