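import Pool.Agent.P.MP_b01859_ag.SD.Iface

/-! Step FRL. -/

set_option autoImplicit false
set_option linter.unusedSectionVars false

namespace Pool.Agent.P.MP_b01859_ag.SD

open MvPolynomial Filter

namespace FRLx

lemma exists_lin {R ι M P : Type} [CommRing R] [Fintype ι] [AddCommGroup M] [Module R M]
    [AddCommGroup P] [Module R P] {m : ι → M} (hm : Submodule.span R (Set.range m) = ⊤)
    (r : ι → P) (h : ∀ f : ι → R, ∑ j, f j • m j = 0 → ∑ j, f j • r j = 0) :
    ∃ L : M →ₗ[R] P, ∀ f : ι → R, L (∑ j, f j • m j) = ∑ j, f j • r j := by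
  have hs : Function.Surjective (Fintype.linearCombination R m) := by
    rw [← LinearMap.range_eq_top, Fintype.range_linearCombination, hm]
  have hk : LinearMap.ker (Fintype.linearCombination R m) ≤
      LinearMap.ker (Fintype.linearCombination R r) := fun f hf => by
    rw [LinearMap.mem_ker, Fintype.linearCombination_apply] at hf ⊢
    exact h f hf
  refine ⟨(Submodule.liftQ _ _ hk) ∘ₗ
    (LinearMap.quotKerEquivOfSurjective _ hs).symm.toLinearMap, fun f => ?_⟩
  have h1 : (LinearMap.quotKerEquivOfSurjective _ hs).symm (∑ j, f j • m j) =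
      Submodule.Quotient.mk f := by
    rw [LinearEquiv.symm_apply_eq, LinearMap.quotKerEquivOfSurjective_apply_mk,
      Fintype.linearCombination_apply]
  rw [LinearMap.comp_apply, LinearEquiv.coe_coe, h1, Submodule.liftQ_apply,
    Fintype.linearCombination_apply]

lemma smul_mem {σ M : Type} [AddCommGroup M] [Module ℂ M] [Module (Pol σ) M]
    [IsScalarTower ℂ (Pol σ) M] {N : ℤ → Submodule ℂ M}
    (hX : ∀ i a m, m ∈ N a → (X i : Pol σ) • m ∈ N (a + 1)) {f : Pol σ} {d a : ℤ}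
    (hf : IsWeightedHomogeneous (fun _ => (1 : ℤ)) f d) {m : M} (hm : m ∈ N a) :
    f • m ∈ N (a + d) := by
  rw [as_sum f, Finset.sum_smul]
  refine Submodule.sum_mem _ fun e he => ?_
  rw [← hf (MvPolynomial.mem_support_iff.mp he)]
  exact mono_mem (w := fun _ => (1 : ℤ)) hX _ _ _ _ hm

lemma pow_kill {σ M : Type} [AddCommGroup M] [Module (Pol σ) M] (h : LF2 σ M) {x : M}
    {t : Pol σ} (ht : t ≠ 0) (hx : t • x = 0) (i : σ) : ∃ k : ℕ, (X i : Pol σ) ^ k • x = 0 := by
  have h1 : (X i : Pol σ) ∈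
      Ideal.radical (LinearMap.ker (LinearMap.toSpanSingleton (Pol σ) M x)) := by
    rw [Ideal.radical_eq_sInf, Submodule.mem_sInf]
    rintro p ⟨hle, hp⟩
    by_contra hX
    obtain ⟨h1, h2⟩ := h ⟨p, hp⟩ ⟨i, hX⟩
    obtain ⟨u₁, u₂, hu, hu'⟩ := local_basis p h2
    obtain ⟨u, c₁, c₂, hup, hc⟩ := hu x
    obtain ⟨a1, a2⟩ := hu' (t * c₁) (t * c₂) (by
      rw [mul_smul, mul_smul, ← smul_add, ← hc, smul_comm, hx, smul_zero])
    refine hup (hle ?_)
    rw [LinearMap.mem_ker, LinearMap.toSpanSingleton_apply, hc,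
      (mul_eq_zero.mp a1).resolve_left ht, (mul_eq_zero.mp a2).resolve_left ht, zero_smul,
      zero_smul, add_zero]
  obtain ⟨k, hk⟩ := h1
  exact ⟨k, by simpa using hk⟩

end FRLx

theorem p_FRL :
    S_FRL := by
  intro σ M _ _ _ _ _ _ ℳ hcard hint hgr hfree
  classical
  have hind := hint.submodule_iSupIndep
  have : Nontrivial σ := Fintype.one_lt_card_iff_nontrivial.mp (by omega)
  obtain ⟨ι, _, m, γ, hsp, hm⟩ := exists_gens (σ := σ) ℳ hint.submodule_iSup_eq_top
  obtain ⟨T, hw, rfl, h1, h2, hT⟩ := module_plu (fun _ _ h => h (AddMonoidHom.id ℤ))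
    (fun _ => (1 : ℤ)) (Classical.arbitrary σ) m hsp γ
    (hgr_of hind (w' := fun _ => (1 : ℤ)) hgr (AddMonoidHom.id ℤ) Function.injective_id
      (AddMonoidHom.id ℤ) (fun _ => rfl) hm (fun _ => rfl)) hfree
  let V : VB σ ι := ⟨T.ω, T.skew, T.pl, T.LF⟩
  have hG : Gr (fun _ => 1) T.γ T.g₀ V.ω := fun i j => hw ▸ T.hom i j
  have hval : ∀ (f : ι → Pol σ) (l : ι), (∑ j, f j • V.row j : V.N).1 l = ∑ j, f j * T.ω j l := by
    intro f l
    rw [Submodule.coe_sum, Finset.sum_apply]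
    rfl
  obtain ⟨L, hL⟩ := FRLx.exists_lin hsp V.row fun f hf => VB.N_ext fun l => by
    rw [hval, h1 f hf l]; rfl
  refine ⟨ι, inferInstance, V, T.γ, T.g₀, L, ⟨hG, fun t φ => ⟨?_, ?_⟩, fun t x hx => ?_,
    fun x hx i => ?_, fun s => ⟨∑ j, (Pi.single s 1 : ι → Pol σ) j • m j, ?_⟩⟩, fun hns => ?_⟩
  · rintro ⟨n, hn, h⟩
    refine ⟨∑ j, n j • m j, Submodule.sum_mem _ fun j _ => ?_, funext fun a => ?_⟩
    · have := FRLx.smul_mem hgr (hn j) (hm j)
      rwa [add_sub_cancel] at this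
    · rw [hL, hval, h]
      exact Finset.sum_congr rfl fun j _ => by rw [aeval_X_left_apply, mul_comm]
  · rintro ⟨x, hx, rfl⟩
    obtain ⟨f, hf, rfl⟩ := eq_sum_comp hind hgr hsp hm hx
    refine ⟨f, hf, fun a => ?_⟩
    rw [hL, hval]
    exact Finset.sum_congr rfl fun j _ => by rw [aeval_X_left_apply, mul_comm]
  · obtain ⟨f, hf, rfl⟩ := eq_sum_comp hind hgr hsp hm hx
    intro l
    rw [hL, hval]
    exact IsWeightedHomogeneous.sum _ _ _ fun j _ => hom_congr ((hf j).mul (hG j l)) (by ring)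
  · obtain ⟨f, rfl⟩ := (Submodule.mem_span_range_iff_exists_fun (Pol σ)).mp
      (hsp ▸ Submodule.mem_top : x ∈ Submodule.span (Pol σ) (Set.range m))
    obtain ⟨a, b, hab⟩ := V.exists_ne
    have hab' : T.ω a b ≠ 0 := hab
    choose t ht hc using h2 a b
    have h3 : ∀ l, ∑ j, f j * T.ω l j = 0 := fun l => by
      have h4 := hval f l
      rw [← hL, hx] at h4
      have h5 : ∑ j, f j * T.ω l j = - ∑ j, f j * T.ω j l := by
        rw [← Finset.sum_neg_distrib]
        exact Finset.sum_congr rfl fun j _ => by rw [T.skew j l, mul_neg]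
      rw [h5, ← h4]
      simp
    refine FRLx.pow_kill hfree (t := (∏ k, t k) * T.ω a b)
      (mul_ne_zero (Finset.prod_ne_zero_iff.mpr fun k _ => ht k) hab') ?_ i
    have h6 : ∀ k, ((∏ k, t k) * T.ω a b) • f k • m k =
        ((∏ k, t k) * (f k * T.ω a k)) • m b - ((∏ k, t k) * (f k * T.ω b k)) • m a := by
      intro k
      obtain ⟨r, hr⟩ := Finset.dvd_prod_of_mem t (Finset.mem_univ k)
      rw [hr]
      linear_combination (norm := module) (r * f k) • hc k
    rw [Finset.smul_sum]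
    simp only [h6, Finset.sum_sub_distrib, ← Finset.sum_smul, ← Finset.mul_sum, h3, mul_zero,
      zero_smul, sub_zero]
  · rw [hL]
    simp [Pi.single_apply]
  · obtain ⟨n₁, n₂, α, β, h3⟩ := VB.split_of_sp hG hns
    obtain ⟨α, β, φ, hφ, hb⟩ := hT ⟨n₁, n₂, α, β, hw ▸ h3⟩
    refine ⟨α, β, φ, fun k x hx => ?_, hb⟩
    obtain ⟨f, hf, rfl⟩ := eq_sum_comp hind hgr hsp hm hx
    simp only [map_sum, map_smul, Prod.fst_sum, Prod.snd_sum, Prod.smul_fst, Prod.smul_snd,
      smul_eq_mul]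
    exact ⟨IsWeightedHomogeneous.sum _ _ _ fun j _ => hom_congr ((hf j).mul (hφ j).1) (by ring),
      IsWeightedHomogeneous.sum _ _ _ fun j _ => hom_congr ((hf j).mul (hφ j).2) (by ring)⟩

end Pool.Agent.P.MP_b01859_ag.SD
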