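import Pool.Agent.P.MP_b01859_ag.SD.Iface

/-! Step SMP. -/

set_option autoImplicit false
set_option linter.unusedSectionVars false

namespace Pool.Agent.P.MP_b01859_ag.SD

open MvPolynomial Filter

namespace SMPx

theorem zero {σ : Type} [Fintype σ] {x y : σ} (hxy : x ≠ y) {π : Pol σ} (hp : Prime π) :
    ∃ z : σ → ℂ, z ≠ 0 ∧ eval z π = 0 := by
  by_contra! h
  have h1 : ∀ t, π ∣ X t := fun t => by
    rw [← Ideal.mem_span_singleton,
      ← ((Ideal.span_singleton_prime hp.ne_zero).mpr hp).radical,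
      ← vanishingIdeal_zeroLocus_eq_radical (K := ℂ)]
    intro z hz
    have : z = 0 := by_contra fun e => h z e (hz π (Ideal.mem_span_singleton_self π))
    simp [this]
  exact not_X_dvd_X hxy ((hp.irreducible.associated_of_dvd (X_prime (i := x)).irreducible
    (h1 x)).symm.dvd.trans (h1 y))

end SMPx

theorem p_SMP :
    S_SMP := by
  intro σ ι _ _ s d h2 _ hs c hc
  by_contra hu
  obtain ⟨x, y, hxy⟩ := Fintype.exists_pair_of_one_lt_card (α := σ) h2
  obtain ⟨π, hp, hπ⟩ : ∃ π : Pol σ, Prime π ∧ π ∣ c := by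
    by_cases hc0 : c = 0
    · exact ⟨X x, X_prime, hc0 ▸ dvd_zero _⟩
    · obtain ⟨π, hπ, hπc⟩ := WfDvdMonoid.exists_irreducible_factor hu hc0
      exact ⟨π, hπ.prime, hπc⟩
  obtain ⟨z, hz, h0⟩ := SMPx.zero hxy hp
  choose t ht using fun a => hπ.trans (hc a)
  obtain ⟨i, k, a, b, h⟩ := hs z hz fun a => by rw [ht, map_mul, h0, zero_mul]
  refine h ?_
  simp only [ht, Derivation.leibniz, smul_eq_mul, map_sub, map_mul, map_add, h0]
  ring

end Pool.Agent.P.MP_b01859_ag.SD
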