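import Pool.Agent.P.MP_b01859_ag.SD.Iface

/-! Step SYP2. -/

set_option autoImplicit false
set_option linter.unusedSectionVars false

namespace Pool.Agent.P.MP_b01859_ag.SD

open MvPolynomial Filter

namespace SYP2x

lemma rk_le {A W Z : Type} [AddCommGroup A] [Module ℂ A] [AddCommGroup W] [Module ℂ W]
    [AddCommGroup Z] [Module ℂ Z] (S : Submodule ℂ A) [FiniteDimensional ℂ S] (f : A →ₗ[ℂ] W)
    (g : A →ₗ[ℂ] Z) (h : ∀ x ∈ S, f x = 0 → g x = 0) :
    Module.finrank ℂ (S.map g) ≤ Module.finrank ℂ (S.map f) := by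
  have h1 := LinearMap.finrank_range_add_finrank_ker (f ∘ₗ S.subtype)
  have h2 := LinearMap.finrank_range_add_finrank_ker (g ∘ₗ S.subtype)
  rw [LinearMap.range_comp, Submodule.range_subtype] at h1 h2
  have h3 : Module.finrank ℂ (LinearMap.ker (f ∘ₗ S.subtype)) ≤
      Module.finrank ℂ (LinearMap.ker (g ∘ₗ S.subtype)) :=
    Submodule.finrank_mono fun x hx => h x.1 x.2 hx
  omega

lemma rk_quot {A : Type} [AddCommGroup A] [Module ℂ A] (K K' : Submodule ℂ A)
    (_hK : FiniteDimensional ℂ K) (h : K' ≤ K) :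
    Module.finrank ℂ (K.map K'.mkQ) + Module.finrank ℂ K' = Module.finrank ℂ K := by
  have h1 := LinearMap.finrank_range_add_finrank_ker (K'.mkQ ∘ₗ K.subtype)
  rw [LinearMap.range_comp, Submodule.range_subtype, LinearMap.ker_comp, Submodule.ker_mkQ,
    (Submodule.comapSubtypeEquivOfLe h).finrank_eq] at h1
  exact h1

lemma rk_sup {A E : Type} [AddCommGroup A] [Module ℂ A] (S : Finset E) (K : E → Submodule ℂ A)
    [∀ e, FiniteDimensional ℂ (K e)] (c : ℕ) (h : ∀ e, Module.finrank ℂ (K e) ≤ c) :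
    Module.finrank ℂ (S.sup K : Submodule ℂ A) ≤ S.card * c := by
  classical
  induction S using Finset.induction_on with
  | empty => simp
  | insert e S he ih =>
    rw [Finset.sup_insert, Finset.card_insert_of_notMem he]
    have := Submodule.finrank_add_le_finrank_add_finrank (K e) (S.sup K)
    have := h e
    nlinarith

lemma count {A B W E : Type} [AddCommGroup A] [Module ℂ A] [AddCommGroup B] [Module ℂ B]
    [AddCommGroup W] [Module ℂ W] [Fintype E] (K D : Submodule ℂ A) (hK : FiniteDimensional ℂ K)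
    (hle : D ≤ K) (S : Submodule ℂ B) [FiniteDimensional ℂ S] (π : B →ₗ[ℂ] W)
    (φ : E → B →ₗ[ℂ] A) (U : Set A) (hU : K = Submodule.span ℂ U)
    (h1 : ∀ z ∈ U, ∃ e, ∃ f ∈ S, z = φ e f) (h2 : ∀ e, ∀ f ∈ S, π f = 0 → φ e f ∈ D) :
    Module.finrank ℂ D ≤ Module.finrank ℂ K ∧
      Module.finrank ℂ K ≤ Module.finrank ℂ D + Fintype.card E * Module.finrank ℂ (S.map π) := by
  have e1 := rk_quot K D hK hle
  have e2 : K.map D.mkQ ≤ Finset.univ.sup fun e => S.map (D.mkQ ∘ₗ φ e) := by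
    rw [hU, Submodule.map_span, Submodule.span_le]
    rintro _ ⟨z, hz, rfl⟩
    obtain ⟨e, f, hf, rfl⟩ := h1 z hz
    exact (Finset.le_sup (f := fun e => S.map (D.mkQ ∘ₗ φ e)) (Finset.mem_univ e)) ⟨f, hf, rfl⟩
  have e3 := rk_sup Finset.univ (fun e => S.map (D.mkQ ∘ₗ φ e)) (Module.finrank ℂ (S.map π))
    fun e => rk_le _ _ _ fun f hf h0 => (Submodule.Quotient.mk_eq_zero D).2 (h2 e f hf h0)
  have e4 := (Submodule.finrank_mono e2).trans e3
  rw [Finset.card_univ] at e4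
  omega

variable {σ ι Λ : Type} [Fintype σ] [Fintype ι] [Fintype Λ] {p : Ideal (Pol σ)}
  {v : Λ → ι → Pol σ}

lemma d_lf (u : ι → Pol σ) (a : ι) : pderiv a (lf p u) = C (Ideal.Quotient.mk p (u a)) := by
  classical
  unfold lf
  rw [map_sum, Finset.sum_eq_single a]
  · rw [pderiv_C_mul, pderiv_X_self, mul_one]
  · intro b _ hb
    rw [pderiv_C_mul, pderiv_X_of_ne hb, mul_zero]
  · simp

lemma lf_prop (h : PropW p v) (l k : Λ) (a : ι) :
    lf p (v l) * pderiv a (lf p (v k)) = C (Ideal.Quotient.mk p (v l a)) * lf p (v k) := by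
  rw [d_lf]
  unfold lf
  rw [Finset.sum_mul, Finset.mul_sum]
  refine Finset.sum_congr rfl fun b _ => ?_
  have := (Ideal.Quotient.eq.2 (h l k a b))
  rw [map_mul, map_mul] at this
  rw [← mul_assoc, ← map_mul, this, map_mul]; ring

lemma lf_prod (h : PropW p v) (l : Λ) (a : ι) {E : Type} (S : Finset E) (e : E → Λ) :
    lf p (v l) * pderiv a (∏ i ∈ S, lf p (v (e i))) =
      (S.card : AP ι p) * (C (Ideal.Quotient.mk p (v l a)) * ∏ i ∈ S, lf p (v (e i))) := by
  classical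
  induction S using Finset.induction_on with
  | empty => simp
  | insert i S hi ih =>
    rw [Finset.prod_insert hi, Finset.card_insert_of_notMem hi, pderiv_mul]
    have := lf_prop h l (e i) a
    push_cast
    linear_combination (∏ i ∈ S, lf p (v (e i))) * this + lf p (v (e i)) * ih

lemma mem_DN (hB : S_ALGB) (γ : ι → ℤ) (h : PropW p v) (k : ℕ) (t : ℤ) (l : Λ) (a : ι)
    (u : Pol σ) (hu : Hom u (t - γ a)) (e : Fin k → Λ) :
    C (Ideal.Quotient.mk p (u * v l a)) * ∏ i, lf p (v (e i)) ∈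
      DN γ p (Al p v ((k : ℤ) + 1)) t := by
  classical
  obtain ⟨-, -, -, h4, h5, -⟩ := hB σ ι Λ p v
  have h1 : C (Ideal.Quotient.mk p u) * ∏ i, lf p (v (e i)) ∈ Al p v k (t - γ a) := by
    rw [h4]
    exact Submodule.subset_span ⟨u, e, hu, rfl⟩
  have h2 := h5 _ _ l _ h1
  have hk : ((k : ℂ) + 1) ≠ 0 := Nat.cast_add_one_ne_zero k
  have h3 : ((k : ℂ) + 1) • (C (Ideal.Quotient.mk p (u * v l a)) * ∏ i, lf p (v (e i))) ∈
      DN γ p (Al p v ((k : ℤ) + 1)) t := by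
    refine ⟨Pi.single a (lf p (v l) * (C (Ideal.Quotient.mk p u) * ∏ i, lf p (v (e i)))),
      fun s => ?_, ?_⟩
    · by_cases hs : s = a
      · subst hs; rwa [Pi.single_eq_same]
      · rw [Pi.single_eq_of_ne hs]; exact zero_mem _
    · rw [Finset.sum_eq_single a]
      · rw [Pi.single_eq_same, pderiv_mul, pderiv_C_mul, d_lf, add_smul, one_smul,
          Nat.cast_smul_eq_nsmul, nsmul_eq_mul, map_mul, map_mul]
        have := lf_prod h l a Finset.univ e
        rw [Finset.card_univ, Fintype.card_fin] at this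
        linear_combination (-C (Ideal.Quotient.mk p u)) * this
      · intro b _ hb
        rw [Pi.single_eq_of_ne hb, map_zero]
      · simp
  have := Submodule.smul_mem _ ((k : ℂ) + 1)⁻¹ h3
  rwa [inv_smul_smul₀ hk] at this

lemma mem_DN' (hB : S_ALGB) (γ : ι → ℤ) (hp : HomI p) (α : ℤ) (hv : ∀ l a, Hom (v l a) (γ a + α))
    (h : PropW p v) (k : ℕ) (t : ℤ) (f : Pol σ) (hf : Hom f (t + α)) (hZ : f ∈ ZI p v)
    (e : Fin k → Λ) :
    C (Ideal.Quotient.mk p f) * ∏ i, lf p (v (e i)) ∈ DN γ p (Al p v ((k : ℤ) + 1)) t := by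
  obtain ⟨q, hq, z, hz, rfl⟩ := Submodule.mem_sup.1 hZ
  obtain ⟨c, rfl⟩ := Ideal.mem_span_range_iff_exists_fun.1 hz
  have h1 := hf.weightedHomogeneousComponent_same
  rw [map_add, map_sum] at h1
  have h2 : ∀ la : Λ × ι, weightedHomogeneousComponent (w1 σ) (t + α) (c la * v la.1 la.2) =
      weightedHomogeneousComponent (w1 σ) (t - γ la.2) (c la) * v la.1 la.2 := by
    intro la
    rw [mul_comm, mul_comm _ (v la.1 la.2), ← comp_mul (hv la.1 la.2)]
    congr 2; ring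
  rw [← h1, map_add, Ideal.Quotient.eq_zero_iff_mem.2 (hp q hq _), zero_add, map_sum, map_sum,
    Finset.sum_mul]
  refine Submodule.sum_mem _ fun la _ => ?_
  rw [h2]
  exact mem_DN hB γ h k t la.1 la.2 _ (weightedHomogeneousComponent_isWeightedHomogeneous _ _) e

end SYP2x

open SYP2x in
theorem p_SYP2 (hC1 : S_C1) (hALGB : S_ALGB) (hALGD : S_ALGD) (hGROW : S_GROW) :
    S_SYP2 := by
  intro σ ι Λ _ _ _ T γ p v α r hp hv hP hE m hm
  classical
  obtain ⟨k, rfl⟩ : ∃ k : ℕ, m = (k : ℤ) + 1 := ⟨(m - 1).toNat, by omega⟩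
  rw [add_sub_cancel_right]
  obtain ⟨h1, -, -, h4, -, -⟩ := hALGB σ ι Λ p v
  have hle : ∀ t, DN γ p (Al p v ((k : ℤ) + 1)) t ≤ Al p v k (t + α) := by
    rintro t _ ⟨n, hn, rfl⟩
    refine Submodule.sum_mem _ fun s _ => ?_
    have := (hALGD σ ι Λ T γ p v α hv _ _ _ (hn s)).1 s
    rwa [add_sub_cancel_right, sub_add_cancel] at this
  have hcl : Cl (xb ι p) (w1 σ) (DN γ p (Al p v ((k : ℤ) + 1))) := by
    rintro i t _ ⟨n, hn, rfl⟩
    refine ⟨fun s => xb ι p i • n s, fun s => ?_, ?_⟩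
    · have := (h1 _).1 i _ _ (hn s)
      rwa [sub_add_eq_add_sub] at this
    · simp only [smul_eq_mul, xb, Finset.mul_sum, pderiv_C_mul]
  have hc := ((hC1 σ (AP ι p) (AP ι p) (xb ι p) (fun t => Al p v k (t + α)) ((h1 k).2.shift α)
    ((h1 k).1.shift α)).2 _ hcl hle).1.1
  refine hGROW.2.1 _ r _ (fun t => (Fintype.card (Fin k → Λ) : ℤ) * hq (ZI p v) (t + α))
    (Eventually.of_forall fun t => ?_) hc ((hE.shift α).mul _)
  let φ : (Fin k → Λ) → Pol σ →ₗ[ℂ] AP ι p := fun e =>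
    LinearMap.mulRight ℂ (∏ i, lf p (v (e i))) ∘ₗ (aeval (xb ι p) : Pol σ →ₐ[ℂ] AP ι p).toLinearMap
  have hφ : ∀ e f, φ e f = C (Ideal.Quotient.mk p f) * ∏ i, lf p (v (e i)) := by
    intro e f
    rw [← aeval_xb]; rfl
  obtain ⟨e1, e2⟩ := count (A := AP ι p) (Al p v k (t + α)) (DN γ p (Al p v ((k : ℤ) + 1)) t)
    ((h1 k).2.fin _) (hle t) (SS σ (t + α)) (Ideal.Quotient.mkₐ ℂ (ZI p v)).toLinearMap φ _
    (h4 k (t + α)) (by
      rintro _ ⟨f, e, hf, rfl⟩
      exact ⟨e, f, hf, (hφ e f).symm⟩) fun e f hf h0 => by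
      rw [hφ]
      exact mem_DN' hALGB γ hp α (fun l => (hv l).1) hP k t f hf
        (Ideal.Quotient.eq_zero_iff_mem.1 h0) e
  have e3 := Int.ofNat_le.2 e1
  have e4 := Int.ofNat_le.2 e2
  rw [Nat.cast_add, Nat.cast_mul] at e4
  exact ⟨sub_nonneg.2 e3, sub_le_iff_le_add'.2 e4⟩

end Pool.Agent.P.MP_b01859_ag.SD
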