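import Pool.Agent.P.MP_b01859_ag.SD.Iface

/-! Step TEN. -/

set_option autoImplicit false
set_option linter.unusedSectionVars false

namespace Pool.Agent.P.MP_b01859_ag.SD

open MvPolynomial Filter

namespace TENx

open TensorProduct

variable {V W Z : Type} [AddCommGroup V] [Module ℂ V] [AddCommGroup W] [Module ℂ W]
  [AddCommGroup Z] [Module ℂ Z]

theorem eq_range (β : V →ₗ[ℂ] W →ₗ[ℂ] Z) (p : Submodule ℂ V) (q : Submodule ℂ W) :
    Submodule.map₂ β p q = LinearMap.range (lift β ∘ₗ mapIncl p q) := by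
  apply le_antisymm
  · rw [Submodule.map₂_le]
    intro m hm n hn
    exact ⟨(⟨m, hm⟩ : p) ⊗ₜ (⟨n, hn⟩ : q), by simp⟩
  · rintro _ ⟨z, rfl⟩
    induction z using TensorProduct.induction_on with
    | zero => simp
    | tmul a b => simpa using Submodule.apply_mem_map₂ β a.2 b.2
    | add a b ha hb => rw [map_add]; exact add_mem ha hb

theorem fin (β : V →ₗ[ℂ] W →ₗ[ℂ] Z) (p : Submodule ℂ V) (q : Submodule ℂ W)
    [FiniteDimensional ℂ p] [FiniteDimensional ℂ q] :
    FiniteDimensional ℂ (Submodule.map₂ β p q) := by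
  rw [eq_range]
  infer_instance

theorem rk (β : V →ₗ[ℂ] W →ₗ[ℂ] Z) (hβ : Function.Injective (lift β))
    (p : Submodule ℂ V) (q : Submodule ℂ W) :
    Module.finrank ℂ (Submodule.map₂ β p q) = Module.finrank ℂ p * Module.finrank ℂ q := by
  rw [eq_range, LinearMap.finrank_range_of_inj, Module.finrank_tensorProduct]
  rw [LinearMap.coe_comp]
  exact hβ.comp (Module.Flat.tensorProduct_mapIncl_injective_of_right p q)

theorem indep {ι : Type} (β : V →ₗ[ℂ] W →ₗ[ℂ] Z) (hβ : Function.Injective (lift β))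
    (A : ι → Submodule ℂ V) (B : ι → Submodule ℂ W) (hA : iSupIndep A) :
    iSupIndep fun i => Submodule.map₂ β (A i) (B i) := by
  have h1 : iSupIndep fun i => Submodule.map₂ (TensorProduct.mk ℂ V W) (A i) (B i) := by
    intro j
    obtain ⟨c, hc, hcc⟩ := (hA j).symm.exists_isCompl
    let π : V →ₗ[ℂ] V := (A j).projection c hcc.symm
    have e1 : Submodule.map₂ (TensorProduct.mk ℂ V W) (A j) (B j) ≤
        LinearMap.eqLocus (LinearMap.rTensor W π) LinearMap.id := by
      rw [Submodule.map₂_le]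
      intro m hm n _
      simp [LinearMap.mem_eqLocus, π, Submodule.projection_apply_of_mem_left hcc.symm hm]
    have e2 : (⨆ i, ⨆ (_ : i ≠ j), Submodule.map₂ (TensorProduct.mk ℂ V W) (A i) (B i)) ≤
        LinearMap.ker (LinearMap.rTensor W π) := by
      refine iSup₂_le fun i hi => ?_
      rw [Submodule.map₂_le]
      intro m hm n _
      have hm' : m ∈ c := hc ((le_iSup₂_of_le (f := fun i (_ : i ≠ j) => A i) i hi le_rfl) hm)
      simp [π, Submodule.projection_apply_of_mem_right hcc.symm hm']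
    rw [Submodule.disjoint_def]
    intro z hz1 hz2
    have a1 : LinearMap.rTensor W π z = z := e1 hz1
    have a2 : LinearMap.rTensor W π z = 0 := e2 hz2
    rw [← a1, a2]
  have h2 := LinearMap.iSupIndep_map (lift β) hβ h1
  have h3 : ∀ i, (Submodule.map₂ (TensorProduct.mk ℂ V W) (A i) (B i)).map (lift β) =
      Submodule.map₂ β (A i) (B i) := by
    intro i
    rw [Submodule.map_map₂]
    congr 1
  simpa only [h3] using h2

theorem rk_sup {ι : Type} (P : ι → Submodule ℂ Z) (hP : iSupIndep P)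
    (hf : ∀ i, FiniteDimensional ℂ (P i)) (s : Finset ι) :
    FiniteDimensional ℂ (⨆ i ∈ s, P i : Submodule ℂ Z) ∧
    Module.finrank ℂ (⨆ i ∈ s, P i : Submodule ℂ Z) = ∑ i ∈ s, Module.finrank ℂ (P i) := by
  classical
  induction s using Finset.induction_on with
  | empty =>
    have : (⨆ i ∈ (∅ : Finset ι), P i : Submodule ℂ Z) = ⊥ := by simp
    rw [this]
    exact ⟨inferInstance, by simp⟩
  | insert j s hj ih =>
    obtain ⟨i1, i2⟩ := ih
    have := hf j
    rw [Finset.iSup_insert, Finset.sum_insert hj, ← i2]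
    refine ⟨inferInstance, ?_⟩
    have hd : Disjoint (P j) (⨆ i ∈ s, P i) := by
      refine (hP j).mono_right (iSup₂_le fun i hi => ?_)
      exact le_iSup₂_of_le (f := fun i (_ : i ≠ j) => P i) i (fun h => hj (h ▸ hi)) le_rfl
    have := Submodule.finrank_sup_add_finrank_inf_eq (P j) (⨆ i ∈ s, P i)
    rw [hd.eq_bot, finrank_bot, add_zero] at this
    exact this

end TENx

theorem p_TEN :
    S_TEN := by
  intro V W Z _ _ _ _ _ _ β hβ A B hA fA fB ⟨b, hb⟩
  funext t
  have hz : ∀ i, i ∉ Finset.Icc b (t - b) → A i = ⊥ ∨ B (t - i) = ⊥ := by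
    intro i hi
    rw [Finset.mem_Icc, not_and_or, not_le, not_le] at hi
    rcases hi with h | h
    · exact Or.inl (hb i h).1
    · exact Or.inr (hb (t - i) (by omega)).2
  have e1 : (⨆ i, Submodule.map₂ β (A i) (B (t - i))) =
      ⨆ i ∈ Finset.Icc b (t - b), Submodule.map₂ β (A i) (B (t - i)) := by
    apply le_antisymm
    · refine iSup_le fun i => ?_
      by_cases hi : i ∈ Finset.Icc b (t - b)
      · exact le_iSup₂_of_le (f := fun i (_ : i ∈ Finset.Icc b (t - b)) =>
          Submodule.map₂ β (A i) (B (t - i))) i hi le_rfl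
      · rcases hz i hi with h | h <;> simp [h]
    · exact iSup₂_le fun i _ => le_iSup (fun i => Submodule.map₂ β (A i) (B (t - i))) i
  have e2 := (TENx.rk_sup (fun i => Submodule.map₂ β (A i) (B (t - i)))
    (TENx.indep β hβ A (fun i => B (t - i)) hA)
    (fun i => by have := fA i; have := fB (t - i); exact TENx.fin β _ _)
    (Finset.Icc b (t - b))).2
  unfold hd conv
  beta_reduce
  rw [e1, e2, finsum_eq_sum_of_support_subset (s := Finset.Icc b (t - b))]
  · push_cast
    refine Finset.sum_congr rfl fun i _ => ?_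
    rw [TENx.rk β hβ]
    push_cast
    rfl
  · intro i hi
    by_contra hn
    apply hi
    rcases hz i (by simpa using hn) with h | h <;> simp [h]

end Pool.Agent.P.MP_b01859_ag.SD
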